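import Pool.Agent.UDN.TQ

/-!
# UDN: the norm form of a quaternion algebra is universal (Hasse, Schilling)

PROOF of `exists_ns_norm` (`h : IsLoc w`, `u ≠ 0`; there is a nonsquare `c ≠ 0` with `Sy u c`): let `Δ` be a
unit nonsquare (`exists_rho`) and `π` of order one.  `Δ`, `π`, `Δ π` are nonsquares.  If `u` is a square
everything is a norm (`sy_of_isSquare`).  Otherwise if neither `Δ` nor `π` is a norm then `Δ π` is
(`sy_mul_of_not`).
PROOF of `hs`.  Let `R` be the finite set of the `v` with `b ∉ Nm a v` (`ram_finite`).  If `R` is empty: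
`hasse_norm` and `rep_of_sy`: `- u = ...`; precisely `Rep a b d` for all `d`, take `d = - u`:
`u = 0 ^ 2 - d`.  Otherwise: for `v ∈ R` there are `p_v, q_v` in `Kv v` with
`p_v ^ 2 - u q_v ^ 2` a nonzero nonsquare; approximate them by elements of `k` (`dense_cv`) and then by
one pair `x₀, y₀ : k` for all `v ∈ R` (`approx_fin`): `w₀ = x₀ ^ 2 - u y₀ ^ 2` is not a square in
`Kv v` for `v ∈ R` (the quotient is close to `1`, `isSquare_of_close`), `w₀ ≠ 0`, and `y₀ ≠ 0`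
(otherwise `w₀` is a square).  `rep_of_local` for `d = w₀`: `w₀ = a y ^ 2 + b z ^ 2 - a b t ^ 2`, so
`u y₀ ^ 2 = x₀ ^ 2 - a y ^ 2 - b z ^ 2 + a b t ^ 2`; divide by `y₀ ^ 2`.
-/

set_option autoImplicit false

open IsDedekindDomain NumberField

namespace UDN

theorem exists_ns_norm {F : Type*} [Field F] {w : F → ℤ} (h : IsLoc w) {u : F} (hu : u ≠ 0) :
    ∃ c, c ≠ 0 ∧ Sy u c ∧ ¬ IsSquare c := by
  have hv := h.toIsVal
  obtain ⟨ρ, _, hΔ, hΔs⟩ := exists_rho h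
  have hΔ0 : 1 + 4 * ρ ≠ 0 := by
    intro h0
    rw [h0] at hΔs
    exact hΔs ⟨0, by ring⟩
  obtain ⟨π, hπ0, hπ⟩ := hv.exists_ord 1
  have hodd : ∀ x : F, x ≠ 0 → w x = 1 → ¬ IsSquare x := by
    rintro x hx h1 ⟨r, rfl⟩
    have hr : r ≠ 0 := fun h0 => hx (by rw [h0, mul_zero])
    rw [hv.mul r r hr hr] at h1
    omega
  by_cases hus : IsSquare u
  · exact ⟨_, hΔ0, sy_of_isSquare h.two hu hus _, hΔs⟩
  by_cases h1 : Sy u (1 + 4 * ρ)
  · exact ⟨_, hΔ0, h1, hΔs⟩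
  by_cases h2 : Sy u π
  · exact ⟨_, hπ0, h2, hodd π hπ0 hπ⟩
  · refine ⟨(1 + 4 * ρ) * π, mul_ne_zero hΔ0 hπ0, sy_mul_of_not h hu hus hΔ0 hπ0 h1 h2,
      hodd _ (mul_ne_zero hΔ0 hπ0) ?_⟩
    rw [hv.mul _ _ hΔ0 hπ0, hΔ, hπ, zero_add]

private theorem ns_open {F : Type*} [Field F] {w : F → ℤ} (h : IsLoc w) {u P Q c : F}
    (hc : c ≠ 0) (hP : P ^ 2 - u * Q ^ 2 = c) (hns : ¬ IsSquare c) :
    ∃ N : ℤ, ∀ x y : F, Ge w N (P - x) → Ge w N (Q - y) →
      x ^ 2 - u * y ^ 2 ≠ 0 ∧ ¬ IsSquare (x ^ 2 - u * y ^ 2) := by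
  have hv := h.toIsVal
  have h20 := h.two_nonneg
  set M : ℤ := |w (2 * P)| + |w (2 * Q)| + |w u| with hM
  have a1 := abs_nonneg (w (2 * P))
  have a2 := abs_nonneg (w (2 * Q))
  have a3 := abs_nonneg (w u)
  have a4 := abs_nonneg (w c)
  have b1 := neg_abs_le (w (2 * P))
  have b2 := neg_abs_le (w (2 * Q))
  have b3 := neg_abs_le (w u)
  have b4 := le_abs_self (w c)
  refine ⟨2 * M + |w c| + 2 * w 2 + 1, ?_⟩
  intro x y hx hy
  set N : ℤ := 2 * M + |w c| + 2 * w 2 + 1 with hN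
  set e := P - x with he
  set f := Q - y with hf
  have e1 : Ge w (-M) (e - 2 * P) := hv.ge_sub (hx.mono (by omega)) (Or.inr (by omega))
  have f1 : Ge w (-M) (f - 2 * Q) := hv.ge_sub (hy.mono (by omega)) (Or.inr (by omega))
  have u1 : Ge w (-M) u := Or.inr (by omega)
  have d1 : Ge w (N - 2 * M) (e * (e - 2 * P) - u * (f * (f - 2 * Q))) := by
    refine hv.ge_sub ((hv.ge_mul hx e1).mono (by omega)) ?_
    exact (hv.ge_mul u1 (hv.ge_mul hy f1)).mono (by omega)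
  have d2 : x ^ 2 - u * y ^ 2 = c + (e * (e - 2 * P) - u * (f * (f - 2 * Q))) := by
    rw [← hP, he, hf]
    ring
  set δ := e * (e - 2 * P) - u * (f * (f - 2 * Q)) with hδ
  have d3 : Ge w (2 * w 2 + 1) (δ * c⁻¹) :=
    (hv.ge_mul (n := -(w c)) d1 (Or.inr (by rw [hv.inv]))).mono (by omega)
  have d4 : IsSquare (1 + δ * c⁻¹) := by
    apply h.isSquare_of_close
    rw [add_sub_cancel_left]
    exact d3
  have d5 : 1 + δ * c⁻¹ ≠ 0 := by
    refine (hv.add_eq (x := 1) (y := δ * c⁻¹) one_ne_zero (d3.mono ?_)).1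
    rw [hv.one]
    omega
  have d6 : x ^ 2 - u * y ^ 2 = c * (1 + δ * c⁻¹) := by
    rw [d2]
    field_simp
  rw [d6]
  refine ⟨mul_ne_zero hc d5, ?_⟩
  rintro ⟨r, hr⟩
  obtain ⟨s, hs⟩ := d4
  have hs0 : s ≠ 0 := fun h0 => d5 (by rw [hs, h0, mul_zero])
  apply hns
  refine ⟨r / s, ?_⟩
  rw [hs] at hr
  field_simp
  linear_combination hr

variable {k : Type*} [Field k] [NumberField k]

theorem hs {a b : kˣ} (hi : ∀ v : InfinitePlace k, b ∈ NmI a v) {u : k} (hu : u ≠ 0) :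
    ∃ x y z t : k, x ^ 2 - a * y ^ 2 - b * z ^ 2 + a * b * t ^ 2 = u := by
  have hR := ram_finite a b
  by_cases hemp : ∀ v : Pl k, b ∈ Nm a v
  · obtain ⟨y, z, t, h⟩ := rep_of_sy two_ne_zero a.ne_zero b.ne_zero (hasse_norm hemp hi) (-u)
    exact ⟨0, y, z, t, by linear_combination -h⟩
  push Not at hemp
  obtain ⟨v0, hv0⟩ := hemp
  have hloc : ∀ v : Pl k, ∃ P Q : Kv v, ∃ N : ℤ, ∀ x y : Kv v, Ge (wv v) N (P - x) →
      Ge (wv v) N (Q - y) → x ^ 2 - cv v u * y ^ 2 ≠ 0 ∧ ¬ IsSquare (x ^ 2 - cv v u * y ^ 2) := by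
    intro v
    have hu' : cv v u ≠ 0 := fun h0 => hu ((cv_eq_zero v).1 h0)
    obtain ⟨c, hc, ⟨P, Q, hPQ⟩, hns⟩ := exists_ns_norm (isLoc_wv v) hu'
    obtain ⟨N, hN⟩ := ns_open (isLoc_wv v) hc hPQ hns
    exact ⟨P, Q, N, hN⟩
  choose P Q N hN using hloc
  obtain ⟨n, hn⟩ := (hR.image N).bddAbove
  choose p hp using fun v => dense_cv v (P v) n
  choose q hq using fun v => dense_cv v (Q v) n
  obtain ⟨x0, hx0⟩ := approx_fin hR n p
  obtain ⟨y0, hy0⟩ := approx_fin hR n q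
  have key : ∀ v : Pl k, b ∉ Nm a v → cv v (x0 ^ 2 - u * y0 ^ 2) ≠ 0 ∧
      ¬ IsSquare (cv v (x0 ^ 2 - u * y0 ^ 2)) := by
    intro v hv
    have hNn : N v ≤ n := hn ⟨v, hv, rfl⟩
    have h1 : Ge (wv v) (N v) (P v - cv v x0) := by
      have e : P v - cv v x0 = (P v - cv v (p v)) - cv v (x0 - p v) := by
        rw [map_sub]
        ring
      rw [e]
      exact ((isVal_wv v).ge_sub (hp v) ((ge_cv v n _).2 (hx0 v hv))).mono hNn
    have h2 : Ge (wv v) (N v) (Q v - cv v y0) := by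
      have e : Q v - cv v y0 = (Q v - cv v (q v)) - cv v (y0 - q v) := by
        rw [map_sub]
        ring
      rw [e]
      exact ((isVal_wv v).ge_sub (hq v) ((ge_cv v n _).2 (hy0 v hv))).mono hNn
    have h3 := hN v _ _ h1 h2
    rw [map_sub, map_mul, map_pow, map_pow]
    exact h3
  obtain ⟨k1, k2⟩ := key v0 hv0
  have hw0 : x0 ^ 2 - u * y0 ^ 2 ≠ 0 := fun h0 => k1 (by rw [h0, map_zero])
  have hy00 : y0 ≠ 0 := by
    intro h0
    apply k2
    refine ⟨cv v0 x0, ?_⟩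
    rw [h0, ← map_mul]
    congr 1
    ring
  have hrep : Rep (a : k) b (Units.mk0 _ hw0 : kˣ) := by
    refine rep_of_local hi ?_
    intro v hv
    rw [mem_sq, Units.val_mk0]
    exact (key v hv).2
  obtain ⟨y, z, t, h⟩ := hrep
  rw [Units.val_mk0] at h
  refine ⟨x0 / y0, y / y0, z / y0, t / y0, ?_⟩
  field_simp
  linear_combination -h

end UDN
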