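import Mathlib

/-!
# UDN: the index of the squares of a finitely generated abelian group

PROOF of `index_sq_fg`.  For a finitely generated abelian group `A` (written additively)
`card (A / 2 A) = 2 ^ rank A * card A[2]`: structure theorem
(`AddCommGroup.equiv_free_prod_directSum_zmod` or `Module.equiv_free_prod_directSum`), or:
`A ≅ ℤ ^ r × T` with `T` finite (the torsion), `card (T / 2 T) = card T[2]`.
-/

set_option autoImplicit false

namespace UDN

/-- the squares of a subgroup -/
def U2 {G : Type*} [CommGroup G] (U : Subgroup G) : Subgroup G := U.map (powMonoidHom 2)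

theorem mem_U2 {G : Type*} [CommGroup G] {U : Subgroup G} {x : G} :
    x ∈ U2 U ↔ ∃ y ∈ U, y ^ 2 = x := by
  simp [U2]

theorem U2_le {G : Type*} [CommGroup G] (U : Subgroup G) : U2 U ≤ U := by
  intro x hx
  obtain ⟨y, hy, rfl⟩ := mem_U2.1 hx
  exact pow_mem hy 2

/-- `0`-dimensional part: a finite group has as many classes mod `2` as elements of order `2` -/
private theorem index_two_finite (T : Type*) [AddCommGroup T] [Finite T] :
    (nsmulAddMonoidHom 2 : T →+ T).range.index = Nat.card {x : T // (2 : ℕ) • x = 0} := by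
  set φ : T →+ T := nsmulAddMonoidHom 2 with hφ
  have h1 : Nat.card φ.ker * φ.ker.index = Nat.card T := φ.ker.card_mul_index
  have h2 : Nat.card φ.range * φ.range.index = Nat.card T := φ.range.card_mul_index
  rw [AddSubgroup.index_ker] at h1
  have h3 : 0 < Nat.card φ.range := Nat.card_pos
  have h4 : φ.range.index = Nat.card φ.ker := by
    apply Nat.eq_of_mul_eq_mul_left h3
    rw [h2, ← h1, mul_comm]
  rw [h4]
  exact Nat.card_congr (Equiv.subtypeEquivRight fun x => by
    rw [AddMonoidHom.mem_ker]; rfl)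

/-- the free part -/
private theorem index_two_free (n : ℕ) :
    (nsmulAddMonoidHom 2 : (Fin n →₀ ℤ) →+ (Fin n →₀ ℤ)).range.index = 2 ^ n := by
  have hsurj : Function.Surjective
      (Finsupp.mapRange.addMonoidHom (ι := Fin n) (Int.castAddHom (ZMod 2))) := by
    intro y
    refine ⟨Finsupp.mapRange (fun z : ZMod 2 => (z.val : ℤ)) (by simp) y, ?_⟩
    ext i
    simp
  have hker : (nsmulAddMonoidHom 2 : (Fin n →₀ ℤ) →+ (Fin n →₀ ℤ)).range
      = (Finsupp.mapRange.addMonoidHom (ι := Fin n) (Int.castAddHom (ZMod 2))).ker := by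
    ext x
    rw [AddMonoidHom.mem_range, AddMonoidHom.mem_ker]
    constructor
    · rintro ⟨y, rfl⟩
      ext i
      have : (2 : ZMod 2) = 0 := by decide
      simp [this]
    · intro hx
      have hx' : ∀ i, (2 : ℤ) ∣ x i := by
        intro i
        have h := DFunLike.congr_fun hx i
        have h' : ((x i : ℤ) : ZMod 2) = 0 := by simpa using h
        exact_mod_cast (ZMod.intCast_zmod_eq_zero_iff_dvd (x i) 2).1 h'
      refine ⟨Finsupp.mapRange (fun z : ℤ => z / 2) (by simp) x, ?_⟩
      ext i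
      have := Int.mul_ediv_cancel' (hx' i)
      simpa using this
  rw [hker, AddSubgroup.index_ker, AddMonoidHom.range_eq_top.2 hsurj]
  have h1 : Nat.card (⊤ : AddSubgroup (Fin n →₀ ZMod 2)) = Nat.card (Fin n → ZMod 2) :=
    Nat.card_congr ((AddSubgroup.topEquiv (G := Fin n →₀ ZMod 2)).toEquiv.trans
      Finsupp.equivFunOnFinite)
  rw [h1]
  simp

/-- the additive form, given the decomposition -/
private theorem index_two_prod (M : Type*) [AddCommGroup M] (n : ℕ)
    (T : Type*) [AddCommGroup T] [Finite T] (f : M ≃+ (Fin n →₀ ℤ) × T) :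
    (nsmulAddMonoidHom 2 : M →+ M).range.index
      = 2 ^ Module.finrank ℤ M * Nat.card {x : M // (2 : ℕ) • x = 0} := by
  -- the rank
  have hrank : Module.finrank ℤ M = n := by
    rw [LinearEquiv.finrank_eq f.toIntLinearEquiv]
    have h1 := (LinearMap.ker (LinearMap.fst ℤ (Fin n →₀ ℤ) T)).finrank_quotient_add_finrank
    have h2 : Module.finrank ℤ (LinearMap.ker (LinearMap.fst ℤ (Fin n →₀ ℤ) T)) = 0 := by
      apply Module.IsTorsion.finrank_eq_zero
      intro x
      refine ⟨⟨(Nat.card T : ℤ), ?_⟩, ?_⟩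
      · rw [mem_nonZeroDivisors_iff_ne_zero]
        exact_mod_cast Nat.card_pos.ne'
      · have hx : (x : (Fin n →₀ ℤ) × T).1 = 0 := x.2
        apply Subtype.ext
        apply Prod.ext
        · change (Nat.card T : ℤ) • (x : (Fin n →₀ ℤ) × T).1 = 0
          rw [hx, smul_zero]
        · change (Nat.card T : ℤ) • (x : (Fin n →₀ ℤ) × T).2 = 0
          rw [natCast_zsmul]
          exact card_nsmul_eq_zero'
    have h3 := LinearEquiv.finrank_eq
      ((LinearMap.fst ℤ (Fin n →₀ ℤ) T).quotKerEquivOfSurjective Prod.fst_surjective)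
    rw [h2, add_zero, h3] at h1
    rw [← h1]
    simp
  -- the index
  have hidx : (nsmulAddMonoidHom 2 : M →+ M).range.index
      = (nsmulAddMonoidHom 2 : ((Fin n →₀ ℤ) × T) →+ ((Fin n →₀ ℤ) × T)).range.index := by
    rw [← AddSubgroup.index_map_equiv (nsmulAddMonoidHom 2 : M →+ M).range f]
    congr 1
    ext y
    simp only [AddSubgroup.mem_map, AddMonoidHom.mem_range]
    constructor
    · rintro ⟨_, ⟨x, rfl⟩, rfl⟩
      exact ⟨f x, by simp [nsmulAddMonoidHom]⟩
    · rintro ⟨x, rfl⟩
      exact ⟨_, ⟨f.symm x, rfl⟩, by simp [nsmulAddMonoidHom]⟩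
  have hprod : (nsmulAddMonoidHom 2 : ((Fin n →₀ ℤ) × T) →+ ((Fin n →₀ ℤ) × T)).range
      = (nsmulAddMonoidHom 2 : (Fin n →₀ ℤ) →+ (Fin n →₀ ℤ)).range.prod
        (nsmulAddMonoidHom 2 : T →+ T).range := by
    ext ⟨a, b⟩
    simp only [AddMonoidHom.mem_range, AddSubgroup.mem_prod]
    constructor
    · rintro ⟨⟨x, y⟩, h⟩
      have h1 := congrArg Prod.fst h
      have h2 := congrArg Prod.snd h
      exact ⟨⟨x, h1⟩, ⟨y, h2⟩⟩
    · rintro ⟨⟨x, h1⟩, ⟨y, h2⟩⟩
      exact ⟨(x, y), Prod.ext h1 h2⟩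
  have htor : Nat.card {x : M // (2 : ℕ) • x = 0} = Nat.card {x : T // (2 : ℕ) • x = 0} := by
    have key : ∀ x : M, (2 : ℕ) • x = 0 ↔ ((f x).1 = 0 ∧ (2 : ℕ) • (f x).2 = 0) := by
      intro x
      rw [← f.map_eq_zero_iff, map_nsmul, Prod.ext_iff]
      simp
    refine Nat.card_congr
      { toFun := fun x => ⟨(f x.1).2, ((key x.1).1 x.2).2⟩
        invFun := fun t => ⟨f.symm (0, t.1), (key _).2 (by simp [t.2])⟩
        left_inv := ?_
        right_inv := ?_ }
    · rintro ⟨x, hx⟩
      apply Subtype.ext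
      apply f.injective
      rw [f.apply_symm_apply]
      exact Prod.ext ((key x).1 hx).1.symm rfl
    · rintro ⟨t, ht⟩
      simp
  rw [hrank, hidx, hprod, AddSubgroup.index_prod, index_two_free, index_two_finite, htor]

/-- the additive form -/
private theorem index_two_add (M : Type*) [AddCommGroup M] [Module.Finite ℤ M] :
    (nsmulAddMonoidHom 2 : M →+ M).range.index
      = 2 ^ Module.finrank ℤ M * Nat.card {x : M // (2 : ℕ) • x = 0} := by
  classical
  have : AddGroup.FG M := Module.Finite.iff_addGroup_fg.1 inferInstance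
  obtain ⟨n, ι, fι, p, hp, e, ⟨f⟩⟩ := AddCommGroup.equiv_free_prod_directSum_zmod M
  have : ∀ i, NeZero (p i ^ e i) := fun i => ⟨pow_ne_zero _ (hp i).ne_zero⟩
  have : ∀ i, Finite (ZMod (p i ^ e i)) := fun i => inferInstance
  have hT : Finite (DirectSum ι fun i : ι => ZMod (p i ^ e i)) :=
    Finite.of_equiv _ (DirectSum.addEquivProd fun i : ι => ZMod (p i ^ e i)).symm.toEquiv
  exact index_two_prod M n _ f

theorem index_sq_fg (A : Type*) [CommGroup A] [Module.Finite ℤ (Additive A)] :
    (powMonoidHom 2 : A →* A).range.index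
      = 2 ^ Module.finrank ℤ (Additive A) * Nat.card {x : A // x ^ 2 = 1} := by
  have h := index_two_add (Additive A)
  have h1 : (nsmulAddMonoidHom 2 : Additive A →+ Additive A).range.index
      = (powMonoidHom 2 : A →* A).range.index := by
    rw [← Subgroup.index_toAddSubgroup]
    congr 1
  have h2 : Nat.card {x : Additive A // (2 : ℕ) • x = 0} = Nat.card {x : A // x ^ 2 = 1} :=
    Nat.card_congr (Equiv.subtypeEquiv Additive.toMul (fun x => Iff.rfl))
  rw [← h1, h, h2]

/-- the same for a subgroup -/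
theorem relIndex_sq_fg {G : Type*} [CommGroup G] (U : Subgroup G)
    [Module.Finite ℤ (Additive U)] :
    (U2 U).relIndex U = 2 ^ Module.finrank ℤ (Additive U) * Nat.card {x : U // x ^ 2 = 1} := by
  rw [← index_sq_fg U, Subgroup.relIndex]
  congr 1
  ext x
  rw [Subgroup.mem_subgroupOf, mem_U2, MonoidHom.mem_range]
  constructor
  · rintro ⟨y, hy, hyx⟩
    exact ⟨⟨y, hy⟩, Subtype.ext hyx⟩
  · rintro ⟨y, hyx⟩
    exact ⟨y, y.2, congrArg Subtype.val hyx⟩

end UDN
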