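import Pool.Agent.UDN.Defs
import Pool.Agent.UDN.GrpA

/-!
# UDN: the S-unit theorem and good sets

PROOFS.
* `exists_ord_one` (class number): for every `v` there are `h > 0` and `c : kˣ` with `od v c = h` and
  `od u c = 0` for `u ≠ v`: `v.asIdeal ^ h` is principal, `h = card (ClassGroup (𝓞 k))`
  (`ClassGroup.mk0_eq_one_iff`, `pow_card_eq_one'`).
* `un_finite`, `un_rank` : the homomorphism `Un S → (S → ℤ)`, `x ↦ (od v x)_v`, has kernel
  `Un ∅ ≅ (𝓞 k)ˣ` (`isIntegral_iff`), a finitely generated group of rank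
  `card (InfinitePlace k) - 1` (Dirichlet: `NumberField.Units.rank`,
  `NumberField.Units.finrank_eq_rank`, `Module.Finite ℤ (Additive (𝓞 k)ˣ)` is in Mathlib), and its image
  is a subgroup of finite index of `ℤ ^ S` (by `exists_ord_one`), so of rank `card S`
  (`Submodule.finrank_eq_of_...`, e.g. it contains `h • ⊤`); ranks are additive
  (`Submodule.finrank_quotient_add_finrank` or `LinearMap.finrank_range_add_finrank_ker`).
* `un_index` : `relIndex_sq_fg`, `un_rank`, and `{x : Un S // x ^ 2 = 1} = {1, -1}` has two elements.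
-/

set_option autoImplicit false

open IsDedekindDomain NumberField

namespace UDN

variable {k : Type*} [Field k] [NumberField k]

theorem exists_ord_pos (v : Pl k) : ∃ (h : ℕ) (c : kˣ), 0 < h ∧ od v (c : k) = h ∧
    ∀ u, u ≠ v → od u (c : k) = 0 := by
  classical
  have hI0 : v.asIdeal ≠ ⊥ := v.ne_bot
  have hmem : v.asIdeal ∈ nonZeroDivisors (Ideal (𝓞 k)) := mem_nonZeroDivisors_of_ne_zero hI0
  set n : ℕ := Fintype.card (ClassGroup (𝓞 k)) with hn
  have hn0 : 0 < n := Fintype.card_pos
  have h1 : ClassGroup.mk0 (⟨v.asIdeal, hmem⟩ ^ n) = 1 := by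
    rw [map_pow, hn, pow_card_eq_one]
  have h2 : (v.asIdeal ^ n).IsPrincipal := by
    have := (ClassGroup.mk0_eq_one_iff
      (I := v.asIdeal ^ n) (pow_mem hmem n)).1 h1
    exact this
  obtain ⟨g, hg⟩ := h2
  have hg' : v.asIdeal ^ n = Ideal.span {g} := hg
  have hg0 : g ≠ 0 := by
    rintro rfl
    rw [Ideal.span_singleton_eq_bot.2 rfl] at hg'
    exact hI0 (pow_eq_zero_iff hn0.ne' |>.1 hg')
  have hgk : (g : k) ≠ 0 := by
    rwa [Ne, RingOfIntegers.coe_eq_zero_iff]
  have hgv : g ∈ v.asIdeal := by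
    have : g ∈ v.asIdeal ^ n := by rw [hg']; exact Ideal.mem_span_singleton_self g
    exact Ideal.pow_le_self hn0.ne' this
  have hv : 0 < od v (g : k) := by
    have := (ge_one_iff_mem v g).2 hgv
    rw [ge_iff hgk] at this
    linarith
  refine ⟨(od v (g : k)).toNat, Units.mk0 (g : k) hgk, by omega, ?_, ?_⟩
  · rw [Units.val_mk0]; omega
  · intro u hu
    rw [Units.val_mk0]
    have h0 : 0 ≤ od u (g : k) := (ge_iff hgk).1 (od_nonneg_int u g)
    by_contra hne
    have h1 : g ∈ u.asIdeal := by
      rw [← ge_one_iff_mem, ge_iff hgk]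
      omega
    have h2 : v.asIdeal ^ n ≤ u.asIdeal := by
      rw [hg', Ideal.span_singleton_le_iff_mem]
      exact h1
    have h3 : v.asIdeal ≤ u.asIdeal := u.isPrime.le_of_pow_le h2
    have h4 : v.asIdeal = u.asIdeal := v.isMaximal.eq_of_le u.isPrime.ne_top h3
    exact hu (HeightOneSpectrum.ext h4.symm)

/-- the orders at the places of `S` -/
noncomputable def ords (S : Set (Pl k)) : Additive (Un S) →ₗ[ℤ] (S → ℤ) :=
  AddMonoidHom.toIntLinearMap
    { toFun := fun x v => od (v : Pl k) (((Additive.toMul x : Un S) : kˣ) : k)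
      map_zero' := by
        funext v
        change od (v : Pl k) (((1 : Un S) : kˣ) : k) = 0
        rw [Subgroup.coe_one, Units.val_one, (isVal_od _).one]
      map_add' := by
        intro x y
        funext v
        change od (v : Pl k) (((Additive.toMul x * Additive.toMul y : Un S) : kˣ) : k) = _ + _
        rw [Subgroup.coe_mul, Units.val_mul, (isVal_od _).mul _ _ (Units.ne_zero _)
          (Units.ne_zero _)] }

theorem ords_apply (S : Set (Pl k)) (x : Un S) (v : S) :
    ords S (Additive.ofMul x) v = od (v : Pl k) ((x : kˣ) : k) := rfl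

theorem unit_ord (u : (𝓞 k)ˣ) (v : Pl k) : od v ((u : 𝓞 k) : k) = 0 := by
  have h0 : ((u : 𝓞 k) : k) ≠ 0 := by
    rw [Ne, RingOfIntegers.coe_eq_zero_iff]
    exact u.ne_zero
  have h0' : (((u⁻¹ : (𝓞 k)ˣ) : 𝓞 k) : k) ≠ 0 := by
    rw [Ne, RingOfIntegers.coe_eq_zero_iff]
    exact (u⁻¹).ne_zero
  have h1 := (ge_iff h0).1 (od_nonneg_int v (u : 𝓞 k))
  have h2 := (ge_iff h0').1 (od_nonneg_int v ((u⁻¹ : (𝓞 k)ˣ) : 𝓞 k))
  have h3 : ((u : 𝓞 k) : k) * (((u⁻¹ : (𝓞 k)ˣ) : 𝓞 k) : k) = 1 := by
    rw [← map_mul, Units.mul_inv, map_one]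
  have h4 := (isVal_od v).mul _ _ h0 h0'
  rw [h3, (isVal_od v).one] at h4
  omega

/-- units of the ring of integers as S-units -/
noncomputable def unitsTo (S : Set (Pl k)) : Additive (𝓞 k)ˣ →ₗ[ℤ] Additive (Un S) :=
  AddMonoidHom.toIntLinearMap (MonoidHom.toAdditive
    ((Units.map (algebraMap (𝓞 k) k).toMonoidHom).codRestrict (Un S)
      (fun u v _ => unit_ord u v)))

theorem unitsTo_apply (S : Set (Pl k)) (u : (𝓞 k)ˣ) :
    (((Additive.toMul (unitsTo S (Additive.ofMul u)) : Un S) : kˣ) : k) = ((u : 𝓞 k) : k) := rfl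

theorem unitsTo_inj (S : Set (Pl k)) : Function.Injective (unitsTo S) := by
  intro x y h
  have h1 : (((Additive.toMul x : (𝓞 k)ˣ) : 𝓞 k) : k) =
      (((Additive.toMul y : (𝓞 k)ˣ) : 𝓞 k) : k) := by
    have := congrArg (fun z => (((Additive.toMul z : Un S) : kˣ) : k)) h
    exact this
  have h2 : ((Additive.toMul x : (𝓞 k)ˣ) : 𝓞 k) = ((Additive.toMul y : (𝓞 k)ˣ) : 𝓞 k) :=
    RingOfIntegers.ext h1
  exact Additive.toMul.injective (Units.ext h2)

theorem range_unitsTo (S : Set (Pl k)) :
    LinearMap.range (unitsTo S) = LinearMap.ker (ords S) := by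
  ext x
  rw [LinearMap.mem_range, LinearMap.mem_ker]
  constructor
  · rintro ⟨u, rfl⟩
    funext v
    exact unit_ord (Additive.toMul u) v
  · intro hx
    set y : kˣ := ((Additive.toMul x : Un S) : kˣ) with hy
    have h0 : ∀ v, od v (y : k) = 0 := by
      intro v
      by_cases hv : v ∈ S
      · exact congrFun hx ⟨v, hv⟩
      · exact (Additive.toMul x : Un S).2 v hv
    have hi : IsIntegral ℤ (y : k) := (isIntegral_iff _).2 fun v => Or.inr (h0 v).ge
    have hi' : IsIntegral ℤ ((y⁻¹ : kˣ) : k) := (isIntegral_iff _).2 fun v => Or.inr (by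
      rw [Units.val_inv_eq_inv_val, (isVal_od v).inv, h0 v]
      simp)
    have hm : (⟨(y : k), hi⟩ : 𝓞 k) * ⟨((y⁻¹ : kˣ) : k), hi'⟩ = 1 := by
      apply RingOfIntegers.ext
      change (y : k) * ((y⁻¹ : kˣ) : k) = 1
      simp
    have hm' : (⟨((y⁻¹ : kˣ) : k), hi'⟩ : 𝓞 k) * ⟨(y : k), hi⟩ = 1 := by
      rw [mul_comm]; exact hm
    refine ⟨Additive.ofMul (⟨⟨(y : k), hi⟩, ⟨((y⁻¹ : kˣ) : k), hi'⟩, hm, hm'⟩ : (𝓞 k)ˣ), ?_⟩
    apply Additive.toMul.injective
    apply Subtype.ext
    apply Units.ext
    rfl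

theorem un_finite {S : Set (Pl k)} (hS : S.Finite) : Module.Finite ℤ (Additive (Un S)) := by
  classical
  have := hS.fintype
  have : Module.Finite ℤ (LinearMap.ker (ords S)) := by
    rw [← range_unitsTo]
    infer_instance
  have : Module.Finite ℤ (Additive (Un S) ⧸ LinearMap.ker (ords S)) :=
    Module.Finite.equiv (LinearMap.quotKerEquivRange (ords S)).symm
  exact Module.Finite.of_submodule_quotient (LinearMap.ker (ords S))

theorem finrank_range_ords {S : Set (Pl k)} (hS : S.Finite) :
    Module.finrank ℤ (LinearMap.range (ords S)) = S.ncard := by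
  classical
  have := hS.fintype
  have hcard : S.ncard = Fintype.card S := by
    rw [← Nat.card_coe_set_eq, Nat.card_eq_fintype_card]
  apply le_antisymm
  · have h := Submodule.finrank_le (LinearMap.range (ords S))
    rw [Module.finrank_fintype_fun_eq_card] at h
    rw [hcard]
    exact h
  · choose h c hh hc hcu using fun v : S => exists_ord_pos (v : Pl k)
    have hmem : ∀ v : S, c v ∈ Un S := by
      intro v u hu
      refine hcu v u ?_
      rintro rfl
      exact hu v.2
    have hval : ∀ v : S, ords S (Additive.ofMul ⟨c v, hmem v⟩) = Pi.single v (h v : ℤ) := by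
      intro v
      funext u
      rw [ords_apply]
      by_cases huv : u = v
      · subst huv
        rw [Pi.single_eq_same]
        exact hc u
      · rw [Pi.single_eq_of_ne huv]
        exact hcu v u (fun h => huv (Subtype.ext h))
    have hli : LinearIndependent ℤ (fun v : S =>
        (⟨ords S (Additive.ofMul ⟨c v, hmem v⟩), LinearMap.mem_range_self _ _⟩ :
          LinearMap.range (ords S))) := by
      rw [Fintype.linearIndependent_iff]
      intro a ha v
      have h1 := congrArg (fun z : LinearMap.range (ords S) => (z : S → ℤ) v) ha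
      simp only [Submodule.coe_sum, Submodule.coe_smul, Submodule.coe_zero, Pi.zero_apply,
        Finset.sum_apply, Pi.smul_apply, hval, smul_eq_mul] at h1
      rw [Finset.sum_eq_single v] at h1
      · rw [Pi.single_eq_same] at h1
        rcases mul_eq_zero.1 h1 with h1 | h1
        · exact h1
        · exact absurd h1 (by exact_mod_cast (hh v).ne')
      · intro u _ hu
        rw [Pi.single_eq_of_ne hu.symm, mul_zero]
      · intro hv
        exact absurd (Finset.mem_univ v) hv
    have := hli.fintype_card_le_finrank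
    rw [hcard]
    exact this

theorem un_rank {S : Set (Pl k)} (hS : S.Finite) :
    Module.finrank ℤ (Additive (Un S)) + 1 = sz S := by
  classical
  have := un_finite hS
  have h1 := Submodule.finrank_quotient_add_finrank (LinearMap.ker (ords S))
  rw [(LinearMap.quotKerEquivRange (ords S)).finrank_eq, finrank_range_ords hS,
    ← range_unitsTo, LinearMap.finrank_range_of_inj (unitsTo_inj S),
    NumberField.Units.finrank_eq, NumberField.Units.rank] at h1
  unfold sz
  rw [← h1, Nat.card_eq_fintype_card]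
  have : 0 < Fintype.card (InfinitePlace k) := Fintype.card_pos
  omega

theorem un_index {S : Set (Pl k)} (hS : S.Finite) :
    (U2 (Un S)).relIndex (Un S) = 2 ^ sz S := by
  have := un_finite hS
  rw [relIndex_sq_fg, ← un_rank hS, pow_succ]
  congr 1
  have hneg : (-1 : kˣ) ∈ Un S := by
    intro v _
    rw [Units.val_neg, Units.val_one, (isVal_od v).neg_one]
  have hne : (⟨(1 : Un S), by simp⟩ : {x : Un S // x ^ 2 = 1}) ≠
      ⟨⟨-1, hneg⟩, Subtype.ext (by simp)⟩ := by
    intro h
    have h1 := congrArg (fun z : {x : Un S // x ^ 2 = 1} => (((z : Un S) : kˣ) : k)) h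
    simp only [Subgroup.coe_one, Units.val_one, Units.val_neg] at h1
    have : (2 : k) = 0 := by linear_combination h1
    exact two_ne_zero this
  rw [Nat.card_eq_two_iff]
  refine ⟨_, _, hne, ?_⟩
  rw [Set.eq_univ_iff_forall]
  rintro ⟨⟨x, hx⟩, hx2⟩
  have h2 : x ^ 2 = 1 := congrArg Subtype.val hx2
  have h3 : (x : k) ^ 2 = 1 := by
    rw [← Units.val_pow_eq_pow_val, h2, Units.val_one]
  rw [Set.mem_insert_iff, Set.mem_singleton_iff]
  rcases sq_eq_one_iff.1 h3 with h | h
  · left
    apply Subtype.ext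
    apply Subtype.ext
    exact Units.ext h
  · right
    apply Subtype.ext
    apply Subtype.ext
    exact Units.ext (by simpa using h)

end UDN
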