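import Pool.Agent.UDN.OD
import Pool.Agent.UDN.HS
import Pool.Agent.UDN.SUnit

/-!
# UDN: the results used by UDV0

PROOF of `hasse_schilling` : `sum_four_sqI` and `hs`.
PROOF of `exists_place` : a valuation subring `O ≠ ⊤` of `k` contains the integers (integrally closed:
`ValuationSubring` is integrally closed in `k`); its maximal ideal meets `𝓞 k` in a nonzero prime ideal
(if it is zero, all nonzero integers are units of `O` and `O = ⊤`), `v`; every element with
`Ge (od v) 0 x` is `r / s` with integers `r`, `s ∉ v` (`HeightOneSpectrum.exists_primeCompl_mul_eq_of_integer`),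
so in `O`; conversely `O` is a proper overring of the discrete valuation ring of `v`, so equal
(if `x ∈ O` has `od v x < 0` then `O` contains an inverse of an element of the maximal ideal:
write `x = r / s` with `s ∈ v`, after multiplication with an integer `r ∉ v`: `x⁻¹` is in the
maximal ideal of the valuation ring of `v`, and `x⁻¹` is a nonunit of `O` since its numerator is in
`v`).
PROOF of `val_def` : `v.asIdeal ^ h = (a)` principal, `h > 0` (finite class group: `exists_ord_pos`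
gives `a` with `od v a = h`, `od u a = 0` for `u ≠ v`, so `a` is integral).  `x ∈ O` iff `Ge (od v) 0 x`
iff there is an integer `s ∉ v` with `s x` integral.  `s ∉ v.asIdeal` iff the ideal `(s, a)` is the unit
ideal (a prime containing `a` is `v`) iff `s p + a q = 1` for integers `p`, `q`.  `od_iff'`.
-/

set_option autoImplicit false

open IsDedekindDomain NumberField

namespace UDN

variable {k : Type*} [Field k] [NumberField k]

/-- (NT1) -/
theorem hasse_schilling {a b c₁ c₂ c₃ c₄ u : k} (h : a = c₁ ^ 2 + c₂ ^ 2 + c₃ ^ 2 + c₄ ^ 2)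
    (ha : a ≠ 0) (hb : b ≠ 0) (hu : u ≠ 0) :
    ∃ x y z t : k, x ^ 2 - a * y ^ 2 - b * z ^ 2 + a * b * t ^ 2 = u := by
  have := hs (a := Units.mk0 a ha) (b := Units.mk0 b hb)
    (fun v => Or.inl (sum_four_sqI (by simpa using h) v)) hu
  simpa using this

/-- (NT2) -/
theorem od_iff (x : k) : OD x ↔ IsIntegral ℤ x := od_iff' x

/-- integral elements are in every valuation ring -/
private theorem integral_mem (O : ValuationSubring k) {x : k} (hx : IsIntegral ℤ x) : x ∈ O := by
  have h1 : IsIntegral O x := hx.tower_top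
  obtain ⟨y, hy⟩ := (IsIntegrallyClosed.isIntegral_iff (R := O) (K := k)).1 h1
  rw [← hy]
  exact y.2

private theorem ge_zero_iff' (v : Pl k) (x : k) (hx : Ge (od v) 0 x) :
    ∃ (n d : 𝓞 k), d ∉ v.asIdeal ∧ x * (d : k) = (n : k) := by
  rw [ge_od_iff, neg_zero, WithZero.exp_zero] at hx
  obtain ⟨n, d, h⟩ := HeightOneSpectrum.exists_primeCompl_mul_eq_of_integer v x hx
  exact ⟨n, d, d.2, h⟩

private theorem od_unit (v : Pl k) {d : 𝓞 k} (hd : d ∉ v.asIdeal) : (d : k) ≠ 0 ∧ od v (d : k) = 0 := by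
  have h0 : (d : k) ≠ 0 := by
    intro h
    rw [RingOfIntegers.coe_eq_zero_iff] at h
    exact hd (h ▸ v.asIdeal.zero_mem)
  refine ⟨h0, ?_⟩
  have h1 := (ge_iff h0).1 (od_nonneg_int v d)
  have h2 : ¬ Ge (od v) 1 (d : k) := fun h => hd ((ge_one_iff_mem v d).1 h)
  rw [ge_iff h0] at h2
  omega

theorem exists_place (O : ValuationSubring k) (hO : O ≠ ⊤) :
    ∃ v : Pl k, ∀ x : k, x ∈ O ↔ Ge (od v) 0 x := by
  have hint : ∀ x : 𝓞 k, (x : k) ∈ O := fun x => integral_mem O x.2
  let φ : 𝓞 k →+* O := (algebraMap (𝓞 k) k).codRestrict O.toSubring hint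
  have hmem : ∀ x : 𝓞 k, x ∉ (IsLocalRing.maximalIdeal O).comap φ → (x : k)⁻¹ ∈ O := by
    intro x hx
    rw [Ideal.mem_comap, IsLocalRing.mem_maximalIdeal, mem_nonunits_iff, not_not] at hx
    obtain ⟨y, hy⟩ := hx.exists_right_inv
    have h1 : (x : k) * (y : k) = 1 := congrArg (fun z : O => (z : k)) hy
    rw [inv_eq_of_mul_eq_one_right h1]
    exact y.2
  have hnot : ∀ x : 𝓞 k, x ∈ (IsLocalRing.maximalIdeal O).comap φ → x ≠ 0 → (x : k)⁻¹ ∉ O := by
    intro x hx hx0 hi
    rw [Ideal.mem_comap, IsLocalRing.mem_maximalIdeal, mem_nonunits_iff] at hx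
    apply hx
    have hxk : (x : k) ≠ 0 := by rwa [Ne, RingOfIntegers.coe_eq_zero_iff]
    refine IsUnit.of_mul_eq_one (⟨(x : k)⁻¹, hi⟩ : O) ?_
    apply Subtype.ext
    exact mul_inv_cancel₀ hxk
  have hne : (IsLocalRing.maximalIdeal O).comap φ ≠ ⊥ := by
    intro hbot
    apply hO
    rw [eq_top_iff]
    intro z _
    obtain ⟨a, b, hb, rfl⟩ := IsFractionRing.div_surjective (A := 𝓞 k) z
    have hb0 : b ≠ 0 := nonZeroDivisors.ne_zero hb
    rw [div_eq_mul_inv]
    refine mul_mem (hint a) (hmem b ?_)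
    rw [hbot]
    exact hb0
  have hprime : ((IsLocalRing.maximalIdeal O).comap φ).IsPrime := Ideal.comap_isPrime φ _
  let v : Pl k := ⟨(IsLocalRing.maximalIdeal O).comap φ, hprime, hne⟩
  refine ⟨v, fun x => ⟨fun hx => ?_, fun hx => ?_⟩⟩
  · by_contra hge
    have hx0 : x ≠ 0 := ne_zero_of_not_ge hge
    rw [ge_iff hx0, not_le] at hge
    have hi : Ge (od v) 0 x⁻¹ := Or.inr (by rw [(isVal_od v).inv]; omega)
    obtain ⟨n, d, hd, hnd⟩ := ge_zero_iff' v _ hi
    obtain ⟨hd0, hdv⟩ := od_unit v hd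
    have hn0 : (n : k) ≠ 0 := by
      rw [← hnd]
      exact mul_ne_zero (inv_ne_zero hx0) hd0
    have hn1 : n ∈ v.asIdeal := by
      rw [← ge_one_iff_mem, ge_iff hn0, ← hnd, (isVal_od v).mul _ _ (inv_ne_zero hx0) hd0,
        (isVal_od v).inv, hdv]
      omega
    refine hnot n hn1 (fun h => hn0 (RingOfIntegers.coe_eq_zero_iff.2 h)) ?_
    rw [← hnd, mul_inv, inv_inv]
    exact mul_mem hx (hmem d hd)
  · obtain ⟨n, d, hd, hnd⟩ := ge_zero_iff' v x hx
    obtain ⟨hd0, -⟩ := od_unit v hd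
    have h1 : x = (n : k) * (d : k)⁻¹ := by
      rw [← hnd, mul_assoc, mul_inv_cancel₀ hd0, mul_one]
    rw [h1]
    exact mul_mem (hint n) (hmem d hd)

/-- (NT3) -/
theorem val_def (O : ValuationSubring k) (hO : O ≠ ⊤) : ∃ a : k, ∀ x : k, x ∈ O ↔
    ∃ s : k, OD s ∧ OD (s * x) ∧ ∃ p q : k, OD p ∧ OD q ∧ s * p + a * q = 1 := by
  obtain ⟨v, hv⟩ := exists_place O hO
  obtain ⟨h, c, hh, hc, hcu⟩ := exists_ord_pos v
  have hV := isVal_od v
  have hci : IsIntegral ℤ (c : k) := by
    rw [isIntegral_iff]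
    intro u
    by_cases hu : u = v
    · subst hu
      exact Or.inr (by rw [hc]; exact Int.natCast_nonneg h)
    · exact Or.inr (by rw [hcu u hu])
  have hcv : Ge (od v) 1 (c : k) := Or.inr (by rw [hc]; exact_mod_cast hh)
  refine ⟨c, fun x => ?_⟩
  rw [hv]
  constructor
  · intro hx
    obtain ⟨n, d, hd, hnd⟩ := ge_zero_iff' v x hx
    obtain ⟨ci, hce⟩ : ∃ ci : 𝓞 k, (ci : k) = (c : k) := ⟨⟨c, hci⟩, rfl⟩
    have htop : Ideal.span ({d, ci} : Set (𝓞 k)) = ⊤ := by
      by_contra hne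
      obtain ⟨M, hM, hle⟩ := Ideal.exists_le_maximal _ hne
      have hdM : d ∈ M := hle (Ideal.subset_span (Set.mem_insert _ _))
      have hcM : ci ∈ M :=
        hle (Ideal.subset_span (Set.mem_insert_of_mem _ (Set.mem_singleton _)))
      have hM0 : M ≠ ⊥ := by
        intro h0
        rw [h0, Ideal.mem_bot] at hcM
        exact c.ne_zero (by rw [← hce]; exact RingOfIntegers.coe_eq_zero_iff.2 hcM)
      let u : Pl k := ⟨M, hM.isPrime, hM0⟩
      have h1 : Ge (od u) 1 (c : k) := by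
        rw [← hce]
        exact (ge_one_iff_mem u ci).2 hcM
      have hu : u = v := by
        by_contra hu
        rw [ge_iff c.ne_zero, hcu u hu] at h1
        omega
      apply hd
      rw [← hu]
      exact hdM
    have h1 : (1 : 𝓞 k) ∈ Ideal.span ({d, ci} : Set (𝓞 k)) := by
      rw [htop]
      exact Submodule.mem_top
    rw [Ideal.mem_span_pair] at h1
    obtain ⟨p, q, hpq⟩ := h1
    refine ⟨(d : k), (od_iff _).2 d.2, ?_, (p : k), (q : k), (od_iff _).2 p.2, (od_iff _).2 q.2, ?_⟩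
    · rw [mul_comm, hnd]
      exact (od_iff _).2 n.2
    · have h2 := congrArg (fun z : 𝓞 k => (z : k)) hpq
      have h3 : (p : k) * (d : k) + (q : k) * (ci : k) = 1 := h2
      rw [hce] at h3
      rw [← h3]
      ring
  · rintro ⟨s, hs, hsx, p, q, hp, hq, hpq⟩
    have is := (isIntegral_iff s).1 ((od_iff s).1 hs) v
    have isx := (isIntegral_iff _).1 ((od_iff _).1 hsx) v
    have ip := (isIntegral_iff p).1 ((od_iff p).1 hp) v
    have iq := (isIntegral_iff q).1 ((od_iff q).1 hq) v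
    have hs1 : ¬ Ge (od v) 1 s := by
      intro h1
      have h2 := hV.ge_add (hV.ge_mul h1 ip) (hV.ge_mul hcv iq)
      rw [hpq, add_zero, ge_iff one_ne_zero, hV.one] at h2
      omega
    have hs0 : s ≠ 0 := ne_zero_of_not_ge hs1
    rw [ge_iff hs0] at hs1 is
    have hsv : od v s = 0 := by omega
    have h3 : Ge (od v) 0 s⁻¹ := Or.inr (by rw [hV.inv, hsv, neg_zero])
    have h4 := hV.ge_mul h3 isx
    rw [add_zero, ← mul_assoc, inv_mul_cancel₀ hs0, one_mul] at h4
    exact h4

end UDN
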