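import Pool.Agent.UDN.TQ

/-!
# UDN: ONE RING FORMULA DEFINES THE RING OF INTEGERS IN EVERY NUMBER FIELD

PROOF of `exists_ram` : `exists_sum_four` in `Kv v` (`isLoc_wv`), approximate `c₁, ..., c₄` by elements
of `k` (`dense_cv`): the sum `a` of the four squares is close to a nonsquare (nonzero) element of
`Kv v`, so it is nonzero and not a square in `Kv v` (`IsLoc.isSquare_of_close` for the quotient).
`exists_not_nm` gives `b`.
PROOF of `od_iff'`.  (⇒) `isIntegral_iff`; for `v` take `a`, `b` from `exists_ram`; `a ∈ SqI v'` for all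
infinite `v'` (a nonzero sum of squares), so `tq_iff` applies.  (⇐) `tq_iff`, `isIntegral_iff`.
-/

set_option autoImplicit false

open IsDedekindDomain NumberField

namespace UDN

/-- the defining formula of the ring of integers -/
def OD {k : Type*} [Field k] (x : k) : Prop :=
  ∀ a b c₁ c₂ c₃ c₄ : k, a = c₁ ^ 2 + c₂ ^ 2 + c₃ ^ 2 + c₄ ^ 2 → a ≠ 0 → b ≠ 0 →
    ∃ s r : k, SQ a b s ∧ SQ a b r ∧ x = s + r

variable {k : Type*} [Field k] [NumberField k]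

theorem sq_close {F : Type*} [Field F] {w : F → ℤ} (h : IsVal w) {x y : F} {m n : ℤ}
    (hx : Ge w m x) (hmn : m ≤ n) (hxy : Ge w n (x - y)) : Ge w (n + m) (x ^ 2 - y ^ 2) := by
  have h1 : Ge w m y := by
    have h2 := h.ge_sub hx (hxy.mono hmn)
    have h3 : x - (x - y) = y := by ring
    rwa [h3] at h2
  have h4 := h.ge_mul hxy (h.ge_add hx h1)
  have h5 : (x - y) * (x + y) = x ^ 2 - y ^ 2 := by ring
  rwa [h5] at h4

theorem exists_ram (v : Pl k) : ∃ (a b : kˣ) (c₁ c₂ c₃ c₄ : k),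
    (a : k) = c₁ ^ 2 + c₂ ^ 2 + c₃ ^ 2 + c₄ ^ 2 ∧ b ∉ Nm a v := by
  have hL := isLoc_wv v
  have hV := hL.toIsVal
  obtain ⟨C₁, C₂, C₃, C₄, hC⟩ := exists_sum_four hL
  set A := C₁ ^ 2 + C₂ ^ 2 + C₃ ^ 2 + C₄ ^ 2 with hA
  have hA0 : A ≠ 0 := by
    intro h
    exact hC (h ▸ IsSquare.zero)
  set m := min (min (wv v C₁) (wv v C₂)) (min (wv v C₃) (wv v C₄)) with hm
  have g₁ : Ge (wv v) m C₁ := Or.inr ((min_le_left _ _).trans (min_le_left _ _))
  have g₂ : Ge (wv v) m C₂ := Or.inr ((min_le_left _ _).trans (min_le_right _ _))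
  have g₃ : Ge (wv v) m C₃ := Or.inr ((min_le_right _ _).trans (min_le_left _ _))
  have g₄ : Ge (wv v) m C₄ := Or.inr ((min_le_right _ _).trans (min_le_right _ _))
  set n := max m (wv v A + (2 * wv v 2 + 1) - m) with hn
  have hmn : m ≤ n := le_max_left _ _
  have hn2 : wv v A + (2 * wv v 2 + 1) ≤ n + m := by
    have := le_max_right m (wv v A + (2 * wv v 2 + 1) - m)
    linarith
  obtain ⟨c₁, e₁⟩ := dense_cv v C₁ n
  obtain ⟨c₂, e₂⟩ := dense_cv v C₂ n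
  obtain ⟨c₃, e₃⟩ := dense_cv v C₃ n
  obtain ⟨c₄, e₄⟩ := dense_cv v C₄ n
  have s₁ := (sq_close hV g₁ hmn e₁).mono hn2
  have s₂ := (sq_close hV g₂ hmn e₂).mono hn2
  have s₃ := (sq_close hV g₃ hmn e₃).mono hn2
  have s₄ := (sq_close hV g₄ hmn e₄).mono hn2
  have hsum := hV.ge_add (hV.ge_add (hV.ge_add s₁ s₂) s₃) s₄
  set a₀ := c₁ ^ 2 + c₂ ^ 2 + c₃ ^ 2 + c₄ ^ 2 with ha₀
  have hcv : cv v a₀ = cv v c₁ ^ 2 + cv v c₂ ^ 2 + cv v c₃ ^ 2 + cv v c₄ ^ 2 := by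
    rw [ha₀, map_add, map_add, map_add, map_pow, map_pow, map_pow, map_pow]
  have hd : C₁ ^ 2 - cv v c₁ ^ 2 + (C₂ ^ 2 - cv v c₂ ^ 2) + (C₃ ^ 2 - cv v c₃ ^ 2)
      + (C₄ ^ 2 - cv v c₄ ^ 2) = A - cv v a₀ := by
    rw [hcv, hA]; ring
  rw [hd] at hsum
  have hq : Ge (wv v) (2 * wv v 2 + 1) (cv v a₀ / A - 1) := by
    have h1 : cv v a₀ / A - 1 = -((A - cv v a₀) * A⁻¹) := by
      field_simp
      ring
    rw [h1]
    refine hV.ge_neg ?_
    have h2 : Ge (wv v) (- wv v A) A⁻¹ := Or.inr (by rw [hV.inv])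
    refine (hV.ge_mul hsum h2).mono ?_
    linarith
  have hsq : IsSquare (cv v a₀ / A) := hL.isSquare_of_close hq
  have hne : cv v a₀ / A ≠ 0 := by
    intro h0
    rw [h0] at hq
    have h1 : (0 : Kv v) - 1 ≠ 0 := by
      rw [zero_sub]; exact neg_ne_zero.2 one_ne_zero
    have h2 := (ge_iff h1).1 hq
    rw [zero_sub, hV.neg_one] at h2
    have := hL.two_nonneg
    linarith
  have ha0 : a₀ ≠ 0 := by
    intro h0
    rw [h0, map_zero, zero_div] at hne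
    exact hne rfl
  have hnsq : (Units.mk0 a₀ ha0) ∉ Sq v := by
    intro h
    rw [mem_sq, Units.val_mk0] at h
    apply hC
    have h1 : A = cv v a₀ * (cv v a₀ / A)⁻¹ := by
      have : cv v a₀ ≠ 0 := by
        intro h0
        rw [h0, zero_div] at hne
        exact hne rfl
      field_simp
    show IsSquare A
    rw [h1]
    obtain ⟨r, hr⟩ := h
    obtain ⟨t, ht⟩ := hsq
    exact ⟨r * t⁻¹, by rw [ht, hr, mul_inv]; ring⟩
  obtain ⟨b, hb⟩ := exists_not_nm hnsq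
  exact ⟨Units.mk0 a₀ ha0, b, c₁, c₂, c₃, c₄, rfl, hb⟩

theorem sum_four_sqI {a : kˣ} {c₁ c₂ c₃ c₄ : k} (h : (a : k) = c₁ ^ 2 + c₂ ^ 2 + c₃ ^ 2 + c₄ ^ 2)
    (v : InfinitePlace k) : a ∈ SqI v := by
  intro hr
  have h1 : InfinitePlace.embedding_of_isReal hr (a : k) ≠ 0 := by
    rw [Ne, map_eq_zero]
    exact a.ne_zero
  refine lt_of_le_of_ne ?_ h1.symm
  rw [h, map_add, map_add, map_add, map_pow, map_pow, map_pow, map_pow]
  positivity

/-- THE UNIFORM DEFINITION OF THE RING OF INTEGERS -/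
theorem od_iff' (x : k) : OD x ↔ IsIntegral ℤ x := by
  rw [isIntegral_iff]
  constructor
  · intro h v
    obtain ⟨a, b, c₁, c₂, c₃, c₄, ha, hb⟩ := exists_ram v
    have h1 := h a b c₁ c₂ c₃ c₄ ha a.ne_zero b.ne_zero
    exact (tq_iff (fun u => Or.inl (sum_four_sqI ha u)) x).1 h1 v hb
  · intro h a b c₁ c₂ c₃ c₄ ha ha0 hb0
    have ha' : ((Units.mk0 a ha0 : kˣ) : k) = c₁ ^ 2 + c₂ ^ 2 + c₃ ^ 2 + c₄ ^ 2 := ha
    exact (tq_iff (a := Units.mk0 a ha0) (b := Units.mk0 b hb0)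
      (fun u => Or.inl (sum_four_sqI ha' u)) x).2 (fun v _ => h v)

end UDN
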