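import Pool.Agent.UDN.Defs

/-!
# UDN: weak approximation

PROOF of `approx`.  (1) There is `z₀ : k` with `Ge (od v) n (z₀ - x v)` for all `v ∈ S`: let `d ≠ 0` be
an integer (in `ℤ` or `𝓞 k`) with `d * x v` integral for all `v ∈ S`; the Chinese remainder theorem
(`IsDedekindDomain.exists_forall_sub_mem_ideal`) gives an integer `r` of `k` with
`r ≡ d * x v` modulo `v.asIdeal ^ N`, `N` large (`N ≥ n + od v d` for `v ∈ S`); `z₀ = r / d`.
(2) There is `t : k` with the signs of `y v` at all real `v`: density of `k` in the product of the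
completions at the infinite places (`NumberField.InfinitePlace.denseRange_algebraMap_pi`; or take
`t` near the family `(y v)_v`), `t ≠ 0` (or `t = 1` if there is no real place).
(3) Let `m > 0` be a natural number with `Ge (od v) n (m * t)` for all `v ∈ S` (a large power of the
product of the norms of the `v ∈ S`); all positive multiples of `m` have the same property.  For a large
`j` the number `z = z₀ + j * m * t` has the sign of `t` at every real place, and is nonzero.
(One may avoid (1)-(3) by applying `AbsoluteValue.denseRange_algebraMap_pi` to the finite family of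
absolute values `v ∈ S`, `v` infinite, if the inequivalence is easily available.)
-/

set_option autoImplicit false

open IsDedekindDomain NumberField

namespace UDN

variable {k : Type*} [Field k] [NumberField k]

private theorem ge_of_mem_pow {v : Pl k} {N : ℕ} {r : 𝓞 k} (h : r ∈ v.asIdeal ^ N) :
    Ge (od v) (N : ℤ) (algebraMap (𝓞 k) k r) := by
  rw [ge_od_iff, HeightOneSpectrum.valuation_of_algebraMap]
  exact (v.intValuation_le_pow_iff_mem r N).2 h

/-- weak approximation, finite places only -/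
theorem approx_fin {S : Set (Pl k)} (hS : S.Finite) (n : ℤ) (x : Pl k → k) :
    ∃ z : k, ∀ v ∈ S, Ge (od v) n (z - x v) := by
  classical
  obtain ⟨b, hb⟩ := IsLocalization.exist_integer_multiples_of_finset (nonZeroDivisors (𝓞 k))
    (hS.toFinset.image x)
  have hb0 : algebraMap (𝓞 k) k (b : 𝓞 k) ≠ 0 := by
    intro h
    exact nonZeroDivisors.coe_ne_zero b
      ((FaithfulSMul.algebraMap_injective (𝓞 k) k) (by rw [h, map_zero]))
  have hy : ∀ v : {v // v ∈ hS.toFinset}, ∃ y : 𝓞 k,
      algebraMap (𝓞 k) k y = algebraMap (𝓞 k) k (b : 𝓞 k) * x v.1 := by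
    intro v
    obtain ⟨y, hy⟩ := hb (x v.1) (Finset.mem_image_of_mem x v.2)
    refine ⟨y, ?_⟩
    rw [hy, Algebra.smul_def]
  choose y hy using hy
  obtain ⟨r, hr⟩ := IsDedekindDomain.exists_forall_sub_mem_ideal (s := hS.toFinset)
    (fun v : Pl k => v.asIdeal)
    (fun v => (n + od v (algebraMap (𝓞 k) k (b : 𝓞 k))).toNat)
    (fun v _ => v.prime) (fun v _ w _ hvw h => hvw (HeightOneSpectrum.ext h)) y
  refine ⟨algebraMap (𝓞 k) k r / algebraMap (𝓞 k) k (b : 𝓞 k), fun v hv => ?_⟩
  have hv' : v ∈ hS.toFinset := hS.mem_toFinset.2 hv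
  have h1 := ge_of_mem_pow (hr v hv')
  rw [map_sub, hy ⟨v, hv'⟩] at h1
  have h2 : algebraMap (𝓞 k) k r / algebraMap (𝓞 k) k (b : 𝓞 k) - x v =
      (algebraMap (𝓞 k) k (b : 𝓞 k))⁻¹ *
        (algebraMap (𝓞 k) k r - algebraMap (𝓞 k) k (b : 𝓞 k) * x v) := by
    field_simp
  rw [h2]
  have h3 : Ge (od v) (- od v (algebraMap (𝓞 k) k (b : 𝓞 k)))
      (algebraMap (𝓞 k) k (b : 𝓞 k))⁻¹ :=
    Or.inr (by rw [(isVal_od v).inv])
  refine ((isVal_od v).ge_mul h3 h1).mono ?_
  have h4 := Int.self_le_toNat (n + od v (algebraMap (𝓞 k) k (b : 𝓞 k)))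
  linarith

/-- an element with given signs -/
private theorem exists_sign (y : InfinitePlace k → kˣ) :
    ∃ t : k, ∀ v : InfinitePlace k, v (t - y v) < v (y v : k) := by
  have hd := InfinitePlace.denseRange_algebraMap_pi k
  let U : Set ((v : InfinitePlace k) → WithAbs v.1) :=
    {f | ∀ v, ‖f v - algebraMap k (WithAbs v.1) (y v : k)‖ <
      ‖algebraMap k (WithAbs v.1) (y v : k)‖}
  have hU : IsOpen U := by
    have h1 : U = ⋂ v, {f | ‖f v - algebraMap k (WithAbs v.1) (y v : k)‖ <
      ‖algebraMap k (WithAbs v.1) (y v : k)‖} := by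
      ext f
      simp [U]
    rw [h1]
    refine isOpen_iInter_of_finite fun v => ?_
    refine isOpen_lt ?_ continuous_const
    exact ((continuous_apply v).sub continuous_const).norm
  have hne : U.Nonempty := by
    refine ⟨fun v => algebraMap k (WithAbs v.1) (y v : k), fun v => ?_⟩
    rw [sub_self, norm_zero, norm_pos_iff]
    exact (map_ne_zero _).2 (y v).ne_zero
  obtain ⟨t, ht⟩ := hd.exists_mem_open hU hne
  refine ⟨t, fun v => ?_⟩
  have h2 := ht v
  rw [Pi.algebraMap_apply, ← map_sub] at h2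
  exact h2

/-- a natural number with large orders -/
private theorem exists_big {S : Set (Pl k)} (hS : S.Finite) (N : ℕ) :
    ∃ m : ℕ, 0 < m ∧ ∀ v ∈ S, Ge (od v) (N : ℤ) (m : k) := by
  classical
  refine ⟨(∏ v ∈ hS.toFinset, Ideal.absNorm v.asIdeal) ^ N, ?_, fun v hv => ?_⟩
  · refine pow_pos (Finset.prod_pos fun v _ => ?_) N
    exact Nat.pos_of_ne_zero fun h => v.ne_bot (Ideal.absNorm_eq_zero_iff.1 h)
  · have hmem : (((∏ v ∈ hS.toFinset, Ideal.absNorm v.asIdeal) ^ N : ℕ) : 𝓞 k) ∈
        v.asIdeal ^ N := by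
      rw [Nat.cast_pow]
      refine Ideal.pow_mem_pow ?_ N
      rw [← Finset.mul_prod_erase _ _ (hS.mem_toFinset.2 hv), Nat.cast_mul]
      exact Ideal.mul_mem_right _ _ (Ideal.absNorm_mem v.asIdeal)
    have h1 := ge_of_mem_pow hmem
    rw [map_natCast] at h1
    exact h1

private theorem ipl_neg (v : InfinitePlace k) (u : k) : v (-u) = v u :=
  AbsoluteValue.map_neg v.1 u

/-- weak approximation with signs -/
theorem approx {S : Set (Pl k)} (hS : S.Finite) (n : ℤ) (x : Pl k → k)
    (y : InfinitePlace k → kˣ) :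
    ∃ z : kˣ, (∀ v ∈ S, Ge (od v) n ((z : k) - x v)) ∧
      ∀ v : InfinitePlace k, z * y v ∈ SqI v := by
  classical
  obtain ⟨z₀, hz₀⟩ := approx_fin hS n x
  obtain ⟨t, ht⟩ := exists_sign y
  have hpl : Nonempty (InfinitePlace k) := inferInstance
  have ht0 : t ≠ 0 := by
    rintro rfl
    obtain ⟨v⟩ := hpl
    have h := ht v
    rw [zero_sub, ipl_neg] at h
    exact lt_irrefl _ h
  -- the natural number m
  obtain ⟨N, hN⟩ : ∃ N : ℕ, ∀ v ∈ S, n - od v t ≤ N := by
    obtain ⟨B, hB⟩ := (hS.toFinset.image fun v => n - od v t).bddAbove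
    refine ⟨B.toNat, fun v hv => ?_⟩
    have h1 : n - od v t ≤ B := hB (by
      simp only [Finset.coe_image, Set.mem_image, Finset.mem_coe, Set.Finite.mem_toFinset]
      exact ⟨v, hv, rfl⟩)
    exact h1.trans (Int.self_le_toNat B)
  obtain ⟨m, hm0, hm⟩ := exists_big hS N
  have hmt : ∀ (j : ℕ), ∀ v ∈ S, Ge (od v) n (j * (m * t)) := by
    intro j v hv
    have h1 : Ge (od v) (od v t) t := Or.inr le_rfl
    have h2 := (isVal_od v).ge_mul ((isVal_od v).ge_natCast j)
      ((isVal_od v).ge_mul (hm v hv) h1)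
    refine h2.mono ?_
    have := hN v hv
    linarith
  have hvt : ∀ v : InfinitePlace k, 0 < v t := fun v => InfinitePlace.pos_iff.2 ht0
  -- the number j
  obtain ⟨j, hj⟩ : ∃ j : ℕ, ∀ v : InfinitePlace k, v z₀ < j * v t := by
    have h1 : ∀ v : InfinitePlace k, ∃ j : ℕ, v z₀ < j * v t := by
      intro v
      obtain ⟨j, hj⟩ := exists_nat_gt (v z₀ / v t)
      exact ⟨j, (div_lt_iff₀ (hvt v)).1 hj⟩
    choose j hj using h1
    refine ⟨∑ v, j v, fun v => (hj v).trans_le ?_⟩
    refine mul_le_mul_of_nonneg_right ?_ (hvt v).le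
    exact_mod_cast Finset.single_le_sum (f := j) (fun v _ => Nat.zero_le _) (Finset.mem_univ v)
  have hj' : ∀ v : InfinitePlace k, v z₀ < (j * m : ℕ) * v t := by
    intro v
    refine (hj v).trans_le (mul_le_mul_of_nonneg_right ?_ (hvt v).le)
    exact_mod_cast Nat.le_mul_of_pos_right j hm0
  have hz0 : z₀ + j * (m * t) ≠ 0 := by
    intro h
    obtain ⟨v⟩ := hpl
    have h1 : z₀ = - (((j * m : ℕ) : k) * t) := by
      push_cast
      linear_combination h
    have h2 := hj' v
    rw [h1, ipl_neg, map_mul] at h2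
    have h3 : v (((j * m : ℕ) : k)) = ((j * m : ℕ) : ℝ) := by
      simp
    rw [h3] at h2
    exact lt_irrefl _ h2
  refine ⟨Units.mk0 _ hz0, fun v hv => ?_, fun v h => ?_⟩
  · rw [Units.val_mk0]
    have h1 : z₀ + j * (m * t) - x v = (z₀ - x v) + j * (m * t) := by ring
    rw [h1]
    exact (isVal_od v).ge_add (hz₀ v hv) (hmt j v hv)
  · rw [Units.val_mul, Units.val_mk0, map_mul, map_add, map_mul, map_mul, map_natCast, map_natCast]
    have h1 := ht v
    have h2 := hj' v
    have hab : ∀ u : k, v u = |InfinitePlace.embedding_of_isReal h u| := by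
      intro u
      rw [← InfinitePlace.norm_embedding_of_isReal h, Real.norm_eq_abs]
    rw [hab, hab, map_sub] at h1
    rw [hab, hab] at h2
    push_cast at h2
    set e0 := InfinitePlace.embedding_of_isReal h z₀
    set e1 := InfinitePlace.embedding_of_isReal h t
    set e2 := InfinitePlace.embedding_of_isReal h (y v : k)
    rw [abs_lt] at h2
    have h5 : (0 : ℝ) ≤ (j : ℝ) * m := by positivity
    rcases lt_trichotomy e2 0 with h6 | h6 | h6
    · rw [abs_of_neg h6, abs_lt] at h1
      have h7 : e1 < 0 := by linarith [h1.2]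
      rw [abs_of_neg h7] at h2
      have h8 : e0 + j * (m * e1) < 0 := by nlinarith [h2.2]
      exact mul_pos_of_neg_of_neg h8 h6
    · rw [h6, abs_zero] at h1
      exact absurd h1 (not_lt.2 (abs_nonneg _))
    · rw [abs_of_pos h6, abs_lt] at h1
      have h7 : 0 < e1 := by linarith [h1.1]
      rw [abs_of_pos h7] at h2
      have h8 : 0 < e0 + j * (m * e1) := by nlinarith [h2.1]
      exact mul_pos h8 h6

end UDN
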