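import Pool.Agent.UDN.NoDual

/-!
# UDN: auxiliary primes

PROOF of `exists_split_inert` : let `E : QExt k L a`.  `um k L u` is not a square in `L`
(`QExt.sq_of_sq`).  `exists_inert` over `L` for `um k L u` and `T = abv L S` (`abv_finite`) gives
`w ∉ abv L S` with `um k L u ∉ Sq w`.  Let `v = bel k w ∉ S`; `u ∉ Sq v` (`sq_up`).  If `a ∉ Sq v`: `v` is
not dyadic (`GoodS.dy`), `od v a = od v u = 0`, so `a * u ∈ Sq v` (`sq_mul_of_not`), so
`um (a * u) ∈ Sq w` and `um a = δ ^ 2 ∈ Sq w`, so `um u ∈ Sq w`, a contradiction.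

PROOF of `exists_aux` : call a finite set `T` admissible if it satisfies (all but the cardinality in)
the statement.
(1) `T` admissible implies `T.ncard + 1 ≤ sz S`: with the dual family `u_v`, the
`2 ^ (T.ncard + 1)` elements `a ^ ε ∏_{v ∈ I} u_v` (`ε ∈ {0, 1}`, `I ⊆ T`) are different modulo the
subgroup `U2 (Un S)` (if the quotient of two of them is a square: looking at `Sq v`, `v ∈ T`, gives the
same `I`; then `a` would be a square), and `(U2 (Un S)).relIndex (Un S) = 2 ^ sz S` (`un_index`).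
(2) Let `T` be admissible with maximal cardinality (`∅` is admissible), and
`K = {u ∈ Un S | u ∈ Sq v for all v ∈ T}`.  Then `K` is contained in
`{u | u or u * a is a square}`: otherwise `exists_split_inert` gives `v₀ ∉ S` with `a ∈ Sq v₀`,
`u ∉ Sq v₀` (so `v₀ ∉ T`), and `T ∪ {v₀}` is admissible with the dual family `u` for `v₀` and
`u_v` or `u_v * u` (the one in `Sq v₀`: `sq_mul_of_not`; all are units at `v₀`) for `v ∈ T`.
(3) So `U2 (Un S)` has index `≤ 2` in `K`, and `K` has index `≤ 2 ^ T.ncard` in `Un S` (the product of two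
elements of `Un S` not in `Sq v` is in `Sq v`, `v ∈ T`; `Subgroup.index_iInf_le` or induction on `T`);
so `2 ^ sz S ≤ 2 ^ (T.ncard + 1)`.
-/

set_option autoImplicit false

open IsDedekindDomain NumberField

namespace UDN

variable {k : Type*} [Field k] [NumberField k]

theorem exists_split_inert {S : Set (Pl k)} (hS : GoodS S) {a u : kˣ} (ha : a ∈ Un S)
    (hu : u ∈ Un S) (has : ¬ IsSquare (a : k)) (hus : ¬ IsSquare (u : k))
    (hus2 : ¬ IsSquare ((u : k) * a)) : ∃ v, v ∉ S ∧ a ∈ Sq v ∧ u ∉ Sq v := by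
  classical
  obtain ⟨L, _, _, _, ⟨E⟩⟩ := exists_qext k a has
  have hu' : ¬ IsSquare ((um k L u : Lˣ) : L) := by
    intro h
    rcases E.sq_of_sq (x := (u : k)) h with h | h
    · exact hus h
    · exact hus2 h
  obtain ⟨w, hw, hwu⟩ := exists_inert hu' (abv_finite L hS.fin)
  have hv : bel k w ∉ S := hw
  have huv : u ∉ Sq (bel k w) := fun h => hwu (sq_up h)
  refine ⟨bel k w, hv, ?_, huv⟩
  by_contra hav
  have h2 : od (bel k w) (2 : k) = 0 := by
    by_contra h
    exact hv (hS.dy _ h)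
  have h3 : a * u ∈ Sq (bel k w) :=
    sq_mul_of_not h2 (by rw [ha _ hv]; exact Even.zero) (by rw [hu _ hv]; exact Even.zero) hav huv
  have h4 : um k L (a * u) ∈ Sq w := sq_up h3
  have h5 : um k L a ∈ Sq w := by
    refine ⟨cv w E.δ, ?_⟩
    change cv w (algebraMap k L a) = _
    rw [← E.sq, map_pow, sq]
  rw [map_mul] at h4
  exact hwu ((mul_mem_cancel_left h5).1 h4)

/-- a dual family of S-units at the primes of `T` -/
def Dual (S T : Set (Pl k)) : Prop :=
  ∀ v ∈ T, ∃ u ∈ Un S, u ∉ Sq v ∧ ∀ t ∈ T, t ≠ v → u ∈ Sq t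

/-- admissible sets of auxiliary primes -/
structure Adm (S T : Set (Pl k)) (a : kˣ) : Prop where
  fin : T.Finite
  dis : Disjoint S T
  sp : ∀ v ∈ T, a ∈ Sq v
  du : Dual S T

theorem sq_relIndex_le {S : Set (Pl k)} (hS : GoodS S) {v : Pl k} (hv : v ∉ S) :
    (Sq v).relIndex (Un S) ≤ 2 := by
  by_cases h : ∃ x ∈ Un S, x ∉ Sq v
  · obtain ⟨x, hx, hxv⟩ := h
    refine le_of_eq (Subgroup.relIndex_eq_two_iff.2 ⟨x, hx, fun b hb => ?_⟩)
    have h2 : od v (2 : k) = 0 := by
      by_contra h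
      exact hv (hS.dy _ h)
    by_cases hbv : b ∈ Sq v
    · exact Or.inr ⟨hbv, fun h => hxv ((mul_mem_cancel_left hbv).1 h)⟩
    · refine Or.inl ⟨sq_mul_of_not h2 ?_ ?_ hbv hxv, hbv⟩
      · rw [hb v hv]; exact Even.zero
      · rw [hx v hv]; exact Even.zero
  · push Not at h
    have : Un S ≤ Sq v := h
    rw [Subgroup.relIndex_eq_one.2 this]
    exact one_le_two

theorem U2_le_sq (S : Set (Pl k)) (v : Pl k) : U2 (Un S) ≤ Sq v := by
  intro x hx
  obtain ⟨y, _, rfl⟩ := mem_U2.1 hx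
  exact sq_mem_sqP y (Sum.inl v)

theorem relIndex_adm {S T : Set (Pl k)} (hS : GoodS S) {a : kˣ} (h : Adm S T a) :
    (⨅ v : T, Sq (v : Pl k)).relIndex (Un S) = 2 ^ T.ncard := by
  classical
  have hfin : Finite T := h.fin
  have hft : Fintype T := Fintype.ofFinite T
  have hcard : Nat.card T = T.ncard := rfl
  have hle : U2 (Un S) ≤ ⨅ v : T, Sq (v : Pl k) := le_iInf fun v => U2_le_sq S v
  have hne : (⨅ v : T, Sq (v : Pl k)).relIndex (Un S) ≠ 0 := by
    intro h0
    have h1 := Subgroup.relIndex_dvd_of_le_left (Un S) hle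
    rw [h0, un_index hS.fin] at h1
    exact pow_ne_zero _ two_ne_zero (Nat.eq_zero_of_zero_dvd h1)
  apply le_antisymm
  · refine (Subgroup.relIndex_iInf_le _).trans ?_
    calc ∏ v : T, (Sq (v : Pl k)).relIndex (Un S) ≤ ∏ _v : T, 2 :=
          Finset.prod_le_prod' fun v _ => sq_relIndex_le hS (Set.disjoint_right.1 h.dis v.2)
      _ = 2 ^ T.ncard := by
          rw [Finset.prod_const, Finset.card_univ, ← Nat.card_eq_fintype_card, hcard]
  · choose u hu1 hu2 hu3 using h.du
    rw [← hcard]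
    have h1 := index_ge (G := kˣ) (ι := T) (fun v => Sq (v : Pl k)) (fun v => u v.1 v.2)
      (fun v => hu2 v.1 v.2) (fun v t htv => hu3 v.1 v.2 t.1 t.2 (fun h => htv (Subtype.ext h)))
      (H := (⨅ v : T, Sq (v : Pl k)) ⊓ Un S) (U := Un S)
      (fun v => inf_le_left.trans (iInf_le _ v)) (fun v => hu1 v.1 v.2) inf_le_right
      (by rw [Subgroup.inf_relIndex_right]; exact hne)
    rwa [Subgroup.inf_relIndex_right] at h1

theorem exists_aux {S : Set (Pl k)} (hS : GoodS S) {a : kˣ} (ha : a ∈ Un S)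
    (hns : ¬ IsSquare (a : k)) :
    ∃ T : Set (Pl k), T.Finite ∧ Disjoint S T ∧ T.ncard + 1 = sz S ∧ (∀ v ∈ T, a ∈ Sq v) ∧
      Dual S T := by
  classical
  have hbound : ∀ T, Adm S T a → T.ncard ≤ sz S := by
    intro T hT
    have h1 : U2 (Un S) ≤ ⨅ v : T, Sq (v : Pl k) := le_iInf fun v => U2_le_sq S v
    have h2 := Subgroup.relIndex_dvd_of_le_left (Un S) h1
    rw [relIndex_adm hS hT, un_index hS.fin] at h2
    exact (Nat.pow_dvd_pow_iff_le_right one_lt_two).1 h2
  have hex : ∃ n, ∃ T, Adm S T a ∧ T.ncard = n :=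
    ⟨0, ∅, ⟨Set.finite_empty, Set.disjoint_empty S, fun v hv => absurd hv (Set.notMem_empty v),
      fun v hv => absurd hv (Set.notMem_empty v)⟩, Set.ncard_empty _⟩
  obtain ⟨n, ⟨T, hT, hTn⟩, hmax⟩ : ∃ n, (∃ T, Adm S T a ∧ T.ncard = n) ∧
      ∀ m, (∃ T, Adm S T a ∧ T.ncard = m) → m ≤ n := by
    obtain ⟨n0, hn0⟩ := hex
    have hb : ∀ m, (∃ T, Adm S T a ∧ T.ncard = m) → m ≤ sz S := by
      rintro m ⟨T, hT, rfl⟩
      exact hbound T hT
    refine ⟨Nat.findGreatest (fun m => ∃ T, Adm S T a ∧ T.ncard = m) (sz S),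
      Nat.findGreatest_spec (P := fun m => ∃ T, Adm S T a ∧ T.ncard = m) (hb n0 hn0) hn0,
      fun m hm => Nat.le_findGreatest (hb m hm) hm⟩
  refine ⟨T, hT.fin, hT.dis, ?_, hT.sp, hT.du⟩
  set K : Subgroup kˣ := (⨅ v : T, Sq (v : Pl k)) ⊓ Un S with hK
  have hKmem : ∀ x, x ∈ K ↔ (∀ v ∈ T, x ∈ Sq v) ∧ x ∈ Un S := by
    intro x
    rw [hK, Subgroup.mem_inf, Subgroup.mem_iInf]
    exact ⟨fun h => ⟨fun v hv => h.1 ⟨v, hv⟩, h.2⟩, fun h => ⟨fun v => h.1 v.1 v.2, h.2⟩⟩
  have hU2K : U2 (Un S) ≤ K := le_inf (le_iInf fun v => U2_le_sq S v) (U2_le _)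
  have hsqU : ∀ x ∈ Un S, IsSquare (x : k) → x ∈ U2 (Un S) := by
    rintro x hx ⟨y, hy⟩
    have hy0 : y ≠ 0 := by
      rintro rfl
      exact x.ne_zero (by rw [hy, mul_zero])
    refine mem_U2.2 ⟨Units.mk0 y hy0, ?_, ?_⟩
    · intro v hv
      have h1 := hx v hv
      rw [hy, (isVal_od v).mul _ _ hy0 hy0] at h1
      rw [Units.val_mk0]
      linarith
    · ext
      rw [Units.val_pow_eq_pow_val, Units.val_mk0, hy, sq]
  have hU2sq : ∀ x ∈ U2 (Un S), IsSquare (x : k) := by
    intro x hx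
    obtain ⟨y, _, rfl⟩ := mem_U2.1 hx
    exact ⟨y, by rw [Units.val_pow_eq_pow_val, sq]⟩
  -- every element of `K` is a square or `a` times a square
  have hKa : ∀ u ∈ K, IsSquare (u : k) ∨ IsSquare ((u : k) * a) := by
    intro u hu
    by_contra hcon
    push Not at hcon
    rw [hKmem] at hu
    obtain ⟨v0, hv0S, hav0, huv0⟩ := exists_split_inert hS ha hu.2 hns hcon.1 hcon.2
    have hv0T : v0 ∉ T := fun h => huv0 (hu.1 v0 h)
    have h2 : od v0 (2 : k) = 0 := by
      by_contra h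
      exact hv0S (hS.dy _ h)
    have hT' : Adm S (insert v0 T) a := by
      refine ⟨hT.fin.insert v0, ?_, ?_, ?_⟩
      · rw [Set.disjoint_right]
        rintro v (rfl | hv)
        · exact hv0S
        · exact Set.disjoint_right.1 hT.dis hv
      · rintro v (rfl | hv)
        · exact hav0
        · exact hT.sp v hv
      · rintro v (rfl | hv)
        · refine ⟨u, hu.2, huv0, ?_⟩
          rintro t (rfl | ht) htv
          · exact absurd rfl htv
          · exact hu.1 t ht
        · obtain ⟨y, hy1, hy2, hy3⟩ := hT.du v hv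
          by_cases hy4 : y ∈ Sq v0
          · refine ⟨y, hy1, hy2, ?_⟩
            rintro t (rfl | ht) htv
            · exact hy4
            · exact hy3 t ht htv
          · refine ⟨y * u, mul_mem hy1 hu.2, ?_, ?_⟩
            · intro h
              exact hy2 ((mul_mem_cancel_right (hu.1 v hv)).1 h)
            · rintro t (rfl | ht) htv
              · refine sq_mul_of_not h2 ?_ ?_ hy4 huv0
                · rw [hy1 t hv0S]; exact Even.zero
                · rw [hu.2 t hv0S]; exact Even.zero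
              · exact mul_mem (hy3 t ht htv) (hu.1 t ht)
    have h3 := hmax _ ⟨_, hT', rfl⟩
    rw [Set.ncard_insert_of_notMem hv0T hT.fin] at h3
    omega
  -- the index two
  have hidx : (U2 (Un S)).relIndex K = 2 := by
    have haK : a ∈ K := (hKmem a).2 ⟨hT.sp, ha⟩
    refine Subgroup.relIndex_eq_two_iff.2 ⟨a, haK, fun b hb => ?_⟩
    have hbU := ((hKmem b).1 hb).2
    by_cases hbs : IsSquare (b : k)
    · refine Or.inr ⟨hsqU b hbU hbs, fun h => hns ?_⟩
      have h1 : a ∈ U2 (Un S) := (mul_mem_cancel_left (hsqU b hbU hbs)).1 h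
      exact hU2sq a h1
    · refine Or.inl ⟨?_, fun h => hbs (hU2sq b h)⟩
      refine hsqU _ (mul_mem hbU ha) ?_
      rw [Units.val_mul]
      exact (hKa b hb).resolve_left hbs
  have h1 : (U2 (Un S)).relIndex K * K.relIndex (Un S) = (U2 (Un S)).relIndex (Un S) :=
    Subgroup.relIndex_mul_relIndex _ _ _ hU2K inf_le_right
  rw [hidx, un_index hS.fin, hK, Subgroup.inf_relIndex_right, relIndex_adm hS hT,
    ← pow_succ'] at h1
  exact Nat.pow_right_injective le_rfl h1

end UDN
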