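import Mathlib

/-!
# UDN: number fields, base definitions

Project UDN (part of UDV0, problem MP_0f854b_lc, characteristic zero): the Hasse norm theorem for
quadratic extensions of number fields and ONE ring formula which defines the ring of integers in
every number field.

Conventions.  `w : F → ℤ` with `IsVal w` is a normalized discrete valuation (with `w 0 = 0`), and
`Ge w n x` means `x = 0` or `n ≤ w x`.  `IsLoc w` : an abstract local field (only the quadratic part
of Hensel's lemma).  `Sy a b` : `b = p ^ 2 - a * q ^ 2` for some `p, q` (the Hilbert symbol is `1`).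
`Pl k` : the finite places of the number field `k`, `od v x` the order of `x` at `v`.
-/

set_option autoImplicit false

open IsDedekindDomain NumberField

namespace UDN

/-! ### valuations -/

/-- `x` is `0` or `n ≤ w x`. -/
def Ge {F : Type*} [Field F] (w : F → ℤ) (n : ℤ) (x : F) : Prop := x = 0 ∨ n ≤ w x

/-- a normalized discrete valuation, written additively -/
structure IsVal {F : Type*} [Field F] (w : F → ℤ) : Prop where
  zero : w 0 = 0
  mul : ∀ x y, x ≠ 0 → y ≠ 0 → w (x * y) = w x + w y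
  add : ∀ x y, x ≠ 0 → y ≠ 0 → x + y ≠ 0 → min (w x) (w y) ≤ w (x + y)
  unif : ∃ π, w π = 1

/-- an abstract local field of characteristic not two -/
structure IsLoc {F : Type*} [Field F] (w : F → ℤ) : Prop extends IsVal w where
  two : (2 : F) ≠ 0
  sq : ∀ x, Ge w 1 x → IsSquare (1 + 4 * x)
  fin : ∃ R : Finset F, ∀ x, Ge w 0 x → ∃ r ∈ R, Ge w 1 (x - r)

section val

variable {F : Type*} [Field F] {w : F → ℤ}

theorem ge_zero (n : ℤ) : Ge w n 0 := Or.inl rfl

theorem Ge.mono {m n : ℤ} {x : F} (h : Ge w n x) (hmn : m ≤ n) : Ge w m x :=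
  h.imp id (fun h => hmn.trans h)

theorem ge_iff {n : ℤ} {x : F} (hx : x ≠ 0) : Ge w n x ↔ n ≤ w x :=
  ⟨fun h => h.resolve_left hx, Or.inr⟩

theorem ne_zero_of_not_ge {n : ℤ} {x : F} (h : ¬ Ge w n x) : x ≠ 0 := fun hx => h (Or.inl hx)

namespace IsVal

theorem one (h : IsVal w) : w 1 = 0 := by
  have := h.mul 1 1 one_ne_zero one_ne_zero
  rw [mul_one] at this
  linarith

theorem neg_one (h : IsVal w) : w (-1) = 0 := by
  have h1 := h.mul (-1) (-1) (neg_ne_zero.2 one_ne_zero) (neg_ne_zero.2 one_ne_zero)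
  rw [neg_mul_neg, mul_one, h.one] at h1
  linarith

theorem neg (h : IsVal w) (x : F) : w (-x) = w x := by
  by_cases hx : x = 0
  · rw [hx, neg_zero]
  · have := h.mul (-1) x (neg_ne_zero.2 one_ne_zero) hx
    rw [neg_one_mul, h.neg_one, zero_add] at this
    exact this

theorem inv (h : IsVal w) (x : F) : w x⁻¹ = - w x := by
  by_cases hx : x = 0
  · rw [hx, inv_zero, h.zero, neg_zero]
  · have := h.mul x x⁻¹ hx (inv_ne_zero hx)
    rw [mul_inv_cancel₀ hx, h.one] at this
    linarith

theorem div (h : IsVal w) {x y : F} (hx : x ≠ 0) (hy : y ≠ 0) : w (x / y) = w x - w y := by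
  rw [div_eq_mul_inv, h.mul _ _ hx (inv_ne_zero hy), h.inv]
  ring

theorem pow (h : IsVal w) (x : F) (n : ℕ) : w (x ^ n) = n * w x := by
  by_cases hx : x = 0
  · by_cases hn : n = 0
    · rw [hn, pow_zero, h.one]
      simp
    · rw [hx, zero_pow hn, h.zero, mul_zero]
  · induction n with
    | zero => rw [pow_zero, h.one]; simp
    | succ n ih =>
      rw [pow_succ, h.mul _ _ (pow_ne_zero n hx) hx, ih]
      push_cast
      ring

theorem zpow (h : IsVal w) (x : F) (n : ℤ) : w (x ^ n) = n * w x := by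
  obtain ⟨m, rfl | rfl⟩ := n.eq_nat_or_neg
  · rw [zpow_natCast, h.pow]
  · rw [zpow_neg, zpow_natCast, h.inv, h.pow]
    ring

theorem sub (h : IsVal w) (x y : F) (hx : x ≠ 0) (hy : y ≠ 0) (hxy : x - y ≠ 0) :
    min (w x) (w y) ≤ w (x - y) := by
  have := h.add x (-y) hx (neg_ne_zero.2 hy) (by rwa [← sub_eq_add_neg])
  rwa [h.neg, ← sub_eq_add_neg] at this

/-- an element of every order -/
theorem exists_ord (h : IsVal w) (n : ℤ) : ∃ x, x ≠ 0 ∧ w x = n := by
  obtain ⟨π, hπ⟩ := h.unif
  have hπ0 : π ≠ 0 := by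
    rintro rfl
    rw [h.zero] at hπ
    exact zero_ne_one hπ
  exact ⟨π ^ n, zpow_ne_zero n hπ0, by rw [h.zpow, hπ, mul_one]⟩

theorem ge_one (h : IsVal w) : Ge w 0 (1 : F) := Or.inr h.one.ge

theorem ge_neg (h : IsVal w) {n : ℤ} {x : F} (hx : Ge w n x) : Ge w n (-x) := by
  rcases hx with rfl | hx
  · rw [neg_zero]
    exact ge_zero n
  · exact Or.inr (by rwa [h.neg])

theorem ge_neg_iff (h : IsVal w) {n : ℤ} {x : F} : Ge w n (-x) ↔ Ge w n x :=
  ⟨fun hx => by simpa using h.ge_neg hx, h.ge_neg⟩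

theorem ge_add (h : IsVal w) {n : ℤ} {x y : F} (hx : Ge w n x) (hy : Ge w n y) :
    Ge w n (x + y) := by
  by_cases hx0 : x = 0
  · rw [hx0, zero_add]; exact hy
  by_cases hy0 : y = 0
  · rw [hy0, add_zero]; exact hx
  by_cases hxy : x + y = 0
  · exact Or.inl hxy
  · exact Or.inr ((le_min ((ge_iff hx0).1 hx) ((ge_iff hy0).1 hy)).trans (h.add x y hx0 hy0 hxy))

theorem ge_sub (h : IsVal w) {n : ℤ} {x y : F} (hx : Ge w n x) (hy : Ge w n y) :
    Ge w n (x - y) := by
  rw [sub_eq_add_neg]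
  exact h.ge_add hx (h.ge_neg hy)

theorem ge_mul (h : IsVal w) {m n : ℤ} {x y : F} (hx : Ge w m x) (hy : Ge w n y) :
    Ge w (m + n) (x * y) := by
  by_cases hx0 : x = 0
  · rw [hx0, zero_mul]; exact ge_zero _
  by_cases hy0 : y = 0
  · rw [hy0, mul_zero]; exact ge_zero _
  · refine Or.inr ?_
    rw [h.mul x y hx0 hy0]
    exact add_le_add ((ge_iff hx0).1 hx) ((ge_iff hy0).1 hy)

theorem ge_pow (h : IsVal w) {m : ℤ} {x : F} (hx : Ge w m x) (n : ℕ) : Ge w (n * m) (x ^ n) := by
  induction n with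
  | zero => simpa using h.ge_one
  | succ n ih =>
    have := h.ge_mul ih hx
    rw [pow_succ]
    refine this.mono ?_
    push_cast
    linarith

/-- the order of a sum with a dominant term -/
theorem add_eq (h : IsVal w) {x y : F} (hx : x ≠ 0) (hy : Ge w (w x + 1) y) :
    x + y ≠ 0 ∧ w (x + y) = w x := by
  by_cases hy0 : y = 0
  · rw [hy0, add_zero]; exact ⟨hx, rfl⟩
  have hlt : w x < w y := by
    have := (ge_iff hy0).1 hy
    linarith
  have hne : x + y ≠ 0 := by
    intro h0
    have : y = -x := by linear_combination h0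
    rw [this, h.neg] at hlt
    exact lt_irrefl _ hlt
  refine ⟨hne, le_antisymm ?_ ?_⟩
  · by_contra hc
    push Not at hc
    have h1 := h.sub (x + y) y hne hy0 (by rwa [add_sub_cancel_right])
    rw [add_sub_cancel_right] at h1
    exact absurd h1 (not_le.2 (lt_min hc hlt))
  · have := h.add x y hx hy0 hne
    rwa [min_eq_left hlt.le] at this

theorem ge_natCast (h : IsVal w) (n : ℕ) : Ge w 0 (n : F) := by
  induction n with
  | zero => rw [Nat.cast_zero]; exact ge_zero 0
  | succ n ih => rw [Nat.cast_succ]; exact h.ge_add ih h.ge_one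

theorem ge_two (h : IsVal w) : Ge w 0 (2 : F) := by
  simpa using h.ge_natCast 2

end IsVal

/-- `w 2 ≥ 0` -/
theorem IsLoc.two_nonneg (h : IsLoc w) : 0 ≤ w 2 :=
  (ge_iff h.two).1 h.toIsVal.ge_two

theorem IsLoc.four_ne (h : IsLoc w) : (4 : F) ≠ 0 := by
  have : (4 : F) = 2 * 2 := by norm_num
  rw [this]
  exact mul_ne_zero h.two h.two

theorem IsLoc.w_four (h : IsLoc w) : w 4 = 2 * w 2 := by
  have : (4 : F) = 2 * 2 := by norm_num
  rw [this, h.mul _ _ h.two h.two]
  ring

/-- elements close to `1` are squares -/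
theorem IsLoc.isSquare_of_close (h : IsLoc w) {x : F} (hx : Ge w (2 * w 2 + 1) (x - 1)) :
    IsSquare x := by
  have h4 := h.four_ne
  have h1 : Ge w 1 ((x - 1) / 4) := by
    by_cases hx0 : x - 1 = 0
    · rw [hx0, zero_div]; exact ge_zero 1
    · refine Or.inr ?_
      rw [h.toIsVal.div hx0 h4, h.w_four]
      have := (ge_iff hx0).1 hx
      linarith
  have h2 := h.sq _ h1
  have h3 : 1 + 4 * ((x - 1) / 4) = x := by field_simp; ring
  rwa [h3] at h2

end val

/-! ### the symbol -/

section symbol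

variable {F : Type*} [Field F]

/-- `b` is a norm from `F (√a)` -/
def Sy (a b : F) : Prop := ∃ p q : F, p ^ 2 - a * q ^ 2 = b

theorem sy_zero (a : F) : Sy a 0 := ⟨0, 0, by ring⟩

theorem sy_sq (a x : F) : Sy a (x ^ 2) := ⟨x, 0, by ring⟩

theorem sy_one (a : F) : Sy a 1 := ⟨1, 0, by ring⟩

theorem Sy.mul {a b c : F} (h1 : Sy a b) (h2 : Sy a c) : Sy a (b * c) := by
  obtain ⟨p, q, rfl⟩ := h1
  obtain ⟨r, s, rfl⟩ := h2
  exact ⟨p * r + a * q * s, p * s + q * r, by ring⟩

theorem Sy.inv {a b : F} (h : Sy a b) : Sy a b⁻¹ := by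
  by_cases hb : b = 0
  · rw [hb, inv_zero]; exact sy_zero a
  · obtain ⟨p, q, h⟩ := h
    refine ⟨p / b, q / b, ?_⟩
    field_simp
    linear_combination h

theorem sy_neg (a : F) : Sy a (-a) := ⟨0, 1, by ring⟩

theorem sy_one_sub (a : F) : Sy a (1 - a) := ⟨1, 1, by ring⟩

/-- if `a` is a nonzero square everything is a norm -/
theorem sy_of_isSquare (h2 : (2 : F) ≠ 0) {a : F} (ha : a ≠ 0) (h : IsSquare a) (b : F) :
    Sy a b := by
  obtain ⟨r, rfl⟩ := h
  have hr : r ≠ 0 := fun h => ha (by rw [h, mul_zero])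
  exact ⟨(b + 1) / 2, (b - 1) / (2 * r), by field_simp; ring⟩

theorem Sy.symm (h2 : (2 : F) ≠ 0) {a b : F} (hb : b ≠ 0) (h : Sy a b) : Sy b a := by
  obtain ⟨p, q, h⟩ := h
  by_cases hq : q = 0
  · refine sy_of_isSquare h2 hb ⟨p, ?_⟩ a
    rw [← h, hq]
    ring
  · exact ⟨p / q, 1 / q, by field_simp; linear_combination h⟩

theorem Sy.of_mul_sq {a b c : F} (hc : c ≠ 0) (h : Sy a (b * c ^ 2)) : Sy a b := by
  have h1 := h.mul (sy_sq a c).inv
  rwa [mul_assoc, mul_inv_cancel₀ (pow_ne_zero 2 hc), mul_one] at h1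

theorem sy_mul_sq_left {a b c : F} (hc : c ≠ 0) : Sy (a * c ^ 2) b ↔ Sy a b := by
  constructor
  · rintro ⟨p, q, h⟩
    exact ⟨p, c * q, by rw [← h]; ring⟩
  · rintro ⟨p, q, h⟩
    exact ⟨p, q / c, by rw [← h]; field_simp⟩

theorem Sy.of_mul {a b c : F} (hb : b ≠ 0) (h : Sy a b) (h' : Sy a (b * c)) : Sy a c := by
  have h1 := h.inv.mul h'
  rwa [← mul_assoc, inv_mul_cancel₀ hb, one_mul] at h1

end symbol

/-! ### finite places of a number field -/

/-- the finite places -/
abbrev Pl (k : Type*) [Field k] [NumberField k] := HeightOneSpectrum (𝓞 k)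

section nf

variable {k : Type*} [Field k] [NumberField k]

/-- the order of `x` at `v` (`0` for `x = 0`) -/
noncomputable def od (v : Pl k) (x : k) : ℤ := - WithZero.log (v.valuation k x)

theorem isVal_od (v : Pl k) : IsVal (od v) where
  zero := by simp [od]
  mul x y hx hy := by
    unfold od
    rw [map_mul, WithZero.log_mul ((Valuation.ne_zero_iff _).2 hx) ((Valuation.ne_zero_iff _).2 hy)]
    ring
  add x y hx hy hxy := by
    unfold od
    have h := (v.valuation k).map_add x y
    have hx' := (Valuation.ne_zero_iff (v.valuation k)).2 hx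
    have hy' := (Valuation.ne_zero_iff (v.valuation k)).2 hy
    have hxy' := (Valuation.ne_zero_iff (v.valuation k)).2 hxy
    rcases le_max_iff.1 h with h | h
    · have := (WithZero.log_le_log hxy' hx').2 h
      exact (min_le_left _ _).trans (by linarith)
    · have := (WithZero.log_le_log hxy' hy').2 h
      exact (min_le_right _ _).trans (by linarith)
  unif := by
    obtain ⟨π, hπ⟩ := v.valuation_exists_uniformizer k
    exact ⟨π, by unfold od; rw [hπ]; simp⟩

theorem ge_od_iff (v : Pl k) (n : ℤ) (x : k) :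
    Ge (od v) n x ↔ v.valuation k x ≤ WithZero.exp (-n) := by
  by_cases hx : x = 0
  · rw [hx]
    simp [ge_zero]
  · rw [ge_iff hx]
    unfold od
    have hx' := (Valuation.ne_zero_iff (v.valuation k)).2 hx
    rw [← WithZero.log_le_iff_le_exp hx']
    constructor <;> intro h <;> linarith

theorem od_nonneg_int (v : Pl k) (x : 𝓞 k) : Ge (od v) 0 (x : k) := by
  rw [ge_od_iff]
  simpa using v.valuation_le_one (K := k) x

theorem od_neg_iff (v : Pl k) {x : k} (hx : x ≠ 0) : od v x < 0 ↔ 1 < v.valuation k x := by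
  unfold od
  have hx' := (Valuation.ne_zero_iff (v.valuation k)).2 hx
  have h0 : (1 : WithZero (Multiplicative ℤ)) = WithZero.exp 0 := by simp
  rw [h0, ← WithZero.lt_log_iff_exp_lt hx']
  constructor <;> intro h <;> linarith

theorem od_pos_iff (v : Pl k) {x : k} (hx : x ≠ 0) : 0 < od v x ↔ v.valuation k x < 1 := by
  unfold od
  have hx' := (Valuation.ne_zero_iff (v.valuation k)).2 hx
  have h0 : (1 : WithZero (Multiplicative ℤ)) = WithZero.exp 0 := by simp
  rw [h0, ← WithZero.log_lt_iff_lt_exp hx']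
  constructor <;> intro h <;> linarith

theorem od_eq_zero_iff (v : Pl k) {x : k} (hx : x ≠ 0) : od v x = 0 ↔ v.valuation k x = 1 := by
  have h1 := od_neg_iff v hx
  have h2 := od_pos_iff v hx
  constructor
  · intro h
    exact le_antisymm (not_lt.1 fun h' => absurd (h1.2 h') (by omega))
      (not_lt.1 fun h' => absurd (h2.2 h') (by omega))
  · intro h
    have h3 : ¬ od v x < 0 := fun h' => absurd (h1.1 h') (by rw [h]; exact lt_irrefl _)
    have h4 : ¬ 0 < od v x := fun h' => absurd (h2.1 h') (by rw [h]; exact lt_irrefl _)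
    omega

theorem ge_one_iff_mem (v : Pl k) (x : 𝓞 k) : Ge (od v) 1 (x : k) ↔ x ∈ v.asIdeal := by
  rw [← v.valuation_lt_one_iff_mem (K := k)]
  change Ge (od v) 1 (algebraMap (𝓞 k) k x) ↔ v.valuation k (algebraMap (𝓞 k) k x) < 1
  by_cases hx : algebraMap (𝓞 k) k x = 0
  · constructor
    · intro _
      rw [hx, map_zero]
      exact zero_lt_one
    · intro _
      exact Or.inl hx
  · rw [ge_iff hx, ← od_pos_iff v hx]
    constructor <;> intro h <;> linarith

theorem isIntegral_iff (x : k) : IsIntegral ℤ x ↔ ∀ v : Pl k, Ge (od v) 0 x := by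
  constructor
  · intro h v
    exact od_nonneg_int v ⟨x, h⟩
  · intro h
    obtain ⟨y, rfl⟩ := HeightOneSpectrum.mem_integers_of_valuation_le_one k x (fun v => by
      have := (ge_od_iff v 0 x).1 (h v)
      simpa using this)
    exact y.2

/-- a nonzero element has finitely many zeros and poles -/
theorem od_finite {x : k} (hx : x ≠ 0) : {v : Pl k | od v x ≠ 0}.Finite := by
  refine ((HeightOneSpectrum.Support.finite (𝓞 k) x).union
    (HeightOneSpectrum.Support.finite (𝓞 k) x⁻¹)).subset ?_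
  intro v hv
  rcases lt_or_gt_of_ne hv with h | h
  · exact Or.inl ((od_neg_iff v hx).1 h)
  · refine Or.inr ((od_neg_iff v (inv_ne_zero hx)).1 ?_)
    rw [(isVal_od v).inv]
    linarith

theorem isVal_od_two (v : Pl k) : 0 ≤ od v (2 : k) :=
  (ge_iff two_ne_zero).1 (isVal_od v).ge_two

end nf

end UDN
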