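import Pool.Agent.UDN.Defs

/-!
# UDN: the completion at a finite place

`Kv v = v.adicCompletion k` with `Valued.v`; `wv v x = - log (Valued.v x)`.
-/

set_option autoImplicit false

open IsDedekindDomain NumberField

namespace UDN

/-- the additive form of a valuation with values in `ℤᵐ⁰` -/
theorem isVal_of_valuation {F : Type*} [Field F] (V : Valuation F (WithZero (Multiplicative ℤ)))
    (hV : ∃ π, V π = WithZero.exp (-1)) : IsVal (fun x => - WithZero.log (V x)) where
  zero := by simp
  mul x y hx hy := by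
    rw [map_mul, WithZero.log_mul ((Valuation.ne_zero_iff _).2 hx) ((Valuation.ne_zero_iff _).2 hy)]
    ring
  add x y hx hy hxy := by
    have h := V.map_add x y
    have hx' := (Valuation.ne_zero_iff V).2 hx
    have hy' := (Valuation.ne_zero_iff V).2 hy
    have hxy' := (Valuation.ne_zero_iff V).2 hxy
    rcases le_max_iff.1 h with h | h
    · have := (WithZero.log_le_log hxy' hx').2 h
      exact (min_le_left _ _).trans (by linarith)
    · have := (WithZero.log_le_log hxy' hy').2 h
      exact (min_le_right _ _).trans (by linarith)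
  unif := by
    obtain ⟨π, hπ⟩ := hV
    exact ⟨π, by rw [hπ]; simp⟩

variable {k : Type*} [Field k] [NumberField k]

theorem v_cv (v : Pl k) (x : k) : Valued.v (cv v x) = v.valuation k x :=
  HeightOneSpectrum.adicCompletion.valued_coe k v x

theorem isVal_wv (v : Pl k) : IsVal (wv v) := by
  refine isVal_of_valuation (Valued.v : Valuation (Kv v) _) ?_
  obtain ⟨π, hπ⟩ := v.valuation_exists_uniformizer k
  exact ⟨cv v π, by rw [v_cv, hπ]⟩

theorem wv_cv (v : Pl k) (x : k) : wv v (cv v x) = od v x := by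
  unfold wv od
  rw [v_cv]

theorem cv_eq_zero (v : Pl k) {x : k} : cv v x = 0 ↔ x = 0 := by
  rw [map_eq_zero]

theorem ge_cv (v : Pl k) (n : ℤ) (x : k) : Ge (wv v) n (cv v x) ↔ Ge (od v) n x := by
  unfold Ge
  rw [wv_cv, cv_eq_zero]

theorem ge_wv_iff (v : Pl k) (n : ℤ) (x : Kv v) :
    Ge (wv v) n x ↔ Valued.v x ≤ WithZero.exp (-n) := by
  by_cases hx : x = 0
  · rw [hx]
    simp [ge_zero]
  · rw [ge_iff hx]
    unfold wv
    have hx' := (Valuation.ne_zero_iff (Valued.v : Valuation (Kv v) _)).2 hx
    rw [← WithZero.log_le_iff_le_exp hx']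
    constructor <;> intro h <;> linarith

/-- `k` is dense in the completion -/
theorem dense_cv (v : Pl k) (x : Kv v) (n : ℤ) : ∃ y : k, Ge (wv v) n (x - cv v y) := by
  obtain ⟨c, hc0, hc⟩ := (isVal_wv v).exists_ord n
  have hd : DenseRange (algebraMap k (Kv v)) :=
    HeightOneSpectrum.denseRange_algebraMap k v
  have ho : IsOpen {z : Kv v | (Valued.v : Valuation (Kv v) _).restrict z <
      (Valued.v : Valuation (Kv v) _).restrict c} := Valued.isOpen_ball (Kv v) _
  have ho2 : IsOpen {z : Kv v | (Valued.v : Valuation (Kv v) _).restrict (x - z) <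
      (Valued.v : Valuation (Kv v) _).restrict c} :=
    ho.preimage (continuous_const.sub continuous_id)
  obtain ⟨y, hy⟩ := hd.exists_mem_open ho2 ⟨x, by
    rw [Set.mem_ofPred_eq, sub_self, Valuation.restrict_lt_iff, map_zero]
    exact zero_lt_iff.2 ((Valuation.ne_zero_iff _).2 hc0)⟩
  rw [Set.mem_ofPred_eq, Valuation.restrict_lt_iff] at hy
  refine ⟨y, (ge_wv_iff v n _).2 (hy.le.trans ?_)⟩
  exact (ge_wv_iff v n c).1 (Or.inr hc.ge)

end UDN
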