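import Pool.Agent.UDN.CompA

/-!
# UDN: the completion at a finite place is an `IsLoc`
-/

set_option autoImplicit false

open IsDedekindDomain NumberField Filter Topology

namespace UDN

variable {k : Type*} [Field k] [NumberField k]

/-- the iteration `z ↦ x - z ^ 2` -/
noncomputable def itz {F : Type*} [Field F] (x : F) : ℕ → F
  | 0 => 0
  | n + 1 => x - itz x n ^ 2

theorem itz_ge {F : Type*} [Field F] {w : F → ℤ} (h : IsVal w) {x : F} (hx : Ge w 1 x) (n : ℕ) :
    Ge w 1 (itz x n) := by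
  induction n with
  | zero => exact ge_zero 1
  | succ n ih =>
    refine h.ge_sub hx ?_
    exact (h.ge_pow ih 2).mono (by norm_num)

theorem itz_step {F : Type*} [Field F] {w : F → ℤ} (h : IsVal w) {x : F} (hx : Ge w 1 x) (n : ℕ) :
    Ge w (n + 1) (itz x (n + 1) - itz x n) := by
  induction n with
  | zero => simpa [itz] using hx
  | succ n ih =>
    have h1 : itz x (n + 1 + 1) - itz x (n + 1) =
        (- (itz x (n + 1) - itz x n)) * (itz x (n + 1) + itz x n) := by
      change x - itz x (n + 1) ^ 2 - (x - itz x n ^ 2) = _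
      ring
    rw [h1]
    refine (h.ge_mul (h.ge_neg ih) (h.ge_add (itz_ge h hx (n + 1)) (itz_ge h hx n))).mono ?_
    push_cast
    linarith

theorem itz_tail {F : Type*} [Field F] {w : F → ℤ} (h : IsVal w) {x : F} (hx : Ge w 1 x)
    (N n : ℕ) : Ge w (N + 1) (itz x (N + n) - itz x N) := by
  induction n with
  | zero => rw [add_zero, sub_self]; exact ge_zero _
  | succ n ih =>
    have h1 : itz x (N + (n + 1)) - itz x N =
        (itz x (N + n + 1) - itz x (N + n)) + (itz x (N + n) - itz x N) := by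
      rw [← add_assoc]
      ring
    rw [h1]
    refine h.ge_add ((itz_step h hx (N + n)).mono ?_) ih
    push_cast
    linarith

theorem itz_pair {F : Type*} [Field F] {w : F → ℤ} (h : IsVal w) {x : F} (hx : Ge w 1 x)
    (N m n : ℕ) (hm : N ≤ m) (hn : N ≤ n) : Ge w (N + 1) (itz x m - itz x n) := by
  obtain ⟨m, rfl⟩ := Nat.exists_eq_add_of_le hm
  obtain ⟨n, rfl⟩ := Nat.exists_eq_add_of_le hn
  have h1 : itz x (N + m) - itz x (N + n) =
      (itz x (N + m) - itz x N) - (itz x (N + n) - itz x N) := by ring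
  rw [h1]
  exact h.ge_sub (itz_tail h hx N m) (itz_tail h hx N n)

theorem itz_cauchy (v : Pl k) (x : Kv v) (hx : Ge (wv v) 1 x) : CauchySeq (itz x) := by
  unfold CauchySeq
  rw [Valued.cauchy_iff]
  refine ⟨inferInstance, fun γ => ?_⟩
  set g := MonoidWithZeroHom.ValueGroup₀.embedding γ.1 with hg
  have hg0 : g ≠ 0 := MonoidWithZeroHom.ValueGroup₀.embedding_unit_ne_zero γ
  refine ⟨{z | ∃ n, (- WithZero.log g).toNat ≤ n ∧ itz x n = z}, ?_, ?_⟩
  · rw [mem_map, mem_atTop_sets]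
    exact ⟨_, fun n hn => ⟨n, hn, rfl⟩⟩
  · rintro a ⟨m, hm, rfl⟩ b ⟨n, hn, rfl⟩
    rw [Valuation.restrict_lt_iff_lt_embedding]
    refine lt_of_le_of_lt ((ge_wv_iff v _ _).1 (itz_pair (isVal_wv v) hx _ n m hn hm)) ?_
    rw [← hg, ← WithZero.lt_log_iff_exp_lt hg0]
    have := Int.self_le_toNat (- WithZero.log g)
    linarith

theorem sq_wv (v : Pl k) (x : Kv v) (hx : Ge (wv v) 1 x) : IsSquare (1 + 4 * x) := by
  obtain ⟨z, hz⟩ := cauchySeq_tendsto_of_complete (itz_cauchy v x hx)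
  have h1 : Tendsto (fun n => itz x (n + 1)) atTop (𝓝 z) := hz.comp (tendsto_add_atTop_nat 1)
  have h2 : Tendsto (fun n => itz x (n + 1)) atTop (𝓝 (x - z ^ 2)) :=
    (tendsto_const_nhds.sub (hz.pow 2) : Tendsto (fun n => x - itz x n ^ 2) atTop _)
  have h3 := tendsto_nhds_unique h1 h2
  refine ⟨1 + 2 * z, ?_⟩
  linear_combination 4 * (-h3)

theorem fin_wv (v : Pl k) :
    ∃ R : Finset (Kv v), ∀ x, Ge (wv v) 0 x → ∃ r ∈ R, Ge (wv v) 1 (x - r) := by
  classical
  have hfin : Finite (𝓞 k ⧸ v.asIdeal) := Ring.HasFiniteQuotients.finiteQuotient v.ne_bot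
  have : Fintype (𝓞 k ⧸ v.asIdeal) := Fintype.ofFinite _
  refine ⟨Finset.univ.image (fun c : 𝓞 k ⧸ v.asIdeal => cv v (Quotient.out c : 𝓞 k)), ?_⟩
  intro x hx
  obtain ⟨y, hy⟩ := dense_cv v x 1
  have hy0 : Ge (od v) 0 y := by
    rw [← ge_cv]
    have := (isVal_wv v).ge_sub hx (hy.mono zero_le_one)
    simpa using this
  obtain ⟨r, hr⟩ := v.exists_valuation_sub_lt_of_integer (K := k) (x := y)
    (by have := (ge_od_iff v 0 y).1 hy0; simpa using this) 1
  have hr1 : Ge (od v) 1 ((r : k) - y) := by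
    by_cases h0 : (r : k) - y = 0
    · exact Or.inl h0
    · refine Or.inr ?_
      have h1 : 0 < od v ((r : k) - y) := (od_pos_iff v h0).2 (by simpa using hr)
      omega
  set c : 𝓞 k ⧸ v.asIdeal := Ideal.Quotient.mk v.asIdeal r with hc
  have hc1 : Ge (od v) 1 (((Quotient.out c : 𝓞 k) - r : 𝓞 k) : k) := by
    rw [ge_one_iff_mem, ← Ideal.Quotient.eq, ← hc]
    exact Ideal.Quotient.mk_out c
  refine ⟨cv v (Quotient.out c : 𝓞 k), Finset.mem_image.2 ⟨c, Finset.mem_univ _, rfl⟩, ?_⟩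
  have h2 : x - cv v (Quotient.out c : 𝓞 k) =
      (x - cv v y) - cv v ((r : k) - y) - cv v (((Quotient.out c : 𝓞 k) - r : 𝓞 k) : k) := by
    push_cast
    rw [map_sub, map_sub]
    ring
  rw [h2]
  exact (isVal_wv v).ge_sub ((isVal_wv v).ge_sub hy ((ge_cv v 1 _).2 hr1)) ((ge_cv v 1 _).2 hc1)

theorem isLoc_wv (v : Pl k) : IsLoc (wv v) where
  toIsVal := isVal_wv v
  two := by
    have h : (2 : Kv v) = cv v 2 := by rw [map_ofNat]
    rw [h, Ne, cv_eq_zero]
    exact two_ne_zero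
  sq := sq_wv v
  fin := fin_wv v

theorem wv_two (v : Pl k) : wv v 2 = od v 2 := by
  have h : (2 : Kv v) = cv v 2 := by rw [map_ofNat]
  rw [h, wv_cv]

end UDN
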