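import Pool.Agent.UDN.GrpA

/-!
# UDN: the index lemma for involutions (a Herbrand quotient)

PROOF of `inv_index` (involution).  `P = U⁺`, `M = U⁻`, `N x = x σ x`, `D x = x / σ x`.  Let
`B = P ⊔ M`; `B` contains all squares (`x ^ 2 = N x * D x`), so it has finite index.  `N` maps `B`
onto `P ^ 2` (`N (p m) = p ^ 2`) and `ker N = M ≤ B`, so
`[N U : P ^ 2] = [U : B]`; in the same way `[D U : M ^ 2] = [U : B]` (`D (p m) = m ^ 2`,
`ker D = P`).  So `[P : P ^ 2] = [P : N U] [U : B]` and `[M : M ^ 2] = [M : D U] [U : B]`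
(`Subgroup.relIndex_mul_relIndex`), and
`[P : N U] [M : M ^ 2] = [P : N U] [M : D U] [U : B] = [M : D U] [P : P ^ 2]`.

PROOF of `inv_rank`.  The homomorphism `N : U → U`, `N x = x σ x`, has kernel `M` and its image is
between `P ^ 2` and `P`, so it has the rank of `P` (finitely generated groups; `P / P ^ 2` is finite, or:
`finrank` of a submodule containing `2 • ⊤` is `finrank ⊤`); the rank is additive
(`Submodule.finrank_quotient_add_finrank`, `LinearMap.finrank_range_add_finrank_ker` for `ℤ`-modules;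
`Additive`).
-/

set_option autoImplicit false

namespace UDN

section involution

variable {U : Type*} [CommGroup U] (σ : U ≃* U)

/-- the fixed elements -/
def Pl' : Subgroup U where
  carrier := {x | σ x = x}
  one_mem' := map_one σ
  mul_mem' {x y} hx hy := by
    change σ (x * y) = x * y
    rw [map_mul, show σ x = x from hx, show σ y = y from hy]
  inv_mem' {x} hx := by
    change σ x⁻¹ = x⁻¹
    rw [map_inv, show σ x = x from hx]

/-- the elements of norm one -/
def Mi' : Subgroup U where
  carrier := {x | x * σ x = 1}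
  one_mem' := by
    change (1 : U) * σ 1 = 1
    rw [map_one, one_mul]
  mul_mem' {x y} hx hy := by
    change x * y * σ (x * y) = 1
    rw [map_mul, mul_mul_mul_comm, show x * σ x = 1 from hx, show y * σ y = 1 from hy, one_mul]
  inv_mem' {x} hx := by
    change x⁻¹ * σ x⁻¹ = 1
    rw [map_inv, ← mul_inv, show x * σ x = 1 from hx, inv_one]

/-- the norms -/
def NN' : Subgroup U := ((MonoidHom.id U) * σ.toMonoidHom).range

/-- the quotients `x / σ x` -/
def DD' : Subgroup U := ((MonoidHom.id U) / σ.toMonoidHom).range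

theorem mem_NN' {x : U} : x ∈ NN' σ ↔ ∃ y, y * σ y = x := Iff.rfl

theorem mem_DD' {x : U} : x ∈ DD' σ ↔ ∃ y, y / σ y = x := Iff.rfl

theorem NN'_le (hσ : ∀ x, σ (σ x) = x) : NN' σ ≤ Pl' σ := by
  rintro x ⟨y, rfl⟩
  show σ (y * σ y) = y * σ y
  rw [map_mul, hσ, mul_comm]

theorem DD'_le (hσ : ∀ x, σ (σ x) = x) : DD' σ ≤ Mi' σ := by
  rintro x ⟨y, rfl⟩
  show y / σ y * σ (y / σ y) = 1
  rw [map_div, hσ]
  simp

/-- the index lemma for involutions -/
theorem inv_index (hσ : ∀ x, σ (σ x) = x) (hf : (powMonoidHom 2 : U →* U).range.index ≠ 0) :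
    (NN' σ).relIndex (Pl' σ) * (U2 (Mi' σ)).relIndex (Mi' σ)
      = (DD' σ).relIndex (Mi' σ) * (U2 (Pl' σ)).relIndex (Pl' σ) := by
  set N : U →* U := (MonoidHom.id U) * σ.toMonoidHom with hN
  set D : U →* U := (MonoidHom.id U) / σ.toMonoidHom with hD
  have hNa : ∀ x, N x = x * σ x := fun x => rfl
  have hDa : ∀ x, D x = x / σ x := fun x => rfl
  have hkN : N.ker = Mi' σ := by
    ext x
    rw [MonoidHom.mem_ker]
    exact Iff.rfl
  have hkD : D.ker = Pl' σ := by
    ext x
    rw [MonoidHom.mem_ker, hDa, div_eq_one]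
    exact ⟨fun h => h.symm, fun h => Eq.symm h⟩
  have h1 : (Pl' σ).map N = U2 (Pl' σ) := by
    ext x
    rw [mem_U2, Subgroup.mem_map]
    refine exists_congr fun y => and_congr_right fun hy => ?_
    have : σ y = y := hy
    rw [hNa, this, pow_two]
  have h2 : (Mi' σ).map D = U2 (Mi' σ) := by
    ext x
    rw [mem_U2, Subgroup.mem_map]
    refine exists_congr fun y => and_congr_right fun hy => ?_
    have : y * σ y = 1 := hy
    have h3 : σ y = y⁻¹ := (inv_eq_of_mul_eq_one_right this).symm
    rw [hDa, h3, div_inv_eq_mul, pow_two]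
  have h3 : (U2 (Pl' σ)).relIndex (NN' σ) = (Pl' σ ⊔ Mi' σ).index := by
    have h4 : NN' σ = (⊤ : Subgroup U).map N := by
      rw [← MonoidHom.range_eq_map]; rfl
    rw [h4, ← h1, Subgroup.relIndex_map_map, hkN, top_sup_eq, Subgroup.relIndex_top_right]
  have h4 : (U2 (Mi' σ)).relIndex (DD' σ) = (Pl' σ ⊔ Mi' σ).index := by
    have h5 : DD' σ = (⊤ : Subgroup U).map D := by
      rw [← MonoidHom.range_eq_map]; rfl
    rw [h5, ← h2, Subgroup.relIndex_map_map, hkD, top_sup_eq, Subgroup.relIndex_top_right,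
      sup_comm]
  have h5 : U2 (Pl' σ) ≤ NN' σ := by
    rw [← h1]
    exact (Subgroup.map_le_range _ _)
  have h6 : U2 (Mi' σ) ≤ DD' σ := by
    rw [← h2]
    exact (Subgroup.map_le_range _ _)
  rw [← Subgroup.relIndex_mul_relIndex _ _ _ h5 (NN'_le σ hσ),
    ← Subgroup.relIndex_mul_relIndex _ _ _ h6 (DD'_le σ hσ), h3, h4]
  ring

/-- the rank of the group is the sum of the ranks of the plus and the minus parts -/
theorem inv_rank (hσ : ∀ x, σ (σ x) = x) [Module.Finite ℤ (Additive U)] :
    Module.finrank ℤ (Additive U)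
      = Module.finrank ℤ (Additive (Pl' σ)) + Module.finrank ℤ (Additive (Mi' σ)) := by
  have hmem : ∀ x : U, x * σ x ∈ Pl' σ := fun x => NN'_le σ hσ ⟨x, rfl⟩
  let g0 : U →* Pl' σ :=
    { toFun := fun x => ⟨x * σ x, hmem x⟩
      map_one' := by ext; simp
      map_mul' := fun x y => by
        ext
        simp only [map_mul, Subgroup.coe_mul]
        exact mul_mul_mul_comm _ _ _ _ }
  let g : Additive U →ₗ[ℤ] Additive (Pl' σ) := g0.toAdditive.toIntLinearMap
  have hg : ∀ x : U, g (Additive.ofMul x) = Additive.ofMul (g0 x) := fun x => rfl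
  -- inclusion of the plus part
  let inc : Additive (Pl' σ) →ₗ[ℤ] Additive U := (Pl' σ).subtype.toAdditive.toIntLinearMap
  have hinc : Function.Injective inc := by
    intro x y h
    have h1 : ((Additive.toMul x : Pl' σ) : U) = ((Additive.toMul y : Pl' σ) : U) := h
    exact Additive.toMul.injective (Subtype.ext h1)
  haveI : Module.Finite ℤ (Additive (Pl' σ)) := Module.Finite.of_injective inc hinc
  have e1 := Submodule.finrank_quotient_add_finrank (R := ℤ) (LinearMap.ker g)
  have e2 := Submodule.finrank_quotient_add_finrank (R := ℤ) (LinearMap.range g)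
  have e3 : Module.finrank ℤ (Additive U ⧸ LinearMap.ker g) =
      Module.finrank ℤ (LinearMap.range g) := g.quotKerEquivRange.finrank_eq
  have e4 : Module.finrank ℤ (Additive (Pl' σ) ⧸ LinearMap.range g) = 0 := by
    rw [Module.finrank_eq_zero_iff_isTorsion]
    intro x
    obtain ⟨y, rfl⟩ := Submodule.Quotient.mk_surjective _ x
    refine ⟨⟨2, by simp⟩, ?_⟩
    show (2 : ℤ) • (Submodule.Quotient.mk y : Additive (Pl' σ) ⧸ LinearMap.range g) = 0
    rw [← Submodule.Quotient.mk_smul, Submodule.Quotient.mk_eq_zero]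
    refine ⟨inc y, ?_⟩
    have h1 : σ ((Additive.toMul y : Pl' σ) : U) = ((Additive.toMul y : Pl' σ) : U) :=
      (Additive.toMul y : Pl' σ).2
    apply Additive.toMul.injective
    apply Subtype.ext
    show ((Additive.toMul y : Pl' σ) : U) * σ ((Additive.toMul y : Pl' σ) : U) =
      ((Additive.toMul ((2 : ℤ) • y) : Pl' σ) : U)
    rw [h1]
    have h2 : ((Additive.toMul ((2 : ℤ) • y) : Pl' σ) : U) =
        ((Additive.toMul y : Pl' σ) : U) ^ (2 : ℤ) := rfl
    rw [h2, zpow_two]
  have e5 : Module.finrank ℤ (LinearMap.ker g) = Module.finrank ℤ (Additive (Mi' σ)) := by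
    have hk : ∀ x : Additive U, x ∈ LinearMap.ker g ↔ Additive.toMul x ∈ Mi' σ := by
      intro x
      rw [LinearMap.mem_ker]
      constructor
      · intro h
        have := congrArg (fun y : Additive (Pl' σ) => ((Additive.toMul y : Pl' σ) : U)) h
        exact this
      · intro h
        apply Additive.toMul.injective
        apply Subtype.ext
        exact h
    let e : (LinearMap.ker g) ≃+ Additive (Mi' σ) :=
      { toFun := fun x => Additive.ofMul ⟨Additive.toMul (x : Additive U), (hk _).1 x.2⟩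
        invFun := fun x => ⟨Additive.ofMul ((Additive.toMul x : Mi' σ) : U),
          (hk _).2 (Additive.toMul x : Mi' σ).2⟩
        left_inv := fun x => rfl
        right_inv := fun x => rfl
        map_add' := fun x y => rfl }
    exact e.toIntLinearEquiv.finrank_eq
  omega

end involution

end UDN
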