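import Pool.Agent.UDN.PlD

/-!
# UDN: the number of the places of `L = k (√a)`

PROOF of `abv_card` : above `v ∈ S` there are exactly two places (`w ≠ sg w`) if `a ∈ Sq v` and exactly
one if not (`exists_above`, `pl_trans`, `split_iff`).  Sum over `v ∈ S`
(`abv L S` is the disjoint union of the fibers of `bel`).
PROOF of `inf_card` : Galois extension of degree two;
`NumberField.InfinitePlace.card_eq_card_isUnramifiedIn`: the number of the infinite places of `L` is
`2 * (number of unramified v) + (number of ramified v)`; `v` is ramified iff `v` is real and the places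
above are complex iff `a` is negative at `v`, i.e. `a ∉ SqI v`: if `v` is real, `w` above `v` real then
`a = δ ^ 2 > 0` at `w`; if `v` is real and `a > 0` at `v` then an embedding `L → ℂ` above the real
embedding of `v` maps `δ` to a square root of a positive real number, so it is real.
-/

set_option autoImplicit false

open IsDedekindDomain NumberField

namespace UDN

variable {k L : Type*} [Field k] [NumberField k] [Field L] [NumberField L] [Algebra k L] {a : kˣ}

theorem abv_single (E : QExt k L a) (v : Pl k) :
    (abv L {v}).ncard + {u | u ∈ ({v} : Set (Pl k)) ∧ a ∉ Sq u}.ncard = 2 := by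
  obtain ⟨w, hw⟩ := exists_above L v
  have hset : abv L {v} = {w, sg E w} := by
    ext w'
    constructor
    · intro h
      have h1 : bel k w' = v := h
      have h2 : bel k w = bel k w' := by rw [hw, h1]
      rcases pl_trans E h2 with h3 | h3
      · exact Or.inl h3
      · exact Or.inr h3
    · rintro (h | h)
      · rw [h]; exact hw
      · have h' : w' = sg E w := h
        change bel k w' = v
        rw [h', bel_sg, hw]
  by_cases ha : a ∈ Sq v
  · have h1 : sg E w ≠ w := (split_iff E w).1 (by rw [hw]; exact ha)
    have h2 : {u | u ∈ ({v} : Set (Pl k)) ∧ a ∉ Sq u} = ∅ := by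
      ext u
      constructor
      · rintro ⟨h3, h4⟩
        have h3' : u = v := h3
        rw [h3'] at h4
        exact absurd ha h4
      · intro h3; exact absurd h3 (Set.notMem_empty u)
    rw [hset, h2, Set.ncard_empty, Set.ncard_pair h1.symm]
  · have h1 : sg E w = w := by
      by_contra h
      apply ha
      rw [← hw]
      exact (split_iff E w).2 h
    have h2 : {u | u ∈ ({v} : Set (Pl k)) ∧ a ∉ Sq u} = {v} := by
      ext u
      constructor
      · rintro ⟨h3, -⟩; exact h3
      · intro h3
        have h3' : u = v := h3
        refine ⟨h3, ?_⟩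
        rw [h3']; exact ha
    rw [hset, h2, h1, Set.pair_eq_singleton, Set.ncard_singleton, Set.ncard_singleton]

theorem abv_card (E : QExt k L a) {S : Set (Pl k)} (hS : S.Finite) :
    (abv L S).ncard + {v | v ∈ S ∧ a ∉ Sq v}.ncard = 2 * S.ncard := by
  induction S, hS using Set.Finite.induction_on with
  | empty =>
    have h1 : abv L (∅ : Set (Pl k)) = ∅ := by
      ext w
      constructor
      · intro h; exact absurd h (Set.notMem_empty (bel k w))
      · intro h; exact absurd h (Set.notMem_empty w)
    have h2 : {v | v ∈ (∅ : Set (Pl k)) ∧ a ∉ Sq v} = ∅ := by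
      ext v
      constructor
      · rintro ⟨h, -⟩; exact absurd h (Set.notMem_empty v)
      · intro h; exact absurd h (Set.notMem_empty v)
    rw [h1, h2, Set.ncard_empty, Set.ncard_empty]
  | @insert v S hv hS ih =>
    have h1 : abv L (insert v S) = abv L {v} ∪ abv L S := by
      ext w
      constructor
      · rintro (h | h)
        · exact Or.inl h
        · exact Or.inr h
      · rintro (h | h)
        · exact Or.inl h
        · exact Or.inr h
    have h1d : Disjoint (abv L ({v} : Set (Pl k))) (abv L S) := by
      rw [Set.disjoint_left]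
      intro w hw1 hw2
      have h3 : bel k w = v := hw1
      have h4 : bel k w ∈ S := hw2
      rw [h3] at h4
      exact hv h4
    have h2 : {u | u ∈ insert v S ∧ a ∉ Sq u} =
        {u | u ∈ ({v} : Set (Pl k)) ∧ a ∉ Sq u} ∪ {u | u ∈ S ∧ a ∉ Sq u} := by
      ext u
      constructor
      · rintro ⟨h | h, h'⟩
        · exact Or.inl ⟨h, h'⟩
        · exact Or.inr ⟨h, h'⟩
      · rintro (⟨h, h'⟩ | ⟨h, h'⟩)
        · exact ⟨Or.inl h, h'⟩
        · exact ⟨Or.inr h, h'⟩
    have h2d : Disjoint {u | u ∈ ({v} : Set (Pl k)) ∧ a ∉ Sq u} {u | u ∈ S ∧ a ∉ Sq u} := by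
      rw [Set.disjoint_left]
      rintro u ⟨hu1, -⟩ ⟨hu2, -⟩
      have h3 : u = v := hu1
      rw [h3] at hu2
      exact hv hu2
    have h3 := abv_single E v
    rw [h1, h2, Set.ncard_union_eq h1d (abv_finite L (Set.finite_singleton v)) (abv_finite L hS),
      Set.ncard_union_eq h2d ((Set.finite_singleton v).subset fun u hu => hu.1)
        (hS.subset fun u hu => hu.1), Set.ncard_insert_of_notMem hv hS]
    omega

/-- a complex number whose square is a positive real number is real -/
theorem conj_eq_of_sq {d : ℂ} {t : ℝ} (ht : 0 < t) (h : d ^ 2 = (t : ℂ)) :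
    (starRingEnd ℂ) d = d := by
  have h1 := congrArg Complex.re h
  have h2 := congrArg Complex.im h
  rw [sq, Complex.mul_re, Complex.ofReal_re] at h1
  rw [sq, Complex.mul_im, Complex.ofReal_im] at h2
  rw [Complex.conj_eq_iff_im]
  by_contra h3
  have h4 : d.re * d.im = 0 := by linarith
  rcases mul_eq_zero.1 h4 with h5 | h5
  · rw [h5] at h1
    nlinarith [mul_self_nonneg d.im]
  · exact h3 h5

theorem unr_iff (E : QExt k L a) (v : InfinitePlace k) :
    v.IsUnramifiedIn L ↔ a ∈ SqI v := by
  have := E.isGalois
  obtain ⟨w, rfl⟩ := InfinitePlace.comap_surjective (K := L) v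
  change (w.comap (algebraMap k L)).IsUnramifiedIn L ↔ a ∈ SqI (w.comap (algebraMap k L))
  rw [InfinitePlace.isUnramifiedIn_comap, InfinitePlace.isUnramified_iff, mem_sqI]
  constructor
  · rintro (hw | hw) h
    · have h1 : ((InfinitePlace.embedding_of_isReal h (a : k) : ℝ) : ℂ) =
          ((InfinitePlace.embedding_of_isReal hw E.δ : ℝ) : ℂ) ^ 2 := by
        rw [InfinitePlace.embedding_of_isReal_apply, InfinitePlace.embedding_of_isReal_apply,
          InfinitePlace.comap_embedding_of_isReal _ h, RingHom.comp_apply, ← E.sq, map_pow]
      have h2 : InfinitePlace.embedding_of_isReal h (a : k) =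
          InfinitePlace.embedding_of_isReal hw E.δ ^ 2 := by
        exact_mod_cast h1
      have h3 : InfinitePlace.embedding_of_isReal h (a : k) ≠ 0 := by
        rw [Ne, map_eq_zero]; exact a.ne_zero
      rw [h2] at h3 ⊢
      exact lt_of_le_of_ne (sq_nonneg _) h3.symm
    · exact absurd h (InfinitePlace.not_isReal_iff_isComplex.2 hw)
  · intro h
    by_cases hr : (w.comap (algebraMap k L)).IsReal
    · left
      have hpos := h hr
      have hreal : ∀ p : k, (starRingEnd ℂ) (w.embedding (algebraMap k L p)) =
          w.embedding (algebraMap k L p) := by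
        intro p
        have h1 : w.embedding (algebraMap k L p) =
            ((InfinitePlace.embedding_of_isReal hr p : ℝ) : ℂ) := by
          rw [InfinitePlace.embedding_of_isReal_apply,
            InfinitePlace.comap_embedding_of_isReal _ hr, RingHom.comp_apply]
        rw [h1, Complex.conj_ofReal]
      have hd : (starRingEnd ℂ) (w.embedding E.δ) = w.embedding E.δ := by
        apply conj_eq_of_sq hpos
        rw [InfinitePlace.embedding_of_isReal_apply,
            InfinitePlace.comap_embedding_of_isReal _ hr, RingHom.comp_apply, ← E.sq, map_pow]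
      rw [InfinitePlace.isReal_iff, ComplexEmbedding.isReal_iff]
      ext z
      obtain ⟨p, q, rfl⟩ := E.span z
      rw [ComplexEmbedding.conjugate_coe_eq, map_add, map_mul, map_add, map_mul, hreal, hreal, hd]
    · right
      exact InfinitePlace.not_isReal_iff_isComplex.1 hr

theorem inf_card (E : QExt k L a) :
    Nat.card (InfinitePlace L) + Nat.card {v : InfinitePlace k // a ∉ SqI v}
      = 2 * Nat.card (InfinitePlace k) := by
  classical
  have hG := E.isGalois
  have h1 := InfinitePlace.card_eq_card_isUnramifiedIn k L
  rw [E.finrank_eq] at h1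
  have h2 : ({w : InfinitePlace k | w.IsUnramifiedIn L} : Finset (InfinitePlace k)) =
      ({w : InfinitePlace k | a ∈ SqI w} : Finset (InfinitePlace k)) := by
    ext v
    rw [Finset.mem_filter_univ, Finset.mem_filter_univ, unr_iff E]
  rw [h2] at h1
  have h3 := Finset.card_add_card_compl
    ({w : InfinitePlace k | a ∈ SqI w} : Finset (InfinitePlace k))
  have h4 : Nat.card {v : InfinitePlace k // a ∉ SqI v} =
      (({w : InfinitePlace k | a ∈ SqI w} : Finset (InfinitePlace k))ᶜ).card := by
    rw [Nat.card_eq_fintype_card, Fintype.card_subtype]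
    congr 1
    ext v
    simp
  rw [Nat.card_eq_fintype_card (α := InfinitePlace L),
    Nat.card_eq_fintype_card (α := InfinitePlace k), h4]
  omega

theorem sz_abv (E : QExt k L a) {S : Set (Pl k)} (hS : S.Finite) :
    sz (abv L S) + ns a S = 2 * sz S := by
  unfold sz ns
  have h1 := abv_card E hS
  have h2 := inf_card E
  omega

end UDN
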