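import Pool.Agent.UDN.H1
import Pool.Agent.UDN.PlCnt
import Pool.Agent.UDN.SUnit
import Pool.Agent.UDN.GrpB

/-!
# UDN: the index of the norms of the S-units

PROOF of `count`.  `U = Un (abv L S)` as a group (type), `τ : U ≃* U` the involution induced by `σ`
(`σ` permutes the places above `S`: `od_sg`, `bel_sg`).  `un_finite`, `un_rank`, `un_index` for `L` and
`abv L S` (`abv_finite`).  Let `s = sz S`, `s' = sz (abv L S) = 2 s - ns a S` (`sz_abv`).
* `P = Pl' τ` is isomorphic to `Un S` by `um k L` (`QExt.mem_of_fixed`, `map_mem_un`), `NN' τ`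
  corresponds to `NU E S`; so `(NN' τ).relIndex P = (NU E S).relIndex (Un S)`,
  `(U2 P).relIndex P = 2 ^ s`, `finrank P = s - 1`.
* `M = Mi' τ` : `inv_rank` : `finrank M = (s' - 1) - (s - 1) = s' - s`; the elements of `M` with square
  `1` are `1` and `-1` (`-1 ∈ M`), so `relIndex_sq_fg` : `(U2 M).relIndex M = 2 ^ (s' - s) * 2`.
* `(DD' τ).relIndex M = 1` by `h1` (`DD' τ = M`).
* `inv_index` : `(NU E S).relIndex (Un S) * 2 ^ (s' - s + 1) = 2 ^ s`, and `s' - s = s - ns a S`
  (`ns a S ≤ s`), so `2 * (NU E S).relIndex (Un S) = 2 ^ ns a S`.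
-/

set_option autoImplicit false

open IsDedekindDomain NumberField

namespace UDN

variable {k L : Type*} [Field k] [NumberField k] [Field L] [NumberField L] [Algebra k L] {a : kˣ}

/-- `σ` on the S-units of `L` -/
theorem sigma_mem_un (E : QExt k L a) {S : Set (Pl k)} {z : Lˣ} (hz : z ∈ Un (abv L S)) :
    Units.map (E.σ : L →* L) z ∈ Un (abv L S) := by
  intro w hw
  show od w (E.σ (z : L)) = 0
  rw [← od_sg]
  refine hz _ fun h => hw ?_
  have h1 : bel k (sg E w) ∈ S := h
  rw [bel_sg] at h1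
  exact h1

theorem nu_le_un (E : QExt k L a) (S : Set (Pl k)) : NU E S ≤ Un S := by
  rintro x ⟨z, hz, hx⟩
  rw [← map_mem_un (L := L)]
  have h1 : Units.map (algebraMap k L).toMonoidHom x = z * Units.map (E.σ : L →* L) z := by
    ext
    exact hx.symm
  rw [h1]
  exact mul_mem hz (sigma_mem_un E hz)

theorem um_inj : Function.Injective (um k L) := by
  intro x y h
  have h1 : algebraMap k L x = algebraMap k L y := congrArg (fun u : Lˣ => (u : L)) h
  exact Units.ext ((algebraMap k L).injective h1)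

theorem U2_map {G H : Type*} [CommGroup G] [CommGroup H] (f : G →* H) (K : Subgroup G) :
    (U2 K).map f = U2 (K.map f) := by
  ext x
  rw [mem_U2, Subgroup.mem_map]
  constructor
  · rintro ⟨y, hy, rfl⟩
    obtain ⟨t, ht, rfl⟩ := mem_U2.1 hy
    exact ⟨f t, ⟨t, ht, rfl⟩, by rw [map_pow]⟩
  · rintro ⟨y, ⟨t, ht, rfl⟩, rfl⟩
    exact ⟨t ^ 2, mem_U2.2 ⟨t, ht, rfl⟩, by rw [map_pow]⟩

/-- a group which embeds in the units of a field of characteristic zero and contains `-1` -/
theorem card_sq_one {G : Type*} [CommGroup G] (f : G →* Lˣ) (hf : Function.Injective f) (e : G)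
    (he : ((f e : Lˣ) : L) = -1) : Nat.card {x : G // x ^ 2 = 1} = 2 := by
  rw [Nat.card_eq_two_iff]
  have he2 : e ^ 2 = 1 := by
    apply hf
    rw [map_pow, map_one]
    ext
    rw [Units.val_pow_eq_pow_val, he]
    simp
  refine ⟨⟨1, one_pow 2⟩, ⟨e, he2⟩, ?_, ?_⟩
  · intro h
    have h1 : (1 : G) = e := congrArg Subtype.val h
    rw [← h1, map_one, Units.val_one] at he
    have h2 : (2 : L) = 0 := by linear_combination he
    exact two_ne_zero h2
  · rw [Set.eq_univ_iff_forall]
    rintro ⟨x, hx⟩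
    have h1 : ((f x : Lˣ) : L) ^ 2 = 1 := by
      rw [← Units.val_pow_eq_pow_val, ← map_pow, hx, map_one, Units.val_one]
    rcases sq_eq_one_iff_of_ne_zero' h1 with h | h
    · left
      apply Subtype.ext
      apply hf
      rw [map_one]
      exact Units.ext h
    · right
      apply Subtype.ext
      apply hf
      exact Units.ext (h.trans he.symm)
where
  sq_eq_one_iff_of_ne_zero' {x : L} (h : x ^ 2 = 1) : x = 1 ∨ x = -1 := by
    exact sq_eq_one_iff_of_side_cond h
  sq_eq_one_iff_of_side_cond {x : L} (h : x ^ 2 = 1) : x = 1 ∨ x = -1 := by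
    have h1 : (x - 1) * (x + 1) = 0 := by linear_combination h
    rcases mul_eq_zero.1 h1 with h2 | h2
    · exact Or.inl (sub_eq_zero.1 h2)
    · exact Or.inr (eq_neg_of_add_eq_zero_left h2)

/-- THE INDEX OF THE NORMS OF THE S-UNITS -/
theorem count (E : QExt k L a) {S : Set (Pl k)} (hS : GoodS S) (ha : a ∈ Un S) :
    2 * (NU E S).relIndex (Un S) = 2 ^ ns a S := by
  have hfinS := abv_finite L hS.fin
  haveI hfin : Module.Finite ℤ (Additive (Un (abv L S))) := un_finite hfinS
  let τ : Un (abv L S) ≃* Un (abv L S) :=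
    { toFun := fun z => ⟨Units.map (E.σ : L →* L) z, sigma_mem_un E z.2⟩
      invFun := fun z => ⟨Units.map (E.σ : L →* L) z, sigma_mem_un E z.2⟩
      left_inv := fun z => by
        apply Subtype.ext
        apply Units.ext
        exact E.sigma_sigma _
      right_inv := fun z => by
        apply Subtype.ext
        apply Units.ext
        exact E.sigma_sigma _
      map_mul' := fun z t => by
        apply Subtype.ext
        exact map_mul _ _ _ }
  have hτv : ∀ z : Un (abv L S), (((τ z : Un (abv L S)) : Lˣ) : L) = E.σ ((z : Lˣ) : L) :=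
    fun z => rfl
  have hτ : ∀ z, τ (τ z) = z := τ.left_inv
  set f : Un (abv L S) →* Lˣ := (Un (abv L S)).subtype with hfd
  have hf : Function.Injective f := Subtype.val_injective
  have hg := um_inj (k := k) (L := L)
  -- the element -1
  have hm1 : (-1 : Lˣ) ∈ Un (abv L S) := by
    intro w _
    rw [Units.val_neg, Units.val_one, (isVal_od w).neg_one]
  -- the plus part
  have hP : (Pl' τ).map f = (Un S).map (um k L) := by
    ext x
    rw [Subgroup.mem_map, Subgroup.mem_map]
    constructor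
    · rintro ⟨z, hz, rfl⟩
      have h1 : E.σ ((z : Lˣ) : L) = ((z : Lˣ) : L) := by
        rw [← hτv, show τ z = z from hz]
      obtain ⟨p, hp⟩ := E.mem_of_fixed h1
      have hp0 : p ≠ 0 := by
        rintro rfl
        rw [map_zero] at hp
        exact (z : Lˣ).ne_zero hp
      have h2 : um k L (Units.mk0 p hp0) = (z : Lˣ) := Units.ext hp.symm
      refine ⟨Units.mk0 p hp0, ?_, h2⟩
      rw [← map_mem_un (L := L)]
      show um k L _ ∈ _
      rw [h2]
      exact z.2
    · rintro ⟨p, hp, rfl⟩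
      refine ⟨⟨um k L p, map_mem_un.2 hp⟩, ?_, rfl⟩
      show τ _ = _
      apply Subtype.ext
      apply Units.ext
      exact E.σ.commutes _
  have hN : (NN' τ).map f = (NU E S).map (um k L) := by
    ext x
    rw [Subgroup.mem_map, Subgroup.mem_map]
    constructor
    · rintro ⟨y, hy, rfl⟩
      obtain ⟨z, rfl⟩ := (mem_NN' τ).1 hy
      have h1 : E.σ (((z : Lˣ) : L) * E.σ ((z : Lˣ) : L)) = ((z : Lˣ) : L) * E.σ ((z : Lˣ) : L) := by
        rw [map_mul, E.sigma_sigma, mul_comm]
      obtain ⟨p, hp⟩ := E.mem_of_fixed h1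
      have hp0 : p ≠ 0 := by
        rintro rfl
        rw [map_zero] at hp
        rcases mul_eq_zero.1 hp with h | h
        · exact (z : Lˣ).ne_zero h
        · exact (z : Lˣ).ne_zero ((map_eq_zero _).1 h)
      exact ⟨Units.mk0 p hp0, ⟨(z : Lˣ), z.2, hp⟩, Units.ext hp.symm⟩
    · rintro ⟨p, ⟨z, hz, hp⟩, rfl⟩
      refine ⟨(⟨z, hz⟩ : Un (abv L S)) * τ ⟨z, hz⟩, (mem_NN' τ).2 ⟨⟨z, hz⟩, rfl⟩, ?_⟩
      apply Units.ext
      exact hp
  have e1 : (NN' τ).relIndex (Pl' τ) = (NU E S).relIndex (Un S) := by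
    rw [← Subgroup.relIndex_map_map_of_injective _ _ hf, hP, hN,
      Subgroup.relIndex_map_map_of_injective _ _ hg]
  have e2 : (U2 (Pl' τ)).relIndex (Pl' τ) = 2 ^ sz S := by
    rw [← Subgroup.relIndex_map_map_of_injective _ _ hf, U2_map, hP, ← U2_map,
      Subgroup.relIndex_map_map_of_injective _ _ hg]
    exact un_index hS.fin
  have e3 : Module.finrank ℤ (Additive (Pl' τ)) + 1 = sz S := by
    rw [← un_rank hS.fin]
    congr 1
    let eq1 : Pl' τ ≃* Un S := ((Pl' τ).equivMapOfInjective f hf).trans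
      ((MulEquiv.subgroupCongr hP).trans ((Un S).equivMapOfInjective (um k L) hg).symm)
    exact (MulEquiv.toAdditive eq1).toIntLinearEquiv.finrank_eq
  have e4 : Module.finrank ℤ (Additive (Un (abv L S))) + 1 = sz (abv L S) := un_rank hfinS
  have e5 := sz_abv E hS.fin
  have e6 := inv_rank τ hτ
  -- the minus part
  haveI hfinM : Module.Finite ℤ (Additive (Mi' τ)) := by
    let inc : Additive (Mi' τ) →ₗ[ℤ] Additive (Un (abv L S)) :=
      (Mi' τ).subtype.toAdditive.toIntLinearMap
    have hinc : Function.Injective inc := by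
      intro x y h
      have h1 : ((Additive.toMul x : Mi' τ) : Un (abv L S)) =
        ((Additive.toMul y : Mi' τ) : Un (abv L S)) := h
      exact Additive.toMul.injective (Subtype.ext h1)
    exact Module.Finite.of_injective inc hinc
  have hm2 : (⟨-1, hm1⟩ : Un (abv L S)) ∈ Mi' τ := by
    show (⟨-1, hm1⟩ : Un (abv L S)) * τ ⟨-1, hm1⟩ = 1
    apply Subtype.ext
    apply Units.ext
    show ((-1 : Lˣ) : L) * E.σ (((-1 : Lˣ)) : L) = 1
    rw [Units.val_neg, Units.val_one, map_neg, map_one]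
    norm_num
  have e7 : (U2 (Mi' τ)).relIndex (Mi' τ) = 2 ^ Module.finrank ℤ (Additive (Mi' τ)) * 2 := by
    rw [relIndex_sq_fg]
    congr 1
    refine card_sq_one (L := L) (f.comp (Mi' τ).subtype) (hf.comp Subtype.val_injective)
      ⟨⟨-1, hm1⟩, hm2⟩ ?_
    show ((-1 : Lˣ) : L) = -1
    rw [Units.val_neg, Units.val_one]
  have e8 : (DD' τ).relIndex (Mi' τ) = 1 := by
    have h1 : DD' τ = Mi' τ := by
      refine le_antisymm (DD'_le τ hτ) ?_
      intro z hz
      have h2 : ((z : Lˣ) : L) * E.σ ((z : Lˣ) : L) = 1 := by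
        have h3 : z * τ z = 1 := hz
        have h4 := congrArg (fun u : Un (abv L S) => ((u : Lˣ) : L)) h3
        exact h4
      obtain ⟨y, hy, hy2⟩ := h1 E hS ha z.2 h2
      refine (mem_DD' τ).2 ⟨⟨y, hy⟩, ?_⟩
      rw [div_eq_iff_eq_mul]
      apply Subtype.ext
      apply Units.ext
      exact hy2.symm
    rw [h1, Subgroup.relIndex_self]
  have hidx : (powMonoidHom 2 : Un (abv L S) →* Un (abv L S)).range.index ≠ 0 := by
    rw [index_sq_fg, card_sq_one (L := L) f hf ⟨-1, hm1⟩ (by
      show ((-1 : Lˣ) : L) = -1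
      rw [Units.val_neg, Units.val_one])]
    positivity
  have key := inv_index τ hτ hidx
  rw [e1, e2, e7, e8, one_mul] at key
  have h9 : Module.finrank ℤ (Additive (Mi' τ)) + ns a S = sz S := by omega
  rw [← h9, pow_add] at key
  have h10 : 0 < 2 ^ Module.finrank ℤ (Additive (Mi' τ)) := by positivity
  have h11 : 2 ^ Module.finrank ℤ (Additive (Mi' τ)) * (2 * (NU E S).relIndex (Un S)) =
      2 ^ Module.finrank ℤ (Additive (Mi' τ)) * 2 ^ ns a S := by
    rw [← key]; ring
  exact Nat.eq_of_mul_eq_mul_left h10 h11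

end UDN
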