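import Pool.Agent.UDN.Base

/-!
# UDN: places, local squares, local norms, S-units, quadratic extensions (definitions)

* `Kv v`, `wv v` : the completion at the finite place `v` and its normalized valuation;
* `Plc k` : all places (`inl` : finite, `inr` : infinite);
* `SqP P` : the elements of `kˣ` which are squares in the completion at `P`;
* `NmP a P` : the elements of `kˣ` which are norms from `k_P (√a)`;
* `Un S` : the `S`-units; `sz S` : the number of the places in `S` plus the infinite ones;
* `GoodS S` : `S` finite, contains the dyadic places and generates the class group;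
* `SqS S`, `NmS a S` : local squares, local norms at all places of `S` and all infinite places;
* `ns a S` : the number of the places of `S` or infinite where `a` is not a local square;
* `QExt k L a` : `L = k (√a)`, `a` not a square, with its automorphism `σ`;
* `bel w` : the place of `k` below the place `w` of `L`; `abv S` : the places above `S`.
-/

set_option autoImplicit false

open IsDedekindDomain NumberField

namespace UDN

section places

variable (k : Type*) [Field k] [NumberField k]

/-- the completion -/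
abbrev Kv {k : Type*} [Field k] [NumberField k] (v : Pl k) := v.adicCompletion k

/-- all places -/
abbrev Plc := Pl k ⊕ InfinitePlace k

variable {k}

/-- the normalized valuation of the completion -/
noncomputable def wv (v : Pl k) (x : Kv v) : ℤ := - WithZero.log (Valued.v x)

/-- the embedding in the completion -/
noncomputable def cv (v : Pl k) : k →+* Kv v := algebraMap k (Kv v)

/-- the local squares at a finite place -/
def Sq (v : Pl k) : Subgroup kˣ where
  carrier := {x | IsSquare (cv v x)}
  one_mem' := ⟨1, by simp⟩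
  mul_mem' := by
    rintro x y hx hy
    change IsSquare (cv v ((x * y : kˣ) : k))
    rw [Units.val_mul, map_mul]
    exact IsSquare.mul hx hy
  inv_mem' := by
    rintro x ⟨r, hr⟩
    refine ⟨r⁻¹, ?_⟩
    rw [Units.val_inv_eq_inv_val, map_inv₀, hr, mul_inv]

/-- the local squares (= positive elements) at an infinite place -/
def SqI (v : InfinitePlace k) : Subgroup kˣ where
  carrier := {x | ∀ h : v.IsReal, 0 < InfinitePlace.embedding_of_isReal h (x : k)}
  one_mem' := fun h => by simp
  mul_mem' := by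
    intro x y hx hy h
    rw [Units.val_mul, map_mul]
    exact mul_pos (hx h) (hy h)
  inv_mem' := by
    intro x hx h
    rw [Units.val_inv_eq_inv_val, map_inv₀]
    exact inv_pos.2 (hx h)

/-- the local squares -/
def SqP : Plc k → Subgroup kˣ
  | Sum.inl v => Sq v
  | Sum.inr v => SqI v

/-- the local norms from `k_v (√a)` at a finite place -/
def Nm (a : kˣ) (v : Pl k) : Subgroup kˣ where
  carrier := {x | Sy (cv v a) (cv v x)}
  one_mem' := by
    change Sy (cv v a) (cv v ((1 : kˣ) : k))
    rw [Units.val_one, map_one]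
    exact sy_one _
  mul_mem' := by
    rintro x y hx hy
    change Sy (cv v a) (cv v ((x * y : kˣ) : k))
    rw [Units.val_mul, map_mul]
    exact Sy.mul hx hy
  inv_mem' := by
    rintro x hx
    change Sy (cv v a) (cv v ((x⁻¹ : kˣ) : k))
    rw [Units.val_inv_eq_inv_val, map_inv₀]
    exact Sy.inv hx

/-- the local norms at an infinite place -/
def NmI (a : kˣ) (v : InfinitePlace k) : Subgroup kˣ where
  carrier := {x | a ∈ SqI v ∨ x ∈ SqI v}
  one_mem' := Or.inr (one_mem _)
  mul_mem' := by
    rintro x y (hx | hx) (hy | hy)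
    · exact Or.inl hx
    · exact Or.inl hx
    · exact Or.inl hy
    · exact Or.inr (mul_mem hx hy)
  inv_mem' := by
    rintro x (hx | hx)
    · exact Or.inl hx
    · exact Or.inr (inv_mem hx)

/-- the local norms from `k_P (√a)` -/
def NmP (a : kˣ) : Plc k → Subgroup kˣ
  | Sum.inl v => Nm a v
  | Sum.inr v => NmI a v

/-- the `S`-units -/
def Un (S : Set (Pl k)) : Subgroup kˣ where
  carrier := {x | ∀ v, v ∉ S → od v (x : k) = 0}
  one_mem' := fun v _ => by rw [Units.val_one, (isVal_od v).one]
  mul_mem' := by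
    intro x y hx hy v hv
    rw [Units.val_mul, (isVal_od v).mul _ _ x.ne_zero y.ne_zero, hx v hv, hy v hv, add_zero]
  inv_mem' := by
    intro x hx v hv
    rw [Units.val_inv_eq_inv_val, (isVal_od v).inv, hx v hv, neg_zero]

/-- the number of the places of `S` and the infinite places -/
noncomputable def sz (S : Set (Pl k)) : ℕ := S.ncard + Nat.card (InfinitePlace k)

/-- `S` is finite, contains the dyadic places and generates the class group -/
structure GoodS (S : Set (Pl k)) : Prop where
  fin : S.Finite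
  dy : ∀ v, od v (2 : k) ≠ 0 → v ∈ S
  cl : ∀ v, v ∉ S → ∃ c : kˣ, od v (c : k) = 1 ∧ ∀ u, u ∉ S → u ≠ v → od u (c : k) = 0

/-- local squares at `S` and at infinity -/
def SqS (S : Set (Pl k)) : Subgroup kˣ :=
  (⨅ v ∈ S, Sq v) ⊓ ⨅ v : InfinitePlace k, SqI v

/-- local norms at `S` and at infinity -/
def NmS (a : kˣ) (S : Set (Pl k)) : Subgroup kˣ :=
  (⨅ v ∈ S, Nm a v) ⊓ ⨅ v : InfinitePlace k, NmI a v

/-- the number of the places of `S` and the infinite places where `a` is not a local square -/
noncomputable def ns (a : kˣ) (S : Set (Pl k)) : ℕ :=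
  {v | v ∈ S ∧ a ∉ Sq v}.ncard + Nat.card {v : InfinitePlace k // a ∉ SqI v}

theorem mem_sqS {S : Set (Pl k)} {x : kˣ} :
    x ∈ SqS S ↔ (∀ v ∈ S, x ∈ Sq v) ∧ ∀ v : InfinitePlace k, x ∈ SqI v := by
  simp [SqS, Subgroup.mem_inf, Subgroup.mem_iInf]

theorem mem_nmS {a : kˣ} {S : Set (Pl k)} {x : kˣ} :
    x ∈ NmS a S ↔ (∀ v ∈ S, x ∈ Nm a v) ∧ ∀ v : InfinitePlace k, x ∈ NmI a v := by
  simp [NmS, Subgroup.mem_inf, Subgroup.mem_iInf]

theorem mem_un {S : Set (Pl k)} {x : kˣ} : x ∈ Un S ↔ ∀ v, v ∉ S → od v (x : k) = 0 := Iff.rfl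

theorem mem_sq {v : Pl k} {x : kˣ} : x ∈ Sq v ↔ IsSquare (cv v x) := Iff.rfl

theorem mem_nm {a : kˣ} {v : Pl k} {x : kˣ} : x ∈ Nm a v ↔ Sy (cv v a) (cv v x) := Iff.rfl

theorem mem_sqI {v : InfinitePlace k} {x : kˣ} :
    x ∈ SqI v ↔ ∀ h : v.IsReal, 0 < InfinitePlace.embedding_of_isReal h (x : k) := Iff.rfl

theorem mem_nmI {a : kˣ} {v : InfinitePlace k} {x : kˣ} :
    x ∈ NmI a v ↔ a ∈ SqI v ∨ x ∈ SqI v := Iff.rfl

theorem un_mono {S T : Set (Pl k)} (h : S ⊆ T) : Un S ≤ Un T := fun _ hx v hv =>
  hx v (fun hS => hv (h hS))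

theorem GoodS.mono {S T : Set (Pl k)} (h : GoodS S) (hST : S ⊆ T) (hT : T.Finite) : GoodS T where
  fin := hT
  dy v hv := hST (h.dy v hv)
  cl v hv := by
    obtain ⟨c, h1, h2⟩ := h.cl v (fun hS => hv (hST hS))
    exact ⟨c, h1, fun u hu huv => h2 u (fun hS => hu (hST hS)) huv⟩

theorem sq_mem_sqP (x : kˣ) (P : Plc k) : x ^ 2 ∈ SqP P := by
  cases P with
  | inl v => exact ⟨cv v x, by rw [Units.val_pow_eq_pow_val, map_pow, sq]⟩
  | inr v =>
    intro h
    rw [Units.val_pow_eq_pow_val, map_pow]
    exact pow_pos_of_ne_zero' x h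
where
  pow_pos_of_ne_zero' {v : InfinitePlace k} (x : kˣ) (h : v.IsReal) :
      0 < (InfinitePlace.embedding_of_isReal h (x : k)) ^ 2 := by
    have : InfinitePlace.embedding_of_isReal h (x : k) ≠ 0 := by
      rw [Ne, map_eq_zero]
      exact x.ne_zero
    positivity

end places

/-! ### quadratic extensions -/

/-- `L = k (√a)` -/
structure QExt (k L : Type*) [Field k] [Field L] [Algebra k L] (a : kˣ) where
  δ : L
  sq : δ ^ 2 = algebraMap k L a
  σ : L ≃ₐ[k] L
  σδ : σ δ = -δ
  span : ∀ z : L, ∃ p q : k, z = algebraMap k L p + algebraMap k L q * δ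
  nsq : ¬ IsSquare (a : k)

section below

variable (k : Type*) {L : Type*} [Field k] [NumberField k] [Field L] [NumberField L] [Algebra k L]

/-- the place of `k` below -/
noncomputable def bel (w : Pl L) : Pl k where
  asIdeal := w.asIdeal.under (𝓞 k)
  isPrime := w.isPrime.under _
  ne_bot := by
    intro h
    exact w.ne_bot (Ideal.eq_bot_of_comap_eq_bot (R := 𝓞 k) h)

variable {k}

/-- the places of `L` above `S` -/
def abv (L : Type*) [Field L] [NumberField L] [Algebra k L] (S : Set (Pl k)) : Set (Pl L) :=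
  {w | bel k w ∈ S}

/-- the norms of the `S`-units of `L = k (√a)` -/
def NU {a : kˣ} (E : QExt k L a) (S : Set (Pl k)) : Subgroup kˣ where
  carrier := {x | ∃ z : Lˣ, z ∈ Un (abv L S) ∧ (z : L) * E.σ z = algebraMap k L x}
  one_mem' := ⟨1, one_mem _, by simp⟩
  mul_mem' := by
    rintro x y ⟨z, hz, h1⟩ ⟨t, ht, h2⟩
    refine ⟨z * t, mul_mem hz ht, ?_⟩
    rw [Units.val_mul, Units.val_mul, map_mul, map_mul, ← h1, ← h2]
    ring
  inv_mem' := by
    rintro x ⟨z, hz, h1⟩
    refine ⟨z⁻¹, inv_mem hz, ?_⟩
    rw [Units.val_inv_eq_inv_val, Units.val_inv_eq_inv_val, map_inv₀, map_inv₀, ← h1, mul_inv]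

end below

end UDN
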