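import Pool.Agent.UDN.Defs

/-!
# UDN: existence of good sets

PROOF of `exists_good`.  The class group is finite.  For every class `C` choose a nonzero ideal `J_C`
of `𝓞 k` in the class `C⁻¹` (`ClassGroup.mk0_surjective`).  Let `S` contain `T`, the dyadic places
(finite, `od_finite` for `2`) and all primes dividing one of the `J_C` (`Ideal.finite_factors`).  For
`v ∉ S`, `v.asIdeal * J_C` (`C` = the class of `v.asIdeal`) is principal, generated by an integer
`c ≠ 0` (`ClassGroup.mk0_eq_one_iff`); then `od v c = 1` (`v` does not divide `J_C`) and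
`od u c = 0` for `u ∉ S`, `u ≠ v` (`HeightOneSpectrum.intValuation_le_pow_iff_dvd`,
`ge_one_iff_mem`).
-/

set_option autoImplicit false

open IsDedekindDomain NumberField

namespace UDN

variable {k : Type*} [Field k] [NumberField k]

theorem exists_good {T : Set (Pl k)} (hT : T.Finite) : ∃ S : Set (Pl k), T ⊆ S ∧ GoodS S := by
  classical
  have hJ : ∀ C : ClassGroup (𝓞 k), ∃ J : nonZeroDivisors (Ideal (𝓞 k)),
      ClassGroup.mk0 J = C⁻¹ := fun C => ClassGroup.mk0_surjective C⁻¹
  choose J hJ using hJ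
  refine ⟨T ∪ ({v | od v (2 : k) ≠ 0} ∪ ⋃ C, {v : Pl k | v.asIdeal ∣ (J C : Ideal (𝓞 k))}),
    Set.subset_union_left, ?_, ?_, ?_⟩
  · refine hT.union ((od_finite two_ne_zero).union ?_)
    apply Set.finite_iUnion
    intro C
    exact Ideal.finite_factors (nonZeroDivisors.coe_ne_zero (J C))
  · intro v hv
    exact Or.inr (Or.inl hv)
  · intro v hv
    have hvJ : ∀ C, ¬ v.asIdeal ∣ (J C : Ideal (𝓞 k)) := fun C h =>
      hv (Or.inr (Or.inr (Set.mem_iUnion.2 ⟨C, h⟩)))
    obtain ⟨V, hV⟩ : ∃ V : nonZeroDivisors (Ideal (𝓞 k)), (V : Ideal (𝓞 k)) = v.asIdeal :=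
      ⟨⟨v.asIdeal, mem_nonZeroDivisors_of_ne_zero v.ne_bot⟩, rfl⟩
    have h1 : ClassGroup.mk0 (V * J (ClassGroup.mk0 V)) = 1 := by
      rw [map_mul, hJ, mul_inv_cancel]
    rw [ClassGroup.mk0_eq_one_iff] at h1
    obtain ⟨c, hc⟩ := h1
    have hc' : v.asIdeal * (J (ClassGroup.mk0 V) : Ideal (𝓞 k)) = Ideal.span {c} := by
      rw [← hV]
      exact hc
    have hc0 : c ≠ 0 := by
      rintro rfl
      have h2 := nonZeroDivisors.coe_ne_zero (V * J (ClassGroup.mk0 V))
      apply h2
      change (V : Ideal (𝓞 k)) * (J (ClassGroup.mk0 V) : Ideal (𝓞 k)) = 0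
      rw [hV, hc', Ideal.span_singleton_eq_bot.2 rfl]
      rfl
    have hck : (c : k) ≠ 0 := by
      intro h
      apply hc0
      exact_mod_cast h
    have hdvd : ∀ u : Pl k, c ∈ u.asIdeal ↔
        u.asIdeal ∣ v.asIdeal * (J (ClassGroup.mk0 V) : Ideal (𝓞 k)) := by
      intro u
      rw [hc', Ideal.dvd_span_singleton]
    refine ⟨Units.mk0 (c : k) hck, ?_, ?_⟩
    · rw [Units.val_mk0]
      have h3 : Ge (od v) 1 (c : k) := by
        rw [ge_one_iff_mem, hdvd]
        exact dvd_mul_right _ _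
      have h4 : ¬ Ge (od v) 2 (c : k) := by
        rw [ge_od_iff]
        intro h5
        have h6 : v.intValuation c ≤ WithZero.exp (-((2 : ℕ) : ℤ)) := by
          have h7 := v.valuation_of_algebraMap (K := k) c
          rw [← h7]
          exact_mod_cast h5
        rw [v.intValuation_le_pow_iff_dvd, ← hc', pow_two] at h6
        exact hvJ _ ((mul_dvd_mul_iff_left v.ne_bot).1 h6)
      rw [ge_iff hck] at h3 h4
      omega
    · intro u hu huv
      rw [Units.val_mk0]
      have h3 : ¬ Ge (od u) 1 (c : k) := by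
        rw [ge_one_iff_mem, hdvd]
        intro h4
        rcases (u.prime.dvd_mul).1 h4 with h5 | h5
        · apply huv
          apply HeightOneSpectrum.ext
          exact associated_iff_eq.1
            ((u.irreducible.dvd_irreducible_iff_associated v.irreducible).1 h5)
        · exact hu (Or.inr (Or.inr (Set.mem_iUnion.2 ⟨_, h5⟩)))
      have h4 := od_nonneg_int u c
      rw [ge_iff hck] at h3 h4
      omega

/-- a good set containing given elements as S-units -/
theorem exists_good_un (L : Finset kˣ) : ∃ S : Set (Pl k), GoodS S ∧ ∀ x ∈ L, x ∈ Un S := by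
  classical
  have hfin : (⋃ x ∈ L, {v : Pl k | od v (x : k) ≠ 0}).Finite :=
    L.finite_toSet.biUnion (fun x _ => od_finite x.ne_zero)
  obtain ⟨S, hS, hg⟩ := exists_good hfin
  refine ⟨S, hg, fun x hx v hv => ?_⟩
  by_contra h
  exact hv (hS (Set.mem_biUnion hx h))

end UDN
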