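import Pool.Agent.UDN.PlD

/-!
# UDN: Hilbert 90 for the S-units

PROOF of `h1`.  `QExt.hilbert90`: `y ≠ 0` in `L` with `z σ y = y`.  For `w` not above `S`:
`od w y = od w (σ y) = od (sg w) y`.  So (`pl_trans`) for `v ∉ S` the number `n v = od w y`, `w` any
place above `v` (`exists_above`), does not depend on `w`; `n v = 0` for almost all `v` (`od_finite`,
every `v` has a place above and `bel` maps the finite set onto).  By `GoodS.cl` (product over the
finitely many `v ∉ S` with `n v ≠ 0` of `c_v ^ (n v)`) there is `c : kˣ` with `od v c = n v` for all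
`v ∉ S`.  By `od_eq_of_unr` (`v ∉ S` is not dyadic and `od v a = 0`) `od w c = od v c = n v = od w y`,
so `y / c ∈ Un (abv L S)` and `z σ (y / c) = y / c`.
-/

set_option autoImplicit false

open IsDedekindDomain NumberField

namespace UDN

variable {k L : Type*} [Field k] [NumberField k] [Field L] [NumberField L] [Algebra k L] {a : kˣ}

private theorem ord_family_fin {S : Set (Pl k)} (hS : GoodS S) (n : Pl k → ℤ) [DecidableEq (Pl k)]
    (T : Finset (Pl k)) :
    ∃ c : kˣ, ∀ v, v ∉ S → od v (c : k) = if v ∈ T then n v else 0 := by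
  induction T using Finset.induction_on with
  | empty =>
    refine ⟨1, fun v _ => ?_⟩
    rw [if_neg (Finset.notMem_empty v), Units.val_one, (isVal_od v).one]
  | insert v0 T hv0 ih =>
    obtain ⟨c, hc⟩ := ih
    by_cases h0 : v0 ∈ S
    · refine ⟨c, fun v hv => ?_⟩
      have hne : v ≠ v0 := fun h => hv (h ▸ h0)
      rw [hc v hv]
      by_cases hT : v ∈ T
      · rw [if_pos hT, if_pos (Finset.mem_insert_of_mem hT)]
      · rw [if_neg hT, if_neg]
        rw [Finset.mem_insert]
        rintro (h | h)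
        · exact hne h
        · exact hT h
    · obtain ⟨c0, h1, h2⟩ := hS.cl v0 h0
      refine ⟨c * c0 ^ (n v0), fun v hv => ?_⟩
      rw [Units.val_mul, (isVal_od v).mul _ _ c.ne_zero (Units.ne_zero _), hc v hv,
        Units.val_zpow_eq_zpow_val, (isVal_od v).zpow]
      by_cases hvv : v = v0
      · subst hvv
        rw [h1, if_neg hv0, if_pos (Finset.mem_insert_self _ _)]
        ring
      · rw [h2 v hv hvv, mul_zero, add_zero]
        by_cases hT : v ∈ T
        · rw [if_pos hT, if_pos (Finset.mem_insert_of_mem hT)]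
        · rw [if_neg hT, if_neg]
          rw [Finset.mem_insert]
          rintro (h | h)
          · exact hvv h
          · exact hT h

/-- an element with prescribed orders outside of a good set -/
theorem exists_ord_family {S : Set (Pl k)} (hS : GoodS S) (n : Pl k → ℤ)
    (hn : {v | n v ≠ 0}.Finite) : ∃ c : kˣ, ∀ v, v ∉ S → od v (c : k) = n v := by
  classical
  obtain ⟨c, hc⟩ := ord_family_fin hS n hn.toFinset
  refine ⟨c, fun v hv => ?_⟩
  rw [hc v hv]
  by_cases h : n v = 0
  · rw [if_neg, h]
    rw [Set.Finite.mem_toFinset]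
    exact fun h' => h' h
  · rw [if_pos]
    rw [Set.Finite.mem_toFinset]
    exact h

theorem h1 (E : QExt k L a) {S : Set (Pl k)} (hS : GoodS S) (ha : a ∈ Un S) {z : Lˣ}
    (hz : z ∈ Un (abv L S)) (hn : (z : L) * E.σ z = 1) :
    ∃ y : Lˣ, y ∈ Un (abv L S) ∧ (z : L) * E.σ y = y := by
  obtain ⟨y, hy0, hy⟩ := E.hilbert90 hn
  have hσy : E.σ y ≠ 0 := by
    intro h
    rw [h, mul_zero] at hy
    exact hy0 hy.symm
  have hsg : ∀ w : Pl L, w ∉ abv L S → od (sg E w) y = od w y := by
    intro w hw
    rw [od_sg]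
    have h1 : od w y = od w ((z : L) * E.σ y) := by rw [hy]
    rw [h1, (isVal_od w).mul _ _ z.ne_zero hσy, hz w hw, zero_add]
  obtain ⟨wa, hwa⟩ : ∃ wa : Pl k → Pl L, ∀ v, bel k (wa v) = v :=
    ⟨fun v => (exists_above L v).choose, fun v => (exists_above L v).choose_spec⟩
  have hkey : ∀ w : Pl L, w ∉ abv L S → od (wa (bel k w)) y = od w y := by
    intro w hw
    rcases pl_trans E (w := w) (w' := wa (bel k w)) (hwa (bel k w)).symm with h | h
    · rw [h]
    · rw [h]
      exact hsg w hw
  have hfin : {v : Pl k | od (wa v) y ≠ 0}.Finite := by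
    refine ((od_finite (k := L) hy0).image (bel k)).subset ?_
    intro v hv
    exact ⟨wa v, hv, hwa v⟩
  obtain ⟨c, hc⟩ := exists_ord_family hS (fun v => od (wa v) y) hfin
  have hc0 : algebraMap k L (c : k) ≠ 0 := by
    rw [Ne, map_eq_zero]
    exact c.ne_zero
  refine ⟨Units.mk0 (y / algebraMap k L (c : k)) (div_ne_zero hy0 hc0), fun w hw => ?_, ?_⟩
  · have hv : bel k w ∉ S := hw
    have h2 : od (bel k w) (2 : k) = 0 := by
      by_contra h
      exact hv (hS.dy _ h)
    have ha' : od (bel k w) (a : k) = 0 := ha _ hv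
    rw [Units.val_mk0, (isVal_od w).div hy0 hc0, od_eq_of_unr E h2 ha' (c : k), hc _ hv,
      hkey w hw, sub_self]
  · rw [Units.val_mk0, map_div₀, E.σ.commutes, ← mul_div_assoc, hy]

end UDN
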