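import Pool.Agent.UDN.Key
import Pool.Agent.UDN.GoodEx

/-!
# UDN: THE HASSE NORM THEOREM FOR QUADRATIC EXTENSIONS

PROOF of `hasse_S`.  `exists_aux` gives `T`; `S' = S ∪ T` is good; `E : QExt k L a`; `s = sz S`,
`sz S' = s + T.ncard = 2 s - 1` (`S`, `T` disjoint), `r = ns a S = ns a S'` (`a ∈ Sq v` on `T`).
Let `A = SqS S`, `B = NmS a S`, `U = Un S'` (subgroups of `kˣ`), `A ≤ B`.
(1) `A ⊓ U = U2 U` : `key_square` (`b = y ^ 2`, then `y ∈ U`), and squares are in `A`.  So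
`A.relIndex U = 2 ^ (2 s - 1)` (`un_index`).
(2) `A.index ≤ 4 ^ s`, `≠ 0` (`sqS_index`), and `A.index = A.relIndex (U ⊔ A) * (U ⊔ A).index`,
`A.relIndex (U ⊔ A) = A.relIndex U` (`Subgroup.relIndex_sup_right`), so `(U ⊔ A).index ≤ 2`, and
`(U ⊔ B).index ≤ 2`.
(3) `2 ^ r ≤ B.index` (`nmS_index`) `= B.relIndex U * (U ⊔ B).index ≤ 2 * B.relIndex U`.
(4) `count E` for `S'` : `2 * (NU E S').relIndex U = 2 ^ r`; and `NU E S' ≤ B ⊓ U` (global norms are
local norms), so `(NU E S').relIndex U = (NU E S').relIndex (B ⊓ U) * (B ⊓ U).relIndex U`.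
So `(NU E S').relIndex (B ⊓ U) ≤ 1`, i.e. `B ⊓ U ≤ NU E S'`.  `b ∈ B ⊓ U`, so `b = z σ z`
(`QExt.exists_norm`).
PROOF of `hasse_norm` : if `a` is a square `sy_of_isSquare`; otherwise `exists_good_un {a, b}`.
-/

set_option autoImplicit false

open IsDedekindDomain NumberField

namespace UDN

variable {k : Type*} [Field k] [NumberField k]

theorem hasse_S {S : Set (Pl k)} (hS : GoodS S) {a b : kˣ} (ha : a ∈ Un S) (hb : b ∈ Un S)
    (hns : ¬ IsSquare (a : k)) (h : b ∈ NmS a S) : ∃ p q : k, p ^ 2 - a * q ^ 2 = b := by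
  classical
  obtain ⟨T, hT, hd, hTc, hTa, hD⟩ := exists_aux hS ha hns
  obtain ⟨L, _, _, _, ⟨E⟩⟩ := exists_qext k a hns
  have hS' : GoodS (S ∪ T) := hS.mono Set.subset_union_left (hS.fin.union hT)
  have hUU : Un S ≤ Un (S ∪ T) := un_mono Set.subset_union_left
  have hsz : sz (S ∪ T) = sz S + T.ncard := by
    unfold sz
    rw [Set.ncard_union_eq hd hS.fin hT]
    ring
  have hset : {v | v ∈ S ∪ T ∧ a ∉ Sq v} = {v | v ∈ S ∧ a ∉ Sq v} := by
    ext v
    constructor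
    · rintro ⟨hv | hv, h2⟩
      · exact ⟨hv, h2⟩
      · exact absurd (hTa v hv) h2
    · rintro ⟨hv, h2⟩
      exact ⟨Or.inl hv, h2⟩
  have hr : ns a (S ∪ T) = ns a S := by
    unfold ns
    rw [hset]
  -- (1)
  have hAU : (SqS S).relIndex (Un (S ∪ T)) = 2 ^ sz (S ∪ T) := by
    rw [← un_index hS'.fin, ← Subgroup.inf_relIndex_right]
    congr 1
    apply le_antisymm
    · rintro x ⟨hx1, hx2⟩
      obtain ⟨y, hy⟩ := key_square hS hT hd hD hx2 hx1
      have hy0 : y ≠ 0 := by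
        rintro rfl
        exact x.ne_zero (by rw [hy, mul_zero])
      refine mem_U2.2 ⟨Units.mk0 y hy0, ?_, ?_⟩
      · intro v hv
        have h1 := hx2 v hv
        rw [hy, (isVal_od v).mul _ _ hy0 hy0] at h1
        rw [Units.val_mk0]
        linarith
      · ext
        rw [Units.val_pow_eq_pow_val, Units.val_mk0, hy, sq]
    · intro x hx
      obtain ⟨y, hy, rfl⟩ := mem_U2.1 hx
      have h1 : y ^ 2 ∈ SqS S :=
        mem_sqS.2 ⟨fun v _ => sq_mem_sqP y (Sum.inl v), fun v => sq_mem_sqP y (Sum.inr v)⟩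
      exact ⟨h1, pow_mem hy 2⟩
  -- (2)
  obtain ⟨hA0, hA4⟩ := sqS_index hS
  have hAB : SqS S ≤ NmS a S := by
    intro x hx
    rw [mem_sqS] at hx
    rw [mem_nmS]
    exact ⟨fun v hv => sq_le_nm a v (hx.1 v hv), fun v => sqI_le_nmI a v (hx.2 v)⟩
  have h2 : (SqS S).relIndex (Un (S ∪ T) ⊔ SqS S) * (Un (S ∪ T) ⊔ SqS S).index = (SqS S).index :=
    Subgroup.relIndex_mul_index le_sup_right
  rw [Subgroup.relIndex_sup_right, hAU, hsz] at h2
  have hc : (Un (S ∪ T) ⊔ SqS S).index ≤ 2 := by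
    have h3 : 2 ^ (sz S + T.ncard) * (Un (S ∪ T) ⊔ SqS S).index ≤ 2 ^ (sz S + T.ncard) * 2 := by
      rw [h2, ← pow_succ]
      refine hA4.trans (le_of_eq ?_)
      rw [show (4 : ℕ) = 2 ^ 2 by norm_num, ← pow_mul]
      congr 1
      omega
    exact Nat.le_of_mul_le_mul_left h3 (by positivity)
  have hc' : (Un (S ∪ T) ⊔ NmS a S).index ≤ 2 := by
    refine le_trans ?_ hc
    refine Nat.le_of_dvd (Nat.pos_of_ne_zero ?_)
      (Subgroup.index_dvd_of_le (sup_le_sup_left hAB _))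
    intro h0
    rw [h0, mul_zero] at h2
    exact hA0 h2.symm
  -- (3)
  obtain ⟨hB0, hB2⟩ := nmS_index a hS
  have h3 : (NmS a S).relIndex (Un (S ∪ T) ⊔ NmS a S) * (Un (S ∪ T) ⊔ NmS a S).index
      = (NmS a S).index := Subgroup.relIndex_mul_index le_sup_right
  rw [Subgroup.relIndex_sup_right] at h3
  -- (4)
  have h4 := count E hS' (hUU ha)
  rw [hr] at h4
  have hNB : NU E (S ∪ T) ≤ NmS a S ⊓ Un (S ∪ T) := by
    refine le_inf ?_ (nu_le_un E _)
    rintro x ⟨z, _, hz⟩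
    obtain ⟨p, q, _, h5⟩ := E.exists_norm (z : L)
    have h6 : (x : k) = p ^ 2 - a * q ^ 2 :=
      (algebraMap k L).injective (by rw [← hz, h5])
    rw [mem_nmS]
    exact ⟨fun v _ => norm_mem_nm h6 v, fun v => norm_mem_nmI h6 v⟩
  have h5 : (NU E (S ∪ T)).relIndex (NmS a S ⊓ Un (S ∪ T)) *
      (NmS a S ⊓ Un (S ∪ T)).relIndex (Un (S ∪ T)) = (NU E (S ∪ T)).relIndex (Un (S ∪ T)) :=
    Subgroup.relIndex_mul_relIndex _ _ _ hNB inf_le_right
  rw [Subgroup.inf_relIndex_right] at h5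
  have h6 : (NU E (S ∪ T)).relIndex (NmS a S ⊓ Un (S ∪ T)) = 1 := by
    set X := (NU E (S ∪ T)).relIndex (NmS a S ⊓ Un (S ∪ T))
    set Y := (NmS a S).relIndex (Un (S ∪ T))
    set Z := (NU E (S ∪ T)).relIndex (Un (S ∪ T))
    have h7 : 2 ^ ns a S ≤ 2 * Y := by
      calc 2 ^ ns a S ≤ (NmS a S).index := hB2
        _ = Y * (Un (S ∪ T) ⊔ NmS a S).index := h3.symm
        _ ≤ Y * 2 := Nat.mul_le_mul_left _ hc'
        _ = 2 * Y := mul_comm _ _
    have h8 : Z ≤ Y := by omega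
    have hpos : 0 < Z := by
      have : 0 < 2 ^ ns a S := by positivity
      omega
    have hX0 : X ≠ 0 := by
      intro h0
      rw [h0, zero_mul] at h5
      omega
    by_contra hX1
    have hX2 : 2 ≤ X := by omega
    have h9 : 2 * Y ≤ X * Y := Nat.mul_le_mul_right _ hX2
    rw [h5] at h9
    omega
  have h7 : NmS a S ⊓ Un (S ∪ T) ≤ NU E (S ∪ T) := Subgroup.relIndex_eq_one.1 h6
  obtain ⟨z, _, hz⟩ := h7 ⟨h, hUU hb⟩
  obtain ⟨p, q, _, h8⟩ := E.exists_norm (z : L)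
  exact ⟨p, q, (algebraMap k L).injective (by rw [← hz, h8])⟩

/-- THE HASSE NORM THEOREM -/
theorem hasse_norm {a b : kˣ} (hf : ∀ v : Pl k, b ∈ Nm a v)
    (hi : ∀ v : InfinitePlace k, b ∈ NmI a v) : ∃ p q : k, p ^ 2 - a * q ^ 2 = b := by
  classical
  by_cases hns : IsSquare (a : k)
  · exact sy_of_isSquare two_ne_zero a.ne_zero hns b
  · obtain ⟨S, hS, hu⟩ := exists_good_un ({a, b} : Finset kˣ)
    refine hasse_S hS (hu a (by simp)) (hu b (by simp)) hns ?_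
    rw [mem_nmS]
    exact ⟨fun v _ => hf v, hi⟩

end UDN
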