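import Pool.Agent.UDN.AuxP

/-!
# UDN: the key lemma

PROOF of `key_square`.  Suppose `b` is not a square.  `S ∪ T` is good (`GoodS.mono`).  Every
`P ∈ nsP b (S ∪ T)` is of the form `Sum.inl v` with `v ∈ T`, `b ∉ Sq v` (`b ∈ SqS S`).  All `v ∈ T` are
odd (`v ∉ S`).  We construct a dual family `x` and apply `no_dual`.  Let `v ∈ T`, `b ∉ Sq v`.
Case `od v b` odd: `x = u` from `Dual` for `v`: `od v u = 0`, `u ∉ Sq v`, so `u ∉ Nm b v`
(`not_nm_of_odd`), and `u ∈ Sq t ≤ Nm b t` for the other `t ∈ T`.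
Case `od v b` even: let `c` be as in `GoodS.cl` for `v ∉ S`: `od v c = 1`, `od t c = 0` for the other
`t ∈ T`.  There is `u ∈ Un S` with `c * u ∈ Sq t` for all `t ∈ T`, `t ≠ v` : `u` is the product of the
`u_t` (dual family) over the `t ∈ T`, `t ≠ v`, with `c ∉ Sq t` (`u_t ∈ Sq t'` for `t' ≠ t`,
`c * u_t ∈ Sq t` by `sq_mul_of_not`) (`exists_adjust`).  Put `x = c * u`; `od v x = 1` is odd, so
`x ∉ Nm b v` (`nm_iff_even`), and `x ∈ Sq t ≤ Nm b t` for the other `t`.  In both cases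
`x ∈ Un (S ∪ T)`.
-/

set_option autoImplicit false

open IsDedekindDomain NumberField

namespace UDN

variable {k : Type*} [Field k] [NumberField k]

theorem exists_adjust {S T : Set (Pl k)} (hS : GoodS S) (hT : T.Finite) (hd : Disjoint S T)
    (hD : Dual S T) (c : kˣ) (A : Set (Pl k)) (hA : A ⊆ T) (hc : ∀ t ∈ A, od t (c : k) = 0) :
    ∃ u ∈ Un S, ∀ t ∈ A, c * u ∈ Sq t := by
  classical
  have hodd : ∀ t ∈ T, od t (2 : k) = 0 := by
    intro t ht
    by_contra h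
    exact Set.disjoint_left.1 hd (hS.dy t h) ht
  have hex : ∀ t : Pl k, ∃ u : kˣ, t ∈ T → u ∈ Un S ∧ u ∉ Sq t ∧ ∀ r ∈ T, r ≠ t → u ∈ Sq r := by
    intro t
    by_cases ht : t ∈ T
    · obtain ⟨u, hu1, hu2, hu3⟩ := hD t ht
      exact ⟨u, fun _ => ⟨hu1, hu2, hu3⟩⟩
    · exact ⟨1, fun h => absurd h ht⟩
  choose u hu using hex
  set B : Finset (Pl k) := hT.toFinset.filter (fun t => t ∈ A ∧ c ∉ Sq t) with hB
  have hBT : ∀ t ∈ B, t ∈ T ∧ t ∈ A ∧ c ∉ Sq t := by
    intro t ht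
    rw [hB, Finset.mem_filter, Set.Finite.mem_toFinset] at ht
    exact ⟨ht.1, ht.2.1, ht.2.2⟩
  refine ⟨∏ t ∈ B, u t, Subgroup.prod_mem _ fun t ht => (hu t (hBT t ht).1).1, fun t ht => ?_⟩
  have htT := hA ht
  by_cases hct : c ∈ Sq t
  · refine mul_mem hct (Subgroup.prod_mem _ fun r hr => ?_)
    have hr' := hBT r hr
    refine (hu r hr'.1).2.2 t htT ?_
    rintro rfl
    exact hr'.2.2 hct
  · have htB : t ∈ B := by
      rw [hB, Finset.mem_filter, Set.Finite.mem_toFinset]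
      exact ⟨htT, ht, hct⟩
    rw [← Finset.mul_prod_erase B u htB, ← mul_assoc]
    refine mul_mem ?_ (Subgroup.prod_mem _ fun r hr => ?_)
    · refine sq_mul_of_not (hodd t htT) ?_ ?_ hct (hu t htT).2.1
      · rw [hc t ht]
        exact Even.zero
      · rw [(hu t htT).1 t (Set.disjoint_right.1 hd htT)]
        exact Even.zero
    · rw [Finset.mem_erase] at hr
      exact (hu r (hBT r hr.2).1).2.2 t htT hr.1.symm

/-- an `S ∪ T`-unit which is a local square at `S` and at infinity is a square -/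
theorem key_square {S T : Set (Pl k)} (hS : GoodS S) (hT : T.Finite) (hd : Disjoint S T)
    (hD : Dual S T) {b : kˣ} (hb : b ∈ Un (S ∪ T)) (hbS : b ∈ SqS S) : IsSquare (b : k) := by
  classical
  by_contra hns
  have hS' : GoodS (S ∪ T) := hS.mono Set.subset_union_left (hS.fin.union hT)
  have hUU : Un S ≤ Un (S ∪ T) := un_mono Set.subset_union_left
  rw [mem_sqS] at hbS
  have hodd : ∀ t ∈ T, od t (2 : k) = 0 := by
    intro t ht
    by_contra h
    exact Set.disjoint_left.1 hd (hS.dy t h) ht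
  have hnsP : ∀ P ∈ nsP b (S ∪ T), ∃ v, P = Sum.inl v ∧ v ∈ T ∧ b ∉ Sq v := by
    rintro (v | v) hP
    · rcases hP.1 v rfl with h | h
      · exact absurd (hbS.1 v h) hP.2
      · exact ⟨v, rfl, h, hP.2⟩
    · exact absurd (hbS.2 v) hP.2
  have hex : ∀ v ∈ T, b ∉ Sq v → ∃ x ∈ Un (S ∪ T), x ∉ Nm b v ∧ ∀ t ∈ T, t ≠ v → x ∈ Sq t := by
    intro v hv hbv
    rcases Int.even_or_odd (od v (b : k)) with he | ho
    · obtain ⟨c, hc1, hc2⟩ := hS.cl v (Set.disjoint_right.1 hd hv)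
      obtain ⟨u, hu1, hu2⟩ := exists_adjust hS hT hd hD c (T \ {v}) Set.sdiff_subset
        (fun t ht => hc2 t (Set.disjoint_right.1 hd ht.1) ht.2)
      have hod : od v ((c * u : kˣ) : k) = 1 := by
        rw [Units.val_mul, (isVal_od v).mul _ _ c.ne_zero u.ne_zero, hc1,
          hu1 v (Set.disjoint_right.1 hd hv), add_zero]
      refine ⟨c * u, ?_, ?_, fun t ht htv => hu2 t ⟨ht, htv⟩⟩
      · intro t ht
        have htS : t ∉ S := fun h => ht (Or.inl h)
        have htv : t ≠ v := fun h => ht (Or.inr (h ▸ hv))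
        rw [Units.val_mul, (isVal_od t).mul _ _ c.ne_zero u.ne_zero, hc2 t htS htv,
          hu1 t htS, add_zero]
      · rw [nm_iff_even (hodd v hv) he hbv, hod]
        exact Int.not_even_one
    · obtain ⟨u, hu1, hu2, hu3⟩ := hD v hv
      refine ⟨u, hUU hu1, not_nm_of_odd (hodd v hv) ho ?_ hu2, hu3⟩
      rw [hu1 v (Set.disjoint_right.1 hd hv)]
      exact Even.zero
  have hex' : ∀ P : Plc k, ∃ x : kˣ, P ∈ nsP b (S ∪ T) → x ∈ Un (S ∪ T) ∧ x ∉ NmP b P ∧
      ∀ Q ∈ nsP b (S ∪ T), Q ≠ P → x ∈ NmP b Q := by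
    intro P
    by_cases hP : P ∈ nsP b (S ∪ T)
    · obtain ⟨v, rfl, hvT, hbv⟩ := hnsP P hP
      obtain ⟨x, hx1, hx2, hx3⟩ := hex v hvT hbv
      refine ⟨x, fun _ => ⟨hx1, hx2, fun Q hQ hQP => ?_⟩⟩
      obtain ⟨t, rfl, htT, _⟩ := hnsP Q hQ
      exact sq_le_nm b t (hx3 t htT (fun h => hQP (by rw [h])))
    · exact ⟨1, fun h => absurd h hP⟩
  choose x hx using hex'
  exact no_dual hns hS' hb x (fun P hP => (hx P hP).1) (fun P hP => (hx P hP).2.1)
    (fun P hP => (hx P hP).2.2)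

end UDN
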