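import Pool.Agent.UDN.LocRes

/-!
# UDN: units of an abstract local field

PROOFS (`κ = RF h`, a finite field).
* `exists_sqrt_res` : dyadic, `κ` has characteristic two and is finite, so every element is a square
  (`FiniteField.isSquare_of_char_two` or the Frobenius is bijective).
* `as_two` : dyadic; the map `℘ x = x ^ 2 + x` of `κ` is additive with kernel `{0, 1}`, so its image
  has index two: `s`, `t` or `s + t` is in the image.  (Index two: `card κ = card ker * card im`.)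
* `exists_rho` : the map `x ↦ x ^ 2 + x` of `κ` is not injective (`0` and `-1`; `-1 ≠ 0`), so not
  surjective; let `ρ` be integral with residue outside of the image.  (a) `w (1 + 4 ρ) = 0` : if
  `w 2 > 0` clear (`IsVal.add_eq` for `1` and `4 ρ`); if `w 2 = 0` and `Ge w 1 (1 + 4 ρ)`, then
  `x = - 1/2` satisfies `x ^ 2 + x - ρ = - (1 + 4 ρ) / 4`, so `ρ` is in the image.  (b) if
  `1 + 4 ρ = s ^ 2` then `z = (s - 1) / 2` satisfies `z ^ 2 + z = ρ`, `z` is integral (otherwise
  `w (z ^ 2 + z) = 2 w z < 0`), so `ρ` is in the image.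
* `odd_units` : odd; the residues of `x`, `y` are not squares (if `rs x = r ^ 2` then
  `x = R ^ 2 (1 + ...)`, `isSquare_of_close` with `w 2 = 0`), so the residue of `x * y` is a square
  (index two of the squares in `κˣ`; e.g. `FiniteField.isSquare_iff`, or `quadraticChar`), and
  `x * y` is a square by the same argument.
* `odd_form` : `FiniteField.exists_root_sum_quadratic` (odd cardinality).
-/

set_option autoImplicit false

namespace UDN

variable {F : Type*} [Field F] {w : F → ℤ}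

private theorem locA_charTwo (h : IsLoc w) (h2 : 0 < w 2) : CharP (RF h.toIsVal) 2 :=
  CharTwo.of_one_ne_zero_of_two_eq_zero one_ne_zero (rs_two h h2)

private theorem locA_ringChar_ne (h : IsLoc w) (h2 : w 2 = 0) : ringChar (RF h.toIsVal) ≠ 2 := by
  intro h3
  apply rs_two_ne h h2
  have h4 := ringChar.Nat.cast_ringChar (R := RF h.toIsVal)
  rw [h3] at h4
  exact_mod_cast h4

private theorem locA_small_mul (h : IsVal w) {x y : F} (hx : Ge w 1 x) (hy : Ge w 0 y) :
    Ge w 1 (x * y) := by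
  have := h.ge_mul hx hy
  rwa [add_zero] at this

private theorem locA_not_one (h : IsVal w) : ¬ Ge w 1 (1 : F) := by
  intro h1
  rw [ge_iff one_ne_zero, h.one] at h1
  omega

/-- dyadic: integral elements are squares modulo the maximal ideal -/
theorem exists_sqrt_res (h : IsLoc w) (h2 : 0 < w 2) {x : F} (hx : Ge w 0 x) :
    ∃ r, Ge w 0 r ∧ Ge w 1 (x - r ^ 2) := by
  have hfin := finite_RF h
  have := locA_charTwo h h2
  have hrc : ringChar (RF h.toIsVal) = 2 := ringChar.eq_iff.2 this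
  obtain ⟨c, hc⟩ := FiniteField.isSquare_of_char_two hrc (rs h.toIsVal x)
  obtain ⟨r, hr, hrc⟩ := rs_surj h.toIsVal c
  refine ⟨r, hr, ?_⟩
  have hr2 : Ge w 0 (r ^ 2) := by simpa using h.toIsVal.ge_pow hr 2
  rw [← rs_eq_iff h.toIsVal hx hr2, rs_pow h.toIsVal hr, hc, hrc, sq]

/-- The map `x ↦ x ^ 2 + x` in characteristic two. -/
private def asMap {κ : Type*} [Field κ] (h2 : (2 : κ) = 0) : κ →+ κ where
  toFun x := x ^ 2 + x
  map_zero' := by ring
  map_add' x y := by
    have h3 : x * y + x * y = 0 := by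
      rw [← two_mul, h2, zero_mul]
    linear_combination h3

private theorem asMap_index {κ : Type*} [Field κ] [Finite κ] (h2 : (2 : κ) = 0) :
    (asMap h2).range.index = 2 := by
  have h1 := AddSubgroup.card_mul_index (asMap h2).ker
  have h3 := AddSubgroup.card_mul_index (asMap h2).range
  rw [AddSubgroup.index_ker] at h1
  have h4 : Nat.card (asMap h2).ker = 2 := by
    have h5 : ((asMap h2).ker : Set κ) = {0, 1} := by
      ext x
      rw [SetLike.mem_coe, AddMonoidHom.mem_ker]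
      change x ^ 2 + x = 0 ↔ x = 0 ∨ x = 1
      have h6 : x ^ 2 + x = x * (x - 1) + 2 * x := by ring
      rw [h6, h2, zero_mul, add_zero, mul_eq_zero, sub_eq_zero]
    have h6 : Nat.card (asMap h2).ker = Set.ncard ((asMap h2).ker : Set κ) := rfl
    rw [h6, h5, Set.ncard_pair zero_ne_one]
  rw [h4] at h1
  have h5 : 0 < Nat.card (asMap h2).range := Nat.card_pos
  have h6 : Nat.card (asMap h2).range * (asMap h2).range.index
      = Nat.card (asMap h2).range * 2 := by
    rw [h3, ← h1, mul_comm]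
  exact Nat.eq_of_mul_eq_mul_left h5 h6

/-- dyadic: the image of `x ^ 2 + x` has index two modulo the maximal ideal -/
theorem as_two (h : IsLoc w) (h2 : 0 < w 2) {s t : F} (hs : Ge w 0 s) (ht : Ge w 0 t) :
    ∃ x, Ge w 0 x ∧ (Ge w 1 (s - (x ^ 2 + x)) ∨ Ge w 1 (t - (x ^ 2 + x)) ∨
      Ge w 1 (s + t - (x ^ 2 + x))) := by
  have hfin := finite_RF h
  have h20 := rs_two h h2
  have hidx := asMap_index h20
  have hst := h.toIsVal.ge_add hs ht
  have key : ∀ z : F, Ge w 0 z → rs h.toIsVal z ∈ (asMap h20).range →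
      ∃ x, Ge w 0 x ∧ Ge w 1 (z - (x ^ 2 + x)) := by
    rintro z hz ⟨c, hc⟩
    obtain ⟨r, hr, rfl⟩ := rs_surj h.toIsVal c
    have hr2 : Ge w 0 (r ^ 2) := by simpa using h.toIsVal.ge_pow hr 2
    refine ⟨r, hr, ?_⟩
    rw [← rs_eq_iff h.toIsVal hz (h.toIsVal.ge_add hr2 hr), rs_add h.toIsVal hr2 hr,
      rs_pow h.toIsVal hr, ← hc]
    rfl
  by_cases h3 : rs h.toIsVal s ∈ (asMap h20).range
  · obtain ⟨x, hx, hx'⟩ := key s hs h3
    exact ⟨x, hx, Or.inl hx'⟩
  by_cases h4 : rs h.toIsVal t ∈ (asMap h20).range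
  · obtain ⟨x, hx, hx'⟩ := key t ht h4
    exact ⟨x, hx, Or.inr (Or.inl hx')⟩
  have h5 : rs h.toIsVal (s + t) ∈ (asMap h20).range := by
    rw [rs_add h.toIsVal hs ht, AddSubgroup.add_mem_iff_of_index_two hidx]
    exact iff_of_false h3 h4
  obtain ⟨x, hx, hx'⟩ := key (s + t) hst h5
  exact ⟨x, hx, Or.inr (Or.inr hx')⟩

/-- the unramified nonsquare unit -/
theorem exists_rho (h : IsLoc w) :
    ∃ ρ, Ge w 0 ρ ∧ w (1 + 4 * ρ) = 0 ∧ ¬ IsSquare (1 + 4 * ρ) := by
  have hfin := finite_RF h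
  have hv := h.toIsVal
  have hns : ¬ Function.Surjective (fun x : RF h.toIsVal => x ^ 2 + x) := by
    rw [← Finite.injective_iff_surjective]
    intro hinj
    have h1 : (0 : RF h.toIsVal) = -1 := hinj (by ring)
    have h3 : (1 : RF h.toIsVal) = 0 := by linear_combination h1
    exact one_ne_zero h3
  obtain ⟨c, hc⟩ : ∃ c : RF h.toIsVal, ∀ x, x ^ 2 + x ≠ c := by
    by_contra hcon
    push Not at hcon
    exact hns fun c => hcon c
  obtain ⟨ρ, hρ, rfl⟩ := rs_surj h.toIsVal c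
  have hnot : ∀ x, Ge w 0 x → ¬ Ge w 1 (x ^ 2 + x - ρ) := by
    intro x hx hx1
    have hx2 : Ge w 0 (x ^ 2) := by simpa using hv.ge_pow hx 2
    rw [← rs_eq_iff hv (hv.ge_add hx2 hx) hρ, rs_add hv hx2 hx, rs_pow hv hx] at hx1
    exact hc _ hx1
  have h4 : Ge w 0 (4 : F) := by
    have := hv.ge_natCast 4
    exact_mod_cast this
  have hint : Ge w 0 (1 + 4 * ρ) := by
    refine hv.ge_add hv.ge_one ?_
    have := hv.ge_mul h4 hρ
    rwa [add_zero] at this
  have hn : ¬ Ge w 1 (1 + 4 * ρ) := by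
    intro hge
    rcases h.two_nonneg.lt_or_eq with h2 | h2
    · have h41 : Ge w 1 (4 : F) := by
        refine Or.inr ?_
        rw [h.w_four]
        omega
      have h3 := hv.ge_sub hge (locA_small_mul hv h41 hρ)
      rw [add_sub_cancel_right] at h3
      exact locA_not_one hv h3
    · have hhalf : Ge w 0 (-(1 / 2) : F) := by
        refine hv.ge_neg (Or.inr ?_)
        rw [hv.div one_ne_zero h.two, hv.one, ← h2]
        norm_num
      refine hnot _ hhalf ?_
      have h3 : (-(1 / 2) : F) ^ 2 + -(1 / 2) - ρ = -((1 + 4 * ρ) * (4 : F)⁻¹) := by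
        have := h.four_ne
        have h20 := h.two
        field_simp
        ring
      rw [h3]
      refine hv.ge_neg (locA_small_mul hv hge (Or.inr ?_))
      rw [hv.inv, h.w_four, ← h2]
      norm_num
  have hne := ne_zero_of_not_ge hn
  have hw : w (1 + 4 * ρ) = 0 := by
    rw [ge_iff hne] at hn hint
    omega
  refine ⟨ρ, hρ, hw, ?_⟩
  rintro ⟨s, hs⟩
  have h20 := h.two
  have hz : ((s - 1) / 2) ^ 2 + (s - 1) / 2 = ρ := by
    field_simp
    linear_combination -hs
  by_cases hzi : Ge w 0 ((s - 1) / 2)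
  · refine hnot _ hzi ?_
    rw [hz, sub_self]
    exact ge_zero 1
  · have hz0 := ne_zero_of_not_ge hzi
    have hwz : w ((s - 1) / 2) < 0 := by
      rw [ge_iff hz0] at hzi
      omega
    obtain ⟨h5, h6⟩ := hv.add_eq (x := (s - 1) / 2) (y := 1) hz0 (Or.inr (by rw [hv.one]; omega))
    have h7 : ρ = ((s - 1) / 2) * ((s - 1) / 2 + 1) := by
      rw [← hz]
      ring
    have h8 : ρ ≠ 0 := by
      rw [h7]
      exact mul_ne_zero hz0 h5
    have h9 := (ge_iff h8).1 hρ
    rw [h7, hv.mul _ _ hz0 h5, h6] at h9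
    omega

/-- a unit which is a square modulo the maximal ideal is a square (odd case) -/
theorem odd_sq (h : IsLoc w) (h2 : w 2 = 0) {x r : F} (hx : x ≠ 0) (hx0 : w x = 0)
    (hr : Ge w 0 r) (hxr : Ge w 1 (x - r ^ 2)) : IsSquare x := by
  have hv := h.toIsVal
  have hnx : ¬ Ge w 1 x := by
    rw [ge_iff hx, hx0]
    omega
  have hn : ¬ Ge w 1 r := by
    intro hr1
    apply hnx
    have h3 : x = (x - r ^ 2) + r * r := by ring
    rw [h3]
    exact hv.ge_add hxr (locA_small_mul hv hr1 hr)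
  have hr0 := ne_zero_of_not_ge hn
  have hwr : w r = 0 := by
    rw [ge_iff hr0] at hn hr
    omega
  have h3 : IsSquare (x / r ^ 2) := by
    refine h.isSquare_of_close ?_
    rw [h2]
    have h4 : x / r ^ 2 - 1 = (x - r ^ 2) * (r ^ 2)⁻¹ := by
      field_simp
    rw [h4]
    refine locA_small_mul hv hxr (Or.inr ?_)
    rw [hv.inv, hv.pow, hwr]
    norm_num
  obtain ⟨s, hs⟩ := h3
  refine ⟨s * r, ?_⟩
  have h5 : x = x / r ^ 2 * r ^ 2 := by field_simp
  rw [h5, hs]
  ring

private theorem locA_res_not_sq (h : IsLoc w) (h2 : w 2 = 0) {x : F} (hx : x ≠ 0) (hx0 : w x = 0)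
    (hxs : ¬ IsSquare x) : rs h.toIsVal x ≠ 0 ∧ ¬ IsSquare (rs h.toIsVal x) := by
  have hv := h.toIsVal
  have hxi : Ge w 0 x := Or.inr hx0.ge
  constructor
  · intro h3
    rw [rs_eq_zero_iff hv hxi, ge_iff hx, hx0] at h3
    omega
  · rintro ⟨c, hc⟩
    obtain ⟨r, hr, rfl⟩ := rs_surj hv c
    have hr2 : Ge w 0 (r ^ 2) := by simpa using hv.ge_pow hr 2
    refine hxs (odd_sq h h2 hx hx0 hr ?_)
    rw [← rs_eq_iff hv hxi hr2, rs_pow hv hr, hc, sq]

theorem odd_units (h : IsLoc w) (h2 : w 2 = 0) {x y : F} (hx : x ≠ 0) (hy : y ≠ 0) (hx0 : w x = 0)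
    (hy0 : w y = 0) (hxs : ¬ IsSquare x) (hys : ¬ IsSquare y) : IsSquare (x * y) := by
  classical
  have hfin := finite_RF h
  have := Fintype.ofFinite (RF h.toIsVal)
  have hv := h.toIsVal
  obtain ⟨hx1, hx2⟩ := locA_res_not_sq h h2 hx hx0 hxs
  obtain ⟨hy1, hy2⟩ := locA_res_not_sq h h2 hy hy0 hys
  have hxi : Ge w 0 x := Or.inr hx0.ge
  have hyi : Ge w 0 y := Or.inr hy0.ge
  have hrc := locA_ringChar_ne h h2
  have h3 : IsSquare (rs h.toIsVal x * rs h.toIsVal y) := by
    rw [← quadraticChar_one_iff_isSquare (mul_ne_zero hx1 hy1), map_mul,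
      quadraticChar_neg_one_iff_not_isSquare.2 hx2, quadraticChar_neg_one_iff_not_isSquare.2 hy2]
    norm_num
  obtain ⟨c, hc⟩ := h3
  obtain ⟨r, hr, rfl⟩ := rs_surj hv c
  have hr2 : Ge w 0 (r ^ 2) := by simpa using hv.ge_pow hr 2
  have hxy : Ge w 0 (x * y) := by
    have := hv.ge_mul hxi hyi
    rwa [add_zero] at this
  refine odd_sq h h2 (mul_ne_zero hx hy) ?_ hr ?_
  · rw [hv.mul _ _ hx hy, hx0, hy0, add_zero]
  · rw [← rs_eq_iff hv hxy hr2, rs_pow hv hr, rs_mul hv hxi hyi, hc, sq]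

theorem odd_form (h : IsLoc w) (h2 : w 2 = 0) {a c : F} (ha : a ≠ 0) (ha0 : w a = 0)
    (hc0 : Ge w 0 c) :
    ∃ x y, Ge w 0 x ∧ Ge w 0 y ∧ Ge w 1 (x ^ 2 - a * y ^ 2 - c) := by
  classical
  have hfin := finite_RF h
  have := Fintype.ofFinite (RF h.toIsVal)
  have hv := h.toIsVal
  have hrc := locA_ringChar_ne h h2
  have hai : Ge w 0 a := Or.inr ha0.ge
  have ha1 : rs h.toIsVal a ≠ 0 := by
    intro h3
    rw [rs_eq_zero_iff hv hai, ge_iff ha, ha0] at h3
    omega
  obtain ⟨X, Y, hXY⟩ := FiniteField.exists_root_sum_quadratic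
    (f := (Polynomial.X ^ 2 - Polynomial.C (rs h.toIsVal c)))
    (g := (Polynomial.C (-rs h.toIsVal a) * Polynomial.X ^ 2))
    (Polynomial.degree_X_pow_sub_C (by norm_num) _)
    (by rw [Polynomial.degree_C_mul_X_pow 2 (neg_ne_zero.2 ha1)]; rfl)
    (FiniteField.odd_card_of_char_ne_two hrc)
  simp only [Polynomial.eval_sub, Polynomial.eval_pow, Polynomial.eval_X, Polynomial.eval_C,
    Polynomial.eval_mul] at hXY
  obtain ⟨x, hx, rfl⟩ := rs_surj hv X
  obtain ⟨y, hy, rfl⟩ := rs_surj hv Y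
  have hx2 : Ge w 0 (x ^ 2) := by simpa using hv.ge_pow hx 2
  have hy2 : Ge w 0 (y ^ 2) := by simpa using hv.ge_pow hy 2
  have hay : Ge w 0 (a * y ^ 2) := by
    have := hv.ge_mul hai hy2
    rwa [add_zero] at this
  refine ⟨x, y, hx, hy, ?_⟩
  rw [← rs_eq_iff hv (hv.ge_sub hx2 hay) hc0, rs_sub hv hx2 hay, rs_mul hv hai hy2,
    rs_pow hv hx, rs_pow hv hy]
  linear_combination hXY

end UDN
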