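import Pool.Agent.UDN.LocCls

/-!
# UDN: the unramified quadratic extension

Let `a = 1 + 4 ρ`, `ρ` integral, `w a = 0`, `a` not a square.

PROOF of `unr_even`.  `p ^ 2 - a q ^ 2 = x ^ 2 + x y - ρ y ^ 2` with `x = p - q`, `y = 2 q`.
(*) There is no integral `z` with `Ge w 1 (z ^ 2 + z - ρ)`: otherwise with `u = 1 + 2 z`,
`η = z ^ 2 + z - ρ`: `u ^ 2 = a + 4 η`; `u` is a unit (`a` is a unit, `4 η` is not; `IsVal.add_eq`),
`a = u ^ 2 (1 - 4 η / u ^ 2)`, and `1 + 4 (- η / u ^ 2)` is a square (`IsLoc.sq`), so `a` is a square.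
Now if `y = 0` the value is `x ^ 2`.  If `y ≠ 0` put `z = x / y`; the value is `y ^ 2 (z ^ 2 + z - ρ)`.
If `Ge w 0 z` then by (*) `w (z ^ 2 + z - ρ) = 0` (it is integral, nonzero and not in the maximal
ideal), so the order is `2 w y`.  Otherwise `w z < 0`, and `w (z ^ 2 + z - ρ) = 2 w z`
(dominant term, `IsVal.add_eq`).  In all cases it is even.

PROOF of `unr_surj`.  First `c = 1 + η` with `Ge w 1 η`: we look for `x = 1`, `y` with
`1 + y - ρ y ^ 2 = 1 + η`, i.e. `ρ y ^ 2 - y + η = 0`; `ρ ≠ 0` (`a` is not a square);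
the discriminant `1 - 4 ρ η` is a square `r ^ 2` (`IsLoc.sq`), `y = (1 - r) / (2 ρ)`.
Then `p = x + y / 2`, `q = y / 2`.
Second: `c` a unit.  There is a norm `n` (`Sy a n`), `n ≠ 0`, with `Ge w 1 (c / n - 1)`: if `w 2 > 0`,
`n = r ^ 2` (`exists_sqrt_res`); if `w 2 = 0`, `n = x ^ 2 - a y ^ 2` (`odd_form`).  Then `c / n` is a
norm by the first case.  Third: `w c = 2 m`: divide by `(π ^ m) ^ 2`.
-/

set_option autoImplicit false

namespace UDN

variable {F : Type*} [Field F] {w : F → ℤ}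

/-- no integral `z` with `z ^ 2 + z - ρ` in the maximal ideal -/
private theorem unr_key (h : IsLoc w) {ρ : F} (ha : w (1 + 4 * ρ) = 0)
    (ha0 : 1 + 4 * ρ ≠ 0) (hns : ¬ IsSquare (1 + 4 * ρ)) {z : F} (hz : Ge w 0 z) :
    ¬ Ge w 1 (z ^ 2 + z - ρ) := by
  intro hη
  have hV := h.toIsVal
  have h2 := h.two_nonneg
  apply hns
  have h4 : Ge w 1 (4 * (z ^ 2 + z - ρ)) := by
    have h4' : Ge w 0 (4 : F) := Or.inr (by rw [h.w_four]; linarith)
    simpa using hV.ge_mul h4' hη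
  have hu2 : (1 + 2 * z) ^ 2 = (1 + 4 * ρ) + 4 * (z ^ 2 + z - ρ) := by ring
  obtain ⟨hne, hw⟩ := hV.add_eq ha0 (y := 4 * (z ^ 2 + z - ρ)) (by rw [ha]; simpa using h4)
  rw [← hu2] at hne hw
  rw [ha, hV.pow] at hw
  have hu0 : 1 + 2 * z ≠ 0 := fun h0 => hne (by rw [h0]; ring)
  have hwu : w (1 + 2 * z) = 0 := by push_cast at hw; linarith
  have h5 : Ge w 1 (-(z ^ 2 + z - ρ) / (1 + 2 * z) ^ 2) := by
    rw [div_eq_mul_inv]
    have h6 : Ge w 0 ((1 + 2 * z) ^ 2)⁻¹ := Or.inr (by rw [hV.inv, hV.pow, hwu]; simp)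
    simpa using hV.ge_mul (hV.ge_neg hη) h6
  obtain ⟨r, hr⟩ := h.sq _ h5
  refine ⟨(1 + 2 * z) * r, ?_⟩
  have h7 : (1 + 4 * ρ) = (1 + 2 * z) ^ 2 * (1 + 4 * (-(z ^ 2 + z - ρ) / (1 + 2 * z) ^ 2)) := by
    field_simp
    ring
  rw [h7, hr]
  ring

theorem unr_even (h : IsLoc w) {a : F} (h3 : T3 w a) (hns : ¬ IsSquare a) {c : F} (hc : c ≠ 0)
    (hac : Sy a c) : Even (w c) := by
  have hV := h.toIsVal
  obtain ⟨ρ, hρ, rfl, ha⟩ := h3
  have ha0 : 1 + 4 * ρ ≠ 0 := by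
    intro h0
    exact hns (h0 ▸ ⟨0, by ring⟩)
  have hkey := fun z hz => unr_key h (z := z) ha ha0 hns hz
  obtain ⟨p, q, hpq⟩ := hac
  by_cases hq : q = 0
  · rw [hq] at hpq
    have : c = p ^ 2 := by rw [← hpq]; ring
    rw [this, hV.pow]
    exact ⟨w p, by push_cast; ring⟩
  have hy : 2 * q ≠ 0 := mul_ne_zero h.two hq
  set z := (p - q) / (2 * q) with hz
  have hc2 : c = (2 * q) ^ 2 * (z ^ 2 + z - ρ) := by
    have h2 := h.two
    rw [← hpq, hz]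
    field_simp
    ring
  have hne : z ^ 2 + z - ρ ≠ 0 := by
    intro h0
    apply hc
    rw [hc2, h0, mul_zero]
  have hwc : w c = 2 * w (2 * q) + w (z ^ 2 + z - ρ) := by
    rw [hc2, hV.mul _ _ (pow_ne_zero 2 hy) hne, hV.pow]
    push_cast
    ring
  by_cases hz0 : Ge w 0 z
  · have h1 := hkey z hz0
    have h2 : Ge w 0 (z ^ 2 + z - ρ) := by
      have := hV.ge_pow hz0 2
      simp only [mul_zero] at this
      exact hV.ge_sub (hV.ge_add this hz0) hρ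
    have h3 : w (z ^ 2 + z - ρ) = 0 := by
      have h4 := (ge_iff hne).1 h2
      have h5 : ¬ 1 ≤ w (z ^ 2 + z - ρ) := fun h6 => h1 (Or.inr h6)
      omega
    rw [hwc, h3]
    exact ⟨w (2 * q), by ring⟩
  · have hzne : z ≠ 0 := ne_zero_of_not_ge hz0
    have hwz : w z < 0 := by
      by_contra h6
      exact hz0 (Or.inr (not_lt.1 h6))
    have h1 : w (z ^ 2 + (z - ρ)) = w (z ^ 2) := by
      refine (hV.add_eq (pow_ne_zero 2 hzne) ?_).2
      rw [hV.pow]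
      refine hV.ge_sub ?_ (hρ.mono (by push_cast; omega))
      exact Or.inr (by push_cast; omega)
    have h2 : z ^ 2 + z - ρ = z ^ 2 + (z - ρ) := by ring
    rw [hwc, h2, h1, hV.pow]
    exact ⟨w (2 * q) + w z, by push_cast; ring⟩

theorem unr_surj (h : IsLoc w) {a : F} (h3 : T3 w a) (hns : ¬ IsSquare a) {c : F} (hc : c ≠ 0)
    (hev : Even (w c)) : Sy a c := by
  have hV := h.toIsVal
  have h2n := h.two_nonneg
  obtain ⟨ρ, hρ, rfl, ha⟩ := h3
  have ha0 : 1 + 4 * ρ ≠ 0 := by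
    intro h0
    exact hns (h0 ▸ ⟨0, by ring⟩)
  have hρ0 : ρ ≠ 0 := by
    rintro rfl
    exact hns ⟨1, by ring⟩
  -- first step
  have step1 : ∀ η : F, Ge w 1 η → Sy (1 + 4 * ρ) (1 + η) := by
    intro η hη
    have h5 : Ge w 1 (-(ρ * η)) := by
      have := hV.ge_neg (hV.ge_mul hρ hη)
      simpa using this
    obtain ⟨r, hr⟩ := h.sq _ h5
    have h2 := h.two
    refine ⟨1 + (1 - r) / (2 * ρ) / 2, (1 - r) / (2 * ρ) / 2, ?_⟩
    have hr' : r ^ 2 = 1 - 4 * ρ * η := by linear_combination -hr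
    field_simp
    linear_combination (-4 * ρ) * hr'
  -- second step
  have step2 : ∀ c : F, c ≠ 0 → w c = 0 → Sy (1 + 4 * ρ) c := by
    intro c hc hwc
    obtain ⟨n, hn, hnc⟩ : ∃ n, Sy (1 + 4 * ρ) n ∧ Ge w 1 (c - n) := by
      rcases h2n.lt_or_eq with h2 | h2
      · obtain ⟨r, -, hr⟩ := exists_sqrt_res h h2 (x := c) (Or.inr hwc.ge)
        exact ⟨r ^ 2, sy_sq _ _, hr⟩
      · obtain ⟨x, y, -, -, hxy⟩ := odd_form h h2.symm ha0 ha (c := c) (Or.inr hwc.ge)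
        refine ⟨x ^ 2 - (1 + 4 * ρ) * y ^ 2, ⟨x, y, rfl⟩, ?_⟩
        have := hV.ge_neg hxy
        rwa [neg_sub] at this
    have hn2 : n ≠ 0 ∧ w n = w c := by
      have := hV.add_eq hc (y := -(c - n)) (by rw [hwc]; simpa using hV.ge_neg hnc)
      have h7 : c + -(c - n) = n := by ring
      rwa [h7] at this
    have h8 : c = n * (1 + (c - n) / n) := by
      have := hn2.1
      field_simp
      ring
    rw [h8]
    refine hn.mul (step1 _ ?_)
    rw [div_eq_mul_inv]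
    have h9 : Ge w 0 n⁻¹ := Or.inr (by rw [hV.inv, hn2.2, hwc]; simp)
    simpa using hV.ge_mul hnc h9
  obtain ⟨m, hm⟩ := hev
  obtain ⟨x, hx0, hxm⟩ := hV.exists_ord m
  have h10 : w (c / x ^ 2) = 0 := by
    rw [hV.div hc (pow_ne_zero 2 hx0), hV.pow, hxm, hm]
    push_cast
    ring
  have h11 := (step2 (c / x ^ 2) (div_ne_zero hc (pow_ne_zero 2 hx0)) h10).mul
    (sy_sq (1 + 4 * ρ) x)
  rwa [div_mul_cancel₀ _ (pow_ne_zero 2 hx0)] at h11

/-- odd places: units are of type (3) -/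
theorem t3_of_odd (h : IsLoc w) (h2 : w 2 = 0) {a : F} (ha0 : w a = 0) : T3 w a := by
  have h4 := h.four_ne
  refine ⟨(a - 1) / 4, ?_, by field_simp; ring, ha0⟩
  by_cases hx : a - 1 = 0
  · exact Or.inl (by rw [hx, zero_div])
  · refine Or.inr ?_
    rw [h.toIsVal.div hx h4, h.w_four, h2]
    have h1 : Ge w 0 (a - 1) := h.toIsVal.ge_sub (Or.inr ha0.ge) h.toIsVal.ge_one
    have := (ge_iff hx).1 h1
    linarith

end UDN
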