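import Pool.Agent.UDN.LocB

/-!
# UDN: nondegeneracy of the Hilbert symbol

PROOF of `exists_not_sy`.  By `cls` and `sy_mul_sq_left` we may assume that `a` is of type (1), (2)
or (3).  Let `ρ₀`, `Δ = 1 + 4 ρ₀` be as in `exists_rho` (type (3), not a square).
(3): `c` of order one (`unr_even`).
(1): `c = Δ`: if `Sy a Δ` then `Sy Δ a` (`Sy.symm`, `Δ ≠ 0`), so `w a` is even (`unr_even`).
(2): `a = 1 + α`, `j = w α` odd, `1 ≤ j < 2 e`.  Put `β = 4 ρ₀ (1 + α) / α` and `y = 1 + β`.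
`Ge w 1 β` as `w 4 - j = 2 e - j > 0`, so `y ≠ 0`, `w y = 0`.  Claim: `¬ Sy a y`.
Let `Sy a y`.  We have `Δ a = (1 + 4 ρ₀) (1 + α) = 1 + α + α β = 1 + α y`.
`Sy (Δ a) (- α y)` (`sy_one_sub`: `1 - Δ a = - α y`) and `Sy a (- α)` (`1 - a`), so
`Sy a (- α y)` (`Sy.mul`).  By symmetry (`- α y ≠ 0`) `Sy (- α y) (Δ a)` and `Sy (- α y) a`, so
`Sy (- α y) Δ` (`Sy.of_mul`), so `Sy Δ (- α y)` and `w (- α y) = j` is even (`unr_even`):
a contradiction.
-/

set_option autoImplicit false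

namespace UDN

variable {F : Type*} [Field F] {w : F → ℤ}

theorem exists_not_sy (h : IsLoc w) {a : F} (ha : a ≠ 0) (hns : ¬ IsSquare a) :
    ∃ c, c ≠ 0 ∧ ¬ Sy a c := by
  have hV := h.toIsVal
  have h2n := h.two_nonneg
  have h2 := h.two
  have h4 := h.four_ne
  obtain ⟨s, a', hs, ha', rfl, hT⟩ := cls h ha hns
  have hns' : ¬ IsSquare a' := by
    rintro ⟨r, rfl⟩
    exact hns ⟨r * s, by ring⟩
  suffices hh : ∃ c, c ≠ 0 ∧ ¬ Sy a' c by
    obtain ⟨c, hc, hc'⟩ := hh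
    exact ⟨c, hc, fun h1 => hc' ((sy_mul_sq_left hs).1 h1)⟩
  obtain ⟨ρ, hρ, hΔ0, hΔs⟩ := exists_rho h
  have hΔne : 1 + 4 * ρ ≠ 0 := by
    intro h0
    exact hΔs (h0 ▸ ⟨0, by ring⟩)
  have hΔT : T3 w (1 + 4 * ρ) := ⟨ρ, hρ, rfl, hΔ0⟩
  rcases hT with hT | hT | hT
  · refine ⟨1 + 4 * ρ, hΔne, fun h1 => ?_⟩
    have h3 := unr_even h hΔT hΔs ha' (h1.symm h2 hΔne)
    rw [hT] at h3
    exact absurd h3 (by decide)
  · obtain ⟨α, hα0, rfl, h1α, h2α, hodd⟩ := hT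
    set β := 4 * ρ * (1 + α) / α with hβ
    have hwa : w (1 + α) = 0 := by
      have := (hV.add_eq (one_ne_zero) (y := α) (by rw [hV.one]; exact Or.inr (by linarith))).2
      rw [this, hV.one]
    have hβ1 : Ge w 1 β := by
      rw [hβ, div_eq_mul_inv]
      have e1 : Ge w (2 * w 2) (4 : F) := Or.inr h.w_four.ge
      have e2 : Ge w 0 (1 + α) := Or.inr hwa.ge
      have e3 : Ge w (-w α) α⁻¹ := Or.inr (hV.inv α).ge
      exact (hV.ge_mul (hV.ge_mul (hV.ge_mul e1 hρ) e2) e3).mono (by linarith)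
    have hy : 1 + β ≠ 0 ∧ w (1 + β) = w 1 := hV.add_eq one_ne_zero (by rw [hV.one]; simpa using hβ1)
    refine ⟨1 + β, hy.1, fun hS => ?_⟩
    have hαy : -(α * (1 + β)) ≠ 0 := neg_ne_zero.2 (mul_ne_zero hα0 hy.1)
    have hαβ : α * (1 + β) = α + 4 * ρ * (1 + α) := by
      rw [hβ]
      field_simp
    have e1 : Sy ((1 + 4 * ρ) * (1 + α)) (-(α * (1 + β))) := by
      have := sy_one_sub ((1 + 4 * ρ) * (1 + α))
      have e : 1 - (1 + 4 * ρ) * (1 + α) = -(α * (1 + β)) := by rw [hαβ]; ring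
      rwa [e] at this
    have e2 : Sy (1 + α) (-(α * (1 + β))) := by
      have := (sy_one_sub (1 + α)).mul hS
      have e : (1 - (1 + α)) * (1 + β) = -(α * (1 + β)) := by ring
      rwa [e] at this
    have e3 := e1.symm h2 hαy
    have e4 := e2.symm h2 hαy
    have e5 : Sy (-(α * (1 + β))) (1 + 4 * ρ) := by
      refine e4.of_mul ha' ?_
      rwa [mul_comm (1 + α) (1 + 4 * ρ)]
    have e6 := unr_even h hΔT hΔs hαy (e5.symm h2 hΔne)
    rw [hV.neg, hV.mul _ _ hα0 hy.1, hy.2, hV.one, add_zero] at e6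
    exact (Int.not_even_iff_odd.2 hodd) e6
  · obtain ⟨c, hc, hc1⟩ := hV.exists_ord 1
    refine ⟨c, hc, fun h1 => ?_⟩
    have h3 := unr_even h hT hns' hc h1
    rw [hc1] at h3
    exact absurd h3 (by decide)

end UDN
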