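import Pool.Agent.UDN.LocA

/-!
# UDN: classification of the nonsquares of an abstract local field

Up to squares a nonsquare is of one of three types:
(1) `w a = 1`;
(2) `a = 1 + α` with `1 ≤ w α < 2 w 2`, `w α` odd (only dyadic);
(3) `a = 1 + 4 ρ`, `ρ` integral, `a` a unit.

PROOF of `cls`.  Let `π` have order one.  If `w a` is odd: `a = a' * (π ^ m) ^ 2`, `w a' = 1`: type
(1).  If `w a` is even we may assume `w a = 0` (divide by `(π ^ m) ^ 2`).  If `w 2 = 0` then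
`ρ = (a - 1) / 4` is integral: type (3).  Let `e = w 2 > 0`.  `exists_sqrt_res`: `a = r ^ 2 + ...`,
`r` a unit, so `a / r ^ 2 - 1` has order `≥ 1` (`Ge`).  Consider the set of the natural numbers
`j ≥ 1` such that there are `s ≠ 0` with `w s = 0` and `Ge w j (a / s ^ 2 - 1)`.  No `j ≥ 2 e + 1` is in
it (`isSquare_of_close`), so there is a largest one `j ≤ 2 e`; `α = a / s ^ 2 - 1 ≠ 0` and `w α = j`
(exactly, by maximality).  If `j = 2 e`: type (3), `ρ = α / 4`.  If `j < 2 e` is odd: type (2).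
If `j = 2 i < 2 e`: `α = π ^ (2 i) η`, `η` a unit, `η ≡ θ ^ 2` (`exists_sqrt_res`); put
`s' = s (1 + π ^ i θ)`, then
`a / s' ^ 2 - 1 = (1 + α) / (1 + π ^ i θ) ^ 2 - 1
 = (α - π ^ (2 i) θ ^ 2 - 2 π ^ i θ) / (1 + π ^ i θ) ^ 2` is `Ge w (2 i + 1)` (`e + i ≥ 2 i + 1`):
a contradiction to the maximality.
-/

set_option autoImplicit false

namespace UDN

variable {F : Type*} [Field F] {w : F → ℤ}

/-- type (1) -/
def T1 (w : F → ℤ) (a : F) : Prop := w a = 1

/-- type (2) -/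
def T2 (w : F → ℤ) (a : F) : Prop :=
  ∃ α, α ≠ 0 ∧ a = 1 + α ∧ 1 ≤ w α ∧ w α < 2 * w 2 ∧ Odd (w α)

/-- type (3) -/
def T3 (w : F → ℤ) (a : F) : Prop := ∃ ρ, Ge w 0 ρ ∧ a = 1 + 4 * ρ ∧ w a = 0

private theorem ge_div (h : IsVal w) {n : ℤ} {x t : F} (ht : t ≠ 0) (hx : Ge w n x) :
    Ge w (n - w t) (x / t) := by
  by_cases hx0 : x = 0
  · rw [hx0, zero_div]
    exact ge_zero _
  · refine Or.inr ?_
    rw [h.div hx0 ht]
    have := (ge_iff hx0).1 hx
    linarith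

private theorem cls_even (h : IsLoc w) (h2 : 0 < w 2) {α : F} (hα : α ≠ 0) {i : ℕ} (hi : 1 ≤ i)
    (hα2 : w α = 2 * i) (hie : (i : ℤ) < w 2) :
    ∃ t, t ≠ 0 ∧ w t = 0 ∧ Ge w (2 * i + 1) ((1 + α) / t ^ 2 - 1) := by
  have hv := h.toIsVal
  obtain ⟨π, hπ0, hπ⟩ := hv.exists_ord i
  have hη : Ge w 0 (α / π ^ 2) := by
    refine Or.inr ?_
    rw [hv.div hα (pow_ne_zero 2 hπ0), hv.pow, hα2, hπ]
    push_cast
    linarith
  obtain ⟨θ, hθ, hθ1⟩ := exists_sqrt_res h h2 hη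
  have h3 : Ge w (i : ℤ) (π * θ) := by
    have := hv.ge_mul (m := i) (n := 0) (x := π) (y := θ) (Or.inr hπ.ge) hθ
    simpa using this
  obtain ⟨ht0, ht⟩ := hv.add_eq (x := 1) (y := π * θ) one_ne_zero
    (h3.mono (by rw [hv.one]; omega))
  rw [hv.one] at ht
  refine ⟨1 + π * θ, ht0, ht, ?_⟩
  have e1 : (1 + α) / (1 + π * θ) ^ 2 - 1 =
      (π ^ 2 * (α / π ^ 2 - θ ^ 2) - 2 * (π * θ)) / (1 + π * θ) ^ 2 := by
    field_simp
    ring
  rw [e1]
  have h4 : Ge w (2 * i + 1) (π ^ 2 * (α / π ^ 2 - θ ^ 2)) := by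
    refine hv.ge_mul (Or.inr ?_) hθ1
    rw [hv.pow, hπ]
    push_cast
    exact le_rfl
  have h5 : Ge w (2 * i + 1) (2 * (π * θ)) := by
    refine (hv.ge_mul (m := w 2) (Or.inr le_rfl) h3).mono ?_
    omega
  have h6 := ge_div hv (pow_ne_zero 2 ht0) (hv.ge_sub h4 h5)
  rw [hv.pow, ht, mul_zero, sub_zero] at h6
  exact h6

private theorem cls0 (h : IsLoc w) {a : F} (ha : a ≠ 0) (hns : ¬ IsSquare a) (hwa : w a = 0) :
    ∃ s a', s ≠ 0 ∧ a' ≠ 0 ∧ a = a' * s ^ 2 ∧ (T1 w a' ∨ T2 w a' ∨ T3 w a') := by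
  have hv := h.toIsVal
  have h4 := h.four_ne
  rcases h.two_nonneg.eq_or_lt with h20 | h2
  · refine ⟨1, a, one_ne_zero, ha, by ring, Or.inr (Or.inr ⟨(a - 1) / 4, ?_, ?_, hwa⟩)⟩
    · have h5 : Ge w 0 (a - 1) := hv.ge_sub (Or.inr hwa.ge) hv.ge_one
      have h6 := ge_div hv h4 h5
      rwa [h.w_four, ← h20, mul_zero, sub_zero] at h6
    · field_simp
      ring
  · -- dyadic
    have hstep : ∃ j : ℕ, 1 ≤ j ∧ (∃ s : F, s ≠ 0 ∧ w s = 0 ∧ Ge w j (a / s ^ 2 - 1)) ∧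
        ¬ ∃ s : F, s ≠ 0 ∧ w s = 0 ∧ Ge w (j + 1) (a / s ^ 2 - 1) := by
      by_contra hno
      push Not at hno
      have hall : ∀ j : ℕ, ∃ s : F, s ≠ 0 ∧ w s = 0 ∧ Ge w (j + 1) (a / s ^ 2 - 1) := by
        intro j
        induction j with
        | zero =>
          obtain ⟨r, hr, hr1⟩ := exists_sqrt_res h h2 (x := a) (Or.inr hwa.ge)
          have hr2 : r ^ 2 ≠ 0 ∧ w (r ^ 2) = 0 := by
            have e : r ^ 2 = a + -(a - r ^ 2) := by ring
            have := hv.add_eq (x := a) (y := -(a - r ^ 2)) ha (by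
              rw [hwa]
              exact hv.ge_neg hr1)
            rw [← e, hwa] at this
            exact this
          have hr0 : r ≠ 0 := fun h0 => hr2.1 (by rw [h0]; ring)
          refine ⟨r, hr0, ?_, ?_⟩
          · have := hr2.2
            rw [hv.pow] at this
            push_cast at this
            omega
          · have h5 := ge_div hv hr2.1 hr1
            rw [hr2.2, sub_zero] at h5
            have e : (a - r ^ 2) / r ^ 2 = a / r ^ 2 - 1 := by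
              field_simp
            rw [e] at h5
            simpa using h5
        | succ j ih =>
          obtain ⟨s, hs0, hs, hs1⟩ := ih
          exact hno (j + 1) (by omega) ⟨s, hs0, hs, by push_cast; exact hs1⟩
      obtain ⟨s, hs0, hs, hs1⟩ := hall (2 * w 2).toNat
      rw [Int.toNat_of_nonneg (by omega)] at hs1
      obtain ⟨r, hr⟩ := h.isSquare_of_close hs1
      apply hns
      refine ⟨r * s, ?_⟩
      rw [div_eq_iff (pow_ne_zero 2 hs0)] at hr
      rw [hr]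
      ring
    obtain ⟨j, hj1, ⟨s, hs0, hs, hs1⟩, hjn⟩ := hstep
    have hs2 : s ^ 2 ≠ 0 := pow_ne_zero 2 hs0
    have hws2 : w (s ^ 2) = 0 := by
      rw [hv.pow, hs, mul_zero]
    have hα : ¬ Ge w (j + 1) (a / s ^ 2 - 1) := fun hc => hjn ⟨s, hs0, hs, hc⟩
    have hα0 := ne_zero_of_not_ge hα
    have hwα : w (a / s ^ 2 - 1) = j := by
      have h5 := (ge_iff hα0).1 hs1
      rw [ge_iff hα0] at hα
      omega
    have ha' : a / s ^ 2 ≠ 0 := div_ne_zero ha hs2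
    have hwa' : w (a / s ^ 2) = 0 := by
      rw [hv.div ha hs2, hwa, hws2, sub_zero]
    have hje : (j : ℤ) ≤ 2 * w 2 := by
      by_contra hc
      push Not at hc
      obtain ⟨r, hr⟩ := h.isSquare_of_close (hs1.mono (by omega : 2 * w 2 + 1 ≤ (j : ℤ)))
      apply hns
      refine ⟨r * s, ?_⟩
      rw [div_eq_iff hs2] at hr
      rw [hr]
      ring
    refine ⟨s, a / s ^ 2, hs0, ha', by field_simp, Or.inr ?_⟩
    rcases hje.eq_or_lt with hje | hje
    · refine Or.inr ⟨(a / s ^ 2 - 1) / 4, ?_, ?_, hwa'⟩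
      · have h6 := ge_div hv h4 hs1
        rwa [h.w_four, hje, sub_self] at h6
      · rw [mul_div_cancel₀ _ h4]
        ring
    · rcases Nat.even_or_odd j with ⟨i, hi⟩ | hodd
      · exfalso
        obtain ⟨t, ht0, ht, ht1⟩ := cls_even h h2 hα0 (i := i) (by omega)
          (by rw [hwα, hi]; push_cast; ring) (by omega)
        apply hjn
        refine ⟨s * t, mul_ne_zero hs0 ht0, ?_, ?_⟩
        · rw [hv.mul _ _ hs0 ht0, hs, ht, add_zero]
        · have e : a / (s * t) ^ 2 - 1 = (1 + (a / s ^ 2 - 1)) / t ^ 2 - 1 := by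
            field_simp
            ring
          rw [e]
          refine ht1.mono ?_
          rw [hi]
          push_cast
          linarith
      · refine Or.inl ⟨a / s ^ 2 - 1, hα0, by ring, ?_, ?_, ?_⟩
        · rw [hwα]
          exact_mod_cast hj1
        · rw [hwα]
          exact hje
        · rw [hwα]
          exact_mod_cast hodd

theorem cls (h : IsLoc w) {a : F} (ha : a ≠ 0) (hns : ¬ IsSquare a) :
    ∃ s a', s ≠ 0 ∧ a' ≠ 0 ∧ a = a' * s ^ 2 ∧ (T1 w a' ∨ T2 w a' ∨ T3 w a') := by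
  have hv := h.toIsVal
  rcases Int.even_or_odd' (w a) with ⟨m, hm | hm⟩
  · obtain ⟨π, hπ0, hπ⟩ := hv.exists_ord m
    have hπ2 : π ^ 2 ≠ 0 := pow_ne_zero 2 hπ0
    have h1 : w (a / π ^ 2) = 0 := by
      rw [hv.div ha hπ2, hv.pow, hπ, hm]
      push_cast
      ring
    have h2 : ¬ IsSquare (a / π ^ 2) := by
      rintro ⟨r, hr⟩
      apply hns
      refine ⟨r * π, ?_⟩
      rw [div_eq_iff hπ2] at hr
      rw [hr]
      ring
    obtain ⟨s, a', hs0, ha'0, hsa, hT⟩ := cls0 h (div_ne_zero ha hπ2) h2 h1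
    refine ⟨s * π, a', mul_ne_zero hs0 hπ0, ha'0, ?_, hT⟩
    rw [div_eq_iff hπ2] at hsa
    rw [hsa]
    ring
  · obtain ⟨π, hπ0, hπ⟩ := hv.exists_ord m
    have hπ2 : π ^ 2 ≠ 0 := pow_ne_zero 2 hπ0
    refine ⟨π, a / π ^ 2, hπ0, div_ne_zero ha hπ2, by field_simp, Or.inl ?_⟩
    unfold T1
    rw [hv.div ha hπ2, hv.pow, hπ, hm]
    push_cast
    ring

end UDN
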