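import Pool.Agent.UDN.LocB

/-!
# UDN: the filtration argument (dyadic, ramified)

`e = w 2 > 0`, `N = {x ≠ 0 | Sy a x}`, `U_i = {u | Ge w i (u - 1)}` for `i ≥ 1` (units).

Step lemmas: `Stp a i` : for every `u` with `Ge w i (u - 1)` there is `n ≠ 0` with `Sy a n` and
`Ge w (i + 1) (u * n - 1)`.  `Stp2 a i` : for all such `u, u'` there is `n` with `Sy a n` such that
`u n`, `u' n` or `u u' n` is in `U_{i+1}`.

PROOF of `step_sq` (`i = 2 m`, `1 ≤ m < e`, every `a`): `u = 1 + η`; choose an integral `x` with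
`Ge w 1 (- η / π ^ (2 m) - x ^ 2)` (`exists_sqrt_res`) and `n = (1 + x π ^ m) ^ 2
= 1 + 2 x π ^ m + x ^ 2 π ^ (2 m)`; `2 x π ^ m` has order `≥ e + m > 2 m`; so
`u n - 1 = η + x ^ 2 π ^ (2 m) + (terms of order > i)`.
PROOF of `step_lin` (type (2), `i > i0 = 2 e - w α`): `m = i - e`, `x` with
`2 π ^ m x = - η` (`x` integral), `n = (1 + x π ^ m) ^ 2 - a (x π ^ m) ^ 2
= 1 + 2 x π ^ m - α x ^ 2 π ^ (2 m)`; the last term has order `≥ w α + 2 m > i`.
PROOF of `step_odd` (type (2), `i < i0` odd): `m = (i - w α) / 2` (an integer, may be negative), the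
same `n` with `x` integral, `Ge w 1 (η / (α π ^ (2 m)) - x ^ 2)`; now `2 x π ^ m` has order
`≥ e + m > i` as `i < i0`.
PROOF of `step_mid` (type (2), `i = i0`): `m = e - w α`, `θ = 2 π ^ m`, `φ = α π ^ (2 m)`, both of
order `i0`; for `x = - (θ / φ) x'` : `n = 1 + θ x - φ x ^ 2 = 1 - (θ ^ 2 / φ) (x' + x' ^ 2)`; write
`u = 1 + (θ ^ 2 / φ) s`, `u' = 1 + (θ ^ 2 / φ) t`, `s, t` integral, and use `as_two`
(`u u' = 1 + (θ ^ 2/φ) (s + t) + ...`).
PROOF of `step_one` (type (1)): `i` odd: `i = 1 + 2 m`, `n = 1 - a (x π ^ m) ^ 2`, `x` integral with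
`Ge w 1 (η / (a π ^ (2 m)) - x ^ 2)`.  `step_one_mid` : `i0 = 2 e`: `n = (1 + 2 x) ^ 2
= 1 + 4 (x + x ^ 2)`, `u = 1 + 4 s`, `u' = 1 + 4 t`; `as_two` for `- s, - t`
(or use that `Ge w 1 (2 s)`).
-/

set_option autoImplicit false

namespace UDN

variable {F : Type*} [Field F] {w : F → ℤ}

/-- one step of the filtration -/
def Stp (w : F → ℤ) (a : F) (i : ℤ) : Prop :=
  ∀ u, Ge w i (u - 1) → ∃ n, n ≠ 0 ∧ Sy a n ∧ Ge w (i + 1) (u * n - 1)

/-- the exceptional step of the filtration -/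
def Stp2 (w : F → ℤ) (a : F) (i : ℤ) : Prop :=
  ∀ u u', Ge w i (u - 1) → Ge w i (u' - 1) → ∃ n, n ≠ 0 ∧ Sy a n ∧
    (Ge w (i + 1) (u * n - 1) ∨ Ge w (i + 1) (u' * n - 1) ∨ Ge w (i + 1) (u * u' * n - 1))

/-- product of two close elements -/
private theorem near (h : IsVal w) {i : ℤ} (hi : 1 ≤ i) {u ν : F} (hu : Ge w i (u - 1))
    (hν : Ge w i ν) (hs : Ge w (i + 1) (u - 1 + ν)) :
    1 + ν ≠ 0 ∧ Ge w (i + 1) (u * (1 + ν) - 1) := by
  refine ⟨(h.add_eq one_ne_zero (by rw [h.one]; exact hν.mono (by linarith))).1, ?_⟩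
  have e : u * (1 + ν) - 1 = (u - 1 + ν) + (u - 1) * ν := by ring
  rw [e]
  exact h.ge_add hs ((h.ge_mul hu hν).mono (by linarith))

/-- division -/
private theorem ge_div (h : IsVal w) {n : ℤ} {x y : F} (hy : y ≠ 0) (hx : Ge w (w y + n) x) :
    Ge w n (x / y) := by
  by_cases hx0 : x = 0
  · rw [hx0, zero_div]; exact ge_zero n
  · refine Or.inr ?_
    rw [h.div hx0 hy]
    have := (ge_iff hx0).1 hx
    linarith

private theorem stp_of (h : IsLoc w) (h2 : 0 < w 2) {a μ : F} (hμ : μ ≠ 0) (h1 : 1 ≤ w μ)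
    (hS : ∀ x, Ge w 0 x → ∃ ν, Sy a (1 + ν) ∧ Ge w (w μ + 1) (ν - μ * x ^ 2)) :
    Stp w a (w μ) := by
  have hV := h.toIsVal
  intro u hu
  have e1 : Ge w 0 (-(u - 1) / μ) := ge_div hV hμ (by simpa using hV.ge_neg hu)
  obtain ⟨x, hx, hxx⟩ := exists_sqrt_res h h2 e1
  obtain ⟨ν, hν, hνx⟩ := hS x hx
  have e2 : Ge w (w μ) (μ * x ^ 2) := by
    have := hV.ge_mul (Or.inr le_rfl : Ge w (w μ) μ) (hV.ge_pow hx 2)
    simpa using this
  have e3 : Ge w (w μ) ν := by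
    have := hV.ge_add (hνx.mono (by linarith)) e2
    rwa [sub_add_cancel] at this
  have e4 : Ge w (w μ + 1) (u - 1 + ν) := by
    have e5 : u - 1 + ν = (ν - μ * x ^ 2) + (-(μ * (-(u - 1) / μ - x ^ 2))) := by
      field_simp
      ring
    rw [e5]
    exact hV.ge_add hνx (hV.ge_neg (hV.ge_mul (Or.inr le_rfl) hxx))
  obtain ⟨e6, e7⟩ := near hV h1 hu e3 e4
  exact ⟨1 + ν, e6, hν, e7⟩

private theorem stp2_of (h : IsLoc w) (h2 : 0 < w 2) {a κ : F} (hκ : κ ≠ 0) (h1 : 1 ≤ w κ)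
    (hS : ∀ x, Sy a (1 + -(κ * (x ^ 2 + x)))) : Stp2 w a (w κ) := by
  have hV := h.toIsVal
  intro u u' hu hu'
  have e1 : Ge w 0 ((u - 1) / κ) := ge_div hV hκ (by simpa using hu)
  have e1' : Ge w 0 ((u' - 1) / κ) := ge_div hV hκ (by simpa using hu')
  obtain ⟨x, hx, hxx⟩ := as_two h h2 e1 e1'
  have hx2 : Ge w 0 (x ^ 2 + x) := by
    refine hV.ge_add ?_ hx
    simpa using hV.ge_pow hx 2
  have hκx : Ge w (w κ) (-(κ * (x ^ 2 + x))) := by
    have := hV.ge_neg (hV.ge_mul (Or.inr le_rfl : Ge w (w κ) κ) hx2)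
    simpa using this
  have hne : 1 + -(κ * (x ^ 2 + x)) ≠ 0 :=
    (hV.add_eq one_ne_zero (by rw [hV.one]; exact hκx.mono (by linarith))).1
  refine ⟨1 + -(κ * (x ^ 2 + x)), hne, hS x, ?_⟩
  have huu : Ge w (w κ) (u * u' - 1) := by
    have e : u * u' - 1 = (u - 1) + (u' - 1) + (u - 1) * (u' - 1) := by ring
    rw [e]
    exact hV.ge_add (hV.ge_add hu hu') ((hV.ge_mul hu hu').mono (by linarith))
  rcases hxx with hxx | hxx | hxx
  · refine Or.inl (near hV h1 hu hκx ?_).2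
    have e5 : u - 1 + -(κ * (x ^ 2 + x)) = κ * ((u - 1) / κ - (x ^ 2 + x)) := by
      field_simp
      ring
    rw [e5]
    exact hV.ge_mul (Or.inr le_rfl) hxx
  · refine Or.inr (Or.inl (near hV h1 hu' hκx ?_).2)
    have e5 : u' - 1 + -(κ * (x ^ 2 + x)) = κ * ((u' - 1) / κ - (x ^ 2 + x)) := by
      field_simp
      ring
    rw [e5]
    exact hV.ge_mul (Or.inr le_rfl) hxx
  · refine Or.inr (Or.inr (near hV h1 huu hκx ?_).2)
    have e5 : u * u' - 1 + -(κ * (x ^ 2 + x)) =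
        κ * ((u - 1) / κ + (u' - 1) / κ - (x ^ 2 + x)) + (u - 1) * (u' - 1) := by
      field_simp
      ring
    rw [e5]
    exact hV.ge_add (hV.ge_mul (Or.inr le_rfl) hxx) ((hV.ge_mul hu hu').mono (by linarith))

private theorem sy_shift (α y : F) : Sy (1 + α) (1 + (2 * y - α * y ^ 2)) :=
  ⟨1 + y, y, by ring⟩

theorem step_sq (h : IsLoc w) (a : F) {m : ℤ} (hm : 1 ≤ m) (hme : m < w 2) :
    Stp w a (2 * m) := by
  have hV := h.toIsVal
  obtain ⟨P, hP, hPm⟩ := hV.exists_ord m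
  have hw : w (P ^ 2) = 2 * m := by rw [hV.pow, hPm]; push_cast; ring
  have key : Stp w a (w (P ^ 2)) := by
    refine stp_of h (by linarith) (pow_ne_zero 2 hP) (by rw [hw]; linarith) ?_
    intro x hx
    refine ⟨2 * (x * P) + P ^ 2 * x ^ 2, ⟨1 + x * P, 0, by ring⟩, ?_⟩
    rw [add_sub_cancel_right, hw]
    exact (hV.ge_mul (Or.inr le_rfl : Ge w (w 2) (2 : F))
      (hV.ge_mul hx (Or.inr hPm.ge : Ge w m P))).mono (by linarith)
  rwa [hw] at key

theorem step_lin (h : IsLoc w) {α : F} (hα : α ≠ 0) (h1 : 1 ≤ w α) (h2 : w α < 2 * w 2) {i : ℤ}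
    (hi : 2 * w 2 - w α < i) : Stp w (1 + α) i := by
  have hV := h.toIsVal
  have h20 := h.two
  intro u hu
  have hy : Ge w (i - w 2) (-(u - 1) / 2) :=
    ge_div hV h20 ((hV.ge_neg hu).mono (by linarith))
  have e1 : Ge w (i + 1) (α * (-(u - 1) / 2) ^ 2) := by
    have := hV.ge_mul (Or.inr le_rfl : Ge w (w α) α) (hV.ge_pow hy 2)
    refine this.mono ?_
    push_cast
    linarith
  have e2 : 2 * (-(u - 1) / 2) = -(u - 1) := by field_simp
  have e3 : u - 1 + (2 * (-(u - 1) / 2) - α * (-(u - 1) / 2) ^ 2) =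
      -(α * (-(u - 1) / 2) ^ 2) := by
    rw [e2]
    ring
  have e4 : Ge w i (2 * (-(u - 1) / 2) - α * (-(u - 1) / 2) ^ 2) := by
    rw [e2]
    exact hV.ge_sub (hV.ge_neg hu) (e1.mono (by linarith))
  obtain ⟨e6, e7⟩ := near hV (by linarith) hu e4 (by rw [e3]; exact hV.ge_neg e1)
  exact ⟨_, e6, sy_shift α _, e7⟩

theorem step_odd (h : IsLoc w) {α : F} (hα : α ≠ 0) (h1 : 1 ≤ w α) (h2 : w α < 2 * w 2)
    (ho : Odd (w α)) {i : ℤ} (hi1 : 1 ≤ i) (hi : i < 2 * w 2 - w α) (hio : Odd i) :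
    Stp w (1 + α) i := by
  have hV := h.toIsVal
  obtain ⟨l, hl⟩ := ho
  obtain ⟨k, hk⟩ := hio
  obtain ⟨P, hP, hPm⟩ := hV.exists_ord (k - l)
  have hw : w (-(α * P ^ 2)) = i := by
    rw [hV.neg, hV.mul _ _ hα (pow_ne_zero 2 hP), hV.pow, hPm]
    push_cast
    linarith
  have key : Stp w (1 + α) (w (-(α * P ^ 2))) := by
    refine stp_of h (by linarith) (neg_ne_zero.2 (mul_ne_zero hα (pow_ne_zero 2 hP)))
      (by rw [hw]; linarith) ?_
    intro x hx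
    refine ⟨2 * (x * P) - α * (x * P) ^ 2, sy_shift α _, ?_⟩
    have e : 2 * (x * P) - α * (x * P) ^ 2 - -(α * P ^ 2) * x ^ 2 = 2 * (x * P) := by ring
    rw [e, hw]
    exact (hV.ge_mul (Or.inr le_rfl : Ge w (w 2) (2 : F))
      (hV.ge_mul hx (Or.inr hPm.ge : Ge w (k - l) P))).mono (by omega)
  rwa [hw] at key

theorem step_mid (h : IsLoc w) {α : F} (hα : α ≠ 0) (h1 : 1 ≤ w α) (h2 : w α < 2 * w 2) :
    Stp2 w (1 + α) (2 * w 2 - w α) := by
  have hV := h.toIsVal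
  have h4 := h.four_ne
  have hw : w (4 / α) = 2 * w 2 - w α := by rw [hV.div h4 hα, h.w_four]
  have key : Stp2 w (1 + α) (w (4 / α)) := by
    refine stp2_of h (by linarith) (div_ne_zero h4 hα) (by rw [hw]; linarith) ?_
    intro x
    have := sy_shift α (-(2 / α * x))
    have e : 2 * (-(2 / α * x)) - α * (-(2 / α * x)) ^ 2 = -(4 / α * (x ^ 2 + x)) := by
      field_simp
      ring
    rwa [e] at this
  rwa [hw] at key

theorem step_one (h : IsLoc w) (h2 : 0 < w 2) {a : F} (ha : w a = 1) {i : ℤ} (hi1 : 1 ≤ i)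
    (hio : Odd i) : Stp w a i := by
  have hV := h.toIsVal
  obtain ⟨k, hk⟩ := hio
  have ha0 : a ≠ 0 := by
    rintro rfl
    rw [hV.zero] at ha
    exact zero_ne_one ha
  obtain ⟨P, hP, hPm⟩ := hV.exists_ord k
  have hw : w (-(a * P ^ 2)) = i := by
    rw [hV.neg, hV.mul _ _ ha0 (pow_ne_zero 2 hP), hV.pow, hPm, ha]
    push_cast
    linarith
  have key : Stp w a (w (-(a * P ^ 2))) := by
    refine stp_of h h2 (neg_ne_zero.2 (mul_ne_zero ha0 (pow_ne_zero 2 hP)))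
      (by rw [hw]; linarith) ?_
    intro x hx
    refine ⟨-(a * P ^ 2) * x ^ 2, ⟨1, x * P, by ring⟩, ?_⟩
    rw [sub_self]
    exact ge_zero _
  rwa [hw] at key

theorem step_one_mid (h : IsLoc w) (h2 : 0 < w 2) (a : F) : Stp2 w a (2 * w 2) := by
  have hV := h.toIsVal
  have h4 := h.four_ne
  have hw : w (-4) = 2 * w 2 := by rw [hV.neg, h.w_four]
  have key : Stp2 w a (w (-4)) := by
    refine stp2_of h h2 (neg_ne_zero.2 h4) (by rw [hw]; linarith) ?_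
    intro x
    exact ⟨1 + 2 * x, 0, by ring⟩
  rwa [hw] at key

end UDN
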