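import Pool.Agent.UDN.LocD

/-!
# UDN: the norm group has index at most two

PROOF of `sy_mul_of_not`.  By `cls` and `sy_mul_sq_left` we may assume that `a` is of type (1), (2)
or (3).
(3): `w b`, `w c` are odd (`unr_surj`), so `w (b c)` is even: `unr_surj`.
(1) and `w 2 = 0`: `Sy a (-a)` and `Sy a (squares)`: multiplying `b` and `c` by `- a` or `1` and by
squares we may assume that `b`, `c` are units (this multiplies `b c` by a norm); `b`, `c` are not
squares (`sy_sq`), so `b c` is a square (`odd_units`).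
(1) or (2) with `w 2 = e > 0`: there is a norm `n₀` of odd order (`- a` resp. `1 - a = - α`), so
multiplying by `n₀` or `1`, by an even power of `π` and by a square unit (`exists_sqrt_res`) we may
assume `b, c ∈ U_1`.  Let `i0 = 2 e` (type (1)) resp. `2 e - w α` (type (2), an odd number
`1 ≤ i0 < 2 e`).  (`filt_up`) for `1 ≤ i ≤ i' ` such that `Stp w a l` for all `i ≤ l < i'`: every
element of `U_i` is in `N U_{i'}`: induction.  The steps `1 ≤ l < i0` are `Stp` (even `l`: `step_sq`;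
odd `l`: `step_odd`, `step_one`), and `i0 < l ≤ 2 e` are `Stp` (type (2): `step_lin`).
So there are norms `n`, `n'` with `b n, c n' ∈ U_{i0}`; apply `Stp2` at `i0` (`step_mid`,
`step_one_mid`): `b n n''`, `c n' n''` or `b c n n' n''` is in `U_{i0+1} ⊆ N U_{2e+1}`, and the
elements of `U_{2e+1}` are squares (`isSquare_of_close`), so `b`, `c` or `b c` is a norm.
-/

set_option autoImplicit false

namespace UDN

variable {F : Type*} [Field F] {w : F → ℤ}

theorem filt_up (h : IsLoc w) {a : F} {i i' : ℤ} (hi : 1 ≤ i) (hii : i ≤ i')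
    (hst : ∀ l, i ≤ l → l < i' → Stp w a l) {u : F} (hu : Ge w i (u - 1)) :
    ∃ n, n ≠ 0 ∧ Sy a n ∧ Ge w i' (u * n - 1) := by
  have hV := h.toIsVal
  revert hst
  induction i', hii using Int.le_induction with
  | base =>
    intro _
    exact ⟨1, one_ne_zero, sy_one a, by simpa using hu⟩
  | succ j hj ih =>
    intro hst
    obtain ⟨n, hn, hSn, hge⟩ := ih (fun l h1 h2 => hst l h1 (by linarith))
    obtain ⟨n', hn', hSn', hge'⟩ := hst j hj (by linarith) (u * n) hge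
    exact ⟨n * n', mul_ne_zero hn hn', hSn.mul hSn', by rwa [← mul_assoc]⟩

private theorem sy_fin (h : IsLoc w) {a X N : F} (hN : N ≠ 0) (hS : Sy a N)
    (hX : Ge w (2 * w 2 + 1) (X * N - 1)) : Sy a X := by
  obtain ⟨r, hr⟩ := h.isSquare_of_close hX
  refine hS.of_mul hN ?_
  rw [mul_comm, hr, ← pow_two]
  exact sy_sq a r

private theorem exists_unit (h : IsVal w) {a n₀ : F} (hn₀ : n₀ ≠ 0) (hS : Sy a n₀)
    (ho : Odd (w n₀)) {b : F} (hb : b ≠ 0) : ∃ n, n ≠ 0 ∧ Sy a n ∧ b * n ≠ 0 ∧ w (b * n) = 0 := by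
  obtain ⟨k, hk⟩ := ho
  rcases Int.even_or_odd (w b) with ⟨m, hm⟩ | ⟨m, hm⟩
  · obtain ⟨x, hx, hxm⟩ := h.exists_ord (-m)
    refine ⟨x ^ 2, pow_ne_zero 2 hx, sy_sq a x, mul_ne_zero hb (pow_ne_zero 2 hx), ?_⟩
    rw [h.mul _ _ hb (pow_ne_zero 2 hx), h.pow, hxm, hm]
    push_cast
    ring
  · obtain ⟨x, hx, hxm⟩ := h.exists_ord (-(m + k + 1))
    have h1 := mul_ne_zero hn₀ (pow_ne_zero 2 hx)
    refine ⟨n₀ * x ^ 2, h1, hS.mul (sy_sq a x), mul_ne_zero hb h1, ?_⟩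
    rw [h.mul _ _ hb h1, h.mul _ _ hn₀ (pow_ne_zero 2 hx), h.pow, hxm, hm, hk]
    push_cast
    ring

private theorem exists_one_unit (h : IsLoc w) (h2 : 0 < w 2) {a n₀ : F} (hn₀ : n₀ ≠ 0)
    (hS : Sy a n₀) (ho : Odd (w n₀)) {b : F} (hb : b ≠ 0) :
    ∃ n, n ≠ 0 ∧ Sy a n ∧ Ge w 1 (b * n - 1) := by
  have hV := h.toIsVal
  obtain ⟨n, hn, hSn, hbn, hw⟩ := exists_unit hV hn₀ hS ho hb
  obtain ⟨r, -, hr⟩ := exists_sqrt_res h h2 (x := b * n) (Or.inr hw.ge)
  have h3 : r ^ 2 ≠ 0 ∧ w (r ^ 2) = w (b * n) := by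
    have := hV.add_eq hbn (y := -(b * n - r ^ 2)) (by rw [hw]; simpa using hV.ge_neg hr)
    have e : b * n + -(b * n - r ^ 2) = r ^ 2 := by ring
    rwa [e] at this
  refine ⟨n * (r ^ 2)⁻¹, mul_ne_zero hn (inv_ne_zero h3.1), hSn.mul (sy_sq a r).inv, ?_⟩
  have e : b * (n * (r ^ 2)⁻¹) - 1 = (b * n - r ^ 2) * (r ^ 2)⁻¹ := by
    rw [sub_mul, mul_inv_cancel₀ h3.1, mul_assoc]
  rw [e]
  have h4 : Ge w 0 (r ^ 2)⁻¹ := Or.inr (by rw [hV.inv, h3.2, hw]; simp)
  simpa using hV.ge_mul hr h4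

private theorem dyadic_core (h : IsLoc w) (h2 : 0 < w 2) {a n₀ : F} (hn₀ : n₀ ≠ 0)
    (hS : Sy a n₀) (ho : Odd (w n₀)) {i0 : ℤ} (hi1 : 1 ≤ i0) (hi2 : i0 ≤ 2 * w 2)
    (hst : ∀ l, 1 ≤ l → l < i0 → Stp w a l) (hst2 : Stp2 w a i0)
    (hst3 : ∀ l, i0 + 1 ≤ l → l < 2 * w 2 + 1 → Stp w a l)
    {b c : F} (hb : b ≠ 0) (hc : c ≠ 0) (hab : ¬ Sy a b) (hac : ¬ Sy a c) : Sy a (b * c) := by
  obtain ⟨n1, hn1, hS1, h1⟩ := exists_one_unit h h2 hn₀ hS ho hb
  obtain ⟨n2, hn2, hS2, h2'⟩ := exists_one_unit h h2 hn₀ hS ho hc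
  obtain ⟨n3, hn3, hS3, h3⟩ := filt_up h le_rfl hi1 hst h1
  obtain ⟨n4, hn4, hS4, h4⟩ := filt_up h le_rfl hi1 hst h2'
  obtain ⟨n5, hn5, hS5, h5⟩ := hst2 _ _ h3 h4
  have fin : ∀ X N : F, N ≠ 0 → Sy a N → Ge w (i0 + 1) (X * N - 1) → Sy a X := by
    intro X N hN hSN hX
    obtain ⟨n, hn, hSn, hge⟩ := filt_up h (by linarith) (by linarith) hst3 hX
    exact sy_fin h (mul_ne_zero hN hn) (hSN.mul hSn) (by rwa [← mul_assoc])
  rcases h5 with h5 | h5 | h5
  · refine absurd (fin b (n1 * n3 * n5) (mul_ne_zero (mul_ne_zero hn1 hn3) hn5)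
      ((hS1.mul hS3).mul hS5) ?_) hab
    have e : b * (n1 * n3 * n5) = b * n1 * n3 * n5 := by ring
    rwa [e]
  · refine absurd (fin c (n2 * n4 * n5) (mul_ne_zero (mul_ne_zero hn2 hn4) hn5)
      ((hS2.mul hS4).mul hS5) ?_) hac
    have e : c * (n2 * n4 * n5) = c * n2 * n4 * n5 := by ring
    rwa [e]
  · refine fin (b * c) (n1 * n3 * (n2 * n4) * n5)
      (mul_ne_zero (mul_ne_zero (mul_ne_zero hn1 hn3) (mul_ne_zero hn2 hn4)) hn5)
      (((hS1.mul hS3).mul (hS2.mul hS4)).mul hS5) ?_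
    have e : b * c * (n1 * n3 * (n2 * n4) * n5) = b * n1 * n3 * (c * n2 * n4) * n5 := by ring
    rwa [e]

private theorem odd_core (h : IsLoc w) (h2 : w 2 = 0) {a n₀ : F} (hn₀ : n₀ ≠ 0)
    (hS : Sy a n₀) (ho : Odd (w n₀)) {b c : F} (hb : b ≠ 0) (hc : c ≠ 0) (hab : ¬ Sy a b)
    (hac : ¬ Sy a c) : Sy a (b * c) := by
  have hV := h.toIsVal
  have key : ∀ X N : F, N ≠ 0 → Sy a N → IsSquare (X * N) → Sy a X := by
    intro X N hN hSN hX
    obtain ⟨r, hr⟩ := hX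
    refine hSN.of_mul hN ?_
    rw [mul_comm, hr, ← pow_two]
    exact sy_sq a r
  obtain ⟨n1, hn1, hS1, hb1, hw1⟩ := exists_unit hV hn₀ hS ho hb
  obtain ⟨n2, hn2, hS2, hc2, hw2⟩ := exists_unit hV hn₀ hS ho hc
  have h3 := odd_units h h2 hb1 hc2 hw1 hw2 (fun hq => hab (key b n1 hn1 hS1 hq))
    (fun hq => hac (key c n2 hn2 hS2 hq))
  refine key (b * c) (n1 * n2) (mul_ne_zero hn1 hn2) (hS1.mul hS2) ?_
  have e : b * c * (n1 * n2) = b * n1 * (c * n2) := by ring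
  rwa [e]

/-- the norm group has index at most two -/
theorem sy_mul_of_not (h : IsLoc w) {a b c : F} (ha : a ≠ 0) (hns : ¬ IsSquare a) (hb : b ≠ 0)
    (hc : c ≠ 0) (hab : ¬ Sy a b) (hac : ¬ Sy a c) : Sy a (b * c) := by
  have hV := h.toIsVal
  have h2n := h.two_nonneg
  obtain ⟨s, a', hs, ha', rfl, hT⟩ := cls h ha hns
  have hns' : ¬ IsSquare a' := by
    rintro ⟨r, rfl⟩
    exact hns ⟨r * s, by ring⟩
  rw [sy_mul_sq_left hs] at hab hac ⊢
  rcases hT with hT | hT | hT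
  · have hT' : w a' = 1 := hT
    have ho : Odd (w (-a')) := by rw [hV.neg, hT']; exact odd_one
    rcases h2n.lt_or_eq with h2 | h2
    · refine dyadic_core h h2 (neg_ne_zero.2 ha') (sy_neg a') ho (i0 := 2 * w 2) (by linarith)
        le_rfl ?_ (step_one_mid h h2 a') ?_ hb hc hab hac
      · intro l hl1 hl2
        rcases Int.even_or_odd l with ⟨m, hm⟩ | hl
        · have := step_sq h a' (m := m) (by omega) (by omega)
          rwa [hm, ← two_mul]
        · exact step_one h h2 hT' hl1 hl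
      · intro l hl1 hl2
        omega
    · exact odd_core h h2.symm (neg_ne_zero.2 ha') (sy_neg a') ho hb hc hab hac
  · obtain ⟨α, hα0, rfl, h1α, h2α, hodd⟩ := hT
    have h2 : 0 < w 2 := by linarith
    have hS : Sy (1 + α) (-α) := by
      have := sy_one_sub (1 + α)
      have e : 1 - (1 + α) = -α := by ring
      rwa [e] at this
    refine dyadic_core h h2 (neg_ne_zero.2 hα0) hS (by rwa [hV.neg]) (i0 := 2 * w 2 - w α)
      (by linarith) (by linarith) ?_ (step_mid h hα0 h1α h2α) ?_ hb hc hab hac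
    · intro l hl1 hl2
      rcases Int.even_or_odd l with ⟨m, hm⟩ | hl
      · have := step_sq h (1 + α) (m := m) (by omega) (by omega)
        rwa [hm, ← two_mul]
      · exact step_odd h hα0 h1α h2α hodd hl1 hl2 hl
    · intro l hl1 hl2
      exact step_lin h hα0 h1α h2α (by omega)
  · have hb1 : ¬ Even (w b) := fun he => hab (unr_surj h hT hns' hb he)
    have hc1 : ¬ Even (w c) := fun he => hac (unr_surj h hT hns' hc he)
    refine unr_surj h hT hns' (mul_ne_zero hb hc) ?_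
    rw [hV.mul _ _ hb hc]
    rw [Int.not_even_iff_odd] at hb1 hc1
    exact hb1.add_odd hc1

end UDN
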