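import Pool.Agent.UDN.LocC
import Pool.Agent.UDN.LocD2

/-!
# UDN: every quadratic extension splits the quaternion division algebra

PROOF of `exists_common` : take `b` with `¬ Sy a b` and `c` with `¬ Sy d c` (`exists_not_sy`).  If
`¬ Sy d b` take `y = b`; if `¬ Sy a c` take `y = c`; otherwise `Sy d b`, `Sy a c` and `y = b c`
(`Sy.of_mul`).
PROOF of `rep_nonsq` : take `y` with `¬ Sy a y`, `¬ Sy d y`.  `sy_mul_of_not` : `Sy a (b * y)`.
By symmetry (`Sy.symm`) `¬ Sy y a`, `¬ Sy y d`; `y` is not a square (`sy_of_isSquare` and symmetry),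
so `Sy y (a * d)`: `a d = r ^ 2 - y s ^ 2`.  So `d = a (r / a) ^ 2 + (- y / a) s ^ 2`, and
`- y / a = b * ((-a) * (b * y) / (a * b) ^ 2)`, where `(-a) (b y) / (a b) ^ 2` is a norm:
`Sy a (-a)`, `Sy a (b y)`, `Sy.mul`, `Sy.inv`; say it is `p ^ 2 - a q ^ 2`.  Then
`d = a (r / a) ^ 2 + b (p s) ^ 2 - a b (q s) ^ 2`.
-/

set_option autoImplicit false

namespace UDN

variable {F : Type*} [Field F] {w : F → ℤ}

theorem exists_common (h : IsLoc w) {a d : F} (ha : a ≠ 0) (hd : d ≠ 0) (hna : ¬ IsSquare a)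
    (hnd : ¬ IsSquare d) : ∃ y, y ≠ 0 ∧ ¬ Sy a y ∧ ¬ Sy d y := by
  obtain ⟨b, hb, hab⟩ := exists_not_sy h ha hna
  obtain ⟨c, hc, hdc⟩ := exists_not_sy h hd hnd
  by_cases hdb : Sy d b
  · by_cases hac : Sy a c
    · refine ⟨b * c, mul_ne_zero hb hc, fun h1 => ?_, fun h1 => hdc (hdb.of_mul hb h1)⟩
      refine hab (hac.of_mul hc ?_)
      rwa [mul_comm]
    · exact ⟨c, hc, hac, hdc⟩
  · exact ⟨b, hb, hab, hdb⟩

/-- if the quaternion algebra `(a, b)` does not split, its pure quaternions represent every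
nonsquare -/
theorem rep_nonsq (h : IsLoc w) {a b d : F} (ha : a ≠ 0) (hb : b ≠ 0) (hab : ¬ Sy a b)
    (hd : d ≠ 0) (hnd : ¬ IsSquare d) :
    ∃ x y z : F, d = a * x ^ 2 + b * y ^ 2 - a * b * z ^ 2 := by
  have h2 := h.two
  have hna : ¬ IsSquare a := fun hq => hab (sy_of_isSquare h2 ha hq b)
  obtain ⟨y, hy, hay, hdy⟩ := exists_common h ha hd hna hnd
  have e1 : Sy a (b * y) := sy_mul_of_not h ha hna hb hy hab hay
  have hya : ¬ Sy y a := fun hh => hay (hh.symm h2 ha)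
  have hyd : ¬ Sy y d := fun hh => hdy (hh.symm h2 hd)
  have hny : ¬ IsSquare y := fun hq => hya (sy_of_isSquare h2 hy hq a)
  obtain ⟨r, s, hrs⟩ := sy_mul_of_not h hy hny ha hd hya hyd
  obtain ⟨p, q, hpq⟩ : Sy a ((-a) * (b * y) * ((a * b) ^ 2)⁻¹) :=
    ((sy_neg a).mul e1).mul (sy_sq a (a * b)).inv
  refine ⟨r / a, p * s, q * s, ?_⟩
  have e2 : b * (p ^ 2 - a * q ^ 2) = -y / a := by
    rw [hpq]
    field_simp
  have e3 : d = a * (r / a) ^ 2 + (-y / a) * s ^ 2 := by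
    field_simp
    linear_combination -hrs
  rw [e3, ← e2]
  ring

end UDN
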