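import Pool.Agent.UDN.Base

/-!
# UDN: the residue field of an abstract local field

`vr h` : the valuation ring, `RF h` its residue field, `rs h : F → RF h` the residue map
(`0` outside of the valuation ring).

PROOFS.  `vr` : if `x ≠ 0` then `0 ≤ w x` or `0 ≤ w x⁻¹ = - w x`.  `rs_eq_zero_iff` : `x` (integral)
is a unit of `vr` iff `x⁻¹` is integral iff `w x = 0` (`x ≠ 0`).  The rest follows.
`finite_RF` : `RF h` is the image of the finite set `R` of `IsLoc.fin` under `rs`.
-/

set_option autoImplicit false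

namespace UDN

variable {F : Type*} [Field F] {w : F → ℤ}

/-- the valuation ring -/
def vr (h : IsVal w) : ValuationSubring F where
  carrier := {x | Ge w 0 x}
  mul_mem' hx hy := by simpa using h.ge_mul hx hy
  one_mem' := h.ge_one
  add_mem' hx hy := h.ge_add hx hy
  zero_mem' := ge_zero 0
  neg_mem' hx := h.ge_neg hx
  mem_or_inv_mem' x := by
    by_cases hx : x = 0
    · exact Or.inl (Or.inl hx)
    · rcases le_total 0 (w x) with h1 | h1
      · exact Or.inl (Or.inr h1)
      · exact Or.inr (Or.inr (by rw [h.inv]; linarith))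

theorem mem_vr (h : IsVal w) {x : F} : x ∈ vr h ↔ Ge w 0 x := Iff.rfl

/-- the residue field -/
abbrev RF (h : IsVal w) := IsLocalRing.ResidueField (vr h)

open Classical in
/-- the residue map, `0` outside of the valuation ring -/
noncomputable def rs (h : IsVal w) (x : F) : RF h :=
  if hx : Ge w 0 x then IsLocalRing.residue (vr h) ⟨x, hx⟩ else 0

private theorem rs_pos (h : IsVal w) {x : F} (hx : Ge w 0 x) :
    rs h x = IsLocalRing.residue (vr h) ⟨x, hx⟩ := by
  unfold rs
  exact dif_pos hx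

theorem rs_add (h : IsVal w) {x y : F} (hx : Ge w 0 x) (hy : Ge w 0 y) :
    rs h (x + y) = rs h x + rs h y := by
  rw [rs_pos h hx, rs_pos h hy, rs_pos h (h.ge_add hx hy), ← map_add]
  rfl

private theorem ge_mul0 (h : IsVal w) {x y : F} (hx : Ge w 0 x) (hy : Ge w 0 y) : Ge w 0 (x * y) := by
  simpa using h.ge_mul hx hy

theorem rs_mul (h : IsVal w) {x y : F} (hx : Ge w 0 x) (hy : Ge w 0 y) :
    rs h (x * y) = rs h x * rs h y := by
  rw [rs_pos h hx, rs_pos h hy, rs_pos h (ge_mul0 h hx hy), ← map_mul]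
  rfl

theorem rs_one (h : IsVal w) : rs h 1 = 1 := by
  rw [rs_pos h h.ge_one]
  exact map_one (IsLocalRing.residue (vr h))

theorem rs_zero (h : IsVal w) : rs h 0 = 0 := by
  rw [rs_pos h (ge_zero 0)]
  exact map_zero (IsLocalRing.residue (vr h))

theorem rs_neg (h : IsVal w) {x : F} (hx : Ge w 0 x) : rs h (-x) = - rs h x := by
  rw [rs_pos h hx, rs_pos h (h.ge_neg hx), ← map_neg]
  rfl

theorem rs_sub (h : IsVal w) {x y : F} (hx : Ge w 0 x) (hy : Ge w 0 y) :
    rs h (x - y) = rs h x - rs h y := by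
  rw [rs_pos h hx, rs_pos h hy, rs_pos h (h.ge_sub hx hy), ← map_sub]
  rfl

theorem rs_pow (h : IsVal w) {x : F} (hx : Ge w 0 x) (n : ℕ) : rs h (x ^ n) = rs h x ^ n := by
  have h1 : ∀ m : ℕ, Ge w 0 (x ^ m) := fun m => by simpa using h.ge_pow hx m
  induction n with
  | zero => rw [pow_zero, pow_zero, rs_one]
  | succ n ih => rw [pow_succ, pow_succ, rs_mul h (h1 n) hx, ih]

theorem rs_surj (h : IsVal w) (c : RF h) : ∃ x, Ge w 0 x ∧ rs h x = c := by
  obtain ⟨⟨x, hx⟩, hc⟩ := IsLocalRing.residue_surjective c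
  exact ⟨x, hx, by rw [rs_pos h hx]; exact hc⟩

theorem rs_eq_zero_iff (h : IsVal w) {x : F} (hx : Ge w 0 x) : rs h x = 0 ↔ Ge w 1 x := by
  rw [rs_pos h hx, IsLocalRing.residue_eq_zero_iff, IsLocalRing.mem_maximalIdeal, mem_nonunits_iff]
  constructor
  · intro hnu
    by_cases hx0 : x = 0
    · exact Or.inl hx0
    · have h1 := (ge_iff hx0).1 hx
      rcases eq_or_lt_of_le h1 with h2 | h2
      · exfalso
        apply hnu
        have hxi : Ge w 0 x⁻¹ := Or.inr (by rw [h.inv]; omega)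
        refine IsUnit.of_mul_eq_one (⟨x⁻¹, hxi⟩ : vr h) ?_
        exact Subtype.ext (mul_inv_cancel₀ hx0)
      · exact Or.inr (by omega)
  · intro h1 hu
    obtain ⟨⟨y, hy⟩, hxy⟩ := hu.exists_right_inv
    have hxy' : x * y = 1 := congrArg Subtype.val hxy
    have hx0 : x ≠ 0 := by
      rintro rfl
      rw [zero_mul] at hxy'
      exact zero_ne_one hxy'
    have hy0 : y ≠ 0 := by
      rintro rfl
      rw [mul_zero] at hxy'
      exact zero_ne_one hxy'
    have h2 := h.mul x y hx0 hy0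
    rw [hxy', h.one] at h2
    have h3 := (ge_iff hx0).1 h1
    have h4 : 0 ≤ w y := (ge_iff hy0).1 hy
    omega

theorem rs_eq_iff (h : IsVal w) {x y : F} (hx : Ge w 0 x) (hy : Ge w 0 y) :
    rs h x = rs h y ↔ Ge w 1 (x - y) := by
  rw [← rs_eq_zero_iff h (h.ge_sub hx hy), rs_sub h hx hy, sub_eq_zero]

theorem finite_RF (h : IsLoc w) : Finite (RF h.toIsVal) := by
  obtain ⟨R, hR⟩ := h.fin
  refine Finite.of_surjective (fun r : R => rs h.toIsVal (r : F)) ?_
  intro c
  obtain ⟨x, hx, rfl⟩ := rs_surj h.toIsVal c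
  obtain ⟨r, hr, hxr⟩ := hR x hx
  have hr0 : Ge w 0 r := by
    have h1 := h.toIsVal.ge_sub hx (hxr.mono (by norm_num : (0 : ℤ) ≤ 1))
    have h2 : x - (x - r) = r := by ring
    rwa [h2] at h1
  exact ⟨⟨r, hr⟩, ((rs_eq_iff h.toIsVal hx hr0).2 hxr).symm⟩

private theorem rs_two_eq (h : IsVal w) : rs h 2 = 2 := by
  have h1 : (2 : F) = 1 + 1 := by norm_num
  rw [h1, rs_add h h.ge_one h.ge_one, rs_one]
  norm_num

/-- dyadic: the residue field has characteristic two -/
theorem rs_two (h : IsLoc w) (h2 : 0 < w 2) : (2 : RF h.toIsVal) = 0 := by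
  rw [← rs_two_eq h.toIsVal, rs_eq_zero_iff h.toIsVal h.toIsVal.ge_two]
  exact Or.inr (by omega)

/-- odd: two is not zero in the residue field -/
theorem rs_two_ne (h : IsLoc w) (h2 : w 2 = 0) : (2 : RF h.toIsVal) ≠ 0 := by
  intro h3
  rw [← rs_two_eq h.toIsVal, rs_eq_zero_iff h.toIsVal h.toIsVal.ge_two] at h3
  rcases h3 with h3 | h3
  · exact h.two h3
  · omega

end UDN
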