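import Pool.Agent.UDN.Base

/-!
# UDN: quaternion algebras, elementary algebra over a field

`Rep a b d` : `d` is represented by the pure quaternions of `(a, b)`; `SQ a b t` : `t` is the trace of
a quaternion of norm one.

PROOFS (`2 ≠ 0`, `a, b ≠ 0`).
* `sq_iff_rep` : `t = 2 x`, `t ^ 2 - 4 = 4 (x ^ 2 - 1) = a (2 y) ^ 2 + b (2 z) ^ 2 - a b (2 u) ^ 2`.
* `sy_of_rep_sq` : `s ^ 2 = a y ^ 2 + b (z ^ 2 - a u ^ 2)`.  If `z ^ 2 - a u ^ 2 = 0` then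
  `s ^ 2 = a y ^ 2`, so `a` is a square (`y ≠ 0`): `sy_of_isSquare`.  Otherwise
  `b (z ^ 2 - a u ^ 2) = s ^ 2 - a y ^ 2` is a norm and so is `z ^ 2 - a u ^ 2`: `Sy.of_mul`.
* `rep_of_sy` : `b = p ^ 2 - a q ^ 2`.  The vector `e = (b, a q, p)` is isotropic for
  `Q = a y ^ 2 + b z ^ 2 - a b u ^ 2` (`(a q) ^ 2 - a p ^ 2 = - a b`), `e ≠ 0`; choose `f` (a basis vector)
  with `B (e, f) ≠ 0` (polar form); `Q (f + t e) = Q f + t * 2 B' ` represents everything.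
* `rep_of_ext` : `b = P ^ 2 - a Q ^ 2` in `L`, `P = p₁ + p₂ δ`, `Q = q₁ + q₂ δ`, `δ ^ 2 = d`.  Comparing:
  `b = N₁ + d N₂`, `N_i = p_i ^ 2 - a q_i ^ 2`, and `p₁ p₂ = a q₁ q₂` (`2 ≠ 0`).  If `N₂ ≠ 0`:
  `N₁ N₂ = (p₁ p₂ - a q₁ q₂) ^ 2 - a (q₁ p₂ - p₁ q₂) ^ 2 = - a (q₁ p₂ - p₁ q₂) ^ 2`, so
  `d N₂ ^ 2 = b N₂ - N₁ N₂ = a (q₁ p₂ - p₁ q₂) ^ 2 + b p₂ ^ 2 - a b q₂ ^ 2`; divide by `N₂ ^ 2`.
  If `N₂ = 0`: `b = N₁`, so `Sy a b`: `rep_of_sy`.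
* `rep_two_four` : `Rep a b 0`.
-/

set_option autoImplicit false

namespace UDN

variable {F : Type*} [Field F]

/-- represented by the pure quaternions -/
def Rep (a b d : F) : Prop := ∃ y z u : F, a * y ^ 2 + b * z ^ 2 - a * b * u ^ 2 = d

/-- `t` is the trace of a quaternion of norm one -/
def SQ (a b t : F) : Prop :=
  ∃ x y z u : F, t = 2 * x ∧ x ^ 2 - a * y ^ 2 - b * z ^ 2 + a * b * u ^ 2 = 1

theorem sq_iff_rep (h2 : (2 : F) ≠ 0) {a b t : F} : SQ a b t ↔ Rep a b (t ^ 2 - 4) := by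
  constructor
  · rintro ⟨x, y, z, u, rfl, h⟩
    exact ⟨2 * y, 2 * z, 2 * u, by linear_combination -4 * h⟩
  · rintro ⟨y, z, u, h⟩
    refine ⟨t / 2, y / 2, z / 2, u / 2, by field_simp, ?_⟩
    field_simp
    linear_combination -h

theorem rep_zero (a b : F) : Rep a b 0 := ⟨0, 0, 0, by ring⟩

theorem sy_of_rep_sq (h2 : (2 : F) ≠ 0) {a b s : F} (ha : a ≠ 0) (hb : b ≠ 0) (hs : s ≠ 0)
    (h : Rep a b (s ^ 2)) : Sy a b := by
  obtain ⟨y, z, u, h⟩ := h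
  by_cases h0 : z ^ 2 - a * u ^ 2 = 0
  · have h1 : s ^ 2 = a * y ^ 2 := by linear_combination b * h0 - h
    have hy : y ≠ 0 := by
      rintro rfl
      apply hs
      have : s ^ 2 = 0 := by rw [h1]; ring
      exact pow_eq_zero_iff two_ne_zero |>.1 this
    refine sy_of_isSquare h2 ha ⟨s / y, ?_⟩ b
    field_simp
    linear_combination -h1
  · refine Sy.of_mul (b := z ^ 2 - a * u ^ 2) h0 ⟨z, u, rfl⟩ ⟨s, y, ?_⟩
    linear_combination -h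

theorem rep_of_sy (h2 : (2 : F) ≠ 0) {a b : F} (ha : a ≠ 0) (hb : b ≠ 0) (h : Sy a b) (d : F) :
    Rep a b d := by
  obtain ⟨p, q, h⟩ := h
  obtain ⟨t, ht⟩ : ∃ t : F, 2 * (a * b) * t = d - a := ⟨(d - a) / (2 * (a * b)), by field_simp⟩
  refine ⟨1 + t * b, t * (a * q), t * p, ?_⟩
  linear_combination ht - a * b * t ^ 2 * h

theorem rep_of_ext (h2 : (2 : F) ≠ 0) {L : Type*} [Field L] [Algebra F L] {a b d : F} (ha : a ≠ 0)
    (hb : b ≠ 0) {δ : L} (hδ : δ ^ 2 = algebraMap F L d)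
    (hspan : ∀ z : L, ∃ p q : F, z = algebraMap F L p + algebraMap F L q * δ)
    (hd : ¬ IsSquare d) (h : Sy (algebraMap F L a) (algebraMap F L b)) : Rep a b d := by
  have hind : ∀ c₀ c₁ : F, algebraMap F L c₀ + algebraMap F L c₁ * δ = 0 → c₀ = 0 ∧ c₁ = 0 := by
    intro c₀ c₁ hc
    have h1 : c₁ = 0 := by
      by_contra h1
      apply hd
      refine ⟨c₀ / c₁, ?_⟩
      have h2 : algebraMap F L (c₁ ^ 2 * d) = algebraMap F L (c₀ ^ 2) := by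
        rw [map_mul, map_pow, map_pow, ← hδ]
        linear_combination (algebraMap F L c₁ * δ - algebraMap F L c₀) * hc
      have h3 := (algebraMap F L).injective h2
      field_simp
      linear_combination h3
    refine ⟨?_, h1⟩
    rw [h1, map_zero, zero_mul, add_zero] at hc
    exact (map_eq_zero_iff _ (algebraMap F L).injective).1 hc
  obtain ⟨P, Q, hPQ⟩ := h
  obtain ⟨p₁, p₂, rfl⟩ := hspan P
  obtain ⟨q₁, q₂, rfl⟩ := hspan Q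
  have key := hind (p₁ ^ 2 + d * p₂ ^ 2 - a * (q₁ ^ 2 + d * q₂ ^ 2) - b) (2 * (p₁ * p₂ - a * (q₁ * q₂))) (by
    simp only [map_sub, map_add, map_mul, map_pow, map_ofNat]
    rw [← hδ]
    linear_combination hPQ)
  obtain ⟨k1, k2⟩ := key
  have k3 : p₁ * p₂ - a * (q₁ * q₂) = 0 := (mul_eq_zero.1 k2).resolve_left h2
  by_cases hN : p₂ ^ 2 - a * q₂ ^ 2 = 0
  · refine rep_of_sy h2 ha hb ⟨p₁, q₁, ?_⟩ d
    linear_combination k1 - d * hN
  · refine ⟨(q₁ * p₂ - p₁ * q₂) / (p₂ ^ 2 - a * q₂ ^ 2), p₂ / (p₂ ^ 2 - a * q₂ ^ 2),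
      q₂ / (p₂ ^ 2 - a * q₂ ^ 2), ?_⟩
    field_simp
    linear_combination -(p₂ ^ 2 - a * q₂ ^ 2) * k1 + (p₁ * p₂ - a * (q₁ * q₂)) * k3

/-- trivially, representations are compatible with field extensions -/
theorem Rep.map {a b d : F} (h : Rep a b d) {L : Type*} [Field L] (f : F →+* L) :
    Rep (f a) (f b) (f d) := by
  obtain ⟨y, z, u, rfl⟩ := h
  exact ⟨f y, f z, f u, by simp⟩

end UDN
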