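import Pool.Agent.UDN.LocE
import Pool.Agent.UDN.QuatA

/-!
# UDN: local facts on traces; sums of four squares

Here `NSq d` : `d` is not a nonzero square, i.e. there is no `s ≠ 0` with `s ^ 2 = d`.

PROOFS (`h : IsLoc w`).
* `nsq_neg` : if `w t < 0` then `t ^ 2 - 4 = t ^ 2 (1 + 4 (- 1 / t ^ 2))` is a nonzero square
  (`IsLoc.sq`; nonzero since `4 / t ^ 2` has positive order or `w 4 + 2 > 0`).
* `nsq_irr` : let `Ge w 0 t` and suppose there is no integral `x` with `Ge w 1 (x ^ 2 - t x + 1)`.  If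
  `s ^ 2 = t ^ 2 - 4` then `x = (t + s) / 2` is a root of `x ^ 2 - t x + 1`, and `x (t - x) = 1`; `x` is
  integral: otherwise `w x < 0`, `w (t - x) = w x < 0` and the sum of the orders is not `0`.
* `nsq_near` : `t = 2 + c` or `t = - 2 - c`, `w c` odd, `w c > 2 w 2`: `t ^ 2 - 4 = c (c + 4)` has order
  `w c + w 4`, odd (`IsVal.add_eq`), so it is not a square.
* `exists_sum_four` : (1) `- 1` is a sum of four squares: if `w 2 > 0`, `- 7 = 1 + 4 (- 2) = r ^ 2`
  (`IsLoc.sq`, `w (-2) ≥ 1`), and `- 1 = (2 / r) ^ 2 + (1 / r) ^ 2 + (1 / r) ^ 2 + (1 / r) ^ 2`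
  (`r ≠ 0` as `7 = 8 - 1` is a unit); if `w 2 = 0`, `odd_form` with `a = - 1`, `c = - 1`:
  `x ^ 2 + y ^ 2 + 1` has order `≥ 1`; `- 1 - y ^ 2 ` or `- 1 - x ^ 2` is a unit (one of `x, y` is a
  unit, otherwise `1` has positive order); say `x` is a unit, then `(- 1 - y ^ 2) / x ^ 2` is close to
  `1`, so a square (`isSquare_of_close`), and `- 1 = x' ^ 2 + y ^ 2`.
  (2) suppose that every sum of four squares is a square.  Then the sum of two squares is a square,
  `- 1` is a square, so every `x = ((x + 1) / 2) ^ 2 + (-1) ((x - 1) / 2) ^ 2` is a square, but an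
  element of order one is not.
-/

set_option autoImplicit false

namespace UDN

variable {F : Type*} [Field F] {w : F → ℤ}

/-- not a nonzero square -/
def NSq (d : F) : Prop := ∀ s : F, s ≠ 0 → s ^ 2 ≠ d

theorem nsq_neg (h : IsLoc w) {t : F} (ht : NSq (t ^ 2 - 4)) : Ge w 0 t := by
  have hV := h.toIsVal
  by_contra hc
  have ht0 : t ≠ 0 := ne_zero_of_not_ge hc
  have hwt : w t < 0 := by
    by_contra h6
    exact hc (Or.inr (not_lt.1 h6))
  have h1 : Ge w 1 (-1 / t ^ 2) := by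
    refine Or.inr ?_
    rw [hV.div (neg_ne_zero.2 one_ne_zero) (pow_ne_zero 2 ht0), hV.neg, hV.one, hV.pow]
    push_cast
    omega
  obtain ⟨r, hr⟩ := h.sq _ h1
  have hs : (t * r) ^ 2 = t ^ 2 - 4 := by
    have e : (t * r) ^ 2 = t ^ 2 * (r * r) := by ring
    rw [e, ← hr]
    field_simp
    ring
  have hr0 : t * r ≠ 0 := by
    intro h0
    rw [h0] at hs
    have e : t ^ 2 = 4 := by linear_combination -hs
    have e2 := congrArg w e
    rw [hV.pow, h.w_four] at e2
    have := h.two_nonneg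
    push_cast at e2
    omega
  exact ht _ hr0 hs

theorem nsq_irr (h : IsLoc w) {t : F} (ht : Ge w 0 t)
    (hirr : ∀ x, Ge w 0 x → ¬ Ge w 1 (x ^ 2 - t * x + 1)) : NSq (t ^ 2 - 4) := by
  have hV := h.toIsVal
  have h2 := h.two
  intro s _ hst
  have hroot : ((t + s) / 2) ^ 2 - t * ((t + s) / 2) + 1 = 0 := by
    field_simp
    linear_combination hst
  refine hirr ((t + s) / 2) ?_ (Or.inl hroot)
  by_contra hc
  have hx0 : (t + s) / 2 ≠ 0 := ne_zero_of_not_ge hc
  set x := (t + s) / 2 with hx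
  have hwx : w x < 0 := by
    by_contra h6
    exact hc (Or.inr (not_lt.1 h6))
  have h1 : -x + t ≠ 0 ∧ w (-x + t) = w (-x) :=
    hV.add_eq (neg_ne_zero.2 hx0) (ht.mono (by rw [hV.neg]; omega))
  have h3 : x * (-x + t) = 1 := by linear_combination -hroot
  have h4 := congrArg w h3
  rw [hV.mul _ _ hx0 h1.1, h1.2, hV.neg, hV.one] at h4
  omega

theorem nsq_near (h : IsLoc w) {t c : F} (ht : t = 2 + c ∨ t = -2 - c) (ho : Odd (w c))
    (hc : 2 * w 2 < w c) : NSq (t ^ 2 - 4) := by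
  have hV := h.toIsVal
  intro s hs hst
  have hc0 : c ≠ 0 := by
    rintro rfl
    rw [hV.zero] at ho
    exact absurd ho (by decide)
  have h4 := hV.add_eq h.four_ne (y := c) (by rw [h.w_four]; exact Or.inr (by omega))
  have e : s ^ 2 = c * (4 + c) := by
    rw [hst]
    rcases ht with rfl | rfl <;> ring
  have e2 := congrArg w e
  rw [hV.pow, hV.mul _ _ hc0 h4.1, h4.2, h.w_four] at e2
  obtain ⟨k, hk⟩ := ho
  push_cast at e2
  omega

private theorem neg_one_four (h : IsLoc w) :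
    ∃ c₁ c₂ c₃ c₄ : F, -1 = c₁ ^ 2 + c₂ ^ 2 + c₃ ^ 2 + c₄ ^ 2 := by
  have hV := h.toIsVal
  rcases h.two_nonneg.lt_or_eq with h2 | h2
  · have e1 : Ge w 1 (-2 : F) := hV.ge_neg (Or.inr (by omega))
    obtain ⟨r, hr⟩ := h.sq _ e1
    have e2 : (1 : F) + 4 * (-2) = -7 := by norm_num
    rw [e2] at hr
    have hr0 : r ≠ 0 := by
      rintro rfl
      have e3 : (1 : F) + (-8) = -7 := by norm_num
      have e4 : Ge w 1 (-8 : F) := by
        have e5 : (-8 : F) = -(2 * 2 * 2) := by norm_num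
        rw [e5]
        have g2 : Ge w 1 (2 : F) := Or.inr (by omega)
        exact hV.ge_neg ((hV.ge_mul (hV.ge_mul g2 g2) g2).mono (by norm_num))
      have e6 := (hV.add_eq one_ne_zero (y := (-8 : F)) (by rw [hV.one]; simpa using e4)).1
      rw [e3, hr] at e6
      simp at e6
    refine ⟨2 / r, 1 / r, 1 / r, 1 / r, ?_⟩
    field_simp
    linear_combination hr
  · have g1 : w (-1) = 0 := hV.neg_one
    obtain ⟨x, y, hx, hy, hxy⟩ := odd_form h h2.symm (a := -1) (c := -1)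
      (neg_ne_zero.2 one_ne_zero) g1 (Or.inr g1.ge)
    have key : ∀ x y : F, x ≠ 0 → w x = 0 → Ge w 1 (x ^ 2 + y ^ 2 + 1) →
        ∃ z : F, -1 = z ^ 2 + y ^ 2 := by
      intro x y hx0 hwx hxy
      have e1 : Ge w (2 * w 2 + 1) ((-1 - y ^ 2) / x ^ 2 - 1) := by
        have e2 : (-1 - y ^ 2) / x ^ 2 - 1 = -((x ^ 2 + y ^ 2 + 1) * (x ^ 2)⁻¹) := by
          field_simp
          ring
        rw [e2, ← h2]
        have e3 : Ge w 0 (x ^ 2)⁻¹ := Or.inr (by rw [hV.inv, hV.pow, hwx]; simp)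
        simpa using hV.ge_neg (hV.ge_mul hxy e3)
      obtain ⟨r, hr⟩ := h.isSquare_of_close e1
      refine ⟨r * x, ?_⟩
      have e4 : -1 - y ^ 2 = (r * r) * x ^ 2 := by
        rw [← hr]
        field_simp
      linear_combination e4
    have hxy' : Ge w 1 (x ^ 2 + y ^ 2 + 1) := by
      have e : x ^ 2 - -1 * y ^ 2 - -1 = x ^ 2 + y ^ 2 + 1 := by ring
      rwa [e] at hxy
    by_cases hx1 : Ge w 1 x
    · by_cases hy1 : Ge w 1 y
      · exfalso
        have e1 : Ge w 1 (1 : F) := by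
          have e2 : (1 : F) = x ^ 2 + y ^ 2 + 1 - (x * x + y * y) := by ring
          rw [e2]
          exact hV.ge_sub hxy' (hV.ge_add ((hV.ge_mul hx1 hx1).mono (by norm_num))
            ((hV.ge_mul hy1 hy1).mono (by norm_num)))
        have := (ge_iff one_ne_zero).1 e1
        rw [hV.one] at this
        omega
      · have hy0 := ne_zero_of_not_ge hy1
        have hwy : w y = 0 := by
          have e1 := (ge_iff hy0).1 hy
          have e2 : ¬ 1 ≤ w y := fun e => hy1 (Or.inr e)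
          omega
        obtain ⟨z, hz⟩ := key y x hy0 hwy (by rwa [add_comm (y ^ 2)])
        exact ⟨z, x, 0, 0, by rw [hz]; ring⟩
    · have hx0 := ne_zero_of_not_ge hx1
      have hwx : w x = 0 := by
        have e1 := (ge_iff hx0).1 hx
        have e2 : ¬ 1 ≤ w x := fun e => hx1 (Or.inr e)
        omega
      obtain ⟨z, hz⟩ := key x y hx0 hwx hxy'
      exact ⟨z, y, 0, 0, by rw [hz]; ring⟩

theorem exists_sum_four (h : IsLoc w) :
    ∃ c₁ c₂ c₃ c₄ : F, ¬ IsSquare (c₁ ^ 2 + c₂ ^ 2 + c₃ ^ 2 + c₄ ^ 2) := by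
  have hV := h.toIsVal
  have h2 := h.two
  by_contra hc
  push Not at hc
  obtain ⟨c₁, c₂, c₃, c₄, hc4⟩ := neg_one_four h
  obtain ⟨i, hi⟩ := hc c₁ c₂ c₃ c₄
  rw [← hc4] at hi
  obtain ⟨π, hπ, hw⟩ := hV.exists_ord 1
  obtain ⟨r, hr⟩ := hc ((π + 1) / 2) (i * ((π - 1) / 2)) 0 0
  have e : π = r ^ 2 := by
    have e1 : ((π + 1) / 2) ^ 2 + (i * ((π - 1) / 2)) ^ 2 + 0 ^ 2 + 0 ^ 2 = π := by
      have e2 : (i * ((π - 1) / 2)) ^ 2 = (i * i) * ((π - 1) / 2) ^ 2 := by ring
      rw [e2, ← hi]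
      field_simp
      ring
    rw [← e1, hr]
    ring
  have e2 := congrArg w e
  rw [hV.pow, hw] at e2
  push_cast at e2
  omega

end UDN
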