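import Pool.Agent.UDN.SqApp

/-!
# UDN: odd places; weak approximation modulo squares

PROOFS.
* `nm_iff_even` : divide `a` by an even power of a uniformizer (`sy_mul_sq_left`); `t3_of_odd`,
  `unr_even`, `unr_surj`.
* `sq_mul_of_not` : `odd_units` after dividing by even powers of a uniformizer.
* `not_nm_of_odd` : by `nm_symm` and `nm_iff_even` for `u`.
* `wa_sq` : `approx` with the elements `x v` and `n` large (only the finitely many `v ∈ S`): then
  `z * x v` is close to `(x v) ^ 2`; at the infinite places `approx` gives `z * x v ∈ SqI v`.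
-/

set_option autoImplicit false

open IsDedekindDomain NumberField

namespace UDN

variable {k : Type*} [Field k] [NumberField k]

private theorem even_sq {F : Type*} [Field F] {w : F → ℤ} (h : IsVal w) {x : F}
    (hx : IsSquare x) : Even (w x) := by
  obtain ⟨r, rfl⟩ := hx
  refine ⟨w r, ?_⟩
  by_cases hr : r = 0
  · rw [hr, mul_zero, h.zero, add_zero]
  · exact h.mul _ _ hr hr

private theorem exists_half {F : Type*} [Field F] {w : F → ℤ} (h : IsVal w) {x : F} (hx : x ≠ 0)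
    (hx2 : Even (w x)) : ∃ x' t : F, x' ≠ 0 ∧ t ≠ 0 ∧ w x' = 0 ∧ x = x' * t ^ 2 := by
  obtain ⟨m, hm⟩ := hx2
  obtain ⟨t, ht0, ht⟩ := h.exists_ord m
  have ht2 := pow_ne_zero 2 ht0
  refine ⟨x / t ^ 2, t, div_ne_zero hx ht2, ht0, ?_, by field_simp⟩
  rw [h.div hx ht2, h.pow, ht, hm]
  push_cast
  ring

private theorem not_sq_half {F : Type*} [Field F] {x x' t : F} (hx : ¬ IsSquare x)
    (e : x = x' * t ^ 2) : ¬ IsSquare x' := by
  rintro ⟨r, rfl⟩
  exact hx ⟨r * t, by rw [e]; ring⟩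

private theorem sq_mul {F : Type*} [Field F] {w : F → ℤ} (h : IsLoc w) (h2 : w 2 = 0) {x y : F}
    (hx : x ≠ 0) (hy : y ≠ 0) (hx2 : Even (w x)) (hy2 : Even (w y)) (hxs : ¬ IsSquare x)
    (hys : ¬ IsSquare y) : IsSquare (x * y) := by
  obtain ⟨x', t, hx', -, hwx, ex⟩ := exists_half h.toIsVal hx hx2
  obtain ⟨y', u, hy', -, hwy, ey⟩ := exists_half h.toIsVal hy hy2
  obtain ⟨r, hr⟩ := odd_units h h2 hx' hy' hwx hwy (not_sq_half hxs ex) (not_sq_half hys ey)
  refine ⟨r * (t * u), ?_⟩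
  calc x * y = (x' * y') * (t * u) ^ 2 := by rw [ex, ey]; ring
    _ = r * (t * u) * (r * (t * u)) := by rw [hr]; ring

private theorem sy_even {F : Type*} [Field F] {w : F → ℤ} (h : IsLoc w) (h2 : w 2 = 0) {a : F}
    (ha : a ≠ 0) (ha2 : Even (w a)) (has : ¬ IsSquare a) {c : F} (hc : c ≠ 0) :
    Sy a c ↔ Even (w c) := by
  obtain ⟨a', t, _, ht, hwa, ea⟩ := exists_half h.toIsVal ha ha2
  have h3 := t3_of_odd h h2 hwa
  have h4 := not_sq_half has ea
  rw [ea, sy_mul_sq_left ht]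
  exact ⟨unr_even h h3 h4 hc, unr_surj h h3 h4 hc⟩

private theorem cv_ne (v : Pl k) (x : kˣ) : cv v (x : k) ≠ 0 := by
  rw [Ne, cv_eq_zero]
  exact x.ne_zero

/-- odd places: product of nonsquare units -/
theorem sq_mul_of_not {v : Pl k} (h2 : od v (2 : k) = 0) {x y : kˣ} (hx : Even (od v (x : k)))
    (hy : Even (od v (y : k))) (hxs : x ∉ Sq v) (hys : y ∉ Sq v) : x * y ∈ Sq v := by
  have h2' : wv v 2 = 0 := by rw [wv_two, h2]
  rw [mem_sq] at hxs hys ⊢
  rw [Units.val_mul, map_mul]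
  refine sq_mul (isLoc_wv v) h2' (cv_ne v x) (cv_ne v y) ?_ ?_ hxs hys
  · rwa [wv_cv]
  · rwa [wv_cv]

/-- odd places, unramified: the norms are the elements of even order -/
theorem nm_iff_even {v : Pl k} (h2 : od v (2 : k) = 0) {a : kˣ} (ha : Even (od v (a : k)))
    (has : a ∉ Sq v) (x : kˣ) : x ∈ Nm a v ↔ Even (od v (x : k)) := by
  have h2' : wv v 2 = 0 := by rw [wv_two, h2]
  rw [mem_sq] at has
  rw [mem_nm, sy_even (isLoc_wv v) h2' (cv_ne v a) (by rwa [wv_cv]) has (cv_ne v x), wv_cv]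

/-- odd places, ramified: a nonsquare unit is not a norm -/
theorem not_nm_of_odd {v : Pl k} (h2 : od v (2 : k) = 0) {b u : kˣ} (hb : Odd (od v (b : k)))
    (hu : Even (od v (u : k))) (hus : u ∉ Sq v) : u ∉ Nm b v := by
  intro h
  rw [nm_symm, nm_iff_even h2 hu hus] at h
  exact (Int.not_even_iff_odd.2 hb) h

/-- squares have even order -/
theorem even_of_sq {v : Pl k} {x : kˣ} (hx : x ∈ Sq v) : Even (od v (x : k)) := by
  have h := even_sq (isVal_wv v) (mem_sq.1 hx)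
  rwa [wv_cv] at h

/-- weak approximation modulo squares -/
theorem wa_sq {S : Set (Pl k)} (hS : S.Finite) (x : Plc k → kˣ) :
    ∃ z : kˣ, (∀ v ∈ S, z * x (Sum.inl v) ∈ Sq v) ∧
      ∀ v : InfinitePlace k, z * x (Sum.inr v) ∈ SqI v := by
  obtain ⟨n, hn⟩ := (hS.image fun v : Pl k => od v (x (Sum.inl v) : k) + 2 * od v 2 + 1).bddAbove
  obtain ⟨z, hz1, hz2⟩ := approx hS n (fun v => (x (Sum.inl v) : k)) (fun v => x (Sum.inr v))
  refine ⟨z, fun v hv => ?_, hz2⟩
  refine sq_of_close v (y := (x (Sum.inl v) : k)) (x (Sum.inl v)).ne_zero ?_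
  have h1 := (isVal_od v).ge_mul (hz1 v hv) (m := n) (n := od v (x (Sum.inl v) : k))
    (y := (x (Sum.inl v) : k)) (Or.inr le_rfl)
  have h2 := hn ⟨v, hv, rfl⟩
  simp only at h2
  have e : ((z * x (Sum.inl v) : kˣ) : k) - (x (Sum.inl v) : k) ^ 2 =
      ((z : k) - x (Sum.inl v)) * x (Sum.inl v) := by
    rw [Units.val_mul]
    ring
  rw [e]
  refine h1.mono ?_
  linarith

end UDN
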