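import Pool.Agent.UDN.ProdF
import Pool.Agent.UDN.SqOdd

/-!
# UDN: the index of the local norms

`index_ge` (pure group theory): let `N i`, `i : ι` finite, be subgroups of a commutative group `G`
and `x i` elements with `x i ∉ N i`, `x i ∈ N j` for `j ≠ i`.  Let `H ≤ G` be a subgroup with
`H ≤ N i` for all `i`, and `U` a subgroup with `x i ∈ U`, `H ≤ U`, `H.relIndex U ≠ 0`.  Then
`2 ^ card ι ≤ H.relIndex U`.
PROOF.  For `I : Finset ι` let `x_I = ∏_{i ∈ I} x i`.  If `x_I / x_J ∈ H` and, say, `i ∈ I \\ J`, then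
`x_I / x_J = x_i * (element of N i)`, a contradiction to `x_i ∉ N i`.  So the `2 ^ card ι` classes of
the `x_I` in `U / H` are different.

PROOF of `nmS_index` : `SqS S ≤ NmS a S` (`sq_le_nm`, `sqI_le_nmI`), so the index is not `0`.  Let `ι`
be the set of the places in `S` or infinite where `a` is not a local square.  For `P ∈ ι` let
`c_P ∉ NmP a P` (`exists_not_nm`, `exists_not_nmI`); `wa_sq` with `c_P⁻¹` at `P` and `1` at the other
places gives `x_P` with `x_P ∉ NmP a P` and `x_P ∈ SqP Q ≤ NmP a Q` for `Q ≠ P`, `Q ∈ S` or infinite.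
Apply `index_ge` with `U = ⊤`, `H = NmS a S`, `N = NmP a` (`relIndex_top_right`).
-/

set_option autoImplicit false

open IsDedekindDomain NumberField

namespace UDN

private theorem prod_mem_of {G : Type*} [CommGroup G] {ι : Type*} (N : ι → Subgroup G)
    (x : ι → G) (h2 : ∀ i j, j ≠ i → x i ∈ N j) (i : ι) (I : Finset ι) (hi : i ∉ I) :
    ∏ j ∈ I, x j ∈ N i :=
  Subgroup.prod_mem _ fun j hj => h2 j i fun e => hi (e ▸ hj)

private theorem sub_of_mem {G : Type*} [CommGroup G] {ι : Type*} (N : ι → Subgroup G)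
    (x : ι → G) (h1 : ∀ i, x i ∉ N i) (h2 : ∀ i j, j ≠ i → x i ∈ N j) {H : Subgroup G}
    (hH : ∀ i, H ≤ N i) {I J : Finset ι} (h : (∏ i ∈ I, x i)⁻¹ * ∏ i ∈ J, x i ∈ H) : I ⊆ J := by
  classical
  intro i hi
  by_contra hJ
  have a1 := prod_mem_of N x h2 i J hJ
  have a2 := prod_mem_of N x h2 i (I.erase i) (Finset.notMem_erase i I)
  have a3 := hH i h
  have a4 : (∏ j ∈ I, x j)⁻¹ ∈ N i := by
    have := mul_mem a3 (inv_mem a1)
    rwa [mul_inv_cancel_right] at this
  have a5 : ∏ j ∈ I, x j ∈ N i := inv_mem_iff.1 a4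
  rw [← Finset.mul_prod_erase I x hi] at a5
  exact h1 i ((Subgroup.mul_mem_cancel_right _ a2).1 a5)

theorem index_ge {G : Type*} [CommGroup G] {ι : Type*} [Finite ι] (N : ι → Subgroup G)
    (x : ι → G) (h1 : ∀ i, x i ∉ N i) (h2 : ∀ i j, j ≠ i → x i ∈ N j) {H U : Subgroup G}
    (hH : ∀ i, H ≤ N i) (hU : ∀ i, x i ∈ U) (hHU : H ≤ U) (hf : H.relIndex U ≠ 0) :
    2 ^ Nat.card ι ≤ H.relIndex U := by
  classical
  have := Fintype.ofFinite ι
  have hfin : Finite (U ⧸ H.subgroupOf U) := Nat.finite_of_card_ne_zero hf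
  let f : Finset ι → U ⧸ H.subgroupOf U := fun I =>
    QuotientGroup.mk (⟨∏ i ∈ I, x i, Subgroup.prod_mem _ fun i _ => hU i⟩ : U)
  have hinj : Function.Injective f := by
    intro I J h
    have h3 := QuotientGroup.eq.1 h
    rw [Subgroup.mem_subgroupOf] at h3
    have h4 : (∏ i ∈ I, x i)⁻¹ * ∏ i ∈ J, x i ∈ H := h3
    have h5 : (∏ i ∈ J, x i)⁻¹ * ∏ i ∈ I, x i ∈ H := by
      have := inv_mem h4
      rwa [mul_inv_rev, inv_inv] at this
    exact Finset.Subset.antisymm (sub_of_mem N x h1 h2 hH h4) (sub_of_mem N x h1 h2 hH h5)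
  have h6 := Nat.card_le_card_of_injective f hinj
  rw [Nat.card_eq_fintype_card, Fintype.card_finset] at h6
  rw [Nat.card_eq_fintype_card]
  exact h6

variable {k : Type*} [Field k] [NumberField k]

/-- the set of the places in `S` or infinite where `a` is not a local square -/
def nsP (a : kˣ) (S : Set (Pl k)) : Set (Plc k) :=
  {P | (∀ v, P = Sum.inl v → v ∈ S) ∧ a ∉ SqP P}

private theorem nsP_eq (a : kˣ) (S : Set (Pl k)) : nsP a S =
    Sum.inl '' {v | v ∈ S ∧ a ∉ Sq v} ∪ Sum.inr '' {v : InfinitePlace k | a ∉ SqI v} := by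
  ext P
  cases P with
  | inl v =>
    constructor
    · intro h
      exact Or.inl ⟨v, ⟨h.1 v rfl, h.2⟩, rfl⟩
    · rintro (⟨w, hw, e⟩ | ⟨w, hw, e⟩)
      · have e' : w = v := Sum.inl_injective e
        subst e'
        exact ⟨fun u hu => (Sum.inl_injective hu) ▸ hw.1, hw.2⟩
      · cases e
  | inr v =>
    constructor
    · intro h
      exact Or.inr ⟨v, h.2, rfl⟩
    · rintro (⟨w, hw, e⟩ | ⟨w, hw, e⟩)
      · cases e
      · have e' : w = v := Sum.inr_injective e
        subst e'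
        exact ⟨fun u hu => (by cases hu), hw⟩

theorem nsP_ncard (a : kˣ) {S : Set (Pl k)} (hS : S.Finite) :
    (nsP a S).Finite ∧ (nsP a S).ncard = ns a S := by
  have f1 : ({v | v ∈ S ∧ a ∉ Sq v} : Set (Pl k)).Finite := hS.subset fun v hv => hv.1
  have f2 : ({v : InfinitePlace k | a ∉ SqI v} : Set (InfinitePlace k)).Finite := Set.toFinite _
  rw [nsP_eq]
  refine ⟨(f1.image _).union (f2.image _), ?_⟩
  rw [Set.ncard_union_eq ?_ (f1.image _) (f2.image _), Set.ncard_image_of_injective _ Sum.inl_injective,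
    Set.ncard_image_of_injective _ Sum.inr_injective]
  · rfl
  · rw [Set.disjoint_left]
    rintro P ⟨v, _, rfl⟩ ⟨w, _, e⟩
    cases e

theorem nmS_index (a : kˣ) {S : Set (Pl k)} (hS : GoodS S) :
    (NmS a S).index ≠ 0 ∧ 2 ^ ns a S ≤ (NmS a S).index := by
  classical
  have hle : SqS S ≤ NmS a S := by
    intro x hx
    rw [mem_sqS] at hx
    rw [mem_nmS]
    exact ⟨fun v hv => sq_le_nm a v (hx.1 v hv), fun v => sqI_le_nmI a v (hx.2 v)⟩
  have hi : (NmS a S).index ≠ 0 := by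
    intro h
    have := Subgroup.index_dvd_of_le hle
    rw [h, zero_dvd_iff] at this
    exact (sqS_index hS).1 this
  refine ⟨hi, ?_⟩
  obtain ⟨hfin, hcard⟩ := nsP_ncard a hS.fin
  have : Finite (nsP a S) := hfin.to_subtype
  have hc : ∀ P : nsP a S, ∃ c : kˣ, c ∉ NmP a P.1 := by
    rintro ⟨P, hP⟩
    cases P with
    | inl v => exact exists_not_nm hP.2
    | inr v => exact exists_not_nmI hP.2
  have hsn : ∀ Q : Plc k, SqP Q ≤ NmP a Q := by
    intro Q
    cases Q with
    | inl v => exact sq_le_nm a v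
    | inr v => exact sqI_le_nmI a v
  have hx : ∀ P : nsP a S, ∃ z : kˣ, z ∉ NmP a P.1 ∧ ∀ Q : nsP a S, Q ≠ P → z ∈ NmP a Q.1 := by
    intro P
    obtain ⟨c, hc⟩ := hc P
    obtain ⟨z, h1, h2⟩ := wa_sq hS.fin (Function.update (fun _ => (1 : kˣ)) P.1 c⁻¹)
    have hz : ∀ Q : nsP a S, z * Function.update (fun _ => (1 : kˣ)) P.1 c⁻¹ Q.1 ∈ NmP a Q.1 := by
      rintro ⟨Q, hQ⟩
      cases Q with
      | inl v => exact hsn (Sum.inl v) (h1 v (hQ.1 v rfl))
      | inr v => exact hsn (Sum.inr v) (h2 v)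
    refine ⟨z, fun hm => ?_, fun Q hQ => ?_⟩
    · have h3 := hz P
      rw [Function.update_self] at h3
      have h4 := (Subgroup.mul_mem_cancel_left _ hm).1 h3
      exact hc (inv_mem_iff.1 h4)
    · have h3 := hz Q
      rw [Function.update_of_ne (fun e => hQ (Subtype.ext e)), mul_one] at h3
      exact h3
  choose x hx1 hx2 using hx
  have hH : ∀ P : nsP a S, NmS a S ≤ NmP a P.1 := by
    rintro ⟨P, hP⟩ y hy
    rw [mem_nmS] at hy
    cases P with
    | inl v => exact hy.1 v (hP.1 v rfl)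
    | inr v => exact hy.2 v
  have h := index_ge (fun P : nsP a S => NmP a P.1) x hx1 (fun i j hij => hx2 i j hij) hH
    (U := ⊤) (fun _ => Subgroup.mem_top _) le_top (by rwa [Subgroup.relIndex_top_right])
  rw [Subgroup.relIndex_top_right] at h
  rw [← hcard]
  exact h

end UDN
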