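import Pool.Agent.UDN.Count
import Pool.Agent.UDN.NmIdx
import Pool.Agent.UDN.GoodEx

/-!
# UDN: there is no dual family of S-units; inert primes

PROOF of `exists_dual_family` : for `P ∈ nsP a S` there is `c_P ∉ NmP a P` (`exists_not_nm`,
`exists_not_nmI`); `wa_sq` with the elements `c_P⁻¹` (or `c_P`: modulo squares the same) at `P` and
`1` at the other places gives `x P` with `x P ∉ NmP a P` and `x P ∈ SqP Q ≤ NmP a Q` for the other
`Q ∈ nsP a S` (`wa_sq` is for all places of `S` and all infinite places).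
PROOF of `no_dual` : let `E : QExt k L a` (`exists_qext`).  `count E` : `2 * X = 2 ^ ns a S`,
`X = (NU E S).relIndex (Un S)`, so `X ≠ 0`.  `index_ge` with `ι = nsP a S`, `N = NmP a`,
`H = NU E S` (`QExt.exists_norm`, `norm_mem_nm`, `norm_mem_nmI`; `algebraMap` is injective),
`U = Un S` (`nu_le_un`) : `2 ^ ns a S ≤ X` (`nsP_ncard`): a contradiction.
PROOF of `exists_inert` : suppose `a ∈ Sq v` for all `v ∉ T`.  Let `S ⊇ T` be good with `a ∈ Un S`
(`exists_good` for `T` and the support of `a`).  Let `x` be a dual family for `S`.  Let `S' ⊇ S` be the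
union of `S` and the supports of the finitely many `x P`, `P ∈ nsP a S`; it is good
(`GoodS.mono`), `nsP a S' = nsP a S` (the places outside of `S` are outside of `T`), and
`x P ∈ Un S'`: a contradiction to `no_dual` for `S'`.
-/

set_option autoImplicit false

open IsDedekindDomain NumberField

namespace UDN

variable {k : Type*} [Field k] [NumberField k]

theorem exists_not_nmP (a : kˣ) (P : Plc k) (h : a ∉ SqP P) : ∃ c : kˣ, c ∉ NmP a P := by
  cases P with
  | inl v => exact exists_not_nm h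
  | inr v => exact exists_not_nmI h

theorem sqP_le_nmP (a : kˣ) (P : Plc k) : SqP P ≤ NmP a P := by
  cases P with
  | inl v => exact sq_le_nm a v
  | inr v => exact sqI_le_nmI a v

theorem exists_dual_family (a : kˣ) {S : Set (Pl k)} (hS : S.Finite) :
    ∃ x : Plc k → kˣ, ∀ P ∈ nsP a S, x P ∉ NmP a P ∧
      ∀ Q ∈ nsP a S, Q ≠ P → x P ∈ NmP a Q := by
  classical
  have hex : ∀ P : Plc k, ∃ x : kˣ, P ∈ nsP a S → x ∉ NmP a P ∧
      ∀ Q ∈ nsP a S, Q ≠ P → x ∈ NmP a Q := by
    intro P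
    by_cases hP : P ∈ nsP a S
    · obtain ⟨c, hc⟩ := exists_not_nmP a P hP.2
      obtain ⟨z, hz1, hz2⟩ := wa_sq hS (fun Q => if Q = P then c else 1)
      have hz : ∀ Q ∈ nsP a S, z * (if Q = P then c else 1) ∈ SqP Q := by
        rintro (v | v) hQ
        · exact hz1 v (hQ.1 v rfl)
        · exact hz2 v
      refine ⟨z, fun _ => ⟨fun h => hc ?_, fun Q hQ hQP => ?_⟩⟩
      · have h1 := sqP_le_nmP a P (hz P hP)
        rw [if_pos rfl] at h1
        exact (mul_mem_cancel_left h).1 h1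
      · have h1 := hz Q hQ
        rw [if_neg hQP, mul_one] at h1
        exact sqP_le_nmP a Q h1
    · exact ⟨1, fun h => absurd h hP⟩
  choose x hx using hex
  exact ⟨x, hx⟩

theorem no_dual {a : kˣ} (hns : ¬ IsSquare (a : k)) {S : Set (Pl k)} (hS : GoodS S)
    (ha : a ∈ Un S) (x : Plc k → kˣ) (h0 : ∀ P ∈ nsP a S, x P ∈ Un S)
    (h1 : ∀ P ∈ nsP a S, x P ∉ NmP a P)
    (h2 : ∀ P ∈ nsP a S, ∀ Q ∈ nsP a S, Q ≠ P → x P ∈ NmP a Q) : False := by
  classical
  obtain ⟨L, _, _, _, ⟨E⟩⟩ := exists_qext k a hns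
  have hc := count E hS ha
  obtain ⟨hf, hcard⟩ := nsP_ncard a hS.fin
  have hfin : Finite (nsP a S) := hf
  have hX0 : (NU E S).relIndex (Un S) ≠ 0 := by
    intro h
    rw [h, mul_zero] at hc
    exact pow_ne_zero _ two_ne_zero hc.symm
  have hN : ∀ P : Plc k, NU E S ≤ NmP a P := by
    rintro P y ⟨z, _, hz⟩
    obtain ⟨p, q, _, h5⟩ := E.exists_norm (z : L)
    have h6 : (y : k) = p ^ 2 - a * q ^ 2 := (algebraMap k L).injective (by rw [← hz, h5])
    cases P with
    | inl v => exact norm_mem_nm h6 v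
    | inr v => exact norm_mem_nmI h6 v
  have h3 := index_ge (G := kˣ) (ι := nsP a S) (fun P => NmP a P.1) (fun P => x P.1)
    (fun P => h1 P.1 P.2) (fun P Q hQP => h2 P.1 P.2 Q.1 Q.2 (fun h => hQP (Subtype.ext h)))
    (H := NU E S) (U := Un S) (fun P => hN P.1) (fun P => h0 P.1 P.2) (nu_le_un E S) hX0
  have h4 : Nat.card (nsP a S) = ns a S := hcard
  rw [h4] at h3
  have h5 : 0 < 2 ^ ns a S := by positivity
  omega

/-- infinitely many primes do not split -/
theorem exists_inert {a : kˣ} (hns : ¬ IsSquare (a : k)) {T : Set (Pl k)} (hT : T.Finite) :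
    ∃ v, v ∉ T ∧ a ∉ Sq v := by
  classical
  by_contra hcon
  push Not at hcon
  obtain ⟨S, hTS, hS⟩ := exists_good (hT.union (od_finite a.ne_zero))
  have ha : a ∈ Un S := by
    intro v hv
    by_contra h
    exact hv (hTS (Or.inr h))
  obtain ⟨x, hx⟩ := exists_dual_family a hS.fin
  have hf := (nsP_ncard a hS.fin).1
  have hfin : (S ∪ ⋃ P ∈ nsP a S, {v : Pl k | od v (x P : k) ≠ 0}).Finite :=
    hS.fin.union (hf.biUnion fun P _ => od_finite (x P).ne_zero)
  set S' : Set (Pl k) := S ∪ ⋃ P ∈ nsP a S, {v : Pl k | od v (x P : k) ≠ 0} with hS'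
  have hSS : S ⊆ S' := Set.subset_union_left
  have hg : GoodS S' := hS.mono hSS hfin
  have hns' : nsP a S' = nsP a S := by
    ext P
    constructor
    · rintro ⟨h1, h2⟩
      refine ⟨fun v hv => ?_, h2⟩
      by_contra hvS
      subst hv
      exact h2 (hcon v (fun h => hvS (hTS (Or.inl h))))
    · rintro ⟨h1, h2⟩
      exact ⟨fun v hv => hSS (h1 v hv), h2⟩
  refine no_dual hns hg (un_mono hSS ha) x ?_ ?_ ?_
  · intro P hP v hv
    by_contra h
    rw [hns'] at hP
    exact hv (Or.inr (Set.mem_biUnion hP h))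
  · intro P hP
    rw [hns'] at hP
    exact (hx P hP).1
  · intro P hP Q hQ hQP
    rw [hns'] at hP hQ
    exact (hx P hP).2 Q hQ hQP

end UDN
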