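import Pool.Agent.UDN.Defs

/-!
# UDN: places in an extension of number fields

PROOFS.
* `exists_eo` : `HeightOneSpectrum.valuation_liesOver` (the file
  `Mathlib/NumberTheory/RamificationInertia/Valuation.lean`), `e = ramificationIdx'`, nonzero
  (`ramificationIdx'_ne_zero_of_liesOver`).
* `exists_above` : lying over (`Ideal.exists_ideal_over_prime_of_isIntegral` or
  `Ideal.nonempty_primesOver`).
* `abv_finite` : finitely many primes above each prime (`Ideal.primesOver_finite`) or: `w` with
  `bel w = v` divides a nonzero element of `v.asIdeal` (`od_finite`).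
* `pl_ext` : `ge_one_iff_mem` gives the same ideals.
* `sq_up` : `close_of_sq`-like argument in `k`: if `x` is a square in `Kv v` then there is `y : k`
  with `x - y ^ 2` of large order at `v`, so of large order at `w` (`exists_eo`): `sq_of_close`.
-/

set_option autoImplicit false

open IsDedekindDomain NumberField

namespace UDN

variable {k L : Type*} [Field k] [NumberField k] [Field L] [NumberField L] [Algebra k L]

theorem exists_eo (k : Type*) {L : Type*} [Field k] [NumberField k] [Field L] [NumberField L]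
    [Algebra k L] (w : Pl L) :
    ∃ e : ℕ, 0 < e ∧ ∀ x : k, od w (algebraMap k L x) = e * od (bel k w) x := by
  have hlo : w.asIdeal.LiesOver (bel k w).asIdeal := ⟨rfl⟩
  refine ⟨(bel k w).asIdeal.ramificationIdx' w.asIdeal, ?_, ?_⟩
  · exact Nat.pos_of_ne_zero
      (Ideal.IsDedekindDomain.ramificationIdx'_ne_zero_of_liesOver w.asIdeal (bel k w).ne_bot)
  · intro x
    unfold od
    rw [← HeightOneSpectrum.valuation_liesOver L (bel k w) w x, WithZero.log_pow]
    simp

theorem exists_above (L : Type*) [Field L] [NumberField L] [Algebra k L] (v : Pl k) :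
    ∃ w : Pl L, bel k w = v := by
  obtain ⟨P, hP, hP1⟩ := Ideal.exists_ideal_over_prime_of_isIntegral (R := 𝓞 k) (S := 𝓞 L)
    v.asIdeal ⊥ (by
      rw [show Ideal.comap (algebraMap (𝓞 k) (𝓞 L)) ⊥ = ⊥ from
        Ideal.comap_bot_of_injective _ (FaithfulSMul.algebraMap_injective (𝓞 k) (𝓞 L))]
      exact bot_le)
  have h1 : P ≠ ⊥ := by
    rintro rfl
    apply v.ne_bot
    rw [← hP1.2]
    exact Ideal.comap_bot_of_injective _ (FaithfulSMul.algebraMap_injective (𝓞 k) (𝓞 L))
  exact ⟨⟨P, hP1.1, h1⟩, HeightOneSpectrum.ext hP1.2⟩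

theorem abv_finite (L : Type*) [Field L] [NumberField L] [Algebra k L] {S : Set (Pl k)}
    (hS : S.Finite) : (abv L S).Finite := by
  have h : abv L S = ⋃ v ∈ S, {w : Pl L | bel k w = v} := by
    ext w
    simp [abv]
  rw [h]
  refine hS.biUnion fun v _ => ?_
  obtain ⟨x, hx, hx0⟩ := Submodule.exists_mem_ne_zero_of_ne_bot v.ne_bot
  have hx0' : (x : k) ≠ 0 := fun h => hx0 (by exact_mod_cast h)
  have h1 : 1 ≤ od v (x : k) := (ge_iff hx0').1 ((ge_one_iff_mem v x).2 hx)
  have h2 : algebraMap k L (x : k) ≠ 0 := by simpa using hx0'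
  refine (od_finite h2).subset ?_
  intro w hw
  obtain ⟨e, he, h3⟩ := exists_eo k w
  have hw' : bel k w = v := hw
  change od w (algebraMap k L (x : k)) ≠ 0
  rw [h3, hw']
  have : (0 : ℤ) < e := by exact_mod_cast he
  have : 0 < (e : ℤ) * od v (x : k) := mul_pos this (by linarith)
  exact this.ne'

theorem pl_ext {v v' : Pl k} (h : ∀ x : k, Ge (od v) 1 x ↔ Ge (od v') 1 x) : v = v' := by
  apply HeightOneSpectrum.ext
  ext x
  rw [← ge_one_iff_mem, ← ge_one_iff_mem]
  exact h _

/-- membership of elements of `k` in the S-units of `L` -/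
theorem map_mem_un {S : Set (Pl k)} {x : kˣ} :
    Units.map (algebraMap k L).toMonoidHom x ∈ Un (abv L S) ↔ x ∈ Un S := by
  constructor
  · intro h v hv
    obtain ⟨w, hw⟩ := exists_above L v
    obtain ⟨e, he, h3⟩ := exists_eo k w
    have h4 := h w (fun h' => hv (by rw [← hw]; exact h'))
    change od w (algebraMap k L (x : k)) = 0 at h4
    rw [h3, hw] at h4
    rcases mul_eq_zero.1 h4 with h5 | h5
    · exact absurd (by exact_mod_cast h5) he.ne'
    · exact h5
  · intro h w hw
    obtain ⟨e, he, h3⟩ := exists_eo k w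
    change od w (algebraMap k L (x : k)) = 0
    rw [h3, h _ hw, mul_zero]

/-- the order of an element at the place below, up to a positive factor -/
theorem ge_up {w : Pl L} {x : k} {n : ℤ} (hn : 0 ≤ n) (h : Ge (od (bel k w)) n x) :
    Ge (od w) n (algebraMap k L x) := by
  obtain ⟨e, he, h3⟩ := exists_eo k w
  rcases h with rfl | h
  · exact Or.inl (map_zero _)
  · refine Or.inr ?_
    rw [h3]
    have h4 : (1 : ℤ) ≤ e := by exact_mod_cast he
    have h5 : 0 ≤ od (bel k w) x := hn.trans h
    have h6 : 1 * od (bel k w) x ≤ e * od (bel k w) x := mul_le_mul_of_nonneg_right h4 h5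
    linarith

end UDN
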