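import Pool.Agent.UDN.PlA
import Pool.Agent.UDN.SqOdd

/-!
# UDN: local squares and norms in an extension

PROOFS.
* `sq_up` : let `v = bel k w`, `x ∈ Sq v`, `e` as in `exists_eo`.  `close_of_sq` gives `y : k`, `y ≠ 0`,
  `2 od v y = od v x` and `Ge (od v) N (x - y ^ 2)` with `N ≥ 2 od v y + 2 od v 2 + 1`; multiply by `e`:
  `Ge (od w) (2 od w y + 2 od w 2 + 1) (x - y ^ 2)`; `sq_of_close`.
* `nm_up` : `nm_iff`, `sq_up`.
* `sqI_up`, `nmI_up` : an infinite place `w` of `L` lies over `w.comap (algebraMap k L)`; if `w` is real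
  then so is the place below and the embeddings are compatible
  (`InfinitePlace.isReal_comap`-like lemmas, `embedding_of_isReal`).
-/

set_option autoImplicit false

open IsDedekindDomain NumberField

namespace UDN

variable {k L : Type*} [Field k] [NumberField k] [Field L] [NumberField L] [Algebra k L]

/-- the map of the units -/
abbrev um (k L : Type*) [Field k] [Field L] [Algebra k L] : kˣ →* Lˣ :=
  Units.map (algebraMap k L).toMonoidHom

theorem sq_up {w : Pl L} {x : kˣ} (h : x ∈ Sq (bel k w)) : um k L x ∈ Sq w := by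
  obtain ⟨e, he, he2⟩ := exists_eo k w
  obtain ⟨y, hy0, hy, hxy⟩ := close_of_sq (bel k w) h
    (od (bel k w) (x : k) + 2 * od (bel k w) 2 + 1)
  have hy0' : algebraMap k L y ≠ 0 := by
    rw [Ne, map_eq_zero]
    exact hy0
  refine sq_of_close w (y := algebraMap k L y) hy0' ?_
  have h1 : ((um k L x : Lˣ) : L) = algebraMap k L (x : k) := rfl
  have h2 : od w (2 : L) = e * od (bel k w) 2 := by
    rw [← he2, map_ofNat]
  have h3 : (1 : ℤ) ≤ e := by exact_mod_cast he
  rw [h1, ← map_pow, ← map_sub, he2, h2]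
  rcases hxy with h0 | h0
  · rw [h0, map_zero]
    exact ge_zero _
  · refine Or.inr ?_
    rw [he2]
    have h4 : (e : ℤ) * (od (bel k w) (x : k) + 2 * od (bel k w) 2 + 1) ≤
        e * od (bel k w) ((x : k) - y ^ 2) := mul_le_mul_of_nonneg_left h0 (by linarith)
    rw [← hy] at h4
    linarith

theorem nm_up {w : Pl L} {a x : kˣ} (h : x ∈ Nm a (bel k w)) :
    um k L x ∈ Nm (um k L a) w := by
  obtain ⟨p, q, u, hu, hxu⟩ := (nm_iff (bel k w)).1 h
  refine (nm_iff w).2 ⟨algebraMap k L p, algebraMap k L q, um k L u, ?_, ?_⟩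
  · change algebraMap k L (u : k) = algebraMap k L p ^ 2 - algebraMap k L (a : k) *
      algebraMap k L q ^ 2
    rw [hu, map_sub, map_mul, map_pow, map_pow]
  · rw [← map_mul]
    exact sq_up hxu

theorem sqI_up {w : InfinitePlace L} {x : kˣ} (h : x ∈ SqI (w.comap (algebraMap k L))) :
    um k L x ∈ SqI w := by
  intro hw
  have h1 := h (hw.comap (algebraMap k L))
  have h2 : InfinitePlace.embedding_of_isReal hw ((um k L x : Lˣ) : L) =
      InfinitePlace.embedding_of_isReal (hw.comap (algebraMap k L)) (x : k) := by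
    have h3 : ((InfinitePlace.embedding_of_isReal hw ((um k L x : Lˣ) : L) : ℝ) : ℂ) =
        ((InfinitePlace.embedding_of_isReal (hw.comap (algebraMap k L)) (x : k) : ℝ) : ℂ) := by
      rw [InfinitePlace.embedding_of_isReal_apply, InfinitePlace.embedding_of_isReal_apply,
        InfinitePlace.comap_embedding_of_isReal _ (hw.comap (algebraMap k L))]
      rfl
    exact_mod_cast h3
  rw [h2]
  exact h1

theorem nmI_up {w : InfinitePlace L} {a x : kˣ} (h : x ∈ NmI a (w.comap (algebraMap k L))) :
    um k L x ∈ NmI (um k L a) w := by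
  rcases h with h | h
  · exact Or.inl (sqI_up h)
  · exact Or.inr (sqI_up h)

end UDN
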