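import Pool.Agent.UDN.Defs

/-!
# UDN: quadratic extensions

PROOFS.
* `exists_qext` : `L = AdjoinRoot (X ^ 2 - C a)` (irreducible as `a` is not a square:
  `X_pow_sub_C_irreducible_iff_of_prime` or degree two), a finite extension of `k`, so a number field
  (`NumberField.of_module_finite`); `δ` the root, `span` from the power basis of dimension two; `σ` :
  the `k`-algebra map `δ ↦ - δ` (`AdjoinRoot.liftAlgHom`), it is bijective (its square is the
  identity).
* the other statements: direct computations with `span`, `sq`, `σδ`, `nsq`; `2 ≠ 0`.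
-/

set_option autoImplicit false

open IsDedekindDomain NumberField

namespace UDN

universe u

theorem exists_qext (k : Type u) [Field k] [NumberField k] (a : kˣ) (h : ¬ IsSquare (a : k)) :
    ∃ (L : Type u) (_ : Field L) (_ : Algebra k L) (_ : NumberField L), Nonempty (QExt k L a) := by
  have hirr : Irreducible (Polynomial.X ^ 2 - Polynomial.C (a : k)) := by
    refine (X_pow_sub_C_irreducible_iff_of_prime Nat.prime_two).2 ?_
    intro b hb
    exact h ⟨b, by rw [← hb, sq]⟩
  have hf : Fact (Irreducible (Polynomial.X ^ 2 - Polynomial.C (a : k))) := ⟨hirr⟩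
  have hmonic : (Polynomial.X ^ 2 - Polynomial.C (a : k)).Monic :=
    Polynomial.monic_X_pow_sub_C _ two_ne_zero
  have hfin : Module.Finite k (AdjoinRoot (Polynomial.X ^ 2 - Polynomial.C (a : k))) :=
    hmonic.finite_adjoinRoot
  have hnf : NumberField (AdjoinRoot (Polynomial.X ^ 2 - Polynomial.C (a : k))) :=
    NumberField.of_module_finite k _
  have hroot : (AdjoinRoot.root (Polynomial.X ^ 2 - Polynomial.C (a : k))) ^ 2
      = algebraMap k _ (a : k) := by
    have h1 := AdjoinRoot.eval₂_root (Polynomial.X ^ 2 - Polynomial.C (a : k))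
    rw [Polynomial.eval₂_sub, Polynomial.eval₂_X_pow, Polynomial.eval₂_C, sub_eq_zero] at h1
    exact h1
  have hev : Polynomial.eval₂ ((Algebra.ofId k (AdjoinRoot (Polynomial.X ^ 2 -
      Polynomial.C (a : k)))).toRingHom) (-AdjoinRoot.root (Polynomial.X ^ 2 -
      Polynomial.C (a : k))) (Polynomial.X ^ 2 - Polynomial.C (a : k)) = 0 := by
    rw [Polynomial.eval₂_sub, Polynomial.eval₂_X_pow, Polynomial.eval₂_C, neg_sq, hroot, sub_eq_zero]
    rfl
  let φ : AdjoinRoot (Polynomial.X ^ 2 - Polynomial.C (a : k)) →ₐ[k]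
      AdjoinRoot (Polynomial.X ^ 2 - Polynomial.C (a : k)) :=
    AdjoinRoot.liftAlgHom _ (Algebra.ofId k _) (-AdjoinRoot.root _) hev
  have hφr : φ (AdjoinRoot.root _) = -AdjoinRoot.root _ := AdjoinRoot.lift_root hev
  have hφφ : φ.comp φ = AlgHom.id k _ := by
    refine AdjoinRoot.algHom_ext ?_
    rw [AlgHom.comp_apply, hφr, map_neg, hφr, neg_neg]
    rfl
  refine ⟨AdjoinRoot (Polynomial.X ^ 2 - Polynomial.C (a : k)), inferInstance, inferInstance, hnf,
    ⟨{ δ := AdjoinRoot.root _
       sq := hroot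
       σ := AlgEquiv.ofAlgHom φ φ hφφ hφφ
       σδ := hφr
       span := ?_
       nsq := h }⟩⟩
  intro z
  obtain ⟨g, rfl⟩ := AdjoinRoot.mk_surjective z
  have h1 : AdjoinRoot.mk (Polynomial.X ^ 2 - Polynomial.C (a : k)) g
      = AdjoinRoot.mk _ (g %ₘ (Polynomial.X ^ 2 - Polynomial.C (a : k))) := by
    conv_lhs => rw [← Polynomial.modByMonic_add_div g (Polynomial.X ^ 2 - Polynomial.C (a : k))]
    rw [map_add, map_mul, AdjoinRoot.mk_self, zero_mul, add_zero]
  have h2 : (g %ₘ (Polynomial.X ^ 2 - Polynomial.C (a : k))).natDegree ≤ 1 := by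
    have h3 := Polynomial.natDegree_modByMonic_lt g hmonic (by
      intro h4
      have h5 := congrArg Polynomial.natDegree h4
      rw [Polynomial.natDegree_X_pow_sub_C, Polynomial.natDegree_one] at h5
      omega)
    rw [Polynomial.natDegree_X_pow_sub_C] at h3
    omega
  obtain ⟨q, p, hqp⟩ := Polynomial.exists_eq_X_add_C_of_natDegree_le_one h2
  refine ⟨p, q, ?_⟩
  rw [h1, hqp, map_add, map_mul, AdjoinRoot.mk_C, AdjoinRoot.mk_C, AdjoinRoot.mk_X, add_comm]
  rfl

namespace QExt

variable {k L : Type*} [Field k] [NumberField k] [Field L] [NumberField L] [Algebra k L] {a : kˣ}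
  (E : QExt k L a)

theorem sigma_mk (p q : k) :
    E.σ (algebraMap k L p + algebraMap k L q * E.δ)
      = algebraMap k L p - algebraMap k L q * E.δ := by
  rw [map_add, map_mul, E.σ.commutes, E.σ.commutes, E.σδ]
  ring

theorem norm_mk (p q : k) :
    (algebraMap k L p + algebraMap k L q * E.δ) * E.σ (algebraMap k L p + algebraMap k L q * E.δ)
      = algebraMap k L (p ^ 2 - a * q ^ 2) := by
  rw [E.sigma_mk, map_sub, map_mul, map_pow, map_pow, ← E.sq]
  ring

theorem sigma_sigma (z : L) : E.σ (E.σ z) = z := by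
  obtain ⟨p, q, rfl⟩ := E.span z
  rw [E.sigma_mk, map_sub, map_mul, E.σ.commutes, E.σ.commutes, E.σδ]
  ring

theorem exists_norm (z : L) : ∃ p q : k, z = algebraMap k L p + algebraMap k L q * E.δ ∧
    z * E.σ z = algebraMap k L (p ^ 2 - a * q ^ 2) := by
  obtain ⟨p, q, rfl⟩ := E.span z
  exact ⟨p, q, rfl, E.norm_mk p q⟩

/-- the coordinates are unique -/
theorem coord_eq_zero {p q : k} (h : algebraMap k L p + algebraMap k L q * E.δ = 0) :
    p = 0 ∧ q = 0 := by
  have hinj := (algebraMap k L).injective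
  by_cases hq : q = 0
  · rw [hq, map_zero, zero_mul, add_zero] at h
    exact ⟨hinj (by rw [h, map_zero]), hq⟩
  · exfalso
    have hq' : algebraMap k L q ≠ 0 := by
      rw [Ne, map_eq_zero]
      exact hq
    have h1 : E.δ = algebraMap k L (-(p / q)) := by
      rw [map_neg, map_div₀]
      field_simp
      linear_combination h
    have h2 := E.sq
    rw [h1, ← map_pow] at h2
    have h3 := hinj h2
    exact E.nsq ⟨-(p / q), by rw [← h3, _root_.sq]⟩

theorem mem_of_fixed {z : L} (h : E.σ z = z) : ∃ p : k, z = algebraMap k L p := by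
  obtain ⟨p, q, rfl⟩ := E.span z
  rw [E.sigma_mk] at h
  have h1 : algebraMap k L 0 + algebraMap k L (2 * q) * E.δ = 0 := by
    rw [map_zero, map_mul, map_ofNat]
    linear_combination -h
  have h2 := (E.coord_eq_zero h1).2
  have h3 : q = 0 := (mul_eq_zero.1 h2).resolve_left two_ne_zero
  exact ⟨p, by rw [h3, map_zero, zero_mul, add_zero]⟩

theorem sigma_delta_ne : E.σ E.δ ≠ E.δ := by
  intro h
  rw [E.σδ] at h
  have h1 : algebraMap k L 0 + algebraMap k L 2 * E.δ = 0 := by
    rw [map_zero, map_ofNat]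
    linear_combination -h
  exact two_ne_zero (E.coord_eq_zero h1).2

/-- Hilbert 90 -/
theorem hilbert90 {z : L} (h : z * E.σ z = 1) : ∃ y : L, y ≠ 0 ∧ z * E.σ y = y := by
  by_cases hz : 1 + z = 0
  · refine ⟨E.δ, ?_, ?_⟩
    · intro h0
      apply E.sigma_delta_ne
      rw [h0, map_zero]
    · rw [E.σδ]
      linear_combination -E.δ * hz
  · refine ⟨1 + z, hz, ?_⟩
    rw [map_add, map_one]
    linear_combination h

/-- an element of `k` which is a square in `L` is a square or `a` times a square -/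
theorem sq_of_sq (E : QExt k L a) {x : k} (h : IsSquare (algebraMap k L x)) : IsSquare x ∨ IsSquare (x * a) := by
  obtain ⟨t, ht⟩ := h
  obtain ⟨p, q, rfl⟩ := E.span t
  have h1 : algebraMap k L (p ^ 2 + a * q ^ 2 - x) + algebraMap k L (2 * p * q) * E.δ = 0 := by
    rw [map_sub, map_add, map_mul, map_mul, map_mul, map_pow, map_pow, map_ofNat, ht, ← E.sq]
    ring
  obtain ⟨h2, h3⟩ := E.coord_eq_zero h1
  rcases mul_eq_zero.1 h3 with h4 | h4
  · have h5 : p = 0 := (mul_eq_zero.1 h4).resolve_left two_ne_zero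
    right
    refine ⟨a * q, ?_⟩
    rw [h5] at h2
    linear_combination -(a : k) * h2
  · left
    refine ⟨p, ?_⟩
    rw [h4] at h2
    linear_combination -h2

theorem finrank_eq (E : QExt k L a) : Module.finrank k L = 2 := by
  have hli : LinearIndependent k ![(1 : L), E.δ] := by
    rw [LinearIndependent.pair_iff]
    intro s t hst
    rw [Algebra.smul_def, Algebra.smul_def, mul_one] at hst
    exact E.coord_eq_zero hst
  have hsp : ⊤ ≤ Submodule.span k (Set.range ![(1 : L), E.δ]) := by
    intro z _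
    obtain ⟨p, q, rfl⟩ := E.span z
    have h1 : algebraMap k L p = p • (1 : L) := by rw [Algebra.smul_def, mul_one]
    rw [h1, ← Algebra.smul_def]
    refine Submodule.add_mem _ (Submodule.smul_mem _ _ (Submodule.subset_span ⟨0, rfl⟩))
      (Submodule.smul_mem _ _ (Submodule.subset_span ⟨1, rfl⟩))
  have h := Module.finrank_eq_card_basis (Module.Basis.mk hli hsp)
  rw [h, Fintype.card_fin]

theorem isGalois (E : QExt k L a) : IsGalois k L := by
  have : Algebra.IsQuadraticExtension k L := ⟨E.finrank_eq⟩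
  infer_instance

theorem eq_one_or (E : QExt k L a) (τ : L ≃ₐ[k] L) : τ = AlgEquiv.refl ∨ τ = E.σ := by
  have h1 : (τ E.δ) ^ 2 = E.δ ^ 2 := by
    rw [← map_pow, E.sq, τ.commutes]
  rcases sq_eq_sq_iff_eq_or_eq_neg.1 h1 with h2 | h2
  · left
    ext z
    obtain ⟨p, q, rfl⟩ := E.span z
    rw [map_add, map_mul, τ.commutes, τ.commutes, h2]
    rfl
  · right
    ext z
    obtain ⟨p, q, rfl⟩ := E.span z
    rw [E.sigma_mk, map_add, map_mul, τ.commutes, τ.commutes, h2]
    ring

end QExt

end UDN
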