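import Pool.Agent.UDN.PlA
import Pool.Agent.UDN.QExtA

/-!
# UDN: the action of `σ` on the places of `L = k (√a)`

PROOFS.
* `exists_sg` : the prime ideal `{z : 𝓞 L | σ z ∈ w.asIdeal}` (comap of `w.asIdeal` under the ring
  automorphism of `𝓞 L` induced by `σ`, `NumberField.RingOfIntegers.mapRingEquiv` or
  `HeightOneSpectrum.equivOfRingEquiv`); `od` of it at `z` is `od w (σ z)` (the intValuation is
  transported by ring isomorphisms: `z ∈ I ^ n ↔ σ z ∈ J ^ n`).
* `bel_sg` : `σ` fixes `k`; `sg_sg` : `pl_ext`.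
* `trans` : the Galois group acts transitively on the primes above `v`
  (`Ideal.exists_map_eq_of_isGalois` / `Algebra.IsInvariant.exists_smul_of_under_eq`), and the group
  is `{1, σ}` (`QExt.isGalois`, `QExt.eq_one_or`).
  Direct proof: if `w'` is different from `w` and `sg w` choose (Chinese remainder theorem) an integer
  `z` of `L` in `w'` and not in `w`, `sg w`; then `z σ z = c : k`, `od w c = 0`, so `od v c = 0`, but
  `od w' c > 0`.
-/

set_option autoImplicit false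

open IsDedekindDomain NumberField

namespace UDN

variable {k L : Type*} [Field k] [NumberField k] [Field L] [NumberField L] [Algebra k L] {a : kˣ}

private theorem ge_nat_iff (v : Pl L) (n : ℕ) (x : 𝓞 L) :
    Ge (od v) n (x : L) ↔ x ∈ v.asIdeal ^ n := by
  rw [ge_od_iff, ← v.intValuation_le_pow_iff_mem, ← v.valuation_of_algebraMap (K := L)]

private theorem od_eq_of_mem {v w : Pl L} {x y : 𝓞 L} (hx : (x : L) ≠ 0) (hy : (y : L) ≠ 0)
    (h : ∀ n : ℕ, x ∈ v.asIdeal ^ n ↔ y ∈ w.asIdeal ^ n) : od v (x : L) = od w (y : L) := by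
  have h1 : 0 ≤ od v (x : L) := (ge_iff hx).1 (od_nonneg_int v x)
  have h2 : 0 ≤ od w (y : L) := (ge_iff hy).1 (od_nonneg_int w y)
  have h3 : ∀ n : ℕ, (n : ℤ) ≤ od v (x : L) ↔ (n : ℤ) ≤ od w (y : L) := fun n => by
    rw [← ge_iff hx, ← ge_iff hy, ge_nat_iff, ge_nat_iff]
    exact h n
  obtain ⟨m, hm⟩ := Int.eq_ofNat_of_zero_le h1
  obtain ⟨l, hl⟩ := Int.eq_ofNat_of_zero_le h2
  have h4 := (h3 m).1 (by rw [hm])
  have h5 := (h3 l).2 (by rw [hl])
  exact le_antisymm (by rw [hm]; exact h4) (by rw [hl]; exact h5)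

theorem exists_sg (E : QExt k L a) (w : Pl L) :
    ∃ w' : Pl L, ∀ z : L, od w' z = od w (E.σ z) := by
  obtain ⟨φ, hφ⟩ : ∃ φ : 𝓞 L ≃+* 𝓞 L, ∀ x : 𝓞 L, ((φ x : 𝓞 L) : L) = E.σ (x : L) :=
    ⟨RingOfIntegers.mapRingEquiv (E.σ : L ≃+* L), fun x => rfl⟩
  have hprime : (w.asIdeal.comap φ).IsPrime := by
    haveI := w.isPrime
    exact Ideal.comap_isPrime (φ : 𝓞 L →+* 𝓞 L) w.asIdeal
  have hne : w.asIdeal.comap φ ≠ ⊥ := by
    intro h
    apply w.ne_bot
    rw [eq_bot_iff]
    intro x hx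
    have h1 : φ.symm x ∈ w.asIdeal.comap φ := by
      rw [Ideal.mem_comap, RingEquiv.apply_symm_apply]
      exact hx
    rw [h, Ideal.mem_bot] at h1
    rw [Ideal.mem_bot]
    have := congrArg φ h1
    rwa [RingEquiv.apply_symm_apply, map_zero] at this
  have hmem : ∀ (x : 𝓞 L) (n : ℕ), x ∈ (w.asIdeal.comap φ) ^ n ↔ φ x ∈ w.asIdeal ^ n := by
    intro x n
    have h1 : w.asIdeal.comap φ = w.asIdeal.map φ.symm := (Ideal.map_symm φ).symm
    have h2 : (w.asIdeal ^ n).comap φ = (w.asIdeal ^ n).map φ.symm := (Ideal.map_symm φ).symm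
    rw [h1, ← Ideal.map_pow, ← h2, Ideal.mem_comap]
  refine ⟨⟨w.asIdeal.comap φ, hprime, hne⟩, fun z => ?_⟩
  have hint : ∀ x : 𝓞 L, (x : L) ≠ 0 →
      od (⟨w.asIdeal.comap φ, hprime, hne⟩ : Pl L) (x : L) = od w (E.σ (x : L)) := by
    intro x hx
    rw [← hφ]
    refine od_eq_of_mem hx ?_ fun n => hmem x n
    rw [hφ]
    exact (map_ne_zero_iff _ E.σ.injective).2 hx
  by_cases hz : z = 0
  · rw [hz, map_zero, (isVal_od _).zero, (isVal_od _).zero]
  · obtain ⟨x, y, hy, rfl⟩ := IsFractionRing.div_surjective (A := 𝓞 L) z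
    have hy0 : (algebraMap (𝓞 L) L y) ≠ 0 := by
      intro h
      exact hz (by rw [h, div_zero])
    have hx0 : (algebraMap (𝓞 L) L x) ≠ 0 := by
      intro h
      exact hz (by rw [h, zero_div])
    rw [map_div₀, (isVal_od _).div hx0 hy0, (isVal_od _).div
      ((map_ne_zero_iff _ E.σ.injective).2 hx0) ((map_ne_zero_iff _ E.σ.injective).2 hy0)]
    have h1 := hint x hx0
    have h2 := hint y hy0
    rw [← h1, ← h2]

/-- the conjugate place -/
noncomputable def sg (E : QExt k L a) (w : Pl L) : Pl L := (exists_sg E w).choose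

theorem od_sg (E : QExt k L a) (w : Pl L) (z : L) : od (sg E w) z = od w (E.σ z) :=
  (exists_sg E w).choose_spec z

theorem bel_sg (E : QExt k L a) (w : Pl L) : bel k (sg E w) = bel k w := by
  refine pl_ext fun x => ?_
  by_cases hx : x = 0
  · rw [hx]
    exact ⟨fun _ => ge_zero 1, fun _ => ge_zero 1⟩
  obtain ⟨e, he, h1⟩ := exists_eo k w
  obtain ⟨e', he', h1'⟩ := exists_eo k (sg E w)
  have h2 : od (sg E w) (algebraMap k L x) = od w (algebraMap k L x) := by
    rw [od_sg, E.σ.commutes]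
  rw [h1, h1'] at h2
  have he0 : (0 : ℤ) < e := by exact_mod_cast he
  have he0' : (0 : ℤ) < e' := by exact_mod_cast he'
  rw [ge_iff hx, ge_iff hx]
  constructor
  · intro h
    have h3 : 0 < (e : ℤ) * od (bel k w) x := by
      rw [← h2]
      exact mul_pos he0' (by linarith)
    have := (mul_pos_iff_of_pos_left he0).1 h3
    linarith
  · intro h
    have h3 : 0 < (e' : ℤ) * od (bel k (sg E w)) x := by
      rw [h2]
      exact mul_pos he0 (by linarith)
    have := (mul_pos_iff_of_pos_left he0').1 h3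
    linarith

theorem sg_sg (E : QExt k L a) (w : Pl L) : sg E (sg E w) = w := by
  refine pl_ext fun x => ?_
  unfold Ge
  rw [od_sg, od_sg, E.sigma_sigma]

private theorem eq_of_le {w w' : Pl L} (h : w'.asIdeal ≤ w.asIdeal) : w' = w := by
  have h1 : w'.asIdeal = w.asIdeal := w'.isMaximal.eq_of_le w.isPrime.ne_top h
  exact HeightOneSpectrum.ext h1

theorem pl_trans (E : QExt k L a) {w w' : Pl L} (h : bel k w = bel k w') :
    w' = w ∨ w' = sg E w := by
  by_contra hcon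
  push Not at hcon
  obtain ⟨hn1, hn2⟩ := hcon
  have hex : ∃ z : 𝓞 L, z ∈ w'.asIdeal ∧ z ∉ w.asIdeal ∧ z ∉ (sg E w).asIdeal := by
    by_contra hc
    push Not at hc
    have hsub : ((w'.asIdeal : Ideal (𝓞 L)) : Set (𝓞 L)) ⊆ w.asIdeal ∪ (sg E w).asIdeal := by
      intro z hz
      by_cases h1 : z ∈ w.asIdeal
      · exact Or.inl h1
      · exact Or.inr (hc z hz h1)
    rcases Ideal.subset_union.1 hsub with h1 | h1
    · exact hn1 (eq_of_le h1)
    · exact hn2 (eq_of_le h1)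
  obtain ⟨z, hz1, hz2, hz3⟩ := hex
  rw [← ge_one_iff_mem] at hz1 hz2 hz3
  have hz0 : (z : L) ≠ 0 := ne_zero_of_not_ge hz2
  rw [ge_iff hz0] at hz1 hz2 hz3
  have hn : ∀ u : Pl L, 0 ≤ od u (z : L) := fun u => (ge_iff hz0).1 (od_nonneg_int u z)
  have h1 : od w (z : L) = 0 := by
    have := hn w
    omega
  have h2 : od w (E.σ (z : L)) = 0 := by
    have := hn (sg E w)
    rw [← od_sg]
    omega
  have hs0 : E.σ (z : L) ≠ 0 := (map_ne_zero_iff _ E.σ.injective).2 hz0
  obtain ⟨p, q, -, hc⟩ := E.exists_norm (z : L)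
  have h3 : od w (algebraMap k L (p ^ 2 - a * q ^ 2)) = 0 := by
    rw [← hc, (isVal_od w).mul _ _ hz0 hs0, h1, h2, add_zero]
  obtain ⟨e, he, h4⟩ := exists_eo k w
  obtain ⟨e', he', h4'⟩ := exists_eo k w'
  have h5 : od (bel k w) (p ^ 2 - a * q ^ 2) = 0 := by
    rw [h4] at h3
    rcases mul_eq_zero.1 h3 with h6 | h6
    · exfalso
      have : e = 0 := by exact_mod_cast h6
      omega
    · exact h6
  have h6 : od w' ((z : L) * E.σ (z : L)) = 0 := by
    rw [hc, h4', ← h, h5, mul_zero]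
  rw [(isVal_od w').mul _ _ hz0 hs0, ← od_sg] at h6
  have h7 := hn (sg E w')
  omega

end UDN
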