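import Pool.Agent.UDN.PlC
import Pool.Agent.UDN.PlB

/-!
# UDN: the split places are the places where `a` is a local square

PROOF of `sq_of_split` (`w ≠ sg w` implies `a ∈ Sq v`, `v = bel w`).  Let `e` be as in `exists_eo` for
`w`; it is also the number for `sg w` (`od_sg` for elements of `k`).  By the approximation theorem in
`L` (`approx_fin` for `L`) for every `M` there is `x : L` with `Ge (od w) M x` and
`Ge (od (sg w)) 1 (x - 1)`, so `od (sg w) x = 0`; we may assume `x ≠ 0` (if `x = 0`, `1` has positive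
order).  Let `x = p + q δ`.  `σ x` has `od w (σ x) = od (sg w) x = 0`, so `2 p = x + σ x` has
`od w (2 p) = 0` (`IsVal.add_eq`, `M ≥ 1`), so `od v (2 p) = 0`.  `x σ x = p ^ 2 - a q ^ 2` has
`od w ≥ M`, so `Ge (od v) M' (p ^ 2 - a q ^ 2)` with `e M' ≥ M`.  `q ≠ 0` (otherwise `p ^ 2` has order
`2 od v p = - 2 od v 2 ≤ 0 < M'`).  So `a = (p / q) ^ 2 - (p ^ 2 - a q ^ 2) / q ^ 2` is close to
`(p / q) ^ 2`: `sq_of_close` for `M` large.
PROOF of `split_of_sq`.  Let `a ∈ Sq v` and suppose `sg w = w`, `v = bel w`.  `close_of_sq`: `y : k`,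
`y ≠ 0`, `2 od v y = od v a`, `Ge (od v) N (a - y ^ 2)`, where `a - y ^ 2 ≠ 0`.
`δ ^ 2 - y ^ 2 = (δ - y) (δ + y)`, and `σ (δ - y) = - (δ + y)`, so `od w (δ - y) = od w (δ + y)`, which
is half of `od w (a - y ^ 2) ≥ e N`.  But `2 y = (δ + y) - (δ - y)`, so `od w (2 y) ≥ e N / 2`,
`od v 2 + od v y ≥ N / 2`: a contradiction for `N` large.
PROOF of `od_eq_of_unr` (`od v 2 = 0`, `od v a = 0`, `v = bel w`).  Let `e` be as in `exists_eo`.  If
`w ≠ sg w`: `x ∈ L` with `od w x = 1`, `od (sg w) x = 0` (`approx_fin`) gives `c = x σ x : k`,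
`od w c = od w x + od (sg w) x = 1 = e od v c`, so `e = 1`.  If `w = sg w` then `a ∉ Sq v`
(`split_of_sq`); let `od w x = 1`, `c = x σ x = p ^ 2 - a q ^ 2`; `od w c = 2 = e * od v c`, and
`od v c` is even (`c` is in `Nm a v`: `norm_mem_nm`, `nm_iff_even`), so `od v c = 2`, `e = 1`.
-/

set_option autoImplicit false

open IsDedekindDomain NumberField

namespace UDN

variable {k L : Type*} [Field k] [NumberField k] [Field L] [NumberField L] [Algebra k L] {a : kˣ}

/-- an element near `b` at `w` and near `1` at the conjugate place -/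
private theorem exists_two (E : QExt k L a) {w : Pl L} (h : sg E w ≠ w) (M : ℤ) (b : L) :
    ∃ x : L, Ge (od w) M (x - b) ∧ Ge (od (sg E w)) M (x - 1) := by
  classical
  obtain ⟨x, hx⟩ := approx_fin (k := L) (S := {w, sg E w}) (Set.toFinite _) M
    (fun u => if u = w then b else 1)
  refine ⟨x, ?_, ?_⟩
  · have := hx w (by simp)
    rwa [if_pos rfl] at this
  · have := hx (sg E w) (by simp)
    rwa [if_neg h] at this

/-- near `1` implies order `0` -/
private theorem od_of_near_one {w : Pl L} {M : ℤ} (hM : 1 ≤ M) {x : L} (h : Ge (od w) M (x - 1)) :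
    x ≠ 0 ∧ od w x = 0 := by
  have h1 := (isVal_od w).add_eq (x := (1 : L)) (y := x - 1) one_ne_zero (by
    rw [(isVal_od w).one]
    exact h.mono (by linarith))
  rwa [add_sub_cancel, (isVal_od w).one] at h1

theorem sq_of_split (E : QExt k L a) {w : Pl L} (h : sg E w ≠ w) : a ∈ Sq (bel k w) := by
  obtain ⟨e, he, heo⟩ := exists_eo k w
  have he1 : (1 : ℤ) ≤ e := by exact_mod_cast he
  obtain ⟨x, hx1, hx2⟩ := exists_two E h e 0
  rw [sub_zero] at hx1
  obtain ⟨hx0, hx3⟩ := od_of_near_one he1 hx2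
  obtain ⟨p, q, hpq, hnorm⟩ := E.exists_norm x
  have hσ0 : E.σ x ≠ 0 := by
    rwa [Ne, map_eq_zero]
  have hσ : od w (E.σ x) = 0 := by rw [← od_sg, hx3]
  -- the trace
  have htr : algebraMap k L (2 * p) = E.σ x + x := by
    rw [hpq, E.sigma_mk, map_mul, map_ofNat]
    ring
  have h1 := (isVal_od w).add_eq (x := E.σ x) (y := x) hσ0 (by
    rw [hσ]
    exact hx1.mono (by linarith))
  rw [← htr, hσ, heo] at h1
  have hp0 : p ≠ 0 := by
    rintro rfl
    apply h1.1
    rw [mul_zero, map_zero]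
  have hp : od (bel k w) p = -od (bel k w) 2 := by
    have h2 : od (bel k w) (2 * p) = 0 := by
      rcases mul_eq_zero.1 h1.2 with h3 | h3
      · omega
      · exact h3
    rw [(isVal_od _).mul _ _ two_ne_zero hp0] at h2
    linarith
  -- the norm
  have hc0 : p ^ 2 - a * q ^ 2 ≠ 0 := by
    intro h0
    rw [h0, map_zero] at hnorm
    exact mul_ne_zero hx0 hσ0 hnorm
  have hc : 1 ≤ od (bel k w) (p ^ 2 - a * q ^ 2) := by
    have h2 : (e : ℤ) ≤ e * od (bel k w) (p ^ 2 - a * q ^ 2) := by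
      rw [← heo, ← hnorm, (isVal_od w).mul _ _ hx0 hσ0, hσ, add_zero]
      exact (ge_iff hx0).1 hx1
    by_contra h3
    push Not at h3
    nlinarith
  have h2 := isVal_od_two (bel k w)
  have hq0 : q ≠ 0 := by
    rintro rfl
    rw [zero_pow two_ne_zero, mul_zero, sub_zero, (isVal_od _).pow, hp] at hc
    push_cast at hc
    linarith
  refine sq_of_close (bel k w) (y := p / q) (div_ne_zero hp0 hq0) ?_
  have h4 : (a : k) - (p / q) ^ 2 = -((p ^ 2 - a * q ^ 2) / q ^ 2) := by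
    field_simp
    ring
  rw [h4]
  refine (isVal_od _).ge_neg (Or.inr ?_)
  rw [(isVal_od _).div hc0 (pow_ne_zero 2 hq0), (isVal_od _).div hp0 hq0, (isVal_od _).pow, hp]
  push_cast
  linarith

theorem split_of_sq (E : QExt k L a) {w : Pl L} (h : a ∈ Sq (bel k w)) : sg E w ≠ w := by
  intro hsg
  obtain ⟨e, he, heo⟩ := exists_eo k w
  have he1 : (1 : ℤ) ≤ e := by exact_mod_cast he
  obtain ⟨y, hy0, hy1, hy2⟩ := close_of_sq (bel k w) h
    (2 * od (bel k w) 2 + od (bel k w) (a : k) + 1)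
  have hne : (a : k) - y ^ 2 ≠ 0 := by
    intro h0
    exact E.nsq ⟨y, by rw [← sq]; linear_combination h0⟩
  have hfac : (E.δ - algebraMap k L y) * (E.δ + algebraMap k L y) = algebraMap k L (a - y ^ 2) := by
    rw [map_sub, map_pow, ← E.sq]
    ring
  have hne' : algebraMap k L ((a : k) - y ^ 2) ≠ 0 := by
    rwa [Ne, map_eq_zero]
  have hm : E.δ - algebraMap k L y ≠ 0 := fun h0 => hne' (by rw [← hfac, h0, zero_mul])
  have hp : E.δ + algebraMap k L y ≠ 0 := fun h0 => hne' (by rw [← hfac, h0, mul_zero])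
  have hσ : E.σ (E.δ - algebraMap k L y) = -(E.δ + algebraMap k L y) := by
    rw [map_sub, E.σδ, E.σ.commutes]
    ring
  have hod : od w (E.δ - algebraMap k L y) = od w (E.δ + algebraMap k L y) := by
    have h1 := od_sg E w (E.δ - algebraMap k L y)
    rw [hsg, hσ, (isVal_od w).neg] at h1
    exact h1
  have h2 : od w (E.δ - algebraMap k L y) + od w (E.δ + algebraMap k L y) =
      e * od (bel k w) (a - y ^ 2) := by
    rw [← (isVal_od w).mul _ _ hm hp, hfac, heo]
  have h3 : (2 * od (bel k w) 2 + od (bel k w) (a : k) + 1) ≤ od (bel k w) (a - y ^ 2) :=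
    (ge_iff hne).1 hy2
  have h2y : algebraMap k L (2 * y) = (E.δ + algebraMap k L y) - (E.δ - algebraMap k L y) := by
    rw [map_mul, map_ofNat]
    ring
  have h2y0 : (2 * y) ≠ 0 := mul_ne_zero two_ne_zero hy0
  have h4 := (isVal_od w).sub _ _ hp hm (by
    rw [← h2y, Ne, map_eq_zero]
    exact h2y0)
  rw [← h2y, heo, hod, min_self, (isVal_od _).mul _ _ two_ne_zero hy0] at h4
  nlinarith

theorem split_iff (E : QExt k L a) (w : Pl L) : a ∈ Sq (bel k w) ↔ sg E w ≠ w :=
  ⟨split_of_sq E, sq_of_split E⟩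

theorem od_eq_of_unr (E : QExt k L a) {w : Pl L} (h2 : od (bel k w) (2 : k) = 0)
    (ha : od (bel k w) (a : k) = 0) (x : k) : od w (algebraMap k L x) = od (bel k w) x := by
  obtain ⟨e, he, heo⟩ := exists_eo k w
  suffices h1 : e = 1 by rw [heo, h1]; simp
  obtain ⟨π, hπ⟩ := (isVal_od w).unif
  have hπ0 : π ≠ 0 := by
    rintro rfl
    rw [(isVal_od w).zero] at hπ
    exact zero_ne_one hπ
  by_cases hs : sg E w = w
  · have has : a ∉ Sq (bel k w) := fun h => split_of_sq E h hs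
    obtain ⟨p, q, hpq, hnorm⟩ := E.exists_norm π
    have hσ0 : E.σ π ≠ 0 := by rwa [Ne, map_eq_zero]
    have hσ : od w (E.σ π) = 1 := by rw [← od_sg, hs, hπ]
    have hc0 : p ^ 2 - a * q ^ 2 ≠ 0 := by
      intro h0
      rw [h0, map_zero] at hnorm
      exact mul_ne_zero hπ0 hσ0 hnorm
    have hc : (e : ℤ) * od (bel k w) (p ^ 2 - a * q ^ 2) = 2 := by
      rw [← heo, ← hnorm, (isVal_od w).mul _ _ hπ0 hσ0, hσ, hπ]
      norm_num
    have hev : Even (od (bel k w) ((Units.mk0 _ hc0 : kˣ) : k)) :=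
      (nm_iff_even h2 (by rw [ha]; exact Even.zero) has _).1 (norm_mem_nm (by rw [Units.val_mk0]) _)
    rw [Units.val_mk0] at hev
    obtain ⟨m, hm⟩ := hev
    rw [hm] at hc
    have h5 : (e : ℤ) * m = 1 := by linarith
    have h6 : (e : ℤ) ∣ 1 := ⟨m, h5.symm⟩
    have h7 := Int.eq_one_of_dvd_one (by positivity) h6
    exact_mod_cast h7
  · obtain ⟨y, hy1, hy2⟩ := exists_two E hs 2 π
    obtain ⟨hy0, hy3⟩ := od_of_near_one (by norm_num) hy2
    have hy4 := (isVal_od w).add_eq (x := π) (y := y - π) hπ0 (by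
      rw [hπ]
      exact hy1.mono (by norm_num))
    rw [add_sub_cancel, hπ] at hy4
    obtain ⟨p, q, hpq, hnorm⟩ := E.exists_norm y
    have hσ0 : E.σ y ≠ 0 := by rwa [Ne, map_eq_zero]
    have hσ : od w (E.σ y) = 0 := by rw [← od_sg, hy3]
    have hc : (e : ℤ) * od (bel k w) (p ^ 2 - a * q ^ 2) = 1 := by
      rw [← heo, ← hnorm, (isVal_od w).mul _ _ hy0 hσ0, hσ, hy4.2]
      norm_num
    have h6 : (e : ℤ) ∣ 1 := ⟨_, hc.symm⟩
    have h7 := Int.eq_one_of_dvd_one (by positivity) h6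
    exact_mod_cast h7

end UDN
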