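import Pool.Agent.UDN.SqIdx

/-!
# UDN: the product of the numbers of local square classes

PROOF of `prod_two` : the ideal `(2)` of `𝓞 k` has norm `2 ^ n`, `n = [k : ℚ]`
(`Ideal.absNorm_span_singleton`, `Algebra.norm_algebraMap`), and it is the product of the
`v.asIdeal ^ (od v 2)` (`Ideal.finprod_heightOneSpectrum_factorization`, `absNorm` is
multiplicative); alternatively the product formula for `x = 2` (`NumberField.prod_abs_eq_one`,
`∏ᶠ` over the finite places of `‖2‖_v = N(v) ^ (- od v 2)` times `∏ |2| ^ mult = 2 ^ n`).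

PROOF of `sqS_index` : `Subgroup.index_iInf_le` (`index_inf_le`) and `sq_index`, `sqI_index`:
`∏_{v ∈ S} 4 N(v) ^ (od v 2) * ∏_{v real} 2 = 4 ^ (card S) * 2 ^ n * 2 ^ r₁`, and
`n = r₁ + 2 r₂` (`NumberField.InfinitePlace.card_add_two_mul_card_eq_rank`),
`sz S = card S + r₁ + r₂`.
-/

set_option autoImplicit false

open IsDedekindDomain NumberField

namespace UDN

variable {k : Type*} [Field k] [NumberField k]

private theorem od_two42 (v : Pl k) : (od v (2 : k)).toNat =
    (Associates.mk v.asIdeal).count (Associates.mk (Ideal.span {(2 : 𝓞 k)})).factors := by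
  have h2 : (2 : 𝓞 k) ≠ 0 := two_ne_zero
  have h1 : v.valuation k (2 : k) = WithZero.exp
      (-(((Associates.mk v.asIdeal).count
        (Associates.mk (Ideal.span {(2 : 𝓞 k)})).factors : ℕ) : ℤ)) := by
    rw [← v.intValuation_if_neg h2, ← v.valuation_of_algebraMap (K := k) (2 : 𝓞 k)]
    rfl
  unfold od
  rw [h1, WithZero.log_exp, neg_neg, Int.toNat_natCast]

theorem prod_two {S : Set (Pl k)} (hS : S.Finite) (hdy : ∀ v, od v (2 : k) ≠ 0 → v ∈ S) :
    ∏ v ∈ hS.toFinset, (Ideal.absNorm v.asIdeal) ^ (od v (2 : k)).toNat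
      = 2 ^ Module.finrank ℚ k := by
  have h2 : (2 : 𝓞 k) ≠ 0 := two_ne_zero
  have hI : Ideal.span {(2 : 𝓞 k)} ≠ 0 := by
    rw [Ne, Ideal.zero_eq_bot, Ideal.span_singleton_eq_bot]
    exact h2
  have h3 := Ideal.finprod_heightOneSpectrum_factorization hI
  rw [finprod_eq_prod_of_mulSupport_subset (s := hS.toFinset)] at h3
  · have h4 := congrArg Ideal.absNorm h3
    rw [map_prod, Ideal.absNorm_span_singleton] at h4
    have h5 : ((Algebra.norm ℤ) (2 : 𝓞 k)).natAbs = 2 ^ Module.finrank ℚ k := by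
      have h6 := Algebra.norm_algebraMap (R := ℤ) (S := 𝓞 k) 2
      have h7 : algebraMap ℤ (𝓞 k) 2 = (2 : 𝓞 k) := by simp
      rw [h7, RingOfIntegers.rank] at h6
      rw [h6, Int.natAbs_pow]
      rfl
    rw [h5] at h4
    rw [← h4]
    refine Finset.prod_congr rfl fun v _ => ?_
    rw [od_two42, HeightOneSpectrum.maxPowDividing, map_pow]
  · intro v hv
    rw [Set.Finite.coe_toFinset]
    apply hdy
    intro h0
    apply hv
    have h6 := od_two42 v
    rw [h0] at h6
    change v.maxPowDividing (Ideal.span {(2 : 𝓞 k)}) = 1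
    rw [HeightOneSpectrum.maxPowDividing, ← h6]
    simp

theorem sqS_index {S : Set (Pl k)} (hS : GoodS S) :
    (SqS S).index ≠ 0 ∧ (SqS S).index ≤ 4 ^ sz S := by
  classical
  haveI : Fintype S := hS.fin.fintype
  have e1 : (⨅ v ∈ S, Sq v) = ⨅ v : S, Sq (v : Pl k) := iInf_subtype'
  have f1 : (⨅ v : S, Sq (v : Pl k)).index ≠ 0 :=
    Subgroup.index_iInf_ne_zero fun v => (sq_index (v : Pl k)).1
  have f2 : (⨅ v : InfinitePlace k, SqI v).index ≠ 0 :=
    Subgroup.index_iInf_ne_zero fun v => (sqI_index v).1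
  have g1 : (⨅ v : S, Sq (v : Pl k)).index ≤
      4 ^ hS.fin.toFinset.card * 2 ^ Module.finrank ℚ k := by
    refine (Subgroup.index_iInf_le _).trans ?_
    calc ∏ v : S, (Sq (v : Pl k)).index
        ≤ ∏ v : S, (4 * (Ideal.absNorm (v : Pl k).asIdeal) ^ (od (v : Pl k) (2 : k)).toNat) :=
          Finset.prod_le_prod (fun _ _ => Nat.zero_le _) fun v _ => (sq_index (v : Pl k)).2
      _ = ∏ v ∈ hS.fin.toFinset, (4 * (Ideal.absNorm v.asIdeal) ^ (od v (2 : k)).toNat) :=
          (Finset.prod_subtype hS.fin.toFinset (fun v => hS.fin.mem_toFinset)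
            (fun v : Pl k => 4 * (Ideal.absNorm v.asIdeal) ^ (od v (2 : k)).toNat)).symm
      _ = 4 ^ hS.fin.toFinset.card * 2 ^ Module.finrank ℚ k := by
          rw [Finset.prod_mul_distrib, Finset.prod_const, prod_two hS.fin hS.dy]
  have g2 : (⨅ v : InfinitePlace k, SqI v).index * 2 ^ Module.finrank ℚ k ≤
      4 ^ Fintype.card (InfinitePlace k) := by
    have h1 : (⨅ v : InfinitePlace k, SqI v).index ≤ ∏ v : InfinitePlace k, (SqI v).index :=
      Subgroup.index_iInf_le _
    calc (⨅ v : InfinitePlace k, SqI v).index * 2 ^ Module.finrank ℚ k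
        ≤ (∏ v : InfinitePlace k, (SqI v).index) * 2 ^ Module.finrank ℚ k :=
          Nat.mul_le_mul_right _ h1
      _ = ∏ v : InfinitePlace k, ((SqI v).index * 2 ^ v.mult) := by
          rw [Finset.prod_mul_distrib, Finset.prod_pow_eq_pow_sum, InfinitePlace.sum_mult_eq]
      _ ≤ ∏ _v : InfinitePlace k, 4 := by
          refine Finset.prod_le_prod (fun _ _ => Nat.zero_le _) fun v _ => ?_
          by_cases hv : v.IsReal
          · have := (sqI_index v).2.1 hv
            rw [InfinitePlace.mult, if_pos hv]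
            omega
          · have := (sqI_index v).2.2 (InfinitePlace.not_isReal_iff_isComplex.1 hv)
            rw [InfinitePlace.mult, if_neg hv, this]
            norm_num
      _ = 4 ^ Fintype.card (InfinitePlace k) := by
          rw [Finset.prod_const, Finset.card_univ]
  unfold SqS sz
  rw [e1]
  refine ⟨Subgroup.index_inf_ne_zero f1 f2, Subgroup.index_inf_le.trans ?_⟩
  rw [Set.ncard_eq_toFinset_card S hS.fin, Nat.card_eq_fintype_card, pow_add]
  calc (⨅ v : S, Sq (v : Pl k)).index * (⨅ v : InfinitePlace k, SqI v).index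
      ≤ (4 ^ hS.fin.toFinset.card * 2 ^ Module.finrank ℚ k) *
          (⨅ v : InfinitePlace k, SqI v).index := Nat.mul_le_mul_right _ g1
    _ = 4 ^ hS.fin.toFinset.card *
          ((⨅ v : InfinitePlace k, SqI v).index * 2 ^ Module.finrank ℚ k) := by ring
    _ ≤ 4 ^ hS.fin.toFinset.card * 4 ^ Fintype.card (InfinitePlace k) :=
        Nat.mul_le_mul_left _ g2

end UDN
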