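import Mathlib

/-!
# UDN: sums of traces in finite fields

Let `κ` be a finite field with `q` elements, `I = {u | x ^ 2 - u x + 1 has no root}`.

PROOF of `card_irr` : `2 * card I + 1 = q` for `q` odd (`card I = (q - 1) / 2`) and `2 * card I = q` for
`q` even.  Indeed the map `κˣ → κ`, `x ↦ x + x⁻¹`, has image the complement of `I`
(`x` is a root of `x ^ 2 - u x + 1` iff `u = x + x⁻¹`, `x ≠ 0`), and its fibers are `{x, x⁻¹}`: one
element for `x = ± 1`, two elements otherwise.  So the image has `(q - 1 - 2) / 2 + 2 = (q + 1) / 2`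
elements for `q` odd and `(q - 1 - 1) / 2 + 1 = q / 2` elements for `q` even.  Let
`I' = I ∪ {2, -2}`; `2, -2` are not in `I` (roots `1`, `-1`).
PROOF of `res_sum`.  `q` odd: `card I' = (q - 1) / 2 + 2`, so `I'` and `t - I'` have at least
`2 card I' - q = 3` common elements; among the pairs `(u, t - u)` with both members in `{2, -2}` there
are at most two (`t = 0`: `u = 2, -2`; `t = 4`, `t = - 4`: one each).  So there is `u ∈ I'`,
`t - u ∈ I'` with `u ∈ I` or `t - u ∈ I`; if `u ∉ I` exchange `u` and `t - u`.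
`q` even: `2 = 0`.  If `I ∩ (t - I)` is not empty we are done; otherwise `t - I` is the complement of `I`
(both have `q / 2` elements), so `0 ∈ t - I`, `t ∈ I`: `u = t`, `t - u = 0 = 2`.
-/

set_option autoImplicit false

namespace UDN

theorem res_sum {κ : Type*} [Field κ] [Finite κ] (t : κ) :
    ∃ u : κ, (∀ x, x ^ 2 - u * x + 1 ≠ 0) ∧
      ((∀ x, x ^ 2 - (t - u) * x + 1 ≠ 0) ∨ t - u = 2 ∨ t - u = -2) := by
  classical
  haveI := Fintype.ofFinite κ
  obtain ⟨E, hE⟩ : ∃ E : Finset κ, E = {2, -2} := ⟨_, rfl⟩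
  obtain ⟨S, hS⟩ : ∃ S : Finset κ, S = Finset.univ.erase 0 := ⟨_, rfl⟩
  obtain ⟨f, hf⟩ : ∃ f : κ → κ, ∀ x, f x = x + x⁻¹ := ⟨_, fun _ => rfl⟩
  obtain ⟨J, hJ⟩ : ∃ J : Finset κ, J = S.image f := ⟨_, rfl⟩
  have hmS : ∀ x : κ, x ∈ S ↔ x ≠ 0 := fun x => by
    rw [hS, Finset.mem_erase]
    simp
  have hSc : S.card + 1 = Fintype.card κ := by
    rw [hS, Finset.card_erase_of_mem (Finset.mem_univ _), Finset.card_univ]
    have := Fintype.card_pos (α := κ)
    omega
  have hJE : E ⊆ J := by
    intro b hb
    rw [hE, Finset.mem_insert, Finset.mem_singleton] at hb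
    rw [hJ, Finset.mem_image]
    rcases hb with rfl | rfl
    · refine ⟨1, (hmS 1).2 one_ne_zero, ?_⟩
      rw [hf, inv_one]
      norm_num
    · refine ⟨-1, (hmS (-1)).2 (neg_ne_zero.2 one_ne_zero), ?_⟩
      rw [hf, inv_neg, inv_one]
      norm_num
  have hJ2 : 2 * J.card ≤ S.card + E.card := by
    have h1 : S.card = ∑ b ∈ J, (S.filter (fun x => f x = b)).card := by
      rw [hJ]
      exact Finset.card_eq_sum_card_image f S
    have h2 : ∀ b ∈ J, 2 ≤ (S.filter (fun x => f x = b)).card + (if b ∈ E then 1 else 0) := by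
      intro b hb
      rw [hJ, Finset.mem_image] at hb
      obtain ⟨x, hx, rfl⟩ := hb
      have hx0 : x ≠ 0 := (hmS x).1 hx
      have hxm : x ∈ S.filter (fun y => f y = f x) := Finset.mem_filter.2 ⟨hx, rfl⟩
      by_cases hE' : f x ∈ E
      · rw [if_pos hE']
        have : 0 < (S.filter (fun y => f y = f x)).card := Finset.card_pos.2 ⟨x, hxm⟩
        omega
      · rw [if_neg hE', add_zero]
        have hxi : x⁻¹ ∈ S.filter (fun y => f y = f x) := by
          rw [Finset.mem_filter, hf, hf, inv_inv]
          exact ⟨(hmS _).2 (inv_ne_zero hx0), add_comm _ _⟩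
        have hne : x ≠ x⁻¹ := by
          intro h
          apply hE'
          have h1 : x * x = 1 := by
            nth_rewrite 2 [h]
            exact mul_inv_cancel₀ hx0
          have h2 : x = 1 ∨ x = -1 := mul_self_eq_one_iff.1 h1
          rw [hE, hf, Finset.mem_insert, Finset.mem_singleton]
          rcases h2 with rfl | rfl
          · left
            rw [inv_one]
            norm_num
          · right
            rw [inv_neg, inv_one]
            norm_num
        exact Finset.one_lt_card.2 ⟨x, hxm, x⁻¹, hxi, hne⟩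
    have h3 := Finset.sum_le_sum h2
    rw [Finset.sum_add_distrib, ← h1, Finset.sum_const, smul_eq_mul, ← Finset.card_filter] at h3
    have h4 : (J.filter (fun b => b ∈ E)).card ≤ E.card :=
      Finset.card_le_card fun b hb => (Finset.mem_filter.1 hb).2
    omega
  have hI : ∀ u : κ, u ∉ J → ∀ x, x ^ 2 - u * x + 1 ≠ 0 := by
    intro u hu x hx
    apply hu
    have hx0 : x ≠ 0 := by
      rintro rfl
      norm_num at hx
    rw [hJ, Finset.mem_image]
    refine ⟨x, (hmS x).2 hx0, ?_⟩
    rw [hf]
    field_simp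
    linear_combination hx
  -- pigeonhole
  obtain ⟨I, hI'⟩ : ∃ I : Finset κ, I = Jᶜ ∪ E := ⟨_, rfl⟩
  have hIc : I.card = Jᶜ.card + E.card := by
    rw [hI', Finset.card_union_of_disjoint]
    rw [Finset.disjoint_left]
    intro x h1 h2
    exact (Finset.mem_compl.1 h1) (hJE h2)
  have hJc : Jᶜ.card + J.card = Fintype.card κ := by
    rw [Finset.card_compl]
    have := Finset.card_le_univ J
    omega
  have hT : (I.image (fun u => t - u)).card = I.card :=
    Finset.card_image_of_injective _ fun a b h => sub_right_injective h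
  have hU := Finset.card_union_add_card_inter I (I.image (fun u => t - u))
  have hU2 := Finset.card_le_univ (I ∪ I.image (fun u => t - u))
  have h5 : E.card < (I ∩ I.image (fun u => t - u)).card := by omega
  obtain ⟨u, hu, huE⟩ := Finset.exists_mem_notMem_of_card_lt_card h5
  rw [Finset.mem_inter, Finset.mem_image] at hu
  obtain ⟨hu1, u', hu2, rfl⟩ := hu
  have huJ : t - u' ∉ J := by
    rw [hI', Finset.mem_union] at hu1
    exact Finset.mem_compl.1 (hu1.resolve_right huE)
  refine ⟨t - u', hI _ huJ, ?_⟩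
  have h6 : t - (t - u') = u' := by ring
  rw [h6]
  rw [hI', Finset.mem_union] at hu2
  rcases hu2 with h | h
  · exact Or.inl (hI _ (Finset.mem_compl.1 h))
  · right
    rwa [hE, Finset.mem_insert, Finset.mem_singleton] at h

end UDN
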