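import Pool.Agent.UDN.Hasse
import Pool.Agent.UDN.LocT

/-!
# UDN: local-global principle for the traces of the quaternions of norm one

PROOF of `rep_local` (`b ∉ Nm a v`, `d ∈ kˣ` not a square in `Kv v`): `rep_nonsq` (`isLoc_wv`) gives
`x, y, z` in `Kv v` with `d = a x ^ 2 + b y ^ 2 - a b z ^ 2`; approximate `x, y, z` by `x', y', z' : k`
(`dense_cv`) so that `m = a x' ^ 2 + b y' ^ 2 - a b z' ^ 2` is close to `d` in `Kv v`; then `m ≠ 0` and
`m / d` is a square (`IsLoc.isSquare_of_close`), so `m * d ∈ Sq v`.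

PROOF of `rep_of_local`.  If `d` is a square in `k` then `d ∈ Sq v` for all `v`, so `b ∈ Nm a v` for all
`v`; `hasse_norm` and `rep_of_sy`.  Otherwise let `E : QExt k L d` (`exists_qext`).  We show that `um k L b` is a local norm of `L (√a)` at all places
of `L`; then `hasse_norm` over `L` and `rep_of_ext` give `Rep a b d`.
Infinite places: `nmI_up`.  Finite `w`, `v = bel k w`: if `b ∈ Nm a v`: `nm_up`.  Otherwise `d ∉ Sq v` by hypothesis; `rep_local` gives `m : kˣ` with `Rep a b m` and `m * d ∈ Sq v`.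
`um (m * d) ∈ Sq w` (`sq_up`), `um d = δ ^ 2`, so `um m ∈ Sq w`: in `Kv w`, `m = r ^ 2`, `r ≠ 0`, and
`Rep a b m`, so `Sy a b` in `Kv w` (`sy_of_rep_sq`).

PROOF of `sq_iff_local`.
(⇒) `sq_iff_rep`; if `b ∉ Nm a v` and `s ^ 2 = cv v (t ^ 2 - 4)`, `s ≠ 0`, then `Rep.map` and
`sy_of_rep_sq` in `Kv v` give `Sy (cv v a) (cv v b)`, i.e. `b ∈ Nm a v`.
(⇐) Let `d = t ^ 2 - 4`.  If `d = 0`: `rep_zero`; otherwise `rep_of_local`.
-/

set_option autoImplicit false

open IsDedekindDomain NumberField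

namespace UDN

variable {k : Type*} [Field k] [NumberField k]

private theorem cne' (v : Pl k) (x : kˣ) : cv v (x : k) ≠ 0 := fun h =>
  x.ne_zero ((cv_eq_zero v).1 h)

private theorem closeK' (v : Pl k) {X Y : Kv v} (hX : X ≠ 0)
    (h : Ge (wv v) (wv v X + 2 * wv v 2 + 1) (Y - X)) : Y ≠ 0 ∧ IsSquare (Y * X) := by
  have hL := isLoc_wv v
  have hV := isVal_wv v
  have h20 := hL.two_nonneg
  have h1 : Y ≠ 0 := by
    have h2 := (hV.add_eq hX (h.mono (by linarith : wv v X + 1 ≤ wv v X + 2 * wv v 2 + 1))).1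
    rwa [add_sub_cancel] at h2
  refine ⟨h1, ?_⟩
  have h3 : Ge (wv v) (2 * wv v 2 + 1) (Y / X - 1) := by
    have e : Y / X - 1 = (Y - X) / X := by
      rw [sub_div, div_self hX]
    rw [e]
    by_cases h0 : Y - X = 0
    · rw [h0, zero_div]
      exact ge_zero _
    · refine Or.inr ?_
      rw [hV.div h0 hX]
      have := (ge_iff h0).1 h
      linarith
  obtain ⟨r, hr⟩ := hL.isSquare_of_close h3
  refine ⟨X * r, ?_⟩
  have e : Y = X * (Y / X) := by field_simp
  rw [e, hr]
  ring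

private theorem approx_sq' (v : Pl k) (P : Kv v) (M : ℤ) :
    ∃ p : k, Ge (wv v) M (cv v p ^ 2 - P ^ 2) := by
  have hV := isVal_wv v
  obtain ⟨B, hB⟩ : ∃ B, Ge (wv v) B P := ⟨wv v P, Or.inr le_rfl⟩
  obtain ⟨p, hp⟩ := dense_cv v P (max (M - B) B)
  have h1 : Ge (wv v) (max (M - B) B) (cv v p - P) := by
    have := hV.ge_neg hp
    rwa [neg_sub] at this
  have h2 : Ge (wv v) B (cv v p + P) := by
    have h3 : cv v p + P = (cv v p - P) + (P + P) := by ring
    rw [h3]
    exact hV.ge_add (h1.mono (le_max_right _ _)) (hV.ge_add hB hB)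
  refine ⟨p, ?_⟩
  have h3 : cv v p ^ 2 - P ^ 2 = (cv v p - P) * (cv v p + P) := by ring
  rw [h3]
  exact (hV.ge_mul h1 h2).mono (by have := le_max_left (M - B) B; linarith)

theorem rep_local {v : Pl k} {a b d : kˣ} (hb : b ∉ Nm a v) (hd : d ∉ Sq v) :
    ∃ m : kˣ, Rep (a : k) b m ∧ m * d ∈ Sq v := by
  have hV := isVal_wv v
  obtain ⟨x, y, z, hxyz⟩ := rep_nonsq (isLoc_wv v) (cne' v a) (cne' v b) hb (cne' v d) hd
  obtain ⟨M, hM⟩ : ∃ M, M = wv v (cv v (d : k)) + 2 * wv v 2 + 1 := ⟨_, rfl⟩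
  have hab : cv v (a : k) * cv v (b : k) ≠ 0 := mul_ne_zero (cne' v a) (cne' v b)
  obtain ⟨x', hx'⟩ := approx_sq' v x (M - wv v (cv v (a : k)))
  obtain ⟨y', hy'⟩ := approx_sq' v y (M - wv v (cv v (b : k)))
  obtain ⟨z', hz'⟩ := approx_sq' v z (M - wv v (cv v (a : k) * cv v (b : k)))
  have h1 : Ge (wv v) M (cv v ((a : k) * x' ^ 2 + b * y' ^ 2 - a * b * z' ^ 2) - cv v (d : k)) := by
    have e1 : cv v ((a : k) * x' ^ 2 + b * y' ^ 2 - a * b * z' ^ 2) - cv v (d : k) =
        cv v (a : k) * (cv v x' ^ 2 - x ^ 2) + cv v (b : k) * (cv v y' ^ 2 - y ^ 2) -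
          cv v (a : k) * cv v (b : k) * (cv v z' ^ 2 - z ^ 2) := by
      rw [hxyz]
      simp only [map_sub, map_add, map_mul, map_pow]
      ring
    rw [e1]
    refine hV.ge_sub (hV.ge_add ?_ ?_) ?_
    · exact (hV.ge_mul (m := wv v (cv v (a : k))) (Or.inr le_rfl) hx').mono (by linarith)
    · exact (hV.ge_mul (m := wv v (cv v (b : k))) (Or.inr le_rfl) hy').mono (by linarith)
    · exact (hV.ge_mul (m := wv v (cv v (a : k) * cv v (b : k))) (Or.inr le_rfl) hz').mono
        (by linarith)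
  rw [hM] at h1
  obtain ⟨h2, h3⟩ := closeK' v (cne' v d) h1
  have h4 : (a : k) * x' ^ 2 + b * y' ^ 2 - a * b * z' ^ 2 ≠ 0 := fun h => h2 ((cv_eq_zero v).2 h)
  refine ⟨Units.mk0 _ h4, ⟨x', y', z', rfl⟩, ?_⟩
  rw [mem_sq, Units.val_mul, Units.val_mk0, map_mul]
  exact h3

/-- local-global principle for the pure quaternions -/
theorem rep_of_local {a b d : kˣ} (hi : ∀ v : InfinitePlace k, b ∈ NmI a v)
    (h : ∀ v : Pl k, b ∉ Nm a v → d ∉ Sq v) : Rep (a : k) b d := by
  by_cases hsq : IsSquare (d : k)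
  · have hall : ∀ v : Pl k, b ∈ Nm a v := by
      intro v
      by_contra hb
      refine h v hb ?_
      obtain ⟨r, hr⟩ := hsq
      exact ⟨cv v r, by rw [hr, map_mul]⟩
    obtain ⟨p, q, hpq⟩ := hasse_norm hall hi
    exact rep_of_sy two_ne_zero a.ne_zero b.ne_zero ⟨p, q, hpq⟩ d
  · obtain ⟨L, _, _, _, ⟨E⟩⟩ := exists_qext k d hsq
    have hloc : ∀ w : Pl L, um k L b ∈ Nm (um k L a) w := by
      intro w
      by_cases hb : b ∈ Nm a (bel k w)
      · exact nm_up hb
      · obtain ⟨m, hm, hmd⟩ := rep_local hb (h _ hb)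
        obtain ⟨r, hr⟩ := sq_up hmd
        have hδ0 : cv w E.δ ≠ 0 := by
          rw [Ne, cv_eq_zero]
          intro h0
          have := E.sq
          rw [h0] at this
          have h2 : algebraMap k L (d : k) = 0 := by rw [← this]; ring
          rw [map_eq_zero] at h2
          exact d.ne_zero h2
        have e1 : cv w (algebraMap k L (m : k)) * cv w E.δ ^ 2 = r * r := by
          rw [← hr, ← map_pow, E.sq, ← map_mul, ← map_mul]
          rfl
        have hm0 : cv w (algebraMap k L (m : k)) ≠ 0 := by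
          rw [Ne, cv_eq_zero, map_eq_zero]
          exact m.ne_zero
        have e2 : (r / cv w E.δ) ^ 2 = cv w (algebraMap k L (m : k)) := by
          field_simp
          linear_combination -e1
        have hs0 : r / cv w E.δ ≠ 0 := by
          intro h0
          rw [h0] at e2
          apply hm0
          rw [← e2]
          ring
        have hrep := hm.map ((cv w).comp (algebraMap k L))
        simp only [RingHom.comp_apply] at hrep
        rw [← e2] at hrep
        have ha0 : cv w (algebraMap k L (a : k)) ≠ 0 := by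
          rw [Ne, cv_eq_zero, map_eq_zero]
          exact a.ne_zero
        have hb0 : cv w (algebraMap k L (b : k)) ≠ 0 := by
          rw [Ne, cv_eq_zero, map_eq_zero]
          exact b.ne_zero
        exact sy_of_rep_sq (isLoc_wv w).two ha0 hb0 hs0 hrep
    obtain ⟨p, q, hpq⟩ := hasse_norm hloc (fun w => nmI_up (hi _))
    exact rep_of_ext two_ne_zero a.ne_zero b.ne_zero E.sq E.span E.nsq ⟨p, q, hpq⟩

theorem sq_iff_local {a b : kˣ} (hi : ∀ v : InfinitePlace k, b ∈ NmI a v) (t : k) :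
    SQ (a : k) b t ↔ ∀ v : Pl k, b ∉ Nm a v → NSq (cv v (t ^ 2 - 4)) := by
  rw [sq_iff_rep two_ne_zero]
  constructor
  · intro h v hb s hs hst
    apply hb
    have h1 := h.map (cv v)
    rw [← hst] at h1
    exact sy_of_rep_sq (isLoc_wv v).two (cne' v a) (cne' v b) hs h1
  · intro h
    by_cases h0 : t ^ 2 - 4 = 0
    · rw [h0]
      exact rep_zero _ _
    · have h1 := rep_of_local (a := a) (b := b) (d := Units.mk0 _ h0) hi ?_
      · rwa [Units.val_mk0] at h1
      · rintro v hb ⟨r, hr⟩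
        rw [Units.val_mk0] at hr
        refine h v hb r ?_ (by rw [hr, sq])
        rintro rfl
        rw [mul_zero, cv_eq_zero] at hr
        exact h0 hr

end UDN
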