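import Pool.Agent.UDN.CompB
import Pool.Agent.UDN.Approx
import Pool.Agent.UDN.LocE

/-!
# UDN: local squares and local norms, in terms of `k`

PROOFS.
* `sq_of_close` : `x / y ^ 2 - 1` has order `≥ 2 od v 2 + 1` (`Ge`), `IsLoc.isSquare_of_close` in
  `Kv v` (`ge_cv`, `wv_two`).
* `close_of_sq` : `cv v x = r ^ 2`; `dense_cv` gives `y` with `Ge (wv v) N (r - cv v y)`, `N` large
  (larger than `wv v r` and with `N + wv v r ≥ n`); then `x - y ^ 2 = (r - y) (r + y)` and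
  `od v y = wv v r` (`IsVal.add_eq`).
* `nm_iff` : (⇒) `cv v x = p ^ 2 - a q ^ 2` with `p, q` in `Kv v`; approximate `p`, `q` by
  `p', q' : k`; `p' ^ 2 - a q' ^ 2` is close to `x`, so nonzero, and the quotient is close to `1`,
  so a square.  (⇐) clear.
* `exists_not_nm` : `exists_not_sy` gives `c : Kv v`; approximate it by `x : k`, `c / x` is a square.
* `nm_mul_of_not`, `nm_symm`, `sq_le_nm`, `nm_eq_top`, `norm_mem_nm` : from `sy_mul_of_not`,
  `Sy.symm`, `sy_sq`, `sy_of_isSquare`.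
* `norm_mem_nmI` : if `a ∉ SqI v` then `v` is real and `a` is negative at `v`, so
  `p ^ 2 - a q ^ 2 ≥ 0`, and `x ≠ 0`.
-/

set_option autoImplicit false

open IsDedekindDomain NumberField

namespace UDN

variable {k : Type*} [Field k] [NumberField k]

private theorem cne (v : Pl k) (x : kˣ) : cv v (x : k) ≠ 0 := fun h =>
  x.ne_zero ((cv_eq_zero v).1 h)

private theorem closeK (v : Pl k) {X Y : Kv v} (hX : X ≠ 0)
    (h : Ge (wv v) (wv v X + 2 * wv v 2 + 1) (Y - X)) :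
    Y ≠ 0 ∧ ∃ r : Kv v, r ≠ 0 ∧ Y = X * r ^ 2 := by
  have hL := isLoc_wv v
  have hV := isVal_wv v
  have h20 := hL.two_nonneg
  have h1 : Y ≠ 0 := by
    have h2 := (hV.add_eq hX (h.mono (by linarith : wv v X + 1 ≤ wv v X + 2 * wv v 2 + 1))).1
    rwa [add_sub_cancel] at h2
  refine ⟨h1, ?_⟩
  have h3 : Ge (wv v) (2 * wv v 2 + 1) (Y / X - 1) := by
    have e : Y / X - 1 = (Y - X) / X := by
      rw [sub_div, div_self hX]
    rw [e]
    by_cases h0 : Y - X = 0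
    · rw [h0, zero_div]
      exact ge_zero _
    · refine Or.inr ?_
      rw [hV.div h0 hX]
      have := (ge_iff h0).1 h
      linarith
  obtain ⟨r, hr⟩ := hL.isSquare_of_close h3
  refine ⟨r, ?_, ?_⟩
  · rintro rfl
    rw [mul_zero] at hr
    exact div_ne_zero h1 hX hr
  · rw [sq, ← hr]
    field_simp

private theorem approx_sq (v : Pl k) (P : Kv v) (M : ℤ) : ∃ p : k, Ge (wv v) M (cv v p ^ 2 - P ^ 2) := by
  have hV := isVal_wv v
  obtain ⟨B, hB⟩ : ∃ B, Ge (wv v) B P := ⟨wv v P, Or.inr le_rfl⟩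
  obtain ⟨p, hp⟩ := dense_cv v P (max (M - B) B)
  have h1 : Ge (wv v) (max (M - B) B) (cv v p - P) := by
    have := hV.ge_neg hp
    rwa [neg_sub] at this
  have h2 : Ge (wv v) B (cv v p + P) := by
    have h3 : cv v p + P = (cv v p - P) + (P + P) := by ring
    rw [h3]
    exact hV.ge_add (h1.mono (le_max_right _ _)) (hV.ge_add hB hB)
  refine ⟨p, ?_⟩
  have h3 : cv v p ^ 2 - P ^ 2 = (cv v p - P) * (cv v p + P) := by ring
  rw [h3]
  exact (hV.ge_mul h1 h2).mono (by have := le_max_left (M - B) B; linarith)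

theorem sq_of_close (v : Pl k) {x : kˣ} {y : k} (hy : y ≠ 0)
    (h : Ge (od v) (2 * od v y + 2 * od v 2 + 1) ((x : k) - y ^ 2)) : x ∈ Sq v := by
  have hV := isVal_wv v
  have hY : cv v y ≠ 0 := fun h' => hy ((cv_eq_zero v).1 h')
  have h1 : Ge (wv v) (wv v (cv v y ^ 2) + 2 * wv v 2 + 1) (cv v (x : k) - cv v y ^ 2) := by
    rw [← map_pow, ← map_sub, ge_cv, wv_cv, wv_two, (isVal_od v).pow]
    exact_mod_cast h
  obtain ⟨_, r, _, hr⟩ := closeK v (pow_ne_zero 2 hY) h1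
  exact ⟨cv v y * r, by rw [hr]; ring⟩

theorem close_of_sq (v : Pl k) {x : kˣ} (hx : x ∈ Sq v) (n : ℤ) :
    ∃ y : k, y ≠ 0 ∧ 2 * od v y = od v (x : k) ∧ Ge (od v) n ((x : k) - y ^ 2) := by
  have hV := isVal_wv v
  obtain ⟨r, hr⟩ := hx
  have hr0 : r ≠ 0 := by
    rintro rfl
    rw [mul_zero] at hr
    exact cne v x hr
  obtain ⟨y, hy⟩ := dense_cv v r (max (wv v r + 1) (n - wv v r))
  have h1 : Ge (wv v) (wv v r + 1) (-(r - cv v y)) := hV.ge_neg (hy.mono (le_max_left _ _))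
  obtain ⟨h2, h3⟩ := hV.add_eq hr0 h1
  have e1 : r + -(r - cv v y) = cv v y := by ring
  rw [e1] at h2 h3
  refine ⟨y, fun h => h2 ((cv_eq_zero v).2 h), ?_, ?_⟩
  · rw [← wv_cv v y, ← wv_cv v (x : k), h3, hr, hV.mul _ _ hr0 hr0]
    ring
  · rw [← ge_cv, map_sub, map_pow, hr]
    have e2 : r * r - cv v y ^ 2 = (r - cv v y) * (r + cv v y) := by ring
    rw [e2]
    have h4 : Ge (wv v) (wv v r) (r + cv v y) := hV.ge_add (Or.inr le_rfl) (Or.inr h3.ge)
    exact (hV.ge_mul hy h4).mono (by have := le_max_right (wv v r + 1) (n - wv v r); linarith)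

theorem nm_iff (v : Pl k) {a x : kˣ} :
    x ∈ Nm a v ↔ ∃ (p q : k) (u : kˣ), (u : k) = p ^ 2 - a * q ^ 2 ∧ x * u ∈ Sq v := by
  have hV := isVal_wv v
  constructor
  · rintro ⟨P, Q, hPQ⟩
    have hX := cne v x
    obtain ⟨M, hM⟩ : ∃ M, M = wv v (cv v (x : k)) + 2 * wv v 2 + 1 := ⟨_, rfl⟩
    obtain ⟨p, hp⟩ := approx_sq v P M
    obtain ⟨q, hq⟩ := approx_sq v Q (M - wv v (cv v (a : k)))
    have h1 : Ge (wv v) M (cv v (p ^ 2 - a * q ^ 2) - cv v (x : k)) := by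
      have e1 : cv v (p ^ 2 - a * q ^ 2) - cv v (x : k) =
          (cv v p ^ 2 - P ^ 2) - cv v (a : k) * (cv v q ^ 2 - Q ^ 2) := by
        rw [← hPQ, map_sub, map_mul, map_pow, map_pow]
        ring
      rw [e1]
      refine hV.ge_sub hp ?_
      refine (hV.ge_mul (m := wv v (cv v (a : k))) (Or.inr le_rfl) hq).mono ?_
      linarith
    rw [hM] at h1
    obtain ⟨h2, r, hr, h3⟩ := closeK v hX h1
    have h4 : p ^ 2 - a * q ^ 2 ≠ 0 := fun h => h2 ((cv_eq_zero v).2 h)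
    refine ⟨p, q, Units.mk0 _ h4, Units.val_mk0 h4, cv v (x : k) * r, ?_⟩
    rw [Units.val_mul, Units.val_mk0, map_mul, h3]
    ring
  · rintro ⟨p, q, u, hu, r, hr⟩
    have h1 : Sy (cv v (a : k)) (cv v (u : k)) :=
      ⟨cv v p, cv v q, by rw [hu, map_sub, map_mul, map_pow, map_pow]⟩
    refine Sy.of_mul (cne v u) h1 ?_
    have h2 : cv v (u : k) * cv v (x : k) = r ^ 2 := by
      rw [← map_mul, mul_comm, ← Units.val_mul, hr, sq]
    rw [h2]
    exact sy_sq _ _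

theorem sq_le_nm (a : kˣ) (v : Pl k) : Sq v ≤ Nm a v := by
  rintro x ⟨r, hr⟩
  show Sy (cv v (a : k)) (cv v (x : k))
  rw [hr, ← sq]
  exact sy_sq _ _

theorem sqI_le_nmI (a : kˣ) (v : InfinitePlace k) : SqI v ≤ NmI a v := fun _ hx => Or.inr hx

theorem nm_eq_top {a : kˣ} {v : Pl k} (h : a ∈ Sq v) (x : kˣ) : x ∈ Nm a v := sy_of_isSquare (isLoc_wv v).two (cne v a) h _

theorem nmI_eq_top {a : kˣ} {v : InfinitePlace k} (h : a ∈ SqI v) (x : kˣ) : x ∈ NmI a v :=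
  Or.inl h

/-- global norms are local norms -/
theorem norm_mem_nm {a x : kˣ} {p q : k} (h : (x : k) = p ^ 2 - a * q ^ 2) (v : Pl k) :
    x ∈ Nm a v := ⟨cv v p, cv v q, by rw [h, map_sub, map_mul, map_pow, map_pow]⟩

theorem norm_mem_nmI {a x : kˣ} {p q : k} (h : (x : k) = p ^ 2 - a * q ^ 2)
    (v : InfinitePlace k) : x ∈ NmI a v := by
  by_cases ha : a ∈ SqI v
  · exact Or.inl ha
  · refine Or.inr fun hr => ?_
    have h1 : ¬ 0 < InfinitePlace.embedding_of_isReal hr (a : k) := fun h' => ha fun _ => h'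
    have h2 : InfinitePlace.embedding_of_isReal hr (x : k) ≠ 0 := by
      rw [Ne, map_eq_zero]
      exact x.ne_zero
    refine lt_of_le_of_ne ?_ (Ne.symm h2)
    rw [h, map_sub, map_mul, map_pow, map_pow]
    have h3 := sq_nonneg (InfinitePlace.embedding_of_isReal hr p)
    have h4 := mul_nonneg (neg_nonneg.2 (not_lt.1 h1)) (sq_nonneg (InfinitePlace.embedding_of_isReal hr q))
    linarith

theorem exists_not_nm {a : kˣ} {v : Pl k} (h : a ∉ Sq v) : ∃ x : kˣ, x ∉ Nm a v := by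
  obtain ⟨c, hc, hn⟩ := exists_not_sy (isLoc_wv v) (cne v a) h
  obtain ⟨y, hy⟩ := dense_cv v c (wv v c + 2 * wv v 2 + 1)
  have h1 : Ge (wv v) (wv v c + 2 * wv v 2 + 1) (cv v y - c) := by
    have := (isVal_wv v).ge_neg hy
    rwa [neg_sub] at this
  obtain ⟨h2, r, hr, h3⟩ := closeK v hc h1
  have h4 : y ≠ 0 := fun h => h2 ((cv_eq_zero v).2 h)
  refine ⟨Units.mk0 y h4, fun h5 => hn ?_⟩
  have h6 : Sy (cv v (a : k)) (cv v ((Units.mk0 y h4 : kˣ) : k)) := h5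
  rw [Units.val_mk0, h3] at h6
  exact Sy.of_mul_sq hr h6

theorem exists_not_nmI {a : kˣ} {v : InfinitePlace k} (h : a ∉ SqI v) : ∃ x : kˣ, x ∉ NmI a v :=
  ⟨a, fun h' => by
    rcases h' with h' | h'
    · exact h h'
    · exact h h'⟩

theorem nm_mul_of_not {a x y : kˣ} {v : Pl k} (hx : x ∉ Nm a v) (hy : y ∉ Nm a v) :
    x * y ∈ Nm a v := by
  show Sy (cv v (a : k)) (cv v ((x * y : kˣ) : k))
  rw [Units.val_mul, map_mul]
  exact sy_mul_of_not (isLoc_wv v) (cne v a) (fun h => hx (nm_eq_top h x)) (cne v x) (cne v y) hx hy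

theorem nm_symm {a x : kˣ} {v : Pl k} : x ∈ Nm a v ↔ a ∈ Nm x v := ⟨fun h => Sy.symm (isLoc_wv v).two (cne v x) h, fun h => Sy.symm (isLoc_wv v).two (cne v a) h⟩

end UDN
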