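import Pool.Agent.UDN.SqApp

/-!
# UDN: the number of the local square classes

PROOF of `sq_index`.  Let `e = od v 2`, `q = absNorm v.asIdeal`, `M = 2 e + 1`,
`R = 𝓞 k ⧸ v.asIdeal ^ M` (a finite ring), `G = Rˣ`, `G²` the squares.  Let `π : k` have order one.
(1) For every `c ∈ G ⧸ G²` choose an integer `r_c` of `k` (a unit at `v`) whose class in `R` is a unit
with class `c`.  Every `x : kˣ` is in `π ^ i * r_c * Sq v` for some `i ∈ {0, 1}` and some `c`: after
division by `π ^ i` and by an even power of `π` we have `od v x = 0`;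
`HeightOneSpectrum.exists_valuation_sub_lt_of_integer` gives an integer `r` with
`Ge (od v) M (x - r)`; `[r] = [r_c] [s] ^ 2` in `R`, `s` an integer, unit at `v`; so
`Ge (od v) M (x - r_c s ^ 2)` and `x / (r_c s ^ 2)` is close to `1`: `sq_of_close`.
So there is a surjection `Fin 2 × (G ⧸ G²) → kˣ ⧸ Sq v`, and the index is finite and
`≤ 2 * card (G ⧸ G²)`.
(2) `card (G ⧸ G²) = card {g : G | g ^ 2 = 1}` (kernel and image of `powMonoidHom 2` of a finite
commutative group).
(3) if `r ^ 2 - 1 ∈ v ^ (2 e + 1)` then `Ge (od v) (e + 1) (r - 1)` or `Ge (od v) (e + 1) (r + 1)`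
(`(r - 1) (r + 1)`, and if both orders are `≤ e` the sum is `≤ 2 e`).  The number of the classes
modulo `v ^ (2 e + 1)` of the elements of `1 + v ^ (e + 1)` is `absNorm (v ^ e) = q ^ e`
(`v ^ (e+1) / v ^ (2e+1)`; e.g. `card (R) = q ^ (2 e + 1)`, `card (𝓞 k ⧸ v ^ (e+1)) = q ^ (e + 1)` and
`card R = card (𝓞 k ⧸ v ^ (e+1)) * card (v ^ (e+1) / v ^ (2 e+1))`).  So there are `≤ 2 q ^ e`
solutions.

PROOF of `sqI_index` : complex: everything is in `SqI v`.  Real: if `x, y ∉ SqI v` then
`x * y ∈ SqI v` (`Subgroup.index_le_two`-like; e.g. `Subgroup.index_eq_two_iff`, or the map to the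
signs).
-/

set_option autoImplicit false

open IsDedekindDomain NumberField

namespace UDN

variable {k : Type*} [Field k] [NumberField k]

theorem ge_iff_mem_pow (v : Pl k) (r : 𝓞 k) (n : ℕ) :
    Ge (od v) n (r : k) ↔ r ∈ v.asIdeal ^ n := by
  rw [ge_od_iff, ← v.intValuation_le_pow_iff_mem, ← v.valuation_of_algebraMap (K := k)]

theorem od_int_unit (v : Pl k) {r : 𝓞 k} (hr : r ∉ v.asIdeal) :
    (r : k) ≠ 0 ∧ od v (r : k) = 0 := by
  have h0 : (r : k) ≠ 0 := by
    intro h
    rw [RingOfIntegers.coe_eq_zero_iff] at h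
    exact hr (by rw [h]; exact zero_mem _)
  refine ⟨h0, ?_⟩
  have h1 := (ge_iff h0).1 (od_nonneg_int v r)
  by_contra h2
  apply hr
  rw [← ge_one_iff_mem, ge_iff h0]
  omega

theorem exists_int_close (v : Pl k) {x : k} (hx : Ge (od v) 0 x) (n : ℕ) :
    ∃ r : 𝓞 k, Ge (od v) n (x - r) := by
  have h1 : v.valuation k x ≤ 1 := by
    have := (ge_od_iff v 0 x).1 hx
    simpa using this
  obtain ⟨a, ha⟩ := v.exists_valuation_sub_lt_of_integer h1
    (Units.mk0 (WithZero.exp (-(n : ℤ))) WithZero.exp_ne_zero)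
  refine ⟨a, ?_⟩
  rw [ge_od_iff, Valuation.map_sub_swap]
  exact ha.le

/-- the ring of the residues -/
abbrev RR (v : Pl k) : Type _ := 𝓞 k ⧸ v.asIdeal ^ (2 * (od v (2 : k)).toNat + 1)

/-- `x / y` is a local square if `x` and `y` are congruent units -/
theorem div_mem_sq (v : Pl k) {x y : kˣ} (hy : od v (y : k) = 0)
    (h : Ge (od v) ((2 * (od v (2 : k)).toNat + 1 : ℕ) : ℤ) ((x : k) - y)) : x / y ∈ Sq v := by
  refine sq_of_close v (y := 1) one_ne_zero ?_
  have h2 := isVal_od_two v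
  rw [(isVal_od v).one]
  have e1 : ((x / y : kˣ) : k) - 1 ^ 2 = (x - y) * (y : k)⁻¹ := by
    rw [Units.val_div_eq_div_val]
    field_simp
  rw [e1]
  have h3 : Ge (od v) 0 ((y : k)⁻¹) := Or.inr (by rw [(isVal_od v).inv, hy]; simp)
  refine ((isVal_od v).ge_mul h h3).mono ?_
  push_cast
  omega

/-- a representative of a unit -/
theorem exists_rep (v : Pl k) (g : (RR v)ˣ) :
    ∃ r : 𝓞 k, Ideal.Quotient.mk _ r = (g : RR v) ∧ r ∉ v.asIdeal := by
  obtain ⟨r, hr⟩ := Ideal.Quotient.mk_surjective (g : RR v)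
  refine ⟨r, hr, ?_⟩
  have : v.asIdeal.IsMaximal := v.isMaximal
  have hu : IsUnit (Ideal.Quotient.mk (v.asIdeal ^ (2 * (od v (2 : k)).toNat + 1)) r) := by
    rw [hr]; exact g.isUnit
  exact (Ideal.Quotient.isUnit_mk_pow_iff_notMem v.asIdeal (by omega)).1 hu

/-- the representative in `k` -/
noncomputable def rep (v : Pl k) (g : (RR v)ˣ) : kˣ :=
  Units.mk0 ((exists_rep v g).choose : k) (od_int_unit v (exists_rep v g).choose_spec.2).1

theorem od_rep (v : Pl k) (g : (RR v)ˣ) : od v (rep v g : k) = 0 :=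
  (od_int_unit v (exists_rep v g).choose_spec.2).2

theorem rep_close (v : Pl k) (g : (RR v)ˣ) (r : 𝓞 k) (hr : Ideal.Quotient.mk _ r = (g : RR v)) :
    Ge (od v) ((2 * (od v (2 : k)).toNat + 1 : ℕ) : ℤ) ((r : k) - rep v g) := by
  have h1 := hr.trans (exists_rep v g).choose_spec.1.symm
  rw [Ideal.Quotient.eq] at h1
  exact (ge_iff_mem_pow v _ _).2 h1

/-- units modulo a power to classes modulo squares -/
noncomputable def phi (v : Pl k) : (RR v)ˣ →* kˣ ⧸ Sq v :=
  MonoidHom.mk' (fun g => QuotientGroup.mk (rep v g)) (by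
    intro g h
    rw [← QuotientGroup.mk_mul, QuotientGroup.eq_iff_div_mem, ← inv_mem_iff, inv_div]
    have h1 : od v ((rep v (g * h) : kˣ) : k) = 0 := od_rep v _
    refine div_mem_sq v h1 ?_
    have := rep_close v (g * h) ((exists_rep v g).choose * (exists_rep v h).choose) (by
      rw [map_mul, (exists_rep v g).choose_spec.1, (exists_rep v h).choose_spec.1]
      rfl)
    exact this)

theorem phi_apply (v : Pl k) (g : (RR v)ˣ) : phi v g = QuotientGroup.mk (rep v g) := rfl

/-- units at `v` are in the image of `phi` -/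
theorem unit_mem_range (v : Pl k) {x : kˣ} (hx : od v (x : k) = 0) :
    (QuotientGroup.mk x : kˣ ⧸ Sq v) ∈ (phi v).range := by
  obtain ⟨r, hr⟩ := exists_int_close v (x := x) (Or.inr hx.ge) (2 * (od v (2 : k)).toNat + 1)
  have hrv : r ∉ v.asIdeal := by
    intro h
    rw [← ge_one_iff_mem] at h
    have h1 : Ge (od v) 1 (x : k) := by
      have h2 := (isVal_od v).ge_add (hr.mono (by push_cast; omega)) h
      rwa [sub_add_cancel] at h2
    rw [ge_iff x.ne_zero] at h1
    omega
  have : v.asIdeal.IsMaximal := v.isMaximal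
  have hu : IsUnit (Ideal.Quotient.mk (v.asIdeal ^ (2 * (od v (2 : k)).toNat + 1)) r) :=
    Ideal.Quotient.isUnit_mk_pow_of_notMem v.asIdeal hrv
  obtain ⟨g, hg⟩ := hu
  refine ⟨g, ?_⟩
  rw [phi_apply, eq_comm, QuotientGroup.eq_iff_div_mem]
  refine div_mem_sq v (od_rep v g) ?_
  have h3 := rep_close v g r hg.symm
  have h4 := (isVal_od v).ge_add hr h3
  rwa [sub_add_sub_cancel] at h4

instance (v : Pl k) : Finite (RR v) := by
  have h0 : v.asIdeal ^ (2 * (od v (2 : k)).toNat + 1) ≠ ⊥ := pow_ne_zero _ v.ne_bot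
  exact Ideal.finiteQuotientOfFreeOfNeBot _ h0

theorem card_RR (v : Pl k) :
    Nat.card (RR v) = (Ideal.absNorm v.asIdeal) ^ (2 * (od v (2 : k)).toNat + 1) := by
  rw [← map_pow, Ideal.absNorm_apply, Submodule.cardQuot_apply]

theorem absNorm_pos' (v : Pl k) : 0 < Ideal.absNorm v.asIdeal := by
  rw [Nat.pos_iff_ne_zero, Ne, Ideal.absNorm_eq_zero_iff]
  exact v.ne_bot

/-- the kernel ideal -/
noncomputable def JJ (v : Pl k) : Ideal (RR v) :=
  (v.asIdeal ^ ((od v (2 : k)).toNat + 1)).map (Ideal.Quotient.mk _)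

theorem card_JJ (v : Pl k) :
    Nat.card (JJ v) = (Ideal.absNorm v.asIdeal) ^ (od v (2 : k)).toNat := by
  set e := (od v (2 : k)).toNat with he
  have h1 := Submodule.card_eq_card_quotient_mul_card (JJ v)
  have hle : v.asIdeal ^ (2 * e + 1) ≤ v.asIdeal ^ (e + 1) := Ideal.pow_le_pow_right (by omega)
  have h2 : Nat.card (RR v ⧸ JJ v) = (Ideal.absNorm v.asIdeal) ^ (e + 1) := by
    rw [← map_pow, Ideal.absNorm_apply, Submodule.cardQuot_apply]
    exact Nat.card_congr (DoubleQuot.quotQuotEquivQuotOfLE hle).toEquiv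
  rw [card_RR, h2] at h1
  change (Ideal.absNorm v.asIdeal) ^ (2 * e + 1) = _ at h1
  have h3 : (Ideal.absNorm v.asIdeal) ^ (2 * e + 1) =
      (Ideal.absNorm v.asIdeal) ^ e * (Ideal.absNorm v.asIdeal) ^ (e + 1) := by
    rw [← pow_add]; congr 1; omega
  rw [h3] at h1
  exact (Nat.eq_of_mul_eq_mul_right (pow_pos (absNorm_pos' v) _) h1).symm

/-- the square roots of one -/
theorem root_mem (v : Pl k) {g : (RR v)ˣ} (hg : g ^ 2 = 1) :
    (g : RR v) - 1 ∈ JJ v ∨ (g : RR v) + 1 ∈ JJ v := by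
  set e := (od v (2 : k)).toNat with he
  have h2v := isVal_od_two v
  obtain ⟨r, hr, hrv⟩ := exists_rep v g
  have h1 : Ideal.Quotient.mk (v.asIdeal ^ (2 * e + 1)) (r ^ 2) = Ideal.Quotient.mk _ 1 := by
    rw [map_pow, map_one]
    have := congrArg Units.val hg
    rw [Units.val_pow_eq_pow_val, Units.val_one] at this
    rw [← this, ← hr]
  rw [Ideal.Quotient.eq] at h1
  have h3 := (ge_iff_mem_pow v _ _).2 h1
  change Ge (od v) ((2 * e + 1 : ℕ) : ℤ) ((r : k) ^ 2 - 1) at h3
  have key : Ge (od v) ((e + 1 : ℕ) : ℤ) ((r : k) - 1) ∨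
      Ge (od v) ((e + 1 : ℕ) : ℤ) ((r : k) + 1) := by
    by_contra hc
    rw [not_or] at hc
    obtain ⟨ha, hb⟩ := hc
    have ha0 := ne_zero_of_not_ge ha
    have hb0 := ne_zero_of_not_ge hb
    rw [ge_iff ha0] at ha
    rw [ge_iff hb0] at hb
    have e1 : (r : k) ^ 2 - 1 = ((r : k) - 1) * ((r : k) + 1) := by ring
    have h4 : (r : k) ^ 2 - 1 ≠ 0 := by rw [e1]; exact mul_ne_zero ha0 hb0
    have h5 := (ge_iff h4).1 h3
    rw [e1, (isVal_od v).mul _ _ ha0 hb0] at h5
    push_cast at h5 ha hb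
    omega
  rcases key with h | h
  · left
    have h6 : r - 1 ∈ v.asIdeal ^ (e + 1) := by
      rw [← ge_iff_mem_pow]
      exact h
    have := Ideal.mem_map_of_mem (Ideal.Quotient.mk (v.asIdeal ^ (2 * e + 1))) h6
    rw [map_sub, map_one, hr] at this
    exact this
  · right
    have h6 : r + 1 ∈ v.asIdeal ^ (e + 1) := by
      rw [← ge_iff_mem_pow]
      exact h
    have := Ideal.mem_map_of_mem (Ideal.Quotient.mk (v.asIdeal ^ (2 * e + 1))) h6
    rw [map_add, map_one, hr] at this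
    exact this

theorem card_roots (v : Pl k) :
    Nat.card {g : (RR v)ˣ // g ^ 2 = 1} ≤ 2 * (Ideal.absNorm v.asIdeal) ^ (od v (2 : k)).toNat := by
  classical
  let f : {g : (RR v)ˣ // g ^ 2 = 1} → JJ v ⊕ JJ v := fun g =>
    if h : ((g : (RR v)ˣ) : RR v) - 1 ∈ JJ v then Sum.inl ⟨_, h⟩
    else Sum.inr ⟨((g : (RR v)ˣ) : RR v) + 1, (root_mem v g.2).resolve_left h⟩
  have hf : Function.Injective f := by
    intro a b hab
    simp only [f] at hab
    apply Subtype.ext
    apply Units.ext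
    split_ifs at hab with h1 h2 h2
    · have := congrArg Subtype.val (Sum.inl.inj hab)
      exact sub_left_injective this
    · have := congrArg Subtype.val (Sum.inr.inj hab)
      exact add_left_injective _ this
  have h1 := Nat.card_le_card_of_injective f hf
  rw [Nat.card_sum, card_JJ] at h1
  linarith

theorem card_range_phi (v : Pl k) :
    Nat.card (phi v).range ≤ 2 * (Ideal.absNorm v.asIdeal) ^ (od v (2 : k)).toNat := by
  refine le_trans ?_ (card_roots v)
  have h1 : Nat.card (phi v).ker * Nat.card (phi v).range = Nat.card (RR v)ˣ := by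
    rw [← Subgroup.index_ker, Subgroup.card_mul_index]
  set s : (RR v)ˣ →* (RR v)ˣ := powMonoidHom 2 with hs
  have h2 : Nat.card s.ker * Nat.card s.range = Nat.card (RR v)ˣ := by
    rw [← Subgroup.index_ker, Subgroup.card_mul_index]
  have h3 : s.range ≤ (phi v).ker := by
    rintro _ ⟨g, rfl⟩
    rw [MonoidHom.mem_ker, hs, powMonoidHom_apply, map_pow, phi_apply, ← QuotientGroup.mk_pow,
      QuotientGroup.eq_one_iff]
    exact sq_mem_sqP (rep v g) (Sum.inl v)
  have h4 : Nat.card s.range ≤ Nat.card (phi v).ker := Subgroup.card_le_of_le h3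
  have h5 : Nat.card s.ker = Nat.card {g : (RR v)ˣ // g ^ 2 = 1} := rfl
  rw [← h5]
  have hpos : 0 < Nat.card (phi v).ker := Nat.card_pos
  by_contra hc
  push Not at hc
  have h6 : Nat.card s.ker * Nat.card s.range < Nat.card (phi v).ker * Nat.card (phi v).range := by
    calc Nat.card s.ker * Nat.card s.range ≤ Nat.card s.ker * Nat.card (phi v).ker :=
          Nat.mul_le_mul_left _ h4
      _ < Nat.card (phi v).range * Nat.card (phi v).ker := Nat.mul_lt_mul_of_pos_right hc hpos
      _ = _ := mul_comm _ _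
  omega

theorem sq_index (v : Pl k) : (Sq v).index ≠ 0 ∧
    (Sq v).index ≤ 4 * (Ideal.absNorm v.asIdeal) ^ (od v (2 : k)).toNat := by
  classical
  obtain ⟨π, hπ0, hπ⟩ := (isVal_od v).exists_ord 1
  set p : kˣ := Units.mk0 π hπ0 with hp
  let f : Bool × (phi v).range → kˣ ⧸ Sq v := fun z =>
    (if z.1 then QuotientGroup.mk p else 1) * (z.2 : kˣ ⧸ Sq v)
  have hf : Function.Surjective f := by
    intro z
    obtain ⟨x, rfl⟩ := QuotientGroup.mk_surjective z
    set n : ℤ := od v (x : k) with hn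
    have hy : od v ((x * (p ^ n)⁻¹ : kˣ) : k) = 0 := by
      rw [Units.val_mul, (isVal_od v).mul _ _ (Units.ne_zero _) (Units.ne_zero _),
        Units.val_inv_eq_inv_val, (isVal_od v).inv, Units.val_zpow_eq_zpow_val,
        (isVal_od v).zpow, hp, Units.val_mk0, hπ, ← hn]
      ring
    have h1 := unit_mem_range v hy
    have hsq : ∀ m : ℤ, (QuotientGroup.mk ((p ^ m) ^ 2) : kˣ ⧸ Sq v) = 1 := by
      intro m
      rw [QuotientGroup.eq_one_iff]
      exact sq_mem_sqP (p ^ m) (Sum.inl v)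
    have h2 : (QuotientGroup.mk x : kˣ ⧸ Sq v) =
        QuotientGroup.mk (p ^ n) * QuotientGroup.mk (x * (p ^ n)⁻¹) := by
      rw [← QuotientGroup.mk_mul]
      congr 1
      rw [mul_comm x, mul_inv_cancel_left]
    rcases Int.even_or_odd' n with ⟨m, hm | hm⟩
    · refine ⟨(false, ⟨_, h1⟩), ?_⟩
      have h3 : (QuotientGroup.mk (p ^ n) : kˣ ⧸ Sq v) = 1 := by
        rw [hm, mul_comm, zpow_mul]
        exact_mod_cast hsq m
      simp only [f, Bool.false_eq_true, if_false]
      rw [h2, h3]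
    · refine ⟨(true, ⟨_, h1⟩), ?_⟩
      have h3 : (QuotientGroup.mk (p ^ n) : kˣ ⧸ Sq v) = QuotientGroup.mk p := by
        rw [hm, zpow_add, zpow_one, QuotientGroup.mk_mul, mul_comm 2 m, zpow_mul]
        have := hsq m
        have h4 : ((p ^ m) ^ (2 : ℤ)) = (p ^ m) ^ 2 := by norm_cast
        rw [h4, this]
        exact one_mul (QuotientGroup.mk p : kˣ ⧸ Sq v)
      simp only [f, if_true]
      rw [h2, h3]
  have hfin0 : Finite (phi v).range :=
    Finite.of_surjective (phi v).rangeRestrict (phi v).rangeRestrict_surjective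
  have hfin : Finite (kˣ ⧸ Sq v) := Finite.of_surjective f hf
  have h1 := Nat.card_le_card_of_surjective f hf
  rw [Nat.card_prod] at h1
  have h2 : Nat.card Bool = 2 := by simp
  rw [h2] at h1
  have h3 := card_range_phi v
  refine ⟨?_, ?_⟩
  · rw [Subgroup.index]
    exact Nat.card_pos.ne'
  · rw [Subgroup.index]
    calc Nat.card (kˣ ⧸ Sq v) ≤ 2 * Nat.card (phi v).range := h1
      _ ≤ 2 * (2 * (Ideal.absNorm v.asIdeal) ^ (od v (2 : k)).toNat) := by omega
      _ = _ := by ring

theorem sqI_index (v : InfinitePlace k) : (SqI v).index ≠ 0 ∧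
    (v.IsReal → (SqI v).index ≤ 2) ∧ (v.IsComplex → (SqI v).index = 1) := by
  rcases v.isReal_or_isComplex with hv | hv
  · have h1 : SqI v = (Units.posSubgroup ℝ).comap
        (Units.map (InfinitePlace.embedding_of_isReal hv : k →* ℝ)) := by
      ext x
      rw [mem_sqI, Subgroup.mem_comap]
      constructor
      · intro h
        exact h hv
      · intro h _
        exact h
    have h2 : (SqI v).index ∣ 2 := by
      rw [h1, Subgroup.index_comap, ← Units.index_posSubgroup ℝ]
      exact Subgroup.relIndex_dvd_index_of_normal _ _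
    refine ⟨?_, ?_, ?_⟩
    · intro h
      rw [h] at h2
      omega
    · intro _
      exact Nat.le_of_dvd (by norm_num) h2
    · intro hc
      exact absurd hv (InfinitePlace.not_isReal_iff_isComplex.2 hc)
  · have h1 : SqI v = ⊤ := by
      rw [eq_top_iff]
      intro x _ h
      exact absurd hv (InfinitePlace.not_isComplex_iff_isReal.2 h)
    rw [h1, Subgroup.index_top]
    exact ⟨one_ne_zero, fun _ => by norm_num, fun _ => rfl⟩

end UDN
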