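import Pool.Agent.UDN.SQloc
import Pool.Agent.UDN.ResA

/-!
# UDN: sums of two traces = integrality at the ramified places

PROOF of `ram_finite` : if `v` is odd and `od v a = od v b = 0` then `b ∈ Nm a v` (if `a ∈ Sq v`:
`nm_eq_top`; otherwise `nm_iff_even`); the other places are finitely many (`od_finite` for `2, a, b`).

PROOF of `tq_iff`.
(⇒) `sq_iff_local` and `nsq_neg` (with `ge_cv`) for both summands.
(⇐) Let `Δ` be the finite set of the `v` with `b ∉ Nm a v`.  For `v ∈ Δ` we choose `x v : k` such that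
for every `z : k` with `Ge (od v) (2 od v 2 + 2) (z - x v)` both `z` and `t - z` satisfy
`NSq (cv v (· ^ 2 - 4))` (`exists_target`); then `approx_fin` for `Δ` and
`n = ` the maximum of the `2 od v 2 + 2` gives `z`, and `SQ a b z`, `SQ a b (t - z)` by
`sq_iff_local`.
PROOF of `exists_target` : let `κ = 𝓞 k ⧸ v.asIdeal`, a finite field, `t'` an integer with
`Ge (od v) 1 (t - t')` (`HeightOneSpectrum.exists_valuation_sub_lt_of_integer`).  `res_sum` for the
class of `t'` gives the class of an integer `u`.  `nsq_irr` (in `Kv v`: an integral `x` in `Kv v`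
may be replaced by an integer of `k`, `dense_cv`) shows `NSq` for every `z` with
`Ge (od v) 1 (z - u)`.  If `t - u` is of the same kind we take `x v = u`.  If the class of `t - u` is
`2` (or `- 2`): let `c : k` have order `m = 2 od v 2 + 1` and put `x v = t - 2 - c` (resp.
`x v = t + 2 + c`); `Ge (od v) 1 (x v - u)`; if `z` is close to `x v` then `z` is of the first kind
and `t - z = 2 + c'` (resp. `- 2 - c'`) with `c' - c` of order `≥ m + 1`, so `od v c' = m`:
`nsq_near`.
-/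

set_option autoImplicit false

open IsDedekindDomain NumberField

namespace UDN

variable {k : Type*} [Field k] [NumberField k]

theorem ram_finite (a b : kˣ) : {v : Pl k | b ∉ Nm a v}.Finite := by
  refine (((od_finite (x := (2 : k)) two_ne_zero).union (od_finite a.ne_zero)).union
    (od_finite b.ne_zero)).subset ?_
  intro v hv
  by_contra hc
  simp only [Set.mem_union, Set.mem_ofPred_eq, not_or, not_not] at hc
  obtain ⟨⟨h2, ha⟩, hb⟩ := hc
  apply hv
  by_cases has : a ∈ Sq v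
  · exact nm_eq_top has b
  · rw [nm_iff_even h2 (by rw [ha]; exact ⟨0, rfl⟩) has, hb]
    exact ⟨0, rfl⟩

private theorem cv_sq4 (v : Pl k) (z : k) : cv v (z ^ 2 - 4) = cv v z ^ 2 - 4 := by
  rw [map_sub, map_pow, map_ofNat]

private theorem exists_int (v : Pl k) {y : k} (hy : Ge (od v) 0 y) :
    ∃ r : 𝓞 k, Ge (od v) 1 ((r : k) - y) := by
  obtain ⟨r, hr⟩ := v.exists_valuation_sub_lt_of_integer (K := k) (x := y)
    (by have := (ge_od_iff v 0 y).1 hy; simpa using this) 1
  refine ⟨r, ?_⟩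
  by_cases h0 : (r : k) - y = 0
  · exact Or.inl h0
  · refine Or.inr ?_
    have h1 : 0 < od v ((r : k) - y) := (od_pos_iff v h0).2 (by simpa using hr)
    omega

private theorem first_kind (v : Pl k) {u : 𝓞 k}
    (hu : ∀ r : 𝓞 k, r ^ 2 - u * r + 1 ∉ v.asIdeal) {z : k} (hz : Ge (od v) 1 (z - (u : k))) :
    NSq (cv v (z ^ 2 - 4)) := by
  have hV := isVal_wv v
  have hO := isVal_od v
  have hz0 : Ge (od v) 0 z := by
    have := hO.ge_add (hz.mono zero_le_one) (od_nonneg_int v u)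
    rwa [sub_add_cancel] at this
  have hcz : Ge (wv v) 0 (cv v z) := (ge_cv v 0 z).2 hz0
  rw [cv_sq4]
  refine nsq_irr (isLoc_wv v) hcz ?_
  intro X hX hXX
  obtain ⟨y, hy⟩ := dense_cv v X 1
  have hy0 : Ge (od v) 0 y := by
    rw [← ge_cv]
    have := hV.ge_sub hX (hy.mono zero_le_one)
    simpa using this
  obtain ⟨r, hr⟩ := exists_int v hy0
  apply hu r
  rw [← ge_one_iff_mem, ← ge_cv]
  have e1 : Ge (wv v) 1 (cv v (r : k) - X) := by
    have h1 := hV.ge_sub ((ge_cv v 1 _).2 hr) hy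
    have e : cv v ((r : k) - y) - (X - cv v y) = cv v (r : k) - X := by
      rw [map_sub]; ring
    rwa [e] at h1
  have e2 : Ge (wv v) 1 (cv v z - cv v (u : k)) := by
    rw [← map_sub]
    exact (ge_cv v 1 _).2 hz
  have hr0 : Ge (wv v) 0 (cv v (r : k)) := (ge_cv v 0 _).2 (od_nonneg_int v r)
  have e3 : cv v ((r ^ 2 - u * r + 1 : 𝓞 k) : k) = (X ^ 2 - cv v z * X + 1) +
      ((cv v (r : k) - X) * (cv v (r : k) + X - cv v z) +
        (cv v z - cv v (u : k)) * cv v (r : k)) := by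
    push_cast
    rw [map_add, map_sub, map_mul, map_pow, map_one]
    ring
  rw [e3]
  refine hV.ge_add hXX (hV.ge_add ?_ ?_)
  · have := hV.ge_mul e1 (hV.ge_sub (hV.ge_add hr0 hX) hcz)
    simpa using this
  · have := hV.ge_mul e2 hr0
    simpa using this

private theorem second_kind (v : Pl k) {y c : k} (hy : y = 2 + c ∨ y = -2 - c)
    (hc : od v c = 2 * od v 2 + 1) : NSq (cv v (y ^ 2 - 4)) := by
  rw [cv_sq4]
  refine nsq_near (isLoc_wv v) (c := cv v c) ?_ ?_ ?_
  · rcases hy with rfl | rfl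
    · left
      rw [map_add, map_ofNat]
    · right
      rw [map_sub, map_neg, map_ofNat]
  · rw [wv_cv, hc]
    exact ⟨_, rfl⟩
  · rw [wv_cv, wv_two, hc]
    omega

theorem exists_target (v : Pl k) {t : k} (ht : Ge (od v) 0 t) :
    ∃ x : k, ∀ z : k, Ge (od v) (2 * od v 2 + 2) (z - x) →
      NSq (cv v (z ^ 2 - 4)) ∧ NSq (cv v ((t - z) ^ 2 - 4)) := by
  have hO := isVal_od v
  have h2 := isVal_od_two v
  have hmax : v.asIdeal.IsMaximal := v.isMaximal
  letI : Field (𝓞 k ⧸ v.asIdeal) := Ideal.Quotient.field v.asIdeal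
  have hfin : Finite (𝓞 k ⧸ v.asIdeal) := Ring.HasFiniteQuotients.finiteQuotient v.ne_bot
  obtain ⟨t', ht'⟩ := exists_int v ht
  obtain ⟨ub, h1, h3⟩ := res_sum (Ideal.Quotient.mk v.asIdeal t')
  obtain ⟨u, rfl⟩ := Ideal.Quotient.mk_surjective ub
  have hconv : ∀ u' : 𝓞 k, (∀ x : 𝓞 k ⧸ v.asIdeal,
      x ^ 2 - Ideal.Quotient.mk v.asIdeal u' * x + 1 ≠ 0) →
      ∀ r : 𝓞 k, r ^ 2 - u' * r + 1 ∉ v.asIdeal := by
    intro u' hx r hr
    apply hx (Ideal.Quotient.mk v.asIdeal r)
    rw [← Ideal.Quotient.eq_zero_iff_mem] at hr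
    rw [← hr]
    simp
  have hu := hconv u h1
  obtain ⟨c, hc0, hc⟩ := hO.exists_ord (2 * od v 2 + 1)
  have hcg : Ge (od v) 1 c := Or.inr (by omega)
  have h2c : (((t' - u - 2 : 𝓞 k)) : k) = (t' : k) - u - 2 := rfl
  have h2d : (((t' - u + 2 : 𝓞 k)) : k) = (t' : k) - u + 2 := rfl
  have hpert : ∀ z x : k, Ge (od v) (2 * od v 2 + 2) (z - x) →
      od v (c + (z - x)) = 2 * od v 2 + 1 := by
    intro z x hz
    rw [← hc]
    exact (hO.add_eq hc0 (by rw [hc]; exact hz.mono (by omega))).2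
  rcases h3 with h3 | h3 | h3
  · have hu' : ∀ r : 𝓞 k, r ^ 2 - (t' - u) * r + 1 ∉ v.asIdeal :=
      hconv (t' - u) (by rw [map_sub]; exact h3)
    refine ⟨(u : k), fun z hz => ⟨first_kind v hu (hz.mono (by omega)), ?_⟩⟩
    refine first_kind v hu' ?_
    have e : t - z - ((t' - u : 𝓞 k) : k) = -((t' : k) - t) - (z - u) := by
      push_cast
      ring
    rw [e]
    exact hO.ge_sub (hO.ge_neg ht') (hz.mono (by omega))
  · have hm : Ge (od v) 1 (((t' - u - 2 : 𝓞 k)) : k) := by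
      rw [ge_one_iff_mem, ← Ideal.Quotient.eq_zero_iff_mem, map_sub, map_sub, ← map_sub, map_sub,
        h3, map_ofNat, sub_self]
    refine ⟨t - 2 - c, fun z hz => ⟨first_kind v hu ?_, ?_⟩⟩
    · have e : z - (u : k) = (z - (t - 2 - c)) - ((t' : k) - t) + (((t' - u - 2 : 𝓞 k)) : k) - c := by
        rw [h2c]
        ring
      rw [e]
      exact hO.ge_sub (hO.ge_add (hO.ge_sub (hz.mono (by omega)) ht') hm) hcg
    · refine second_kind v (c := c + ((t - 2 - c) - z)) (Or.inl (by ring)) (hpert _ _ ?_)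
      have := hO.ge_neg hz
      rwa [neg_sub] at this
  · have hm : Ge (od v) 1 (((t' - u + 2 : 𝓞 k)) : k) := by
      rw [ge_one_iff_mem, ← Ideal.Quotient.eq_zero_iff_mem, map_add, map_sub, h3, map_ofNat,
        neg_add_cancel]
    refine ⟨t + 2 + c, fun z hz => ⟨first_kind v hu ?_, ?_⟩⟩
    · have e : z - (u : k) = (z - (t + 2 + c)) - ((t' : k) - t) + (((t' - u + 2 : 𝓞 k)) : k) + c := by
        rw [h2d]
        ring
      rw [e]
      exact hO.ge_add (hO.ge_add (hO.ge_sub (hz.mono (by omega)) ht') hm) hcg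
    · exact second_kind v (c := c + (z - (t + 2 + c))) (Or.inr (by ring)) (hpert _ _ hz)

theorem tq_iff {a b : kˣ} (hi : ∀ v : InfinitePlace k, b ∈ NmI a v) (t : k) :
    (∃ s r : k, SQ (a : k) b s ∧ SQ (a : k) b r ∧ t = s + r) ↔
      ∀ v : Pl k, b ∉ Nm a v → Ge (od v) 0 t := by
  classical
  constructor
  · rintro ⟨s, r, hs, hr, rfl⟩ v hb
    have h1 := nsq_neg (isLoc_wv v) (t := cv v s) (by
      rw [← cv_sq4]; exact (sq_iff_local hi s).1 hs v hb)
    have h2 := nsq_neg (isLoc_wv v) (t := cv v r) (by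
      rw [← cv_sq4]; exact (sq_iff_local hi r).1 hr v hb)
    exact (isVal_od v).ge_add ((ge_cv v 0 s).1 h1) ((ge_cv v 0 r).1 h2)
  · intro h
    have hx : ∀ v : Pl k, ∃ x : k, b ∉ Nm a v → ∀ z : k, Ge (od v) (2 * od v 2 + 2) (z - x) →
        NSq (cv v (z ^ 2 - 4)) ∧ NSq (cv v ((t - z) ^ 2 - 4)) := by
      intro v
      by_cases hb : b ∈ Nm a v
      · exact ⟨0, fun h' => absurd hb h'⟩
      · obtain ⟨x, hx⟩ := exists_target v (h v hb)
        exact ⟨x, fun _ => hx⟩
    choose x hx using hx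
    have hfin := ram_finite a b
    obtain ⟨n, hn⟩ := (hfin.image fun v : Pl k => 2 * od v 2 + 2).bddAbove
    obtain ⟨z, hz⟩ := approx_fin hfin n x
    have hz' : ∀ v : Pl k, b ∉ Nm a v → NSq (cv v (z ^ 2 - 4)) ∧ NSq (cv v ((t - z) ^ 2 - 4)) := by
      intro v hb
      refine hx v hb z ((hz v hb).mono ?_)
      exact hn ⟨v, hb, rfl⟩
    exact ⟨z, t - z, (sq_iff_local hi z).2 fun v hb => (hz' v hb).1,
      (sq_iff_local hi (t - z)).2 fun v hb => (hz' v hb).2, by ring⟩

end UDN
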